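import Pool.Agent.H160R2.ML.All
import Pool.Agent.H160R2.SA.Final

/-!
# Sums over the eigenvalues of `binom(2k+i+j, j)`
-/

set_option autoImplicit false

namespace Pool.Agent.S77.WD
open Pool.Agent.H160R2.ML
open Pool.Agent.H160R2.OA Pool.Agent.H160R2.HL Pool.Agent.H160R2.NE Pool.Agent.H160R2.SA
open MeasureTheory

theorem multi_eq {N : ℕ} {a b : Fin N → ℝ}
    (h : ∀ ω : ℂ, ω ≠ 0 → ∏ i, (1 + ω * (a i : ℂ)) = ∏ i, (1 + ω * (b i : ℂ))) :
    Multiset.map a Finset.univ.val = Multiset.map b Finset.univ.val := by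
  have hval : ∀ (c : Fin N → ℝ) (x : ℝ), x ≠ 0 →
      (((∏ i, (Polynomial.X - Polynomial.C (c i))).eval x : ℝ) : ℂ) =
        (x : ℂ) ^ N * ∏ i, (1 + (-(x : ℂ)⁻¹) * (c i : ℂ)) := by
    intro c x hx
    have hx' : (x : ℂ) ≠ 0 := by exact_mod_cast hx
    rw [Polynomial.eval_prod]
    push_cast
    have : (x : ℂ) ^ N = ∏ _i : Fin N, (x : ℂ) := by simp
    rw [this, ← Finset.prod_mul_distrib]
    refine Finset.prod_congr rfl fun i _ => ?_
    simp only [Polynomial.eval_sub, Polynomial.eval_X, Polynomial.eval_C]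
    push_cast
    field_simp
    ring
  have hpq : (∏ i, (Polynomial.X - Polynomial.C (a i))) = ∏ i, (Polynomial.X - Polynomial.C (b i)) := by
    refine Polynomial.eq_of_infinite_eval_eq _ _ (Set.Infinite.mono (s := {(0 : ℝ)}ᶜ) ?_ ?_)
    · intro x hx
      have hx' : (x : ℝ) ≠ 0 := hx
      have h1 := hval a x hx'
      have h2 := hval b x hx'
      rw [h _ (neg_ne_zero.2 (inv_ne_zero (by exact_mod_cast hx'))), ← h2] at h1
      exact_mod_cast h1
    · exact (Set.finite_singleton _).infinite_compl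
  have h2 := congrArg Polynomial.roots hpq
  rw [TEG.roots_aux, TEG.roots_aux] at h2
  exact h2

/-- sums over two descriptions of the eigenvalues agree -/
theorem sum_eq_of_eig {N : ℕ} {u : Fin N → ℝ} (hu : IsEig N 0 u)
    {hJ : (J N).IsHermitian} {μ : Fin N → ℝ} (hμ : IsMu N hJ μ) (G : ℝ → ℝ) :
    ∑ i, G (u i) = ∑ i, G (Real.log (μ i)) := by
  have h1 : Multiset.map (fun i => Real.exp (u i)) Finset.univ.val =
      Multiset.map μ Finset.univ.val := by
    refine multi_eq fun ω hω => ?_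
    rw [← hu.2.2 ω, TB0.Dl_eq N ω hω, hμ.2.2.1]
    have : ω ^ N = ∏ _i : Fin N, ω := by simp
    rw [this, ← Finset.prod_mul_distrib]
    refine Finset.prod_congr rfl fun i _ => ?_
    rw [mul_add, mul_inv_cancel₀ hω]
  have h2 := congrArg (fun s => (Multiset.map (fun x => G (Real.log x)) s).sum) h1
  simp only [Multiset.map_map, Function.comp_def, Real.log_exp] at h2
  exact h2

/-- no legs: two-sided asymptotics of the sums -/
theorem sum0 (G h : ℝ → ℝ) (c : ℝ) (hc : 0 ≤ c) (hh : Continuous h) (h0 : ∀ x, 0 ≤ x → 0 ≤ h x)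
    (hcal : ∀ x, 0 ≤ x → h x ≤ c * ww (-1) 2 x) (hG : ∀ x, HasDerivAt G (-h x) x)
    (heven : ∀ x, G (-x) = G x) (hlim : Filter.Tendsto G Filter.atTop (nhds 0))
    (hint : Integrable G) :
    ∃ C : ℝ, ∀ N : ℕ, 1 ≤ N → ∀ u : Fin N → ℝ, IsEig N 0 u →
      |∑ i, G (u i) - 3 / (2 * Real.pi ^ 2) * (∫ x, G x) * Real.log N| ≤ C := by
  have hπ := Real.pi_pos
  obtain ⟨C1, hC1⟩ := sum_u G h (12 * c) hh h0 (fun x hx => by
      have h1 := X_le (a := -1) (b := 2) le_rfl (by norm_num) hx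
      calc h x ≤ c * ww (-1) 2 x := hcal x hx
        _ ≤ c * (4 * (2 - -1) * Real.exp (-x)) := mul_le_mul_of_nonneg_left h1 hc
        _ = 12 * c * Real.exp (-x) := by ring) hG heven hlim
  have hcW : cal = WW (-1) 2 := by
    funext x
    rw [cal_eq]
    unfold WW
    rw [Real.log_div (X_pos (by norm_num) x).ne' (by have := X_pos (le_refl (-1 : ℝ)) x; linarith)]
    congr 2
  have hcal2 : Integrable (WW (-1) 2) := hcW ▸ cal_int
  have hcalv : ∫ x, WW (-1) 2 x = 4 * Real.pi ^ 2 / 9 := hcW ▸ cal_integral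
  obtain ⟨C2, hC2⟩ := sum_u (fun x => c * WW (-1) 2 x - G x) (fun x => c * ww (-1) 2 x - h x)
    (12 * c) ((X_cont (-1) 2 le_rfl (by norm_num)).const_mul c |>.sub hh)
    (fun x hx => by have := hcal x hx; linarith) (fun x hx => by
      have h1 := X_le (a := -1) (b := 2) le_rfl (by norm_num) hx
      have h2 := h0 x hx
      calc c * ww (-1) 2 x - h x ≤ c * ww (-1) 2 x := by linarith
        _ ≤ c * (4 * (2 - -1) * Real.exp (-x)) := mul_le_mul_of_nonneg_left h1 hc
        _ = 12 * c * Real.exp (-x) := by ring)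
    (fun x => by
      have h1 := ((X_deriv (a := -1) (b := 2) le_rfl (by norm_num) x).const_mul c).sub (hG x)
      have e : c * -ww (-1) 2 x - -h x = -(c * ww (-1) 2 x - h x) := by ring
      rw [e] at h1
      exact h1)
    (fun x => by rw [X_even, heven])
    (by
      have h1 := ((X_lim (a := -1) (b := 2) le_rfl (by norm_num)).const_mul c).sub hlim
      simpa using h1)
  have hi2 : ∫ x, (c * WW (-1) 2 x - G x) = c * (4 * Real.pi ^ 2 / 9) - ∫ x, G x := by
    rw [integral_sub (hcal2.const_mul c) hint, integral_const_mul, hcalv]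
  rw [hi2] at hC2
  refine ⟨max C1 (C2 + 2 * c * Real.log 2), fun N hN u hu => ?_⟩
  obtain ⟨μ, hμ⟩ := det_wB N (by omega) (Z_herm N)
  have k1 := hC1 N hN (Z_herm N) μ hμ
  have k2 := hC2 N hN (Z_herm N) μ hμ
  have k3 := cal_sum hN hμ
  rw [hcW] at k3
  have e1 : ∑ i, (c * WW (-1) 2 (Real.log (μ i)) - G (Real.log (μ i))) =
      c * ∑ i, WW (-1) 2 (Real.log (μ i)) - ∑ i, G (Real.log (μ i)) := by
    rw [Finset.sum_sub_distrib, Finset.mul_sum]
  rw [e1] at k2
  rw [sum_eq_of_eig hu hμ G, abs_le]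
  have k4 := mul_le_mul_of_nonneg_left k3 hc
  have e2 : 3 / (2 * Real.pi ^ 2) * (c * (4 * Real.pi ^ 2 / 9) - ∫ x, G x) * Real.log N =
      c * (2 / 3 * Real.log N) - 3 / (2 * Real.pi ^ 2) * (∫ x, G x) * Real.log N := by
    field_simp
    ring
  rw [e2] at k2
  constructor
  · have := le_max_left C1 (C2 + 2 * c * Real.log 2)
    linarith
  · have := le_max_right C1 (C2 + 2 * c * Real.log 2)
    linarith

/-- legs: comparison with no legs -/
theorem sum_legs {G : ℝ → ℝ} {K : ℝ} (heven : ∀ x, G (-x) = G x)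
    (hanti : AntitoneOn G (Set.Ici 0)) (hK : ∀ x, |G x| ≤ K) :
    ∀ (k N : ℕ) (u : Fin (N + k) → ℝ) (v : Fin N → ℝ), IsEig (N + k) 0 u → IsEig N (2 * k) v →
      |∑ i, G (u i) - ∑ i, G (v i)| ≤ 6 * K * k := by
  have step : ∀ (N l : ℕ) (u : Fin (N + 1) → ℝ) (v : Fin N → ℝ), IsEig (N + 1) l u →
      IsEig N (l + 2) v → |∑ i, G (u i) - ∑ i, G (v i)| ≤ 6 * K := by
    intro N l u v hu hv
    have h := t_SC (fun x => -G x) K (fun x => by simp only [heven])
      (fun x hx y hy hxy => neg_le_neg (hanti hx hy hxy)) (fun x => by rw [abs_neg]; exact hK x)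
      N u v hu.1 hv.1 (t_IL N l u v hu hv)
    simp only [Finset.sum_neg_distrib] at h
    rwa [show -∑ i, G (u i) - -∑ i, G (v i) = -(∑ i, G (u i) - ∑ i, G (v i)) by ring, abs_neg] at h
  -- generalised
  have gen : ∀ (k N l : ℕ) (u : Fin (N + k) → ℝ) (v : Fin N → ℝ), IsEig (N + k) l u →
      IsEig N (l + 2 * k) v → |∑ i, G (u i) - ∑ i, G (v i)| ≤ 6 * K * k := by
    intro k
    induction k with
    | zero =>
      intro N l u v hu hv
      have e : u = v := by
        have hm : Multiset.map (fun i => Real.exp (u i)) Finset.univ.val =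
            Multiset.map (fun i => Real.exp (v i)) Finset.univ.val := by
          refine multi_eq fun ω _ => ?_
          exact (hu.2.2 ω).symm.trans (hv.2.2 ω)
        have hm2 := congrArg (Multiset.map Real.log) hm
        simp only [Multiset.map_map, Function.comp_def, Real.log_exp] at hm2
        exact TEG.eq_of_antitone u v hu.1 hv.1 hm2
      rw [e]
      simp
    | succ k ih =>
      intro N l u v hu hv
      obtain ⟨w, hw⟩ := t_EG (N + k) (l + 2)
      have h1 := step (N + k) l u w hu hw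
      have h2 := ih N (l + 2) w v hw (by
        rw [show l + 2 + 2 * k = l + 2 * (k + 1) by ring]
        exact hv)
      have h3 : ∑ i, G (u i) - ∑ i, G (v i) =
          (∑ i, G (u i) - ∑ i, G (w i)) + (∑ i, G (w i) - ∑ i, G (v i)) := by ring
      have h4 := abs_add_le (∑ i, G (u i) - ∑ i, G (w i)) (∑ i, G (w i) - ∑ i, G (v i))
      have h5 : ∑ i, G (u i) - ∑ i, G (v i) =
          (∑ i : Fin (N + (k + 1)), G (u i) - ∑ i, G (w i)) +
            (∑ i, G (w i) - ∑ i, G (v i)) := by ring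
      push_cast
      rw [h5]
      refine h4.trans ?_
      have h1' : |∑ i : Fin (N + (k + 1)), G (u i) - ∑ i, G (w i)| ≤ 6 * K := h1
      linarith
  intro k N u v hu hv
  exact gen k N 0 u v hu (by rw [zero_add]; exact hv)

end Pool.Agent.S77.WD
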