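import Pool.Agent.S77.WD.Asym

/-!
# Sums over the eigenvalues: the functions which are needed
-/

set_option autoImplicit false

namespace Pool.Agent.S77.WD
open Pool.Agent.H160R2.ML
open Pool.Agent.H160R2.OA Pool.Agent.H160R2.HL Pool.Agent.H160R2.NE Pool.Agent.H160R2.SA
open MeasureTheory

/-- the sums for `2 k` legs -/
theorem sumG (G h : ℝ → ℝ) (c : ℝ) (hc : 0 ≤ c) (hh : Continuous h) (h0 : ∀ x, 0 ≤ x → 0 ≤ h x)
    (hcal : ∀ x, 0 ≤ x → h x ≤ c * ww (-1) 2 x) (hG : ∀ x, HasDerivAt G (-h x) x)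
    (heven : ∀ x, G (-x) = G x) (hlim : Filter.Tendsto G Filter.atTop (nhds 0))
    (hint : Integrable G) (k : ℕ) :
    ∃ C : ℝ, ∀ n : ℕ, 1 ≤ n → k ≤ 2 * n → ∀ u : Fin (2 * n - k) → ℝ,
      IsEig (2 * n - k) (2 * k) u →
      |∑ i, G (u i) - 3 / (2 * Real.pi ^ 2) * (∫ x, G x) * Real.log n| ≤ C := by
  have hanti : AntitoneOn G (Set.Ici 0) := by
    apply antitoneOn_of_deriv_nonpos (convex_Ici 0)
    · exact fun x _ => (hG x).continuousAt.continuousWithinAt
    · exact fun x _ => (hG x).differentiableAt.differentiableWithinAt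
    · intro x hx
      rw [interior_Ici] at hx
      rw [(hG x).deriv]
      have := h0 x (le_of_lt hx)
      linarith
  have hpos : ∀ x, 0 ≤ x → 0 ≤ G x := by
    intro x hx
    refine le_of_tendsto hlim ?_
    filter_upwards [Filter.eventually_ge_atTop x] with y hy
    exact hanti hx (Set.mem_Ici.2 (hx.trans hy)) hy
  have hK : ∀ x, |G x| ≤ G 0 := by
    intro x
    rcases le_total 0 x with hx | hx
    · rw [abs_of_nonneg (hpos x hx)]
      exact hanti (Set.mem_Ici.2 le_rfl) hx hx
    · rw [← heven x, abs_of_nonneg (hpos _ (by linarith))]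
      exact hanti (Set.mem_Ici.2 le_rfl) (Set.mem_Ici.2 (by linarith)) (by linarith)
  obtain ⟨C, hC⟩ := sum0 G h c hc hh h0 hcal hG heven hlim hint
  refine ⟨C + 6 * G 0 * k + |3 / (2 * Real.pi ^ 2) * (∫ x, G x) * Real.log 2|,
    fun n hn hkn u hu => ?_⟩
  obtain ⟨N, hN⟩ : ∃ N, 2 * n = N + k := ⟨2 * n - k, by omega⟩
  have hN' : 2 * n - k = N := by omega
  have key : ∀ (M : ℕ) (u : Fin M → ℝ), M = N → IsEig M (2 * k) u →
      |∑ i, G (u i) - 3 / (2 * Real.pi ^ 2) * (∫ x, G x) * Real.log n| ≤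
        C + 6 * G 0 * k + |3 / (2 * Real.pi ^ 2) * (∫ x, G x) * Real.log 2| := by
    intro M u hM hu
    subst hM
    obtain ⟨v, hv⟩ := t_EG (M + k) 0
    have h1 := sum_legs heven hanti hK k M v u hv hu
    have h2 := hC (M + k) (by omega) v hv
    have e : Real.log ((M + k : ℕ) : ℝ) = Real.log n + Real.log 2 := by
      rw [← hN]
      push_cast
      rw [Real.log_mul (by norm_num) (by
        have : (0 : ℝ) < n := by exact_mod_cast hn
        exact this.ne'), add_comm]
    rw [e] at h2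
    have h3 := le_abs_self (3 / (2 * Real.pi ^ 2) * (∫ x, G x) * Real.log 2)
    have h4 := neg_abs_le (3 / (2 * Real.pi ^ 2) * (∫ x, G x) * Real.log 2)
    rw [mul_add] at h2
    rw [abs_le] at h1 h2 ⊢
    constructor <;> linarith [h1.1, h1.2, h2.1, h2.2]
  exact key _ u hN' hu

/-- the variance of a sign -/
noncomputable def sc (x : ℝ) : ℝ := 2 / (1 + Real.cosh x)

theorem one_cosh_pos (x : ℝ) : 0 < 1 + Real.cosh x := by
  have := Real.cosh_pos x
  linarith

theorem sc_pos (x : ℝ) : 0 < sc x := div_pos two_pos (one_cosh_pos x)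

theorem sc_le_one (x : ℝ) : sc x ≤ 1 := by
  unfold sc
  rw [div_le_one (one_cosh_pos x)]
  have := Real.one_le_cosh x
  linarith

theorem sc_even (x : ℝ) : sc (-x) = sc x := by unfold sc; rw [Real.cosh_neg]

/-- minus the derivative -/
noncomputable def sch (x : ℝ) : ℝ := 2 * Real.sinh x / (1 + Real.cosh x) ^ 2

theorem sc_deriv (x : ℝ) : HasDerivAt sc (-sch x) x := by
  have h1 : HasDerivAt (fun x => 1 + Real.cosh x) (Real.sinh x) x :=
    (Real.hasDerivAt_cosh x).const_add 1
  have h2 := (hasDerivAt_const x (2 : ℝ)).div h1 (one_cosh_pos x).ne'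
  have e : (0 * (1 + Real.cosh x) - 2 * Real.sinh x) / (1 + Real.cosh x) ^ 2 = -sch x := by
    unfold sch
    ring
  rw [e] at h2
  exact h2

/-- a primitive -/
noncomputable def scP (x : ℝ) : ℝ := 2 * Real.sinh x / (1 + Real.cosh x)

theorem scP_deriv (x : ℝ) : HasDerivAt scP (sc x) x := by
  have h1 : HasDerivAt (fun x => 1 + Real.cosh x) (Real.sinh x) x :=
    (Real.hasDerivAt_cosh x).const_add 1
  have h2 := ((Real.hasDerivAt_sinh x).const_mul 2).div h1 (one_cosh_pos x).ne'
  have h3 := one_cosh_pos x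
  have e : (2 * Real.cosh x * (1 + Real.cosh x) - 2 * Real.sinh x * Real.sinh x) /
      (1 + Real.cosh x) ^ 2 = sc x := by
    unfold sc
    have h4 := Real.cosh_sq x
    field_simp
    nlinarith
  rw [← e]
  exact h2

theorem scP_top : Filter.Tendsto scP Filter.atTop (nhds 2) := by
  have e : scP = fun x => 2 * (1 - Real.exp (-x)) / (1 + Real.exp (-x)) := by
    funext x
    unfold scP
    rw [Real.sinh_eq, Real.cosh_eq]
    have h1 := Real.exp_pos x
    have h2 := Real.exp_pos (-x)
    have h3 : Real.exp x * Real.exp (-x) = 1 := by rw [← Real.exp_add]; simp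
    have h4 : 0 < 1 + (Real.exp x + Real.exp (-x)) / 2 := by positivity
    have h5 : 0 < 1 + Real.exp (-x) := by positivity
    rw [div_eq_div_iff h4.ne' h5.ne']
    nlinarith
  rw [e]
  have h1 := Real.tendsto_exp_neg_atTop_nhds_zero
  have h2 : Filter.Tendsto (fun x : ℝ => 2 * (1 - Real.exp (-x)) / (1 + Real.exp (-x)))
      Filter.atTop (nhds (2 * (1 - 0) / (1 + 0))) :=
    ((h1.const_sub 1).const_mul 2).div (h1.const_add 1) (by norm_num)
  simpa using h2

theorem scP_bot : Filter.Tendsto scP Filter.atBot (nhds (-2)) := by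
  have h1 := (scP_top.comp Filter.tendsto_neg_atBot_atTop).neg
  refine h1.congr fun x => ?_
  simp only [Function.comp_apply, scP, Real.sinh_neg, Real.cosh_neg]
  ring

theorem sc_bd (x : ℝ) : sc x ≤ 8 * (1 + x ^ 2)⁻¹ := by
  have h1 := I_cosh_ge x
  unfold sc
  rw [div_le_iff₀ (one_cosh_pos x)]
  have h2 : 0 < 1 + x ^ 2 := by positivity
  have h3 : 8 * (1 + x ^ 2)⁻¹ * (1 + Real.cosh x) ≥ 8 * (1 + x ^ 2)⁻¹ * ((1 + x ^ 2) / 4) :=
    mul_le_mul_of_nonneg_left (by linarith) (by positivity)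
  have h4 : 8 * (1 + x ^ 2)⁻¹ * ((1 + x ^ 2) / 4) = 2 := by field_simp; norm_num
  linarith

theorem sc_cont : Continuous sc := by
  unfold sc
  exact continuous_const.div (continuous_const.add Real.continuous_cosh)
    (fun x => (one_cosh_pos x).ne')

theorem sc_int : Integrable sc := by
  refine (integrable_inv_one_add_sq.const_mul 8).mono' sc_cont.aestronglyMeasurable
    (Filter.Eventually.of_forall fun x => ?_)
  rw [Real.norm_eq_abs, abs_of_pos (sc_pos x)]
  exact sc_bd x

theorem sc_integral : ∫ x, sc x = 4 := by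
  rw [integral_of_hasDerivAt_of_tendsto scP_deriv sc_int scP_bot scP_top]
  norm_num

theorem sc_lim : Filter.Tendsto sc Filter.atTop (nhds 0) := by
  unfold sc
  have h1 : Filter.Tendsto (fun x : ℝ => 1 + Real.cosh x) Filter.atTop Filter.atTop := by
    refine Filter.tendsto_atTop_mono (f := fun x => x) (fun x => ?_) Filter.tendsto_id
    have h2 := I_cosh_ge x
    nlinarith [sq_nonneg (x - 2)]
  exact h1.const_div_atTop 2

/-- **the sum of the variances of the signs** -/
theorem sc_sum (k : ℕ) : ∃ C : ℝ, ∀ n : ℕ, 1 ≤ n → k ≤ 2 * n → ∀ u : Fin (2 * n - k) → ℝ,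
    IsEig (2 * n - k) (2 * k) u →
    |∑ i, sc (u i) - 6 / Real.pi ^ 2 * Real.log n| ≤ C := by
  have hπ := Real.pi_pos
  obtain ⟨C, hC⟩ := sumG sc sch (4 / 3) (by norm_num) (by
      unfold sch
      exact (continuous_const.mul Real.continuous_sinh).div
        ((continuous_const.add Real.continuous_cosh).pow 2)
        (fun x => pow_ne_zero _ (one_cosh_pos x).ne')) (fun x hx => by
      unfold sch
      have := Real.sinh_nonneg_iff.2 hx
      have := one_cosh_pos x
      positivity) (fun x hx => by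
      unfold sch ww
      have h1 := Real.sinh_nonneg_iff.2 hx
      have h2 := Real.one_le_cosh x
      rw [← mul_div_assoc, div_le_div_iff₀ (by positivity) (mul_pos (by linarith) (by linarith))]
      have h3 : 0 ≤ Real.sinh x * (1 + Real.cosh x) := mul_nonneg h1 (by linarith)
      nlinarith [mul_nonneg h3 (show (0 : ℝ) ≤ 3 by norm_num)]) sc_deriv sc_even sc_lim sc_int k
  refine ⟨C, fun n hn hkn u hu => ?_⟩
  have := hC n hn hkn u hu
  rw [sc_integral] at this
  have e : 3 / (2 * Real.pi ^ 2) * 4 = 6 / Real.pi ^ 2 := by field_simp; norm_num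
  rwa [e] at this

end Pool.Agent.S77.WD
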