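import Pool.Agent.S77.WD.Defs
import Pool.Agent.H160R2.ML.T_base

/-!
# The index set if there is no through strand
-/

set_option autoImplicit false

namespace Pool.Agent.S77.WD
open Pool.Agent.H863R2.Cyl
open Pool.Agent.H160R2.ML
open Pool.Agent.H160R2.ML.Tbase
open Pool.Agent.H863R2.Cyl.Sem1Aux
open Pool.Agent.H988R2.Perc (Word PD)

/-- the normalised level -/
def nu (h k : ℕ) (x : (ℤ × Bool) × ℤ) : ℤ :=
  if x.1.2 = true then (if dl k x.1.1 = k then x.2 else x.2 - gg (Tbase.ix k x.1.1 - 1))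
  else (if 0 < h ∧ k = 0 ∧ dl h x.1.1 = 0 then x.2 + gg (Tbase.ix h x.1.1 - 1) else x.2)

theorem nu_low {h k : ℕ} (a n : ℤ) : nu h k ((a, false), n) =
    if 0 < h ∧ k = 0 ∧ dl h a = 0 then n + gg (Tbase.ix h a - 1) else n := by
  simp [nu]

theorem nu_upp {h k : ℕ} (a n : ℤ) : nu h k ((a, true), n) =
    if dl k a = k then n else n - gg (Tbase.ix k a - 1) := by
  simp [nu]

theorem nu_Lt {h k : ℕ} (hpr : 2 ≤ (h + h) + (k + k)) {x y : (ℤ × Bool) × ℤ}
    (hL : Lt (h + h) (k + k) (bw (k + k)) (bw (h + h)) x y) : nu h k x = nu h k y := by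
  cases hL with
  | low a b n hR =>
    obtain ⟨h1, h2⟩ := inv_Rw hR
    rw [nu_low, nu_low, h1]
    rw [h1] at h2
    by_cases h3 : 0 < h ∧ k = 0 ∧ dl h b = 0
    · rw [if_pos h3, if_pos h3]
      rcases h2 with h2 | h2
      · omega
      · rw [h2]
    · rw [if_neg h3, if_neg h3]
  | upp a b n hR =>
    obtain ⟨h1, h2⟩ := inv_Rw hR
    rw [nu_upp, nu_upp, h1]
    rw [h1] at h2
    rcases h2 with h2 | h2
    · rw [if_pos h2, if_pos h2]
    · rw [h2]
  | glue s i n hi =>
    rw [bw_len] at hi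
    have hi0 : i = 0 := by omega
    subst hi0
    rw [nu_low, nu_upp, bw_len, bw_len]
    push_cast
    rw [add_zero, add_zero, dl_pk, dl_pk]
    rcases Nat.eq_zero_or_pos k with hk | hk
    · have hh : 0 < h := by omega
      rw [if_pos ⟨hh, hk, rfl⟩, if_pos (by rw [hk]; rfl), ix_pk hh]
      rw [add_sub_cancel_right]
    · rw [if_neg (by omega), if_neg (by omega), ix_pk hk]
      ring

theorem nu_Ct {h k : ℕ} (hpr : 2 ≤ (h + h) + (k + k)) {x y : (ℤ × Bool) × ℤ}
    (hC : Ct (h + h) (k + k) (bw (k + k)) (bw (h + h)) x y) : nu h k x = nu h k y := by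
  unfold Ct at hC
  induction hC with
  | rel x y hxy => exact nu_Lt hpr hxy
  | refl x => rfl
  | symm x y _ ih => exact ih.symm
  | trans x y z _ _ ih1 ih2 => exact ih1.trans ih2

/-- the values in a period -/
theorem perA {h : ℕ} (s c : ℤ) (h0 : 0 ≤ c) (h1 : c < h) :
    dl h (s * (h + h) + c) = c ∧ Tbase.ix h (s * (h + h) + c) = s := by
  have hh : 0 < h := by omega
  constructor
  · rw [dl_eq hh s c (by omega) (by omega), abs_of_nonneg h0]
  · rw [ix_eq hh s c (by omega) (by omega)]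

theorem perB {h : ℕ} (hh : 0 < h) (s c : ℤ) (h0 : (h : ℤ) ≤ c) (h1 : c ≤ h + h) :
    dl h (s * (h + h) + c) = h + h - c ∧ Tbase.ix h (s * (h + h) + c) = s + 1 := by
  have e : s * ((h : ℤ) + h) + c = (s + 1) * ((h : ℤ) + h) + (c - (h + h)) := by ring
  constructor
  · rw [e, dl_eq hh (s + 1) _ (by omega) (by omega), abs_of_nonpos (by omega)]
    ring
  · rw [e, ix_eq hh (s + 1) _ (by omega) (by omega)]

/-- the invariants of a sector -/
theorem sec_val {h k : ℕ} (hpr : 2 ≤ (h + h) + (k + k)) (s m : ℤ) {c : ℕ}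
    (hc : c < (h + h) + (k + k)) :
    ∃ (I D : ℤ) (B : Bool) (δ : ℤ),
      Tbase.phi h k (PT (h + h) (k + k) (bw (k + k)) (bw (h + h)) s
        ((((h + h) + (k + k) : ℕ) : ℤ) * m + c)).1 = (I, D, B) ∧
      nu h k (PT (h + h) (k + k) (bw (k + k)) (bw (h + h)) s
        ((((h + h) + (k + k) : ℕ) : ℤ) * m + c)) = m * (gg s - gg (s - 1)) + δ ∧
      ((c < h ∧ D = c ∧ B.toNat = 0 ∧
          ((k = 0 ∧ c = 0 ∧ I = 0 ∧ δ = gg (s - 1)) ∨ (¬ (k = 0 ∧ c = 0) ∧ I = s ∧ δ = 0))) ∨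
        (c = h ∧ D = h ∧ B.toNat = 0 ∧ I = 0 ∧ δ = 0) ∨
        (h < c ∧ c ≤ h + h ∧ D = h + h - c ∧ B.toNat = 0 ∧
          ((k = 0 ∧ c = h + h ∧ I = 0 ∧ δ = gg s) ∨ (¬ (k = 0 ∧ c = h + h) ∧ I = s + 1 ∧ δ = 0))) ∨
        (h + h < c ∧ c < h + h + k ∧ D = c - (h + h) ∧ B.toNat = 1 ∧ I = s + 1 ∧ δ = 0) ∨
        (h + h < c ∧ c = h + h + k ∧ D = k ∧ B.toNat = 1 ∧ I = 0 ∧ δ = gg s) ∨
        (h + h + k < c ∧ D = h + h + (k + k) - c ∧ B.toNat = 1 ∧ I = s ∧
          δ = gg s - gg (s - 1))) := by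
  rw [PT_eq _ _ _ _ hc]
  rcases Nat.lt_or_ge (h + h) c with h1 | h1
  · -- above
    have hk : 0 < k := by omega
    rw [pt_upp s h1]
    have epl : pl (h + h) s c = gg s := by unfold pl; rw [if_neg (by omega)]
    rw [epl]
    set y : ℤ := (h : ℤ) + h + (k + k) - c with hy
    have hphi : Tbase.phi h k (s * ((k : ℤ) + k) + y, true) =
        (if dl k (s * ((k : ℤ) + k) + y) = k ∨ ((h = 0 ∨ k = 0) ∧ dl k (s * ((k : ℤ) + k) + y) = 0)
          then 0 else Tbase.ix k (s * ((k : ℤ) + k) + y), dl k (s * ((k : ℤ) + k) + y),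
          decide (dl k (s * ((k : ℤ) + k) + y) ≠ 0)) := by
      simp [Tbase.phi]
    rw [hphi, nu_upp]
    rcases lt_trichotomy c (h + h + k) with h2 | h2 | h2
    · obtain ⟨b1, b2⟩ := perB hk s y (by omega) (by omega)
      rw [b1, b2]
      refine ⟨s + 1, c - (h + h), true, 0, ?_, ?_, ?_⟩
      · rw [if_neg (by omega)]
        have e1 : (k : ℤ) + k - y = c - (h + h) := by omega
        rw [e1]
        have e2 : ((c : ℤ) - (h + h)) ≠ 0 := by omega
        simp [e2]
      · rw [if_neg (by omega), add_sub_cancel_right]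
        ring
      · right; right; right; left
        exact ⟨h1, h2, rfl, rfl, rfl, rfl⟩
    · obtain ⟨b1, b2⟩ := perB hk s y (by omega) (by omega)
      rw [b1]
      refine ⟨0, k, true, gg s, ?_, ?_, ?_⟩
      · rw [if_pos (by omega)]
        have e1 : (k : ℤ) + k - y = k := by omega
        rw [e1]
        have e2 : (k : ℤ) ≠ 0 := by omega
        simp only [e2, ne_eq, not_false_eq_true, decide_true]
      · rw [if_pos (by omega)]
        ring
      · right; right; right; right; left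
        exact ⟨h1, h2, rfl, rfl, rfl, rfl⟩
    · obtain ⟨b1, b2⟩ := perA (h := k) s y (by omega) (by omega)
      rw [b1, b2]
      refine ⟨s, h + h + (k + k) - c, true, gg s - gg (s - 1), ?_, ?_, ?_⟩
      · rw [if_neg (by omega)]
        have e2 : y ≠ 0 := by omega
        simp [e2]
        exact hy
      · rw [if_neg (by omega)]
        ring
      · right; right; right; right; right
        exact ⟨h2, rfl, rfl, rfl, rfl⟩
  · -- below
    rw [pt_low s h1]
    have epl : pl (h + h) s c = 0 := by unfold pl; rw [if_pos h1]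
    rw [epl, zero_add]
    have hphi : Tbase.phi h k (s * ((h : ℤ) + h) + c, false) =
        (if dl h (s * ((h : ℤ) + h) + c) = h ∨ ((h = 0 ∨ k = 0) ∧ dl h (s * ((h : ℤ) + h) + c) = 0)
          then 0 else Tbase.ix h (s * ((h : ℤ) + h) + c), dl h (s * ((h : ℤ) + h) + c),
          false) := by
      simp [Tbase.phi]
    rw [hphi, nu_low]
    rcases lt_trichotomy c h with h2 | h2 | h2
    · obtain ⟨b1, b2⟩ := perA (h := h) s c (by omega) (by omega)
      rw [b1, b2]
      by_cases h3 : k = 0 ∧ c = 0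
      · refine ⟨0, c, false, gg (s - 1), ?_, ?_, ?_⟩
        · rw [if_pos (by omega)]
        · rw [if_pos (by omega)]
        · left
          exact ⟨h2, rfl, rfl, Or.inl ⟨h3.1, h3.2, rfl, rfl⟩⟩
      · refine ⟨s, c, false, 0, ?_, ?_, ?_⟩
        · rw [if_neg (by omega)]
        · rw [if_neg (by omega), add_zero]
        · left
          exact ⟨h2, rfl, rfl, Or.inr ⟨h3, rfl, rfl⟩⟩
    · refine ⟨0, h, false, 0, ?_, ?_, ?_⟩
      · rcases Nat.eq_zero_or_pos h with h4 | h4
        · subst h4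
          subst h2
          simp [dl]
        · obtain ⟨b1, b2⟩ := perB h4 s c (by omega) (by omega)
          rw [b1, if_pos (by omega)]
          have e1 : (h : ℤ) + h - c = h := by omega
          rw [e1]
      · rcases Nat.eq_zero_or_pos h with h4 | h4
        · rw [if_neg (by omega), add_zero]
        · obtain ⟨b1, b2⟩ := perB h4 s c (by omega) (by omega)
          rw [b1, if_neg (by omega), add_zero]
      · right; left
        exact ⟨h2, rfl, rfl, rfl, rfl⟩
    · have hh : 0 < h := by omega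
      obtain ⟨b1, b2⟩ := perB hh s c (by omega) (by omega)
      rw [b1, b2]
      by_cases h3 : k = 0 ∧ c = h + h
      · refine ⟨0, h + h - c, false, gg s, ?_, ?_, ?_⟩
        · rw [if_pos (by omega)]
        · rw [if_pos (by omega), add_sub_cancel_right]
        · right; right; left
          exact ⟨h2, h1, rfl, rfl, Or.inl ⟨h3.1, h3.2, rfl, rfl⟩⟩
      · refine ⟨s + 1, h + h - c, false, 0, ?_, ?_, ?_⟩
        · rw [if_neg (by omega)]
        · rw [if_neg (by omega), add_zero]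
        · right; right; left
          exact ⟨h2, h1, rfl, rfl, Or.inr ⟨h3, rfl, rfl⟩⟩

theorem base_Ix {h k : ℕ} (hpr : 2 ≤ (h + h) + (k + k)) :
    Ix (h + h) (k + k) (bw (k + k)) (bw (h + h)) = {((h + h : ℕ) : ℤ)} := by
  have hl : 0 < (h + h) + (k + k) := by omega
  ext X
  rw [Set.mem_singleton_iff]
  constructor
  · rintro ⟨c, hc⟩
    have h1 := phi_Cn (Ct_Cn hc)
    have h2 := nu_Ct hpr hc
    obtain ⟨m, c0, hc0, e1⟩ := label hl c
    obtain ⟨m', d0, hd0, e2⟩ := label hl (X - c)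
    rw [e2, e1] at h1 h2
    obtain ⟨I, D, B, δ, a1, a2, a3⟩ := sec_val hpr 0 m hc0
    obtain ⟨I', D', B', δ', b1, b2, b3⟩ := sec_val hpr 1 m' hd0
    rw [a1, b1] at h1
    rw [a2, b2] at h2
    have g0 : gg 0 = 1 := rfl
    have g1 : gg 1 = 0 := rfl
    have g2 : gg (0 - 1) = 0 := rfl
    have g3 : gg (1 - 1) = 1 := rfl
    rw [g0, g2] at h2 a3
    rw [g1, g3] at h2 b3
    simp only [Prod.mk.injEq] at h1
    obtain ⟨h1, h3, h4⟩ := h1
    have key : (m + m' = 0 ∧ (c0 : ℤ) + d0 = h + h) ∨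
        (m + m' = -1 ∧ (c0 : ℤ) + d0 = (h + h) + (k + k) + (h + h)) ∨
        (m + m' = 1 ∧ (c0 : ℤ) + d0 = -(k + k)) := by
      have h5 : B.toNat = B'.toNat := by rw [h4]
      clear h4 a1 a2 b1 b2 e1 e2 hc
      omega
    have e3 : X = (((h + h) + (k + k) : ℕ) : ℤ) * (m + m') + (c0 + d0) := by
      linear_combination e1 + e2
    rcases key with ⟨k1, k2⟩ | ⟨k1, k2⟩ | ⟨k1, k2⟩
    · rw [e3, k1, k2]; push_cast; ring
    · rw [e3, k1, k2]; push_cast; ring
    · rw [e3, k1, k2]; push_cast; ring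
  · rintro rfl
    refine ⟨h, ?_⟩
    have e1 : ((h + h : ℕ) : ℤ) - h = (((h + h) + (k + k) : ℕ) : ℤ) * 0 + (h : ℕ) := by
      push_cast; ring
    have e2 : PT (h + h) (k + k) (bw (k + k)) (bw (h + h)) 0 (h : ℤ) =
        PT (h + h) (k + k) (bw (k + k)) (bw (h + h)) 0
          ((((h + h) + (k + k) : ℕ) : ℤ) * 0 + (h : ℕ)) := by rw [mul_zero, zero_add]
    rw [e1, e2]
    rw [PT_eq _ _ _ _ (by omega : h < (h + h) + (k + k)),
      PT_eq _ _ _ _ (by omega : h < (h + h) + (k + k)), pt_low 0 (by omega), pt_low 1 (by omega)]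
    have epl : ∀ s : ℤ, pl (h + h) s h = 0 := fun s => by unfold pl; rw [if_pos (by omega)]
    rw [epl, epl, zero_mul, zero_mul]
    rcases Nat.eq_zero_or_pos h with h0 | hh
    · subst h0
      simp only [Nat.cast_zero, add_zero, mul_zero]
      exact Relation.EqvGen.refl _
    · have hcn := conn hh 1 (h : ℤ) (by omega) le_rfl
      have e3 : 1 * ((h : ℤ) + h) - h = 0 + h := by ring
      rw [e3] at hcn
      exact Relation.EqvGen.rel _ _ (Lt.low _ _ _ hcn)

theorem ez_base {ζ : ℂ} (p r : ℕ) (hpr : 2 ≤ p + r) (hp : Even p) (hr : Even r) :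
    ez ζ p r (bw r) (bw p) = 1 := by
  have h1 := t_base p r hpr hp hr
  have hg : Good p r (bw r) (bw p) := by
    unfold ee at h1
    by_contra h
    rw [if_neg h] at h1
    norm_num at h1
  obtain ⟨h, rfl⟩ := hp
  obtain ⟨k, rfl⟩ := hr
  rw [ez_single hg (base_Ix hpr)]
  simp

end Pool.Agent.S77.WD
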