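import Pool.Agent.S77.WD.Law
import Pool.Agent.S77.WD.Asym2

/-!
# The central limit theorem for the winding
-/

set_option autoImplicit false

namespace Pool.Agent.S77.WD
open Pool.Agent.H160R2.ML
open MeasureTheory ProbabilityTheory Filter Topology

/-- the total mass -/
noncomputable def ZE {N : ℕ} (u : Fin N → ℝ) : ℝ := ∏ i, (1 + Real.exp (u i))

theorem ZE_pos {N : ℕ} (u : Fin N → ℝ) : 0 < ZE u :=
  Finset.prod_pos fun i _ => by have := Real.exp_pos (u i); linarith

theorem sum_eS {N : ℕ} (u : Fin N → ℝ) : ∑ y ∈ Finset.Icc (-(N : ℤ)) N, eS u y = ZE u := by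
  have h := eS_gf u (one_ne_zero : (1 : ℂ) ≠ 0)
  simp only [inv_one, one_pow, one_mul, one_zpow, mul_one] at h
  unfold ZE
  exact_mod_cast h.symm

/-- the law of the winding divided by `s` -/
noncomputable def lawE {N : ℕ} (u : Fin N → ℝ) (s : ℝ) : Measure ℝ :=
  ∑ y ∈ Finset.Icc (-(N : ℤ)) N, ENNReal.ofReal (eS u y / ZE u) • Measure.dirac ((y : ℝ) / s)

theorem wE_nonneg {N : ℕ} (u : Fin N → ℝ) (y : ℤ) : 0 ≤ eS u y / ZE u :=
  div_nonneg (eS_nonneg u y) (ZE_pos u).le

instance {N : ℕ} (u : Fin N → ℝ) (s : ℝ) : IsProbabilityMeasure (lawE u s) := by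
  constructor
  unfold lawE
  rw [Measure.finsetSum_apply]
  simp only [Measure.smul_apply, measure_univ, smul_eq_mul, mul_one]
  rw [← ENNReal.ofReal_sum_of_nonneg (fun y _ => wE_nonneg u y), ← Finset.sum_div, sum_eS,
    div_self (ZE_pos u).ne', ENNReal.ofReal_one]

theorem lawE_apply {N : ℕ} (u : Fin N → ℝ) (s : ℝ) {A : Set ℝ} (hA : MeasurableSet A)
    [DecidablePred (· ∈ A)] :
    (lawE u s).real A = (∑ y ∈ Finset.Icc (-(N : ℤ)) N, if (y : ℝ) / s ∈ A then eS u y else 0) / ZE u := by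
  unfold lawE
  rw [Measure.real, Measure.finsetSum_apply]
  simp only [Measure.smul_apply, smul_eq_mul]
  rw [ENNReal.toReal_sum, Finset.sum_div]
  · refine Finset.sum_congr rfl fun y _ => ?_
    rw [ENNReal.toReal_mul, ENNReal.toReal_ofReal (wE_nonneg u y), Measure.dirac_apply' _ hA]
    by_cases h : (y : ℝ) / s ∈ A
    · simp [h]
    · simp [h]
  · intro y _
    rw [Measure.dirac_apply' _ hA]
    by_cases h : (y : ℝ) / s ∈ A <;> simp [h]

theorem lawE_integral {N : ℕ} (u : Fin N → ℝ) (s : ℝ) (f : ℝ → ℂ) :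
    ∫ x, f x ∂(lawE u s) =
      ∑ y ∈ Finset.Icc (-(N : ℤ)) N, ((eS u y / ZE u : ℝ) : ℂ) * f ((y : ℝ) / s) := by
  unfold lawE
  rw [integral_finsetSum_measure]
  · refine Finset.sum_congr rfl fun y _ => ?_
    rw [integral_smul_measure, integral_dirac, ENNReal.toReal_ofReal (wE_nonneg u y)]
    simp
  · intro y _
    refine Integrable.smul_measure ?_ ENNReal.ofReal_ne_top
    exact integrable_dirac (by simp)

/-- the characteristic function -/
theorem charFun_lawE {N : ℕ} (u : Fin N → ℝ) (s t : ℝ) :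
    charFun (lawE u s) t = (Complex.exp ((t / s : ℝ) * Complex.I))⁻¹ ^ N *
      (∏ i, (1 + Complex.exp ((2 * (t / s) : ℝ) * Complex.I) * (Real.exp (u i) : ℂ))) / (ZE u : ℂ) := by
  set ζ : ℂ := Complex.exp ((t / s : ℝ) * Complex.I) with hζ
  have hζ0 : ζ ≠ 0 := Complex.exp_ne_zero _
  have e1 : Complex.exp ((2 * (t / s) : ℝ) * Complex.I) = ζ ^ 2 := by
    rw [hζ, ← Complex.exp_nat_mul]
    push_cast
    ring_nf
  rw [charFun_apply_real, lawE_integral u s _, e1, eS_gf u hζ0, Finset.sum_div]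
  refine Finset.sum_congr rfl fun y _ => ?_
  have e2 : ζ ^ y = Complex.exp (t * ((y : ℝ) / s : ℝ) * Complex.I) := by
    rw [hζ, ← Complex.exp_int_mul]
    congr 1
    push_cast
    ring
  rw [e2]
  push_cast
  ring

end Pool.Agent.S77.WD
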