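import Pool.Agent.S77.WD.Clt

/-!
# The central limit theorem for the winding: characteristic functions
-/

set_option autoImplicit false

namespace Pool.Agent.S77.WD
open Pool.Agent.H160R2.ML
open MeasureTheory ProbabilityTheory Filter Topology

variable {N l : ℕ} {u : Fin N → ℝ}

theorem ZE_eq (hu : IsEig N l u) : ZE u = RR N l 0 := by
  have h1 := Dl_one N l
  rw [hu.2.2 1] at h1
  unfold ZE
  have h2 : ((∏ i, (1 + Real.exp (u i)) : ℝ) : ℂ) = (RR N l 0 : ℂ) := by
    rw [← h1]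
    push_cast
    simp
  exact_mod_cast h2

theorem charFun_pos (hu : IsEig N l u) {s t : ℝ} (h0 : 0 ≤ t / s) (h1 : 2 * (t / s) < Real.pi) :
    charFun (lawE u s) t = ((RR N l (2 * (t / s)) / RR N l 0 : ℝ) : ℂ) := by
  have h2 := (a_PH N l (2 * (t / s)) (by positivity) h1).2
  rw [charFun_lawE, ← hu.2.2, h2, ZE_eq hu, ← mul_assoc, inv_pow, ← Complex.exp_nat_mul,
    ← Complex.exp_neg, ← Complex.exp_add]
  have e : -((N : ℂ) * ((t / s : ℝ) * Complex.I)) +
      ((N * (2 * (t / s)) / 2 : ℝ) : ℂ) * Complex.I = 0 := by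
    push_cast
    ring
  rw [e, Complex.exp_zero, one_mul]
  push_cast
  rfl

theorem norm_factor (θ v : ℝ) : ‖1 + Complex.exp (θ * Complex.I) * (Real.exp v : ℂ)‖ ^ 2 =
    (1 + Real.exp v) ^ 2 * (1 - sc v * Real.sin (θ / 2) ^ 2) := by
  have h1 : (1 + Complex.exp (θ * Complex.I) * (Real.exp v : ℂ)) =
      ((1 + Real.cos θ * Real.exp v : ℝ) : ℂ) + ((Real.sin θ * Real.exp v : ℝ) : ℂ) * Complex.I := by
    rw [Complex.exp_mul_I]
    push_cast
    ring
  have h2 : sc v = 4 * Real.exp v / (1 + Real.exp v) ^ 2 := by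
    unfold sc
    rw [Real.cosh_eq]
    have h3 := Real.exp_pos v
    have h4 : Real.exp v * Real.exp (-v) = 1 := by rw [← Real.exp_add]; simp
    have h5 := Real.exp_pos (-v)
    rw [div_eq_div_iff (by positivity) (by positivity)]
    nlinarith
  have h3 : 0 < 1 + Real.exp v := by have := Real.exp_pos v; linarith
  rw [h1, ← Complex.normSq_eq_norm_sq, Complex.normSq_add_mul_I, h2, mul_sub, mul_one,
    Real.sin_sq_eq_half_sub]
  have e : 2 * (θ / 2) = θ := by ring
  rw [e]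
  field_simp
  have hs := Real.sin_sq_add_cos_sq θ
  linear_combination 2 * (Real.exp v) ^ 2 * hs

theorem ratio_sq (hu : IsEig N l u) (θ : ℝ) : (RR N l θ / RR N l 0) ^ 2 =
    ∏ i, (1 - sc (u i) * Real.sin (θ / 2) ^ 2) := by
  have h0 := ZE_pos u
  rw [ZE_eq hu] at h0
  rw [div_pow, div_eq_iff (by positivity), ← ZE_eq hu]
  unfold RR ZE
  rw [hu.2.2, norm_prod, ← Finset.prod_pow, ← Finset.prod_pow, ← Finset.prod_mul_distrib]
  refine Finset.prod_congr rfl fun i _ => ?_
  rw [norm_factor]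
  ring

theorem log_bounds {x : ℝ} (h1 : x ≤ 1 / 2) :
    -x - 2 * x ^ 2 ≤ Real.log (1 - x) ∧ Real.log (1 - x) ≤ -x := by
  constructor
  · have h2 : 0 < 1 - x := by linarith
    have h3 := Real.one_sub_inv_le_log_of_pos h2
    refine le_trans ?_ h3
    have h4 : (1 - x)⁻¹ ≤ 1 + x + 2 * x ^ 2 := by
      rw [inv_le_iff_one_le_mul₀ h2]
      nlinarith [mul_nonneg (sq_nonneg x) (show (0 : ℝ) ≤ 1 - 2 * x by linarith)]
    linarith
  · have h2 := Real.log_le_sub_one_of_pos (show 0 < 1 - x by linarith)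
    linarith

end Pool.Agent.S77.WD
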