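import Pool.Agent.S77.WD.Clt2
import Mathlib.MeasureTheory.Measure.LevyConvergence
import Mathlib.Analysis.SpecialFunctions.Trigonometric.Sinc

/-!
# The central limit theorem for the winding
-/

set_option autoImplicit false

namespace Pool.Agent.S77.WD
open Pool.Agent.H160R2.ML
open MeasureTheory ProbabilityTheory Filter Topology

/-- the normalisation -/
noncomputable def sn (n : ℕ) : ℝ := √(6 / Real.pi ^ 2 * Real.log n)

theorem sn_top : Tendsto sn atTop atTop := by
  have hπ := Real.pi_pos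
  refine Real.tendsto_sqrt_atTop.comp ?_
  exact (Real.tendsto_log_atTop.comp tendsto_natCast_atTop_atTop).const_mul_atTop (by positivity)

theorem sn_sq {n : ℕ} (hn : 1 ≤ n) : sn n ^ 2 = 6 / Real.pi ^ 2 * Real.log n := by
  unfold sn
  have : 0 ≤ Real.log (n : ℝ) := Real.log_nonneg (by exact_mod_cast hn)
  exact Real.sq_sqrt (by positivity)

variable {k : ℕ} {u : ∀ n : ℕ, Fin (2 * n - k) → ℝ}

theorem S_lim (hu : ∀ n, IsEig (2 * n - k) (2 * k) (u n)) :
    Tendsto (fun n => (∑ i, sc (u n i)) / sn n ^ 2) atTop (𝓝 1) := by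
  obtain ⟨C, hC⟩ := sc_sum k
  have h1 : Tendsto (fun n => C / sn n ^ 2) atTop (𝓝 0) := by
    refine Tendsto.div_atTop tendsto_const_nhds ?_
    exact (tendsto_pow_atTop (by norm_num)).comp sn_top
  have h2 : Tendsto (fun n => (∑ i, sc (u n i)) / sn n ^ 2 - 1) atTop (𝓝 0) := by
    refine squeeze_zero_norm' ?_ h1
    filter_upwards [eventually_ge_atTop 1, eventually_ge_atTop k, sn_top.eventually_gt_atTop 0]
      with n hn hnk hs
    have h3 := hC n hn (by omega) (u n) (hu n)
    rw [← sn_sq hn] at h3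
    have h4 : 0 < sn n ^ 2 := by positivity
    rw [Real.norm_eq_abs, div_sub_one h4.ne', abs_div, abs_of_pos h4]
    exact div_le_div_of_nonneg_right h3 h4.le
  have h3 := h2.add_const 1
  simpa using h3

theorem char_nonneg (hu : ∀ n, IsEig (2 * n - k) (2 * k) (u n)) {t : ℝ} (ht : 0 ≤ t) :
    Tendsto (fun n => charFun (lawE (u n) (sn n)) t) atTop (𝓝 (Real.exp (-(t ^ 2 / 2)) : ℂ)) := by
  have hπ := Real.pi_pos
  have hr : Tendsto (fun n => t / sn n) atTop (𝓝 0) := Tendsto.div_atTop tendsto_const_nhds sn_top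
  have hsinc : Tendsto (fun n => Real.sinc (t / sn n)) atTop (𝓝 1) := by
    have := Real.continuous_sinc.continuousAt.tendsto.comp hr
    rwa [Real.sinc_zero] at this
  -- the two bounds
  have hq : Tendsto (fun n => Real.sin (t / sn n) ^ 2) atTop (𝓝 0) := by
    have h1 := ((Real.continuous_sin.tendsto 0).comp hr).pow 2
    simpa using h1
  have hA : Tendsto (fun n => Real.sin (t / sn n) ^ 2 * ∑ i, sc (u n i)) atTop (𝓝 (t ^ 2)) := by
    have h1 := ((hsinc.pow 2).mul_const (t ^ 2)).mul (S_lim hu)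
    rw [one_pow, one_mul, mul_one] at h1
    refine h1.congr' ?_
    filter_upwards [sn_top.eventually_gt_atTop 0] with n hs
    by_cases h0 : t = 0
    · subst h0; simp
    · rw [Real.sinc_of_ne_zero (div_ne_zero h0 hs.ne')]
      field_simp
  have hlog : Tendsto (fun n => ∑ i, Real.log (1 - sc (u n i) * Real.sin (t / sn n) ^ 2)) atTop
      (𝓝 (-(t ^ 2))) := by
    have hlow : Tendsto (fun n => -((1 + 2 * Real.sin (t / sn n) ^ 2) *
        (Real.sin (t / sn n) ^ 2 * ∑ i, sc (u n i)))) atTop (𝓝 (-(t ^ 2))) := by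
      have h1 := (((hq.const_mul 2).const_add 1).mul hA).neg
      simpa using h1
    refine tendsto_of_tendsto_of_tendsto_of_le_of_le' hlow hA.neg ?_ ?_
    · filter_upwards [hq.eventually_le_const (show (0 : ℝ) < 1 / 2 by norm_num)] with n hq2
      rw [Finset.mul_sum, Finset.mul_sum, ← Finset.sum_neg_distrib]
      refine Finset.sum_le_sum fun i _ => ?_
      have h1 := sc_pos (u n i)
      have h2 := sc_le_one (u n i)
      set q := Real.sin (t / sn n) ^ 2 with hqq
      have h0 : 0 ≤ q := sq_nonneg _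
      have h3 : sc (u n i) * q ≤ q := by nlinarith
      have h4 := (log_bounds (x := sc (u n i) * q) (by linarith)).1
      have h5 : (sc (u n i) * q) ^ 2 ≤ q * (sc (u n i) * q) := by
        rw [sq]
        exact mul_le_mul_of_nonneg_right h3 (by positivity)
      nlinarith
    · filter_upwards [hq.eventually_le_const (show (0 : ℝ) < 1 / 2 by norm_num)] with n hq2
      rw [Finset.mul_sum, ← Finset.sum_neg_distrib]
      refine Finset.sum_le_sum fun i _ => ?_
      have h1 := sc_pos (u n i)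
      have h2 := sc_le_one (u n i)
      set q := Real.sin (t / sn n) ^ 2 with hqq
      have h0 : 0 ≤ q := sq_nonneg _
      have h3 : sc (u n i) * q ≤ q := by nlinarith
      have h4 := (log_bounds (x := sc (u n i) * q) (by linarith)).2
      linarith
  have hexp : Tendsto (fun n => Real.exp (1 / 2 *
      ∑ i, Real.log (1 - sc (u n i) * Real.sin (t / sn n) ^ 2))) atTop
      (𝓝 (Real.exp (-(t ^ 2 / 2)))) := by
    have h1 := (Real.continuous_exp.tendsto _).comp (hlog.const_mul (1 / 2))
    have e : (1 : ℝ) / 2 * -(t ^ 2) = -(t ^ 2 / 2) := by ring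
    rw [e] at h1
    exact h1
  have hexp2 : Tendsto (fun n => ((Real.exp (1 / 2 *
      ∑ i, Real.log (1 - sc (u n i) * Real.sin (t / sn n) ^ 2)) : ℝ) : ℂ)) atTop
      (𝓝 ((Real.exp (-(t ^ 2 / 2)) : ℝ) : ℂ)) :=
    (Complex.continuous_ofReal.tendsto _).comp hexp
  refine hexp2.congr' ?_
  filter_upwards [hr.eventually_lt_const (show (0 : ℝ) < Real.pi / 2 by positivity),
    sn_top.eventually_gt_atTop 0, hq.eventually_le_const (show (0 : ℝ) < 1 / 2 by norm_num)]
    with n hrn hs hq2
  have h0 : 0 ≤ t / sn n := by positivity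
  rw [charFun_pos (hu n) h0 (by linarith)]
  congr 1
  have p1 := (a_PH (2 * n - k) (2 * k) (2 * (t / sn n)) (by positivity) (by linarith)).1
  have p0 := (a_PH (2 * n - k) (2 * k) 0 le_rfl hπ).1
  have hR : 0 < RR (2 * n - k) (2 * k) (2 * (t / sn n)) / RR (2 * n - k) (2 * k) 0 := by positivity
  have h2 := ratio_sq (hu n) (2 * (t / sn n))
  have e : 2 * (t / sn n) / 2 = t / sn n := by ring
  rw [e] at h2
  have h3 : ∑ i, Real.log (1 - sc (u n i) * Real.sin (t / sn n) ^ 2) =
      Real.log ((RR (2 * n - k) (2 * k) (2 * (t / sn n)) / RR (2 * n - k) (2 * k) 0) ^ 2) := by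
    rw [h2, Real.log_prod]
    intro i _
    have h1 := sc_pos (u n i)
    have h2 := sc_le_one (u n i)
    have h3 : sc (u n i) * Real.sin (t / sn n) ^ 2 ≤ 1 / 2 := by nlinarith
    linarith
  rw [h3, Real.log_pow]
  push_cast
  rw [show (1 : ℝ) / 2 * (2 * Real.log (RR (2 * n - k) (2 * k) (2 * (t / sn n)) /
    RR (2 * n - k) (2 * k) 0)) = Real.log (RR (2 * n - k) (2 * k) (2 * (t / sn n)) /
    RR (2 * n - k) (2 * k) 0) by ring, Real.exp_log hR]

/-- the laws as probability measures -/
noncomputable def lawP (u : ∀ n : ℕ, Fin (2 * n - k) → ℝ) (n : ℕ) : ProbabilityMeasure ℝ :=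
  (⟨lawE (u n) (sn n), inferInstance⟩ : {μ : Measure ℝ // IsProbabilityMeasure μ})

/-- the standard normal law -/
noncomputable def stdP : ProbabilityMeasure ℝ :=
  (⟨gaussianReal 0 1, inferInstance⟩ : {μ : Measure ℝ // IsProbabilityMeasure μ})

/-- **the central limit theorem** -/
theorem clt (hu : ∀ n, IsEig (2 * n - k) (2 * k) (u n)) :
    Tendsto (lawP u) atTop (𝓝 stdP) := by
  refine ProbabilityMeasure.tendsto_of_tendsto_charFun fun t => ?_
  have hg : charFun (gaussianReal 0 1) t = (Real.exp (-(t ^ 2 / 2)) : ℂ) := by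
    rw [charFun_gaussianReal]
    push_cast
    congr 1
    ring
  show Tendsto (fun n => charFun (lawE (u n) (sn n)) t) atTop (𝓝 (charFun (gaussianReal 0 1) t))
  rw [hg]
  rcases le_total 0 t with ht | ht
  · exact char_nonneg hu ht
  · have h1 := char_nonneg hu (t := -t) (by linarith)
    have h2 := (Complex.continuous_conj.tendsto _).comp h1
    rw [neg_sq] at h2
    have e : (starRingEnd ℂ) ((Real.exp (-(t ^ 2 / 2)) : ℝ) : ℂ) = (Real.exp (-(t ^ 2 / 2)) : ℂ) :=
      Complex.conj_ofReal _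
    rw [e] at h2
    refine h2.congr fun n => ?_
    simp only [Function.comp_apply]
    rw [charFun_neg, Complex.conj_conj]

end Pool.Agent.S77.WD
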