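import Pool.Agent.S77.WD.Clt3

/-!
# The central limit theorem: distribution functions, mean, variance
-/

set_option autoImplicit false

namespace Pool.Agent.S77.WD
open Pool.Agent.H160R2.ML
open MeasureTheory ProbabilityTheory Filter Topology

variable {k : ℕ} {u : ∀ n : ℕ, Fin (2 * n - k) → ℝ}

open Classical in
/-- distribution functions -/
theorem clt_cdf (hu : ∀ n, IsEig (2 * n - k) (2 * k) (u n)) (x : ℝ) :
    Tendsto (fun n => (∑ y ∈ Finset.Icc (-((2 * n - k : ℕ) : ℤ)) ((2 * n - k : ℕ) : ℤ),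
      if (y : ℝ) ≤ x * sn n then eS (u n) y else 0) / ZE (u n)) atTop
      (𝓝 ((gaussianReal 0 1).real (Set.Iic x))) := by
  have h1 : (stdP : Measure ℝ) (frontier (Set.Iic x)) = 0 := by
    rw [frontier_Iic]
    show (gaussianReal 0 1) {x} = 0
    have : NullSingletonClass (gaussianReal 0 1) :=
      nullSingletonClass_gaussianReal (μ := 0) (v := 1) one_ne_zero
    exact measure_singleton x
  have h2 := ProbabilityMeasure.tendsto_measure_of_null_frontier_of_tendsto' (clt hu) h1
  have h3 := (ENNReal.tendsto_toReal (measure_ne_top _ _)).comp h2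
  refine h3.congr' ?_
  filter_upwards [sn_top.eventually_gt_atTop 0] with n hs
  have h4 := lawE_apply (u n) (sn n) (A := Set.Iic x) measurableSet_Iic
  show (lawE (u n) (sn n)).real (Set.Iic x) = _
  rw [h4]
  congr 1
  refine Finset.sum_congr rfl fun y _ => ?_
  simp only [Set.mem_Iic, div_le_iff₀ hs]

/-- the moments of a sum of independent signs -/
theorem moments {ι : Type*} [DecidableEq ι] (w : ι → ℝ) (hw : ∀ i, 0 < w i) (T : Finset ι) :
    ∑ S ∈ T.powerset, ∏ i ∈ S, w i = ∏ i ∈ T, (1 + w i) ∧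
    ∑ S ∈ T.powerset, (2 * (S.card : ℝ) - T.card) * ∏ i ∈ S, w i =
      (∑ i ∈ T, (w i - 1) / (w i + 1)) * ∏ i ∈ T, (1 + w i) ∧
    ∑ S ∈ T.powerset, (2 * (S.card : ℝ) - T.card) ^ 2 * ∏ i ∈ S, w i =
      ((∑ i ∈ T, (w i - 1) / (w i + 1)) ^ 2 + ∑ i ∈ T, (1 - ((w i - 1) / (w i + 1)) ^ 2)) *
        ∏ i ∈ T, (1 + w i) := by
  induction T using Finset.induction_on with
  | empty => simp
  | insert a T ha ih =>
    obtain ⟨h0, h1, h2⟩ := ih
    have hmem : ∀ S ∈ T.powerset, a ∉ S := fun S hS h => ha (Finset.mem_powerset.1 hS h)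
    have hwa : w a + 1 ≠ 0 := by have := hw a; positivity
    have hprod : ∀ S ∈ T.powerset, ∏ i ∈ insert a S, w i = w a * ∏ i ∈ S, w i := fun S hS =>
      Finset.prod_insert (hmem S hS)
    have hcard : ∀ S ∈ T.powerset, ((insert a S).card : ℝ) = S.card + 1 := fun S hS => by
      rw [Finset.card_insert_of_notMem (hmem S hS)]; push_cast; ring
    rw [Finset.sum_powerset_insert ha, Finset.sum_powerset_insert ha, Finset.sum_powerset_insert ha,
      Finset.prod_insert ha, Finset.sum_insert ha, Finset.sum_insert ha,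
      Finset.card_insert_of_notMem ha]
    push_cast
    set Z := ∏ i ∈ T, (1 + w i) with hZ
    set m := ∑ i ∈ T, (w i - 1) / (w i + 1) with hm
    set v := ∑ i ∈ T, (1 - ((w i - 1) / (w i + 1)) ^ 2) with hv
    refine ⟨?_, ?_, ?_⟩
    · rw [Finset.sum_congr rfl hprod, ← Finset.mul_sum, h0]
      ring
    · have e1 : ∑ S ∈ T.powerset, (2 * (S.card : ℝ) - (T.card + 1)) * ∏ i ∈ S, w i =
          m * Z - Z := by
        rw [← h1, ← h0, ← Finset.sum_sub_distrib]
        refine Finset.sum_congr rfl fun S _ => ?_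
        ring
      have e2 : ∑ S ∈ T.powerset, (2 * ((insert a S).card : ℝ) - (T.card + 1)) *
          ∏ i ∈ insert a S, w i = w a * (m * Z + Z) := by
        rw [← h1, ← h0, ← Finset.sum_add_distrib, Finset.mul_sum]
        refine Finset.sum_congr rfl fun S hS => ?_
        rw [hprod S hS, hcard S hS]
        ring
      rw [e1, e2]
      field_simp
      ring
    · have e1 : ∑ S ∈ T.powerset, (2 * (S.card : ℝ) - (T.card + 1)) ^ 2 * ∏ i ∈ S, w i =
          (m ^ 2 + v) * Z - 2 * (m * Z) + Z := by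
        rw [← h2, ← h1, ← h0, Finset.mul_sum, ← Finset.sum_sub_distrib, ← Finset.sum_add_distrib]
        refine Finset.sum_congr rfl fun S _ => ?_
        ring
      have e2 : ∑ S ∈ T.powerset, (2 * ((insert a S).card : ℝ) - (T.card + 1)) ^ 2 *
          ∏ i ∈ insert a S, w i = w a * ((m ^ 2 + v) * Z + 2 * (m * Z) + Z) := by
        rw [← h2, ← h1, ← h0, Finset.mul_sum (a := 2), ← Finset.sum_add_distrib,
          ← Finset.sum_add_distrib, Finset.mul_sum]
        refine Finset.sum_congr rfl fun S hS => ?_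
        rw [hprod S hS, hcard S hS]
        ring
      rw [e1, e2]
      field_simp
      ring

theorem sum_eS_mul {N : ℕ} (u : Fin N → ℝ) (f : ℤ → ℝ) :
    ∑ y ∈ Finset.Icc (-(N : ℤ)) N, f y * eS u y =
      ∑ S : Finset (Fin N), f (2 * (S.card : ℤ) - N) * ∏ i ∈ S, Real.exp (u i) := by
  unfold eS
  simp only [Finset.mul_sum]
  rw [Finset.sum_comm]
  refine Finset.sum_congr rfl fun S _ => ?_
  have hS : S.card ≤ N := by
    have := Finset.card_le_univ S
    rwa [Fintype.card_fin] at this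
  rw [Finset.sum_eq_single (2 * (S.card : ℤ) - N)]
  · rw [if_pos rfl]
  · intro y _ hy
    rw [if_neg (fun h => hy h.symm), mul_zero]
  · intro h
    exfalso
    apply h
    rw [Finset.mem_Icc]
    omega

theorem tanh_odd (v : ℝ) : (Real.exp (-v) - 1) / (Real.exp (-v) + 1) =
    -((Real.exp v - 1) / (Real.exp v + 1)) := by
  have h1 := Real.exp_pos v
  have h2 := Real.exp_pos (-v)
  have h3 : Real.exp v * Real.exp (-v) = 1 := by rw [← Real.exp_add]; simp
  rw [← neg_div, div_eq_div_iff (by positivity) (by positivity)]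
  nlinarith

theorem one_sub_tanh (v : ℝ) : 1 - ((Real.exp v - 1) / (Real.exp v + 1)) ^ 2 = sc v := by
  unfold sc
  rw [Real.cosh_eq]
  have h1 := Real.exp_pos v
  have h2 := Real.exp_pos (-v)
  have h3 : Real.exp v * Real.exp (-v) = 1 := by rw [← Real.exp_add]; simp
  rw [eq_div_iff (by positivity), div_pow]
  field_simp
  nlinarith

theorem mean_zero {N : ℕ} (u : Fin N → ℝ) (hs : ∀ i, u (Fin.rev i) = -u i) :
    ∑ i, (Real.exp (u i) - 1) / (Real.exp (u i) + 1) = 0 := by
  have h1 : ∑ i, (Real.exp (u i) - 1) / (Real.exp (u i) + 1) =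
      ∑ i, (Real.exp (u (Fin.rev i)) - 1) / (Real.exp (u (Fin.rev i)) + 1) :=
    (Equiv.sum_comp Fin.revPerm (fun i => (Real.exp (u i) - 1) / (Real.exp (u i) + 1))).symm
  have h2 : ∑ i, (Real.exp (u (Fin.rev i)) - 1) / (Real.exp (u (Fin.rev i)) + 1) =
      -∑ i, (Real.exp (u i) - 1) / (Real.exp (u i) + 1) := by
    rw [← Finset.sum_neg_distrib]
    refine Finset.sum_congr rfl fun i _ => ?_
    rw [hs i, tanh_odd]
  linarith

/-- the mean square of the sum of the signs -/
theorem eS_var {N : ℕ} (u : Fin N → ℝ) (hs : ∀ i, u (Fin.rev i) = -u i) :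
    ∑ y ∈ Finset.Icc (-(N : ℤ)) N, (y : ℝ) ^ 2 * eS u y = (∑ i, sc (u i)) * ZE u := by
  rw [sum_eS_mul u (fun y => (y : ℝ) ^ 2)]
  have h := (moments (fun i => Real.exp (u i)) (fun i => Real.exp_pos _)
    (Finset.univ : Finset (Fin N))).2.2
  rw [Finset.powerset_univ, mean_zero u hs, Finset.card_univ, Fintype.card_fin] at h
  simp only [one_sub_tanh] at h
  unfold ZE
  rw [zero_pow two_ne_zero, zero_add] at h
  rw [← h]
  refine Finset.sum_congr rfl fun S _ => ?_
  push_cast
  ring

end Pool.Agent.S77.WD
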