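import Pool.Agent.H160R2.ML.Stm

/-!
# Winding of the legs: definitions

The leg functional of `Pool.Agent.H160R2.ML` with a weight `ζ ^ Y` for the winding of the legs.  The
faces of the cut universal cover carry a level `n`: it changes by `gg s` when the path crosses, from
below to above, the segment between the slits `s` and `s + 1`; here `gg 0 = 1` and `gg s = 0` for
`s ≠ 0`, so that the level counts the crossings of the segment between the slits `0` and `1`.
-/

set_option autoImplicit false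

namespace Pool.Agent.S77.WD
open Pool.Agent.H863R2.Cyl
open Pool.Agent.H160R2.ML
open Pool.Agent.H988R2.Perc (Word PD)

/-- the weight of the segment between the slits `s` and `s + 1` -/
def gg (s : ℤ) : ℤ := if s = 0 then 1 else 0

theorem gg_zero : gg 0 = 1 := rfl
theorem gg_one : gg 1 = 0 := rfl
theorem gg_neg : gg (-1) = 0 := rfl

/-- links between faces with levels -/
inductive Lt (p r : ℕ) (w' w : Word) : (ℤ × Bool) × ℤ → (ℤ × Bool) × ℤ → Prop
  | low (a b n : ℤ) : Rw w a b → Lt p r w' w ((a, false), n) ((b, false), n)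
  | upp (a b n : ℤ) : Rw w' a b → Lt p r w' w ((a, true), n) ((b, true), n)
  | glue (s : ℤ) (i : ℕ) (n : ℤ) : i + p ≤ w.length →
      Lt p r w' w ((s * w.length + p + i, false), n) ((s * w'.length + r + i, true), n + gg s)

/-- connection of faces with levels -/
def Ct (p r : ℕ) (w' w : Word) : (ℤ × Bool) × ℤ → (ℤ × Bool) × ℤ → Prop :=
  Relation.EqvGen (Lt p r w' w)

/-- the level of the sector `c` of the slit `s` -/
def pl (p : ℕ) (s : ℤ) (c : ℕ) : ℤ := if c ≤ p then 0 else gg s

/-- the sector with the label `c : ℤ` at the slit `s`: a turn around the slit changes the label by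
`p + r` and the level by `gg s - gg (s - 1)` -/
def PT (p r : ℕ) (w' w : Word) (s c : ℤ) : (ℤ × Bool) × ℤ :=
  (pt p r w' w s (c % ((p + r : ℕ) : ℤ)).toNat,
    pl p s (c % ((p + r : ℕ) : ℤ)).toNat + c / ((p + r : ℕ) : ℤ) * (gg s - gg (s - 1)))

/-- the sums of the labels of connected sectors of the slits `0` and `1` -/
def Ix (p r : ℕ) (w' w : Word) : Set ℤ :=
  {X | ∃ c : ℤ, Ct p r w' w (PT p r w' w 0 c) (PT p r w' w 1 (X - c))}

open Classical in
/-- the value of the functional: `ζ ^ (X - p)` for `X ∈ Ix` -/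
noncomputable def ez (ζ : ℂ) (p r : ℕ) (w' w : Word) : ℂ :=
  if Good p r w' w then ∑ᶠ X ∈ Ix p r w' w, ζ ^ (X - (p : ℤ)) else 0

/-! ### general facts -/

theorem PT_eq {p r : ℕ} (w' w : Word) (s m : ℤ) {c : ℕ} (hc : c < p + r) :
    PT p r w' w s (((p + r : ℕ) : ℤ) * m + c) =
      (pt p r w' w s c, pl p s c + m * (gg s - gg (s - 1))) := by
  have h0 : (0 : ℤ) < ((p + r : ℕ) : ℤ) := by
    have : 0 < p + r := by omega
    exact_mod_cast this
  have e1 : (((p + r : ℕ) : ℤ) * m + c) % ((p + r : ℕ) : ℤ) = c := by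
    rw [Int.add_comm, Int.add_mul_emod_self_left, Int.emod_eq_of_lt (by omega) (by exact_mod_cast hc)]
  have e2 : (((p + r : ℕ) : ℤ) * m + c) / ((p + r : ℕ) : ℤ) = m := by
    rw [Int.add_comm, Int.add_mul_ediv_left _ _ h0.ne', Int.ediv_eq_zero_of_lt (by omega)
      (by exact_mod_cast hc), zero_add]
  unfold PT
  rw [e1, e2, Int.toNat_natCast]

/-- every label is of the form `(p + r) m + c` -/
theorem label {l : ℕ} (hl : 0 < l) (c : ℤ) : ∃ (m : ℤ) (d : ℕ), d < l ∧ c = (l : ℤ) * m + d := by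
  have h0 : (0 : ℤ) < l := by exact_mod_cast hl
  refine ⟨c / l, (c % l).toNat, ?_, ?_⟩
  · have := Int.emod_lt_of_pos c h0
    have := Int.emod_nonneg c h0.ne'
    omega
  · have h1 := Int.emod_nonneg c h0.ne'
    have h2 := Int.mul_ediv_add_emod c l
    rw [Int.toNat_of_nonneg h1]
    exact h2.symm

theorem Ct_equiv (p r : ℕ) (w' w : Word) : Equivalence (Ct p r w' w) :=
  Relation.EqvGen.is_equivalence _

theorem Lt_shift {p r : ℕ} {w' w : Word} (t : ℤ) {x y : (ℤ × Bool) × ℤ} (h : Lt p r w' w x y) :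
    Lt p r w' w (x.1, x.2 + t) (y.1, y.2 + t) := by
  cases h with
  | low a b n h => exact Lt.low a b _ h
  | upp a b n h => exact Lt.upp a b _ h
  | glue s i n h =>
    have := Lt.glue (p := p) (r := r) (w' := w') (w := w) s i (n + t) h
    have e : n + t + gg s = n + gg s + t := by ring
    rw [e] at this
    exact this

theorem map_eqv {α β : Type*} {G : α → α → Prop} {G' : β → β → Prop} (f : α → β)
    (h : ∀ x y, G x y → Relation.EqvGen G' (f x) (f y)) {x y : α}
    (hxy : Relation.EqvGen G x y) : Relation.EqvGen G' (f x) (f y) := by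
  induction hxy with
  | rel x y hxy => exact h x y hxy
  | refl x => exact Relation.EqvGen.refl _
  | symm x y _ ih => exact Relation.EqvGen.symm _ _ ih
  | trans x y z _ _ ih1 ih2 => exact Relation.EqvGen.trans _ _ _ ih1 ih2

/-- the levels can be shifted -/
theorem Ct_shift {p r : ℕ} {w' w : Word} (t : ℤ) {x y : (ℤ × Bool) × ℤ} (h : Ct p r w' w x y) :
    Ct p r w' w (x.1, x.2 + t) (y.1, y.2 + t) :=
  map_eqv (fun x : (ℤ × Bool) × ℤ => (x.1, x.2 + t))
    (fun _ _ h => Relation.EqvGen.rel _ _ (Lt_shift t h)) h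

theorem Ct_shift_iff {p r : ℕ} {w' w : Word} (t : ℤ) {x y : ℤ × Bool} {n m : ℤ} :
    Ct p r w' w (x, n + t) (y, m + t) ↔ Ct p r w' w (x, n) (y, m) := by
  constructor
  · intro h
    have := Ct_shift (-t) h
    simpa using this
  · intro h
    exact Ct_shift t h

/-- forgetting the level -/
theorem Ct_Cn {p r : ℕ} {w' w : Word} {x y : (ℤ × Bool) × ℤ} (h : Ct p r w' w x y) :
    Cn p r w' w x.1 y.1 := by
  refine map_eqv (fun x : (ℤ × Bool) × ℤ => x.1) (fun x y h => ?_) h
  cases h with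
  | low a b n h => exact Relation.EqvGen.rel _ _ (Lg.low a b h)
  | upp a b n h => exact Relation.EqvGen.rel _ _ (Lg.upp a b h)
  | glue s i n h => exact Relation.EqvGen.rel _ _ (Lg.glue s i h)

/-- lifting a connection -/
theorem Cn_Ct {p r : ℕ} {w' w : Word} {x y : ℤ × Bool} (h : Cn p r w' w x y) (n : ℤ) :
    ∃ m : ℤ, Ct p r w' w (x, n) (y, m) := by
  unfold Cn at h
  revert n
  induction h with
  | rel x y h =>
    intro n
    cases h with
    | low a b h => exact ⟨n, Relation.EqvGen.rel _ _ (Lt.low a b n h)⟩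
    | upp a b h => exact ⟨n, Relation.EqvGen.rel _ _ (Lt.upp a b n h)⟩
    | glue s i h => exact ⟨_, Relation.EqvGen.rel _ _ (Lt.glue s i n h)⟩
  | refl x => exact fun n => ⟨n, Relation.EqvGen.refl _⟩
  | symm x y _ ih =>
    intro n
    obtain ⟨m, hm⟩ := ih 0
    have h1 := Ct_shift (n - m) hm
    simp only [zero_add, add_sub_cancel] at h1
    exact ⟨_, (Ct_equiv p r w' w).symm h1⟩
  | trans x y z _ _ ih1 ih2 =>
    intro n
    obtain ⟨m, hm⟩ := ih1 n
    obtain ⟨k, hk⟩ := ih2 m
    exact ⟨k, (Ct_equiv p r w' w).trans hm hk⟩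

/-- a translation of the index set -/
theorem ez_of_shift {ζ : ℂ} (hζ : ζ ≠ 0) {p r p' r' : ℕ} {w' w u' u : Word} (t : ℤ)
    (hg : Good p r w' w ↔ Good p' r' u' u)
    (hI : ∀ X, X ∈ Ix p r w' w ↔ X - t ∈ Ix p' r' u' u) :
    ez ζ p r w' w = ζ ^ (t - p + p') * ez ζ p' r' u' u := by
  unfold ez
  by_cases h : Good p r w' w
  · rw [if_pos h, if_pos (hg.1 h)]
    have h1 : ∑ᶠ X ∈ Ix p r w' w, ζ ^ (X - (p : ℤ)) =
        ∑ᶠ X ∈ Ix p' r' u' u, ζ ^ (X + t - (p : ℤ)) := by
      refine finsum_mem_eq_of_bijOn (fun X => X - t) ⟨?_, ?_, ?_⟩ ?_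
      · intro X hX; exact (hI X).1 hX
      · intro X _ Y _ h; simpa using h
      · intro X hX
        exact ⟨X + t, (hI _).2 (by simpa using hX), by simp⟩
      · intro X _; simp
    rw [h1, ← smul_eq_mul, smul_finsum]
    refine finsum_congr fun X => ?_
    rw [smul_finsum]
    refine finsum_congr fun hX => ?_
    rw [smul_eq_mul, ← zpow_add₀ hζ]
    congr 1
    ring
  · rw [if_neg h, if_neg (fun h' => h (hg.2 h')), mul_zero]

/-- the value if the index is unique -/
theorem ez_single {ζ : ℂ} {p r : ℕ} {w' w : Word} {X : ℤ} (hg : Good p r w' w)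
    (h : Ix p r w' w = {X}) : ez ζ p r w' w = ζ ^ (X - (p : ℤ)) := by
  unfold ez
  rw [if_pos hg, h, finsum_mem_singleton]

end Pool.Agent.S77.WD
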