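import Pool.Agent.S77.WD.Meas
import Pool.Agent.H863R2.Cyl.Markov

/-!
# The law of arms and winding on the infinite cylinder
-/

set_option autoImplicit false

namespace Pool.Agent.S77.WD
open Pool.Agent.H863R2.Cyl
open H906.Cyl
open Pool.Agent.H160R2.ML (RR IsEig)
open Pool.Agent.H988R2.Perc (Word PD)
open MeasureTheory Filter Topology

section
variable {m : ℕ}

/-- the row at the distance `h` is full -/
def FRow (h : ℕ) (r : Fin (m + 1) → Bool) : Prop := ∀ j : ℤ, cl r j = true ↔ (j + h) % 2 = 0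

theorem FRow_exists {n : ℕ} (hm : m + 1 = 2 * n) (h : ℕ) : ∃ r : Fin (m + 1) → Bool, FRow h r := by
  refine ⟨fun i => decide (((i : ℕ) + h) % 2 = 0), fun j => ?_⟩
  unfold cl
  simp only [decide_eq_true_eq]
  have h0 : (0 : ℤ) < (m : ℤ) + 1 := by omega
  have h1 := Int.emod_nonneg j h0.ne'
  have h2 := Int.emod_lt_of_pos j h0
  have e : ((Pool.Agent.H863R2.Cyl.ix m (j % ((m : ℤ) + 1)).toNat : ℕ)) = (j % ((m : ℤ) + 1)).toNat := by
    unfold Pool.Agent.H863R2.Cyl.ix
    simp only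
    apply Nat.mod_eq_of_lt
    omega
  rw [e]
  have e3 : (m : ℤ) + 1 = 2 * n := by exact_mod_cast hm
  have h3 := Int.mul_ediv_add_emod j ((m : ℤ) + 1)
  rw [e3] at h3 h1 h2 ⊢
  set q := j / (2 * (n : ℤ)) with hq
  set r := j % (2 * (n : ℤ)) with hr
  have h4 : j = 2 * (n * q) + r := by linarith
  have h5 : ((r.toNat : ℕ) : ℤ) = r := Int.toNat_of_nonneg h1
  constructor
  · intro h6
    have : (((r.toNat + h : ℕ) : ℤ)) % 2 = 0 := by exact_mod_cast h6
    push_cast at this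
    rw [h5] at this
    rw [h4]
    omega
  · intro h6
    rw [h4] at h6
    have : (((r.toNat + h : ℕ) : ℤ)) % 2 = 0 := by
      push_cast
      rw [h5]
      omega
    exact_mod_cast this

/-- some row is full -/
def RF {M : ℕ} (a : Fin M → Fin (m + 1) → Bool) : Prop := ∃ t : Fin M, FRow (M - 1 - t) (a t)

open Classical in
theorem card_not_RF {n : ℕ} (hm : m + 1 = 2 * n) (M : ℕ) :
    (∑ a : Fin M → Fin (m + 1) → Bool, if ¬ RF a then (1 : ℝ) else 0) ≤ (2 ^ (m + 1) - 1) ^ M := by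
  set S : Fin M → Finset (Fin (m + 1) → Bool) := fun t =>
    Finset.univ.filter (fun r => ¬ FRow (M - 1 - t) r) with hS
  have hcard : ∀ t, ((S t).card : ℝ) ≤ 2 ^ (m + 1) - 1 := by
    intro t
    obtain ⟨r, hr⟩ := FRow_exists hm (M - 1 - t)
    have h1 : (S t).card < (Finset.univ : Finset (Fin (m + 1) → Bool)).card := by
      apply Finset.card_lt_card
      refine ⟨Finset.subset_univ _, fun h => ?_⟩
      have h2 := h (Finset.mem_univ r)
      rw [hS, Finset.mem_filter] at h2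
      exact h2.2 hr
    have h2 : (Finset.univ : Finset (Fin (m + 1) → Bool)).card = 2 ^ (m + 1) := by
      rw [Finset.card_univ, Fintype.card_fun, Fintype.card_bool, Fintype.card_fin]
    rw [h2] at h1
    have h3 : ((S t).card : ℝ) + 1 ≤ 2 ^ (m + 1) := by exact_mod_cast h1
    linarith
  rw [← Finset.sum_filter, Finset.sum_const, nsmul_eq_mul, mul_one]
  have h1 : (Finset.univ.filter (fun a : Fin M → Fin (m + 1) → Bool => ¬ RF a)) =
      Fintype.piFinset S := by
    ext a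
    rw [Finset.mem_filter, Fintype.mem_piFinset]
    simp only [Finset.mem_univ, true_and, RF, not_exists, hS, Finset.mem_filter]
  rw [h1, Fintype.card_piFinset]
  push_cast
  calc ∏ t, ((S t).card : ℝ) ≤ ∏ _t : Fin M, ((2 : ℝ) ^ (m + 1) - 1) :=
        Finset.prod_le_prod (fun t _ => Nat.cast_nonneg _) (fun t _ => hcard t)
    _ = _ := by simp

end

section
variable {n k M : ℕ} {ω : Conf n}

/-- the words of a block with full rows -/
theorem words_of_RF (hn : 1 ≤ n) (h1 : RF (rL M ω)) (h2 : RF (rU M ω))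
    (σ τ : Wd (2 * n - 1 + 1)) :
    Words ω (rows (2 * n - 1) (ext (rU M ω)) M τ).1 (rows (2 * n - 1) (ext (rL M ω)) M σ).1 := by
  obtain ⟨t, ht⟩ := h1
  obtain ⟨t', ht'⟩ := h2
  have hm : 1 ≤ 2 * n - 1 := by omega
  have e1 : rows (2 * n - 1) (ext (rL M ω)) M σ =
      rows (2 * n - 1) (fun t => dL ω (M - 1 - t)) M σ := by
    refine rows_congr (fun t ht => ?_) σ
    simp only [ext, dif_pos ht]
    rfl
  have e2 : rows (2 * n - 1) (ext (rU M ω)) M τ =
      rows (2 * n - 1) (fun t => dU ω (M - 1 - t)) M τ := by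
    refine rows_congr (fun t ht => ?_) τ
    simp only [ext, dif_pos ht]
    rfl
  rw [e1, e2]
  refine ⟨?_, ?_, ?_, ?_⟩
  · have := (rows (2 * n - 1) (fun t => dL ω (M - 1 - t)) M σ).2.1
    omega
  · have := (rows (2 * n - 1) (fun t => dU ω (M - 1 - t)) M τ).2.1
    omega
  · intro a b
    exact half (h0 := M - 1 - t) hm ht (by have := t.2; omega) σ a b
  · intro a b
    exact half (h0 := M - 1 - t') hm ht' (by have := t'.2; omega) τ a b

open Classical in
/-- **the law on the infinite cylinder is the stationary law** -/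
theorem prob_gen (hn : 1 ≤ n) (μ : Wd (2 * n - 1 + 1) → ℝ)
    (hμ0 : ∀ σ, 0 ≤ μ σ) (hμ : ∑ σ, μ σ = 1)
    (hst : ∀ σ, ∑ c : Fin (2 * n - 1 + 1) → Bool, push (Tc (2 * n - 1) c) μ σ
      = 2 ^ (2 * n - 1 + 1) * μ σ) (E : Conf n → Prop) (Φ : Word → Word → Prop)
    (hE : ∀ (ω : Conf n) (w' w : Word), Words ω w' w → Ok w → Ok w' → (E ω ↔ Φ w' w)) :
    (crit n).real {ω | E ω} = ∑ σ, ∑ τ, (if Φ τ.1 σ.1 then 1 else 0) * μ σ * μ τ := by
  have hm2 : 2 * n - 1 + 1 = 2 * n := by omega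
  -- the error
  have main : ∀ M : ℕ, |(crit n).real {ω | E ω} - (∑ σ, ∑ τ, (if Φ τ.1 σ.1 then 1 else 0) * μ σ * μ τ)| ≤
      2 * ((2 ^ (2 * n - 1 + 1) - 1) / 2 ^ (2 * n - 1 + 1)) ^ M := by
    intro M
    set T : ℝ := (2 ^ (2 * n - 1 + 1)) ^ M with hT
    have hT0 : 0 < T := by positivity
    set HH : (Fin M → Fin (2 * n - 1 + 1) → Bool) → (Fin M → Fin (2 * n - 1 + 1) → Bool) → Wd (2 * n - 1 + 1) → Wd (2 * n - 1 + 1) →
      Prop := fun a b σ τ => Φ (rows (2 * n - 1) (ext b) M τ).1 (rows (2 * n - 1) (ext a) M σ).1 with hHH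
    set A : Set (Conf n) := {ω | E ω} with hA
    set B : Set (Conf n) := {ω | ¬ (RF (rL M ω) ∧ RF (rU M ω))} with hB
    set C : Wd (2 * n - 1 + 1) → Wd (2 * n - 1 + 1) → Set (Conf n) := fun σ τ =>
      {ω | HH (rL M ω) (rU M ω) σ τ} with hC
    have hon : ∀ σ τ (ω : Conf n), ω ∉ B → (ω ∈ A ↔ ω ∈ C σ τ) := by
      intro σ τ ω hω
      have hω' : RF (rL M ω) ∧ RF (rU M ω) := by
        by_contra h; exact hω h
      have W := words_of_RF hn hω'.1 hω'.2 σ τ
      exact hE ω _ _ W (rows (2 * n - 1) (ext (rL M ω)) M σ).2.2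
        (rows (2 * n - 1) (ext (rU M ω)) M τ).2.2
    -- probability of B
    have hBq : (crit n).real B ≤ 2 * ((2 ^ (2 * n - 1 + 1) - 1) / 2 ^ (2 * n - 1 + 1)) ^ M := by
      have h1 := block_law hn M (fun a b => ¬ (RF a ∧ RF b))
      have h2 : (∑ a : Fin M → Fin (2 * n - 1 + 1) → Bool, ∑ b : Fin M → Fin (2 * n - 1 + 1) → Bool,
          if ¬ (RF a ∧ RF b) then (1 : ℝ) else 0) ≤ 2 * ((2 ^ (2 * n - 1 + 1) - 1) ^ M * T) := by
        have h3 : ∀ a b : Fin M → Fin (2 * n - 1 + 1) → Bool, (if ¬ (RF a ∧ RF b) then (1 : ℝ) else 0) ≤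
            (if ¬ RF a then 1 else 0) + (if ¬ RF b then 1 else 0) := by
          intro a b
          by_cases ha : RF a <;> by_cases hb : RF b <;> simp [ha, hb]
        have hc : (Fintype.card (Fin M → Fin (2 * n - 1 + 1) → Bool) : ℝ) = T := by
          rw [Fintype.card_fun, Fintype.card_fun, Fintype.card_bool, Fintype.card_fin,
            Fintype.card_fin]
          push_cast
          rfl
        calc _ ≤ ∑ a : Fin M → Fin (2 * n - 1 + 1) → Bool, ∑ b : Fin M → Fin (2 * n - 1 + 1) → Bool,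
              ((if ¬ RF a then (1 : ℝ) else 0) + (if ¬ RF b then 1 else 0)) :=
              Finset.sum_le_sum fun a _ => Finset.sum_le_sum fun b _ => h3 a b
          _ = T * (∑ a : Fin M → Fin (2 * n - 1 + 1) → Bool, if ¬ RF a then (1 : ℝ) else 0) +
              T * (∑ b : Fin M → Fin (2 * n - 1 + 1) → Bool, if ¬ RF b then (1 : ℝ) else 0) := by
              simp only [Finset.sum_add_distrib, Finset.sum_const, Finset.card_univ, nsmul_eq_mul,
                hc]
              rw [← Finset.mul_sum]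
          _ ≤ _ := by
              have h4 := mul_le_mul_of_nonneg_left (card_not_RF (m := 2 * n - 1) hm2 M) hT0.le
              linarith
      have h5 : (crit n).real B * (T * T) ≤ 2 * ((2 ^ (2 * n - 1 + 1) - 1) ^ M * T) := by
        have h6 : (crit n).real B * (T * T) = _ := h1
        rw [h6]
        refine le_trans (le_of_eq ?_) h2
        refine Finset.sum_congr rfl fun a _ => Finset.sum_congr rfl fun b _ => ?_
        by_cases h : (RF a ∧ RF b) <;> simp [h]
      have h7 : (crit n).real B * T ≤ 2 * (2 ^ (2 * n - 1 + 1) - 1) ^ M := by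
        have : (crit n).real B * T * T ≤ 2 * (2 ^ (2 * n - 1 + 1) - 1) ^ M * T := by
          calc _ = (crit n).real B * (T * T) := by ring
            _ ≤ _ := h5
            _ = _ := by ring
        exact le_of_mul_le_mul_right this hT0
      rw [div_pow, ← mul_div_assoc, le_div_iff₀ hT0]
      exact h7
    -- the events
    have hup : ∀ σ τ, (crit n).real A ≤ (crit n).real (C σ τ ∩ Bᶜ) + (crit n).real B := by
      intro σ τ
      refine (measureReal_mono (s₂ := (C σ τ ∩ Bᶜ) ∪ B) ?_).trans (measureReal_union_le _ _)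
      intro ω hω
      by_cases h : ω ∈ B
      · exact Or.inr h
      · exact Or.inl ⟨(hon σ τ ω h).1 hω, h⟩
    have hlo : ∀ σ τ, (crit n).real (C σ τ ∩ Bᶜ) ≤ (crit n).real A := by
      intro σ τ
      refine measureReal_mono ?_
      rintro ω ⟨h1, h2⟩
      exact (hon σ τ ω h2).2 h1
    have hCu : ∀ σ τ, (crit n).real (C σ τ) ≤ (crit n).real (C σ τ ∩ Bᶜ) + (crit n).real B := by
      intro σ τ
      refine (measureReal_mono (s₂ := (C σ τ ∩ Bᶜ) ∪ B) ?_).trans (measureReal_union_le _ _)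
      intro ω hω
      by_cases h : ω ∈ B
      · exact Or.inr h
      · exact Or.inl ⟨hω, h⟩
    have hCl : ∀ σ τ, (crit n).real (C σ τ ∩ Bᶜ) ≤ (crit n).real (C σ τ) := fun σ τ =>
      measureReal_mono Set.inter_subset_left
    -- the average of the probabilities of C
    have hav : ∑ σ, ∑ τ, μ σ * μ τ * (crit n).real (C σ τ) = (∑ σ, ∑ τ, (if Φ τ.1 σ.1 then 1 else 0) * μ σ * μ τ) := by
      have h1 := avg_rows hst M (fun σ τ => if Φ τ.1 σ.1 then (1 : ℝ) else 0)
      have h2 : ∀ σ τ, (crit n).real (C σ τ) * (T * T) = ∑ a, ∑ b,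
          if HH a b σ τ then (1 : ℝ) else 0 := fun σ τ => block_law hn M (fun a b => HH a b σ τ)
      have h3 : (∑ σ, ∑ τ, μ σ * μ τ * (crit n).real (C σ τ)) * (T * T) = T * (T * (∑ σ, ∑ τ, (if Φ τ.1 σ.1 then 1 else 0) * μ σ * μ τ)) := by
        have h4 : (∑ σ, ∑ τ, μ σ * μ τ * (crit n).real (C σ τ)) * (T * T) =
            ∑ a : Fin M → (Fin (2 * n - 1 + 1) → Bool), ∑ b : Fin M → (Fin (2 * n - 1 + 1) → Bool),
              ∑ σ, ∑ τ, μ σ * μ τ * (if HH a b σ τ then (1 : ℝ) else 0) := by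
          have h5 : ∀ σ τ, μ σ * μ τ * (crit n).real (C σ τ) * (T * T) =
              ∑ a : Fin M → (Fin (2 * n - 1 + 1) → Bool), ∑ b : Fin M → (Fin (2 * n - 1 + 1) → Bool),
                μ σ * μ τ * (if HH a b σ τ then (1 : ℝ) else 0) := by
            intro σ τ
            rw [mul_assoc, h2, Finset.mul_sum]
            refine Finset.sum_congr rfl fun a _ => ?_
            rw [Finset.mul_sum]
          simp only [Finset.sum_mul, h5]
          -- exchange of the sums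
          have h6 : ∀ f : Wd (2 * n - 1 + 1) → Wd (2 * n - 1 + 1) → (Fin M → (Fin (2 * n - 1 + 1) → Bool)) →
              (Fin M → (Fin (2 * n - 1 + 1) → Bool)) → ℝ,
              ∑ σ, ∑ τ, ∑ a, ∑ b, f σ τ a b = ∑ a, ∑ b, ∑ σ, ∑ τ, f σ τ a b := by
            intro f
            calc ∑ σ, ∑ τ, ∑ a, ∑ b, f σ τ a b = ∑ σ, ∑ a, ∑ τ, ∑ b, f σ τ a b :=
                  Finset.sum_congr rfl fun σ _ => Finset.sum_comm
              _ = ∑ a, ∑ σ, ∑ τ, ∑ b, f σ τ a b := Finset.sum_comm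
              _ = ∑ a, ∑ σ, ∑ b, ∑ τ, f σ τ a b :=
                  Finset.sum_congr rfl fun a _ => Finset.sum_congr rfl fun σ _ => Finset.sum_comm
              _ = ∑ a, ∑ b, ∑ σ, ∑ τ, f σ τ a b :=
                  Finset.sum_congr rfl fun a _ => Finset.sum_comm
          exact h6 _
        rw [h4]
        have h7 : (∑ a : Fin M → (Fin (2 * n - 1 + 1) → Bool), ∑ b : Fin M → (Fin (2 * n - 1 + 1) → Bool),
              ∑ σ, ∑ τ, μ σ * μ τ * (if HH a b σ τ then (1 : ℝ) else 0)) = _ := h1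
        rw [h7]
        have h8 : ∑ σ, ∑ τ, μ σ * μ τ * (if Φ τ.1 σ.1 then (1 : ℝ) else 0) = (∑ σ, ∑ τ, (if Φ τ.1 σ.1 then 1 else 0) * μ σ * μ τ) := by
          refine Finset.sum_congr rfl fun σ _ => Finset.sum_congr rfl fun τ _ => ?_
          ring
        rw [h8]
      have h9 : (∑ σ, ∑ τ, μ σ * μ τ * (crit n).real (C σ τ)) * (T * T) = (∑ σ, ∑ τ, (if Φ τ.1 σ.1 then 1 else 0) * μ σ * μ τ) * (T * T) := by
        rw [h3]; ring
      exact mul_right_cancel₀ (by positivity) h9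
    -- conclusion
    have hmm : ∑ σ : Wd (2 * n - 1 + 1), ∑ τ : Wd (2 * n - 1 + 1), μ σ * μ τ = 1 := by
      rw [← Finset.sum_mul_sum, hμ, one_mul]
    have hw : ∀ f : Wd (2 * n - 1 + 1) → Wd (2 * n - 1 + 1) → ℝ, (∀ σ τ, |f σ τ| ≤ (crit n).real B) →
        |∑ σ, ∑ τ, μ σ * μ τ * f σ τ| ≤ (crit n).real B := by
      intro f hf
      calc |∑ σ, ∑ τ, μ σ * μ τ * f σ τ| ≤ ∑ σ, ∑ τ, μ σ * μ τ * |f σ τ| := by
            refine (Finset.abs_sum_le_sum_abs _ _).trans (Finset.sum_le_sum fun σ _ => ?_)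
            refine (Finset.abs_sum_le_sum_abs _ _).trans (Finset.sum_le_sum fun τ _ => ?_)
            rw [abs_mul, abs_of_nonneg (mul_nonneg (hμ0 σ) (hμ0 τ))]
        _ ≤ ∑ σ, ∑ τ, μ σ * μ τ * (crit n).real B :=
            Finset.sum_le_sum fun σ _ => Finset.sum_le_sum fun τ _ =>
              mul_le_mul_of_nonneg_left (hf σ τ) (mul_nonneg (hμ0 σ) (hμ0 τ))
        _ = (crit n).real B := by
            simp only [← Finset.sum_mul]
            rw [hmm, one_mul]
    have e1 : (crit n).real A - (∑ σ, ∑ τ, (if Φ τ.1 σ.1 then 1 else 0) * μ σ * μ τ) =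
        ∑ σ, ∑ τ, μ σ * μ τ * ((crit n).real A - (crit n).real (C σ τ)) := by
      simp only [mul_sub, Finset.sum_sub_distrib]
      rw [hav]
      simp only [← Finset.sum_mul]
      rw [hmm, one_mul]
    rw [e1]
    refine (hw _ fun σ τ => ?_).trans hBq
    rw [abs_le]
    constructor
    · have a1 := hCu σ τ
      have a2 := hlo σ τ
      linarith
    · have a1 := hup σ τ
      have a2 := hCl σ τ
      linarith
  -- the limit
  have hlim : Tendsto (fun M : ℕ => 2 * (((2 : ℝ) ^ (2 * n - 1 + 1) - 1) / 2 ^ (2 * n - 1 + 1)) ^ M) atTop (𝓝 (2 * 0)) := by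
    refine Tendsto.const_mul 2 (tendsto_pow_atTop_nhds_zero_of_lt_one ?_ ?_)
    · refine div_nonneg ?_ (by positivity)
      have : (1 : ℝ) ≤ 2 ^ (2 * n - 1 + 1) := one_le_pow₀ (by norm_num)
      linarith
    · rw [div_lt_one (by positivity)]
      linarith
  rw [mul_zero] at hlim
  have h0 := ge_of_tendsto' hlim main
  exact sub_eq_zero.1 (abs_nonpos_iff.1 h0)

open Classical in
/-- the law of the winding -/
theorem prob_eq (hn : 1 ≤ n) (hk : 1 ≤ k) (hkn : k ≤ 2 * n) (μ : Wd (2 * n - 1 + 1) → ℝ)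
    (hμ0 : ∀ σ, 0 ≤ μ σ) (hμ : ∑ σ, μ σ = 1)
    (hst : ∀ σ, ∑ c : Fin (2 * n - 1 + 1) → Bool, push (Tc (2 * n - 1) c) μ σ
      = 2 ^ (2 * n - 1 + 1) * μ σ) (y : ℤ) :
    (crit n).real {ω | Arms n k ω ∧ Wind n k ω y} = Py k μ y :=
  prob_gen hn μ hμ0 hμ hst _ (fun w' w => HasW k w' w y)
    (fun _ _ _ W h h' => arms_wind_iff hn hk hkn W h h' y)

open Classical in
/-- the law of the winding, sets of values -/
theorem prob_set (hn : 1 ≤ n) (hk : 1 ≤ k) (hkn : k ≤ 2 * n) (μ : Wd (2 * n - 1 + 1) → ℝ)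
    (hμ0 : ∀ σ, 0 ≤ μ σ) (hμ : ∑ σ, μ σ = 1)
    (hst : ∀ σ, ∑ c : Fin (2 * n - 1 + 1) → Bool, push (Tc (2 * n - 1) c) μ σ
      = 2 ^ (2 * n - 1 + 1) * μ σ) (S : ℤ → Prop) :
    (crit n).real {ω | Arms n k ω ∧ ∃ w : ℤ, Wind n k ω w ∧ S w} =
      ∑ y ∈ Finset.Icc (-((2 * n - k : ℕ) : ℤ)) ((2 * n - k : ℕ) : ℤ),
        if S y then Py k μ y else 0 := by
  have h1 := prob_gen hn μ hμ0 hμ hst (fun ω => Arms n k ω ∧ ∃ w : ℤ, Wind n k ω w ∧ S w)
    (fun w' w => ∃ y, HasW k w' w y ∧ S y) (fun ω w' w W h h' => by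
      constructor
      · rintro ⟨h1, y, h2, h3⟩
        exact ⟨y, (arms_wind_iff hn hk hkn W h h' y).1 ⟨h1, h2⟩, h3⟩
      · rintro ⟨y, h1, h2⟩
        have h3 := (arms_wind_iff hn hk hkn W h h' y).2 h1
        exact ⟨h3.1, y, h3.2, h2⟩)
  rw [h1]
  have e : ∀ σ τ : Wd (2 * n - 1 + 1), (if ∃ y, HasW k τ.1 σ.1 y ∧ S y then (1 : ℝ) else 0) =
      ∑ y ∈ Finset.Icc (-((2 * n - k : ℕ) : ℤ)) ((2 * n - k : ℕ) : ℤ),
        if S y then (if HasW k τ.1 σ.1 y then (1 : ℝ) else 0) else 0 := by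
    intro σ τ
    by_cases hh : ∃ y, HasW k τ.1 σ.1 y ∧ S y
    · obtain ⟨y, hy, hS⟩ := hh
      rw [if_pos ⟨y, hy, hS⟩, Finset.sum_eq_single y]
      · rw [if_pos hS, if_pos hy]
      · intro z _ hz
        rw [if_neg (show ¬ HasW k τ.1 σ.1 z from fun h => hz (h.unique hy))]
        simp
      · intro hmem
        exfalso
        apply hmem
        obtain ⟨z, hz, hz2, -⟩ := HasW.exists (n := n) hk hkn τ.2.2 σ.2.2
          (by have := τ.2.1; omega) (by have := σ.2.1; omega) hy.1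
        rw [hy.unique hz]
        exact Finset.mem_Icc.2 (abs_le.1 hz2)
    · rw [if_neg hh]
      symm
      refine Finset.sum_eq_zero fun y _ => ?_
      by_cases hS : S y
      · rw [if_pos hS, if_neg (fun h => hh ⟨y, h, hS⟩)]
      · rw [if_neg hS]
  simp only [e]
  unfold Py
  simp only [Finset.sum_mul]
  rw [Finset.sum_congr rfl fun σ _ => Finset.sum_comm, Finset.sum_comm]
  refine Finset.sum_congr rfl fun y _ => ?_
  by_cases hS : S y
  · simp only [if_pos hS]
  · simp only [if_neg hS, zero_mul, Finset.sum_const_zero]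

open Classical in
/-- null events -/
theorem prob_null (hn : 1 ≤ n) (E : Conf n → Prop)
    (hE : ∀ (ω : Conf n) (w' w : Word), Words ω w' w → Ok w → Ok w' → ¬ E ω) :
    (crit n) {ω | E ω} = 0 := by
  obtain ⟨μ, hμ0, hμ1, hst, -, -⟩ := markov_exists (2 * n - 1)
  have h1 := prob_gen hn μ hμ0 hμ1 hst E (fun _ _ => False)
    (fun ω w' w W h h' => ⟨fun hh => hE ω w' w W h h' hh, False.elim⟩)
  simp only [if_false, zero_mul, Finset.sum_const_zero] at h1
  rwa [measureReal_eq_zero_iff] at h1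

end

end Pool.Agent.S77.WD
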