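import Mathlib

/-!
# Large deviations from the asymptotics of the Laplace transforms
-/

set_option autoImplicit false

namespace Pool.Agent.S77.WD.Ldp
open Filter Topology

variable {N : ℕ → ℕ} {p : ℕ → ℤ → ℝ} {L : ℕ → ℝ} {a b : ℝ}

/-- the index set -/
noncomputable abbrev Ic (N : ℕ → ℕ) (n : ℕ) : Finset ℤ := Finset.Icc (-(N n : ℤ)) (N n)

/-- the Laplace transform -/
noncomputable def MM (N : ℕ → ℕ) (p : ℕ → ℤ → ℝ) (n : ℕ) (c : ℝ) : ℝ :=
  ∑ y ∈ Ic N n, Real.exp (c * y / 2) * p n y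

open Classical in
/-- the tail -/
noncomputable def TT (N : ℕ → ℕ) (p : ℕ → ℤ → ℝ) (L : ℕ → ℝ) (n : ℕ) (x : ℝ) : ℝ :=
  ∑ y ∈ Ic N n, if x * L n ≤ (y : ℝ) / 2 then p n y else 0

open Classical in
theorem upper (hp : ∀ n y, 0 ≤ p n y) (n : ℕ) {c x : ℝ} (hc : 0 ≤ c) :
    TT N p L n x ≤ Real.exp (-(c * (x * L n))) * MM N p n c := by
  unfold TT MM
  rw [Finset.mul_sum]
  refine Finset.sum_le_sum fun y _ => ?_
  split_ifs with h
  · rw [← mul_assoc, ← Real.exp_add]
    have h1 : 1 ≤ Real.exp (-(c * (x * L n)) + c * y / 2) := by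
      apply Real.one_le_exp
      have := mul_le_mul_of_nonneg_left h hc
      linarith
    exact le_mul_of_one_le_left (hp n y) h1
  · exact mul_nonneg (Real.exp_pos _).le (mul_nonneg (Real.exp_pos _).le (hp n y))

open Classical in
/-- the tilted lower tail -/
theorem tilt_lo (hp : ∀ n y, 0 ≤ p n y) (n : ℕ) {c s x : ℝ} (hs : 0 ≤ s) :
    ∑ y ∈ Ic N n, (if (y : ℝ) / 2 < x * L n then Real.exp (c * y / 2) * p n y else 0) ≤
      Real.exp (s * (x * L n)) * MM N p n (c - s) := by
  unfold MM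
  rw [Finset.mul_sum]
  refine Finset.sum_le_sum fun y _ => ?_
  split_ifs with h
  · rw [← mul_assoc, ← Real.exp_add]
    refine mul_le_mul_of_nonneg_right (Real.exp_le_exp.2 ?_) (hp n y)
    have := mul_le_mul_of_nonneg_left h.le hs
    have e : (c - s) * y / 2 = c * y / 2 - s * (y / 2) := by ring
    rw [e]
    linarith
  · exact mul_nonneg (Real.exp_pos _).le (mul_nonneg (Real.exp_pos _).le (hp n y))

open Classical in
/-- the tilted upper tail -/
theorem tilt_up (hp : ∀ n y, 0 ≤ p n y) (n : ℕ) {c s x : ℝ} (hs : 0 ≤ s) :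
    ∑ y ∈ Ic N n, (if x * L n < (y : ℝ) / 2 then Real.exp (c * y / 2) * p n y else 0) ≤
      Real.exp (-(s * (x * L n))) * MM N p n (c + s) := by
  unfold MM
  rw [Finset.mul_sum]
  refine Finset.sum_le_sum fun y _ => ?_
  split_ifs with h
  · rw [← mul_assoc, ← Real.exp_add]
    refine mul_le_mul_of_nonneg_right (Real.exp_le_exp.2 ?_) (hp n y)
    have := mul_le_mul_of_nonneg_left h.le hs
    have e : (c + s) * y / 2 = c * y / 2 + s * (y / 2) := by ring
    rw [e]
    linarith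
  · exact mul_nonneg (Real.exp_pos _).le (mul_nonneg (Real.exp_pos _).le (hp n y))

open Classical in
/-- the lower bound of the tail -/
theorem lower (hp : ∀ n y, 0 ≤ p n y) (n : ℕ) {c s x x2 : ℝ} (hc : 0 ≤ c) (hs : 0 ≤ s)
    (h1 : Real.exp (s * (x * L n)) * MM N p n (c - s) ≤ MM N p n c / 4)
    (h2 : Real.exp (-(s * (x2 * L n))) * MM N p n (c + s) ≤ MM N p n c / 4) :
    MM N p n c / 2 ≤ Real.exp (c * (x2 * L n)) * TT N p L n x := by
  have e : MM N p n c ≤
      ∑ y ∈ Ic N n, (if (y : ℝ) / 2 < x * L n then Real.exp (c * y / 2) * p n y else 0) +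
      ∑ y ∈ Ic N n, (if x2 * L n < (y : ℝ) / 2 then Real.exp (c * y / 2) * p n y else 0) +
      Real.exp (c * (x2 * L n)) * TT N p L n x := by
    unfold MM TT
    rw [Finset.mul_sum, ← Finset.sum_add_distrib, ← Finset.sum_add_distrib]
    refine Finset.sum_le_sum fun y _ => ?_
    have h0 : 0 ≤ Real.exp (c * y / 2) * p n y := mul_nonneg (Real.exp_pos _).le (hp n y)
    have h0' : 0 ≤ Real.exp (c * (x2 * L n)) * p n y := mul_nonneg (Real.exp_pos _).le (hp n y)
    by_cases ha : (y : ℝ) / 2 < x * L n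
    · rw [if_pos ha, if_neg (show ¬ x * L n ≤ (y : ℝ) / 2 by linarith), mul_zero]
      split_ifs <;> linarith
    · rw [if_neg ha, if_pos (show x * L n ≤ (y : ℝ) / 2 by linarith)]
      by_cases hb : x2 * L n < (y : ℝ) / 2
      · rw [if_pos hb]
        linarith
      · rw [if_neg hb]
        have h3 : Real.exp (c * y / 2) * p n y ≤ Real.exp (c * (x2 * L n)) * p n y := by
          refine mul_le_mul_of_nonneg_right (Real.exp_le_exp.2 ?_) (hp n y)
          have := mul_le_mul_of_nonneg_left (not_lt.1 hb) hc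
          linarith
        linarith
  have e1 := tilt_lo (N := N) (L := L) hp n (c := c) (s := s) (x := x) hs
  have e2 := tilt_up (N := N) (L := L) hp n (c := c) (s := s) (x := x2) hs
  linarith

/-- **large deviations** -/
theorem main (hp : ∀ n y, 0 ≤ p n y) (hb : 0 < b) (hL : Tendsto L atTop atTop)
    (hM : ∀ c : ℝ, ∃ C : ℝ, ∀ᶠ n in atTop, 0 < MM N p n c ∧
      |Real.log (MM N p n c) - (b * c ^ 2 - a) * L n| ≤ C) {x : ℝ} (hx : 0 < x) :
    Tendsto (fun n => Real.log (TT N p L n x) / L n) atTop (𝓝 (-a - x ^ 2 / (4 * b))) := by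
  -- lower bound with a parameter
  have low : ∀ ε : ℝ, 0 < ε → ∃ C : ℝ, ∀ᶠ n in atTop, 0 < TT N p L n x ∧
      (-((x + ε) * (x + 2 * ε)) / (2 * b) + (x + ε) ^ 2 / (4 * b) - a) * L n - C ≤
        Real.log (TT N p L n x) := by
    intro ε hε
    set c := (x + ε) / (2 * b) with hcdef
    set s := ε / (2 * b) with hsdef
    have hc : 0 ≤ c := by positivity
    have hs : 0 ≤ s := by positivity
    obtain ⟨C0, h0⟩ := hM c
    obtain ⟨C1, h1⟩ := hM (c - s)
    obtain ⟨C2, h2⟩ := hM (c + s)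
    refine ⟨C0 + Real.log 2, ?_⟩
    filter_upwards [h0, h1, h2, hL.eventually_ge_atTop 0,
      hL.eventually_ge_atTop ((C0 + C1 + Real.log 4) * (4 * b) / ε ^ 2),
      hL.eventually_ge_atTop ((C0 + C2 + Real.log 4) * (4 * b) / ε ^ 2)] with n h0 h1 h2 hL0 hL1 hL2
    obtain ⟨m0, k0⟩ := h0
    obtain ⟨m1, k1⟩ := h1
    obtain ⟨m2, k2⟩ := h2
    rw [abs_le] at k0 k1 k2
    rw [div_le_iff₀ (by positivity)] at hL1 hL2
    have hq : ε ^ 2 / (4 * b) * L n * (4 * b) = L n * ε ^ 2 := by field_simp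
    have g1 : C0 + C1 + Real.log 4 ≤ ε ^ 2 / (4 * b) * L n := by
      have : (C0 + C1 + Real.log 4) * (4 * b) ≤ ε ^ 2 / (4 * b) * L n * (4 * b) := by
        rw [hq]; exact hL1
      exact le_of_mul_le_mul_right this (by positivity)
    have g2 : C0 + C2 + Real.log 4 ≤ ε ^ 2 / (4 * b) * L n := by
      have : (C0 + C2 + Real.log 4) * (4 * b) ≤ ε ^ 2 / (4 * b) * L n * (4 * b) := by
        rw [hq]; exact hL2
      exact le_of_mul_le_mul_right this (by positivity)
    have i1 : s * x + (b * (c - s) ^ 2 - a) = (b * c ^ 2 - a) - ε ^ 2 / (4 * b) := by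
      rw [hcdef, hsdef]; field_simp; ring
    have i2 : -(s * (x + 2 * ε)) + (b * (c + s) ^ 2 - a) = (b * c ^ 2 - a) - ε ^ 2 / (4 * b) := by
      rw [hcdef, hsdef]; field_simp; ring
    have a1 : Real.exp (s * (x * L n)) * MM N p n (c - s) ≤ MM N p n c / 4 := by
      rw [← Real.log_le_log_iff (by positivity) (by positivity),
        Real.log_mul (Real.exp_pos _).ne' m1.ne', Real.log_exp, Real.log_div m0.ne' (by norm_num)]
      have e : s * (x * L n) + (b * (c - s) ^ 2 - a) * L n =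
          ((b * c ^ 2 - a) - ε ^ 2 / (4 * b)) * L n := by rw [← i1]; ring
      linarith
    have a2 : Real.exp (-(s * ((x + 2 * ε) * L n))) * MM N p n (c + s) ≤ MM N p n c / 4 := by
      rw [← Real.log_le_log_iff (by positivity) (by positivity),
        Real.log_mul (Real.exp_pos _).ne' m2.ne', Real.log_exp, Real.log_div m0.ne' (by norm_num)]
      have e : -(s * ((x + 2 * ε) * L n)) + (b * (c + s) ^ 2 - a) * L n =
          ((b * c ^ 2 - a) - ε ^ 2 / (4 * b)) * L n := by rw [← i2]; ring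
      linarith
    have a3 := lower (N := N) (L := L) hp n (x := x) hc hs a1 a2
    have hT : 0 < TT N p L n x := by
      have : 0 < Real.exp (c * ((x + 2 * ε) * L n)) * TT N p L n x := lt_of_lt_of_le (by positivity) a3
      exact (pos_iff_pos_of_mul_pos this).1 (Real.exp_pos _)
    refine ⟨hT, ?_⟩
    have a4 := Real.log_le_log (by positivity) a3
    rw [Real.log_div m0.ne' (by norm_num), Real.log_mul (Real.exp_pos _).ne' hT.ne',
      Real.log_exp] at a4
    have e : -((x + ε) * (x + 2 * ε)) / (2 * b) + (x + ε) ^ 2 / (4 * b) - a =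
        (b * c ^ 2 - a) - c * (x + 2 * ε) := by
      rw [hcdef]; field_simp; ring
    rw [e]
    linarith
  -- upper bound
  have upp : ∃ C : ℝ, ∀ᶠ n in atTop, Real.log (TT N p L n x) ≤ (-a - x ^ 2 / (4 * b)) * L n + C := by
    obtain ⟨C, hC⟩ := hM (x / (2 * b))
    obtain ⟨_, hlow⟩ := low 1 one_pos
    refine ⟨C, ?_⟩
    filter_upwards [hC, hlow] with n h1 h2
    obtain ⟨m1, k1⟩ := h1
    rw [abs_le] at k1
    have h3 := upper (N := N) (L := L) hp n (c := x / (2 * b)) (x := x) (by positivity)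
    have h4 := Real.log_le_log h2.1 h3
    rw [Real.log_mul (Real.exp_pos _).ne' m1.ne', Real.log_exp] at h4
    have e : -a - x ^ 2 / (4 * b) = (b * (x / (2 * b)) ^ 2 - a) - x / (2 * b) * x := by
      field_simp; ring
    rw [e]
    linarith
  -- conclusion
  rw [tendsto_order]
  constructor
  · intro r hr
    -- choose ε
    have hcont : Tendsto (fun ε : ℝ => -((x + ε) * (x + 2 * ε)) / (2 * b) + (x + ε) ^ 2 / (4 * b) - a)
        (𝓝[>] 0) (𝓝 (-a - x ^ 2 / (4 * b))) := by
      have h1 : Continuous (fun ε : ℝ => -((x + ε) * (x + 2 * ε)) / (2 * b) + (x + ε) ^ 2 / (4 * b) - a) := by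
        fun_prop
      have h2 := h1.tendsto 0
      have e : -((x + 0) * (x + 2 * 0)) / (2 * b) + (x + 0) ^ 2 / (4 * b) - a =
          -a - x ^ 2 / (4 * b) := by
        field_simp; ring
      rw [e] at h2
      exact h2.mono_left nhdsWithin_le_nhds
    obtain ⟨ε, hε1, hε2⟩ := ((hcont.eventually_const_lt hr).and self_mem_nhdsWithin).exists
    obtain ⟨C, hC⟩ := low ε hε2
    set R := -((x + ε) * (x + 2 * ε)) / (2 * b) + (x + ε) ^ 2 / (4 * b) - a with hR
    filter_upwards [hC, hL.eventually_gt_atTop 0, hL.eventually_gt_atTop (C / (R - r))]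
      with n h1 h2 h3
    rw [lt_div_iff₀ h2]
    rw [div_lt_iff₀ (by linarith)] at h3
    have h4 := h1.2
    nlinarith
  · intro r hr
    obtain ⟨C, hC⟩ := upp
    set R := -a - x ^ 2 / (4 * b) with hR
    filter_upwards [hC, hL.eventually_gt_atTop 0, hL.eventually_gt_atTop (C / (r - R))]
      with n h1 h2 h3
    rw [div_lt_iff₀ h2]
    rw [div_lt_iff₀ (by linarith)] at h3
    nlinarith

end Pool.Agent.S77.WD.Ldp
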