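import Pool.Agent.S77.WD.Lap
import Pool.Agent.S77.WD.Ldp

/-!
# Exponents: assembly
-/

set_option autoImplicit false

namespace Pool.Agent.S77.WD
open Pool.Agent.H160R2.ML
open Pool.Agent.H160R2.OA Pool.Agent.H160R2.HL Pool.Agent.H160R2.NE Pool.Agent.H160R2.SA
open MeasureTheory Filter Topology

theorem Gc_sum (k : ℕ) (c : ℝ) : ∃ C : ℝ, ∀ n : ℕ, 1 ≤ n → k ≤ 2 * n → ∀ u : Fin (2 * n - k) → ℝ,
    IsEig (2 * n - k) (2 * k) u →
    |∑ i, Gc c (u i) - 3 / (2 * Real.pi ^ 2) * c ^ 2 * Real.log n| ≤ C := by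
  have hc1 := Real.one_le_cosh c
  obtain ⟨C, hC⟩ := sumG (Gc c) (ww 2 (2 * Real.cosh c)) ((2 * Real.cosh c - 2) / 3)
    (by apply div_nonneg <;> linarith) (X_cont 2 _ (by norm_num) (by linarith))
    (fun x hx => X_nonneg (by norm_num) (by linarith) hx) (fun x hx => by
      unfold ww
      have h1 := Real.sinh_nonneg_iff.2 hx
      have h2 := Real.one_le_cosh x
      have h3 := den_pos c x
      have e : (2 * Real.cosh c - 2) / 3 * (2 * Real.sinh x * (2 - -1) /
          ((2 * Real.cosh x + -1) * (2 * Real.cosh x + 2))) =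
          2 * Real.sinh x * (2 * Real.cosh c - 2) /
            ((2 * Real.cosh x + -1) * (2 * Real.cosh x + 2)) := by ring
      rw [e]
      apply div_le_div_of_nonneg_left
      · exact mul_nonneg (by linarith) (by linarith)
      · exact mul_pos (by linarith) (by linarith)
      · nlinarith [mul_nonneg (show (0 : ℝ) ≤ 2 * Real.cosh x + 2 by linarith)
          (show (0 : ℝ) ≤ 2 * Real.cosh c + 1 by linarith)])
    (fun x => X_deriv (by norm_num) (by linarith) x) (X_even _ _)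
    (X_lim (by norm_num) (by linarith)) (Gc_int c) k
  refine ⟨C, fun n hn hkn u hu => ?_⟩
  have := hC n hn hkn u hu
  rwa [Gc_integral] at this

/-- the function for `cos` -/
noncomputable def Gt (θ x : ℝ) : ℝ := WW (2 * Real.cos θ) 2 x

theorem cos_ge {θ : ℝ} (h0 : 0 ≤ θ) (h1 : θ ≤ 2 * Real.pi / 3) : -1 ≤ 2 * Real.cos θ := by
  have hπ := Real.pi_pos
  have h2 := Real.cos_le_cos_of_nonneg_of_le_pi h0 (by linarith) h1
  rw [cos_two_thirds] at h2
  linarith

theorem Gt_int {θ : ℝ} (h0 : 0 ≤ θ) (h1 : θ ≤ 2 * Real.pi / 3) :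
    Integrable (Gt θ) ∧ ∫ x, Gt θ x = θ ^ 2 := by
  have hπ := Real.pi_pos
  have i1 := integral_log θ h0 (by linarith)
  have i0 := integral_log 0 le_rfl hπ
  have e : Gt θ = fun x => Real.log ((2 * Real.cosh x + 1) / (2 * Real.cosh x + 2 * Real.cos θ)) -
      Real.log ((2 * Real.cosh x + 1) / (2 * Real.cosh x + 2 * Real.cos 0)) := by
    funext x
    unfold Gt WW
    have h2 := X_pos (a := 1) (by norm_num) x
    have h3 := X_pos (cos_ge h0 h1) x
    have h4 := X_pos (a := 2) (by norm_num) x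
    rw [Real.cos_zero, mul_one, Real.log_div h2.ne' h3.ne', Real.log_div h2.ne' h4.ne']
    ring
  rw [e]
  refine ⟨i1.1.sub i0.1, ?_⟩
  rw [integral_sub i1.1 i0.1, i1.2, i0.2]
  ring

theorem Gt_sum (k : ℕ) {θ : ℝ} (h0 : 0 ≤ θ) (h1 : θ ≤ 2 * Real.pi / 3) :
    ∃ C : ℝ, ∀ n : ℕ, 1 ≤ n → k ≤ 2 * n → ∀ u : Fin (2 * n - k) → ℝ,
    IsEig (2 * n - k) (2 * k) u →
    |∑ i, Gt θ (u i) - 3 / (2 * Real.pi ^ 2) * θ ^ 2 * Real.log n| ≤ C := by
  have hc1 := cos_ge h0 h1
  have hc2 := Real.cos_le_one θ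
  obtain ⟨C, hC⟩ := sumG (Gt θ) (ww (2 * Real.cos θ) 2) ((2 - 2 * Real.cos θ) / 3)
    (by apply div_nonneg <;> linarith) (X_cont _ _ hc1 (by norm_num))
    (fun x hx => X_nonneg hc1 (by linarith) hx) (fun x hx => by
      unfold ww
      have h1 := Real.sinh_nonneg_iff.2 hx
      have h2 := Real.one_le_cosh x
      have e : (2 - 2 * Real.cos θ) / 3 * (2 * Real.sinh x * (2 - -1) /
          ((2 * Real.cosh x + -1) * (2 * Real.cosh x + 2))) =
          2 * Real.sinh x * (2 - 2 * Real.cos θ) /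
            ((2 * Real.cosh x + -1) * (2 * Real.cosh x + 2)) := by ring
      rw [e]
      apply div_le_div_of_nonneg_left
      · exact mul_nonneg (by linarith) (by linarith)
      · exact mul_pos (by linarith) (by linarith)
      · exact mul_le_mul_of_nonneg_right (by linarith) (by linarith))
    (fun x => X_deriv hc1 (by norm_num) x) (X_even _ _)
    (X_lim hc1 (by linarith)) (Gt_int h0 h1).1 k
  refine ⟨C, fun n hn hkn u hu => ?_⟩
  have := hC n hn hkn u hu
  rwa [(Gt_int h0 h1).2] at this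

/-! ### the transforms -/

/-- the Laplace transform of the weights -/
theorem lap_eq {N : ℕ} {u : Fin N → ℝ} (hs : ∀ i, u (Fin.rev i) = -u i) (c : ℝ) :
    ∑ y ∈ Finset.Icc (-(N : ℤ)) N, Real.exp (c * y / 2) * eS u y =
      ZE u * Real.exp (1 / 2 * ∑ i, Gc c (u i)) := by
  set ζ : ℝ := Real.exp (c / 2) with hζ
  have hζ0 : 0 < ζ := Real.exp_pos _
  have h1 := eS_gf u (ζ := (ζ : ℂ)) (by exact_mod_cast hζ0.ne')
  have h2 : ζ⁻¹ ^ N * ∏ i, (1 + ζ ^ 2 * Real.exp (u i)) =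
      ∑ y ∈ Finset.Icc (-(N : ℤ)) N, Real.exp (c * y / 2) * eS u y := by
    have e : ∀ y : ℤ, Real.exp (c * y / 2) = ζ ^ y := by
      intro y
      rw [hζ, ← Real.rpow_intCast, ← Real.exp_mul]
      congr 1
      ring
    simp only [e]
    have h3 : ((ζ⁻¹ ^ N * ∏ i, (1 + ζ ^ 2 * Real.exp (u i)) : ℝ) : ℂ) =
        ((∑ y ∈ Finset.Icc (-(N : ℤ)) N, ζ ^ y * eS u y : ℝ) : ℂ) := by
      push_cast at h1 ⊢
      rw [h1]
      refine Finset.sum_congr rfl fun y _ => ?_
      ring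
    exact_mod_cast h3
  rw [← h2]
  set P := ζ⁻¹ ^ N * ∏ i, (1 + ζ ^ 2 * Real.exp (u i)) with hP
  have hP0 : 0 < P := by
    refine mul_pos (by positivity) (Finset.prod_pos fun i _ => ?_)
    positivity
  have hR0 : 0 < ZE u * Real.exp (1 / 2 * ∑ i, Gc c (u i)) := mul_pos (ZE_pos u) (Real.exp_pos _)
  have hsq : P ^ 2 = (ZE u * Real.exp (1 / 2 * ∑ i, Gc c (u i))) ^ 2 := by
    -- squares by symmetry
    have rev : ∀ f : ℝ → ℝ, ∏ i, f (u i) = ∏ i, f (-u i) := by
      intro f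
      have h3 : ∏ i, f (u i) = ∏ i, f (u (Fin.rev i)) :=
        (Equiv.prod_comp Fin.revPerm (fun i => f (u i))).symm
      rw [h3]
      exact Finset.prod_congr rfl fun i _ => by rw [hs i]
    have hPp : P = ∏ i, (ζ⁻¹ * (1 + ζ ^ 2 * Real.exp (u i))) := by
      rw [Finset.prod_mul_distrib]
      simp [hP]
    have hP2 : P ^ 2 = ∏ i, (2 * Real.cosh (u i) + 2 * Real.cosh c) := by
      rw [sq]
      nth_rewrite 2 [hPp]
      rw [rev (fun x => ζ⁻¹ * (1 + ζ ^ 2 * Real.exp x)), hPp, ← Finset.prod_mul_distrib]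
      refine Finset.prod_congr rfl fun i _ => ?_
      have a1 : Real.exp (u i) * Real.exp (-u i) = 1 := by rw [← Real.exp_add]; simp
      have a2 : ζ ^ 2 = Real.exp c := by
        rw [hζ, ← Real.exp_nat_mul]; congr 1; push_cast; ring
      have a3 : (ζ⁻¹) ^ 2 = Real.exp (-c) := by rw [inv_pow, a2, Real.exp_neg]
      have a4 : ζ⁻¹ * ζ = 1 := inv_mul_cancel₀ hζ0.ne'
      rw [Real.cosh_eq, Real.cosh_eq, ← a2, ← a3]
      have a5 : (ζ⁻¹) ^ 2 * ζ ^ 2 = 1 := by rw [← mul_pow, a4, one_pow]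
      linear_combination (Real.exp (u i) + Real.exp (-u i)) * a5 + ζ ^ 2 * a5 +
        ((ζ⁻¹) ^ 2 * ζ ^ 4) * a1
    have hZ2 : ZE u ^ 2 = ∏ i, (2 * Real.cosh (u i) + 2) := by
      rw [sq]
      nth_rewrite 2 [ZE]
      rw [rev (fun x => 1 + Real.exp x), ZE, ← Finset.prod_mul_distrib]
      refine Finset.prod_congr rfl fun i _ => ?_
      have a1 : Real.exp (u i) * Real.exp (-u i) = 1 := by rw [← Real.exp_add]; simp
      rw [Real.cosh_eq]
      linear_combination a1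
    rw [hP2, mul_pow, hZ2, ← Real.exp_nat_mul]
    have e1 : ((2 : ℕ) : ℝ) * (1 / 2 * ∑ i, Gc c (u i)) = ∑ i, Gc c (u i) := by push_cast; ring
    rw [e1, Real.exp_sum, ← Finset.prod_mul_distrib]
    refine Finset.prod_congr rfl fun i _ => ?_
    unfold Gc WW
    have h3 := den_pos c (u i)
    have h4 := X_pos (a := 2) (by norm_num) (u i)
    rw [Real.exp_sub, Real.exp_log h3, Real.exp_log h4]
    field_simp
  exact (sq_eq_sq₀ hP0.le hR0.le).1 hsq

/-- the Fourier transform of the weights -/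
theorem fou_eq {N l : ℕ} {u : Fin N → ℝ} (hu : IsEig N l u) {θ : ℝ} (h0 : 0 ≤ θ)
    (h1 : θ ≤ 2 * Real.pi / 3) :
    ∑ y ∈ Finset.Icc (-(N : ℤ)) N, Real.cos (θ * y / 2) * eS u y =
      ZE u * Real.exp (-(1 / 2 * ∑ i, Gt θ (u i))) := by
  have hπ := Real.pi_pos
  have h2 := charFun_pos (s := 1) (t := θ / 2) hu (by positivity) (by linarith)
  have e2 : 2 * (θ / 2 / 1) = θ := by ring
  rw [e2] at h2
  -- the real part
  have h3 : (charFun (lawE u 1) (θ / 2)).re =
      ∑ y ∈ Finset.Icc (-(N : ℤ)) N, eS u y / ZE u * Real.cos (θ * y / 2) := by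
    rw [charFun_apply_real, lawE_integral, Complex.re_sum]
    refine Finset.sum_congr rfl fun y _ => ?_
    have e : Complex.exp (((θ / 2 : ℝ) : ℂ) * (((y : ℝ) / 1 : ℝ) : ℂ) * Complex.I) =
        Complex.exp (((θ * y / 2 : ℝ) : ℂ) * Complex.I) := by
      congr 1
      push_cast
      ring
    rw [e, Complex.re_ofReal_mul, Complex.exp_ofReal_mul_I_re]
  rw [h2, Complex.ofReal_re] at h3
  have p0 := (a_PH N l 0 le_rfl hπ).1
  have p1 := (a_PH N l θ h0 (by linarith)).1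
  have hR : 0 < RR N l θ / RR N l 0 := by positivity
  have h4 : RR N l θ / RR N l 0 = Real.exp (-(1 / 2 * ∑ i, Gt θ (u i))) := by
    have h5 := ratio_sq hu θ
    have h6 : (RR N l θ / RR N l 0) ^ 2 = (Real.exp (-(1 / 2 * ∑ i, Gt θ (u i)))) ^ 2 := by
      rw [h5, ← Real.exp_nat_mul]
      have e1 : ((2 : ℕ) : ℝ) * (-(1 / 2 * ∑ i, Gt θ (u i))) = ∑ i, -Gt θ (u i) := by
        rw [Finset.sum_neg_distrib]; push_cast; ring
      rw [e1, Real.exp_sum]
      refine Finset.prod_congr rfl fun i _ => ?_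
      unfold Gt WW sc
      have a1 := X_pos (cos_ge h0 h1) (u i)
      have a2 := X_pos (a := 2) (by norm_num) (u i)
      have a3 := one_cosh_pos (u i)
      rw [neg_sub, Real.exp_sub, Real.exp_log a1, Real.exp_log a2, Real.sin_sq_eq_half_sub]
      have e : 2 * (θ / 2) = θ := by ring
      rw [e]
      field_simp
      ring
    exact (sq_eq_sq₀ hR.le (Real.exp_pos _).le).1 h6
  rw [← h4, h3, Finset.mul_sum]
  refine Finset.sum_congr rfl fun y _ => ?_
  have hZ := (ZE_pos u).ne'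
  field_simp

end Pool.Agent.S77.WD
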