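import Pool.Agent.S77.WD.Exact
import Pool.Agent.S77.WD.Lap2

/-!
# Winding of `2 k` arms on the infinite cylinder: assembly
-/

set_option autoImplicit false

namespace Pool.Agent.S77.WD
open Pool.Agent.H863R2.Cyl
open H906.Cyl
open Pool.Agent.H160R2.ML
open Pool.Agent.H988R2.Perc (Word PD)
open MeasureTheory ProbabilityTheory Filter Topology

/-- the angle -/
noncomputable def ang (k : ℕ) (w : ℤ) : ℝ := Real.pi * w / (2 * k)

/-- the probability of arms with the winding `w` -/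
noncomputable def pw (n k : ℕ) (w : ℤ) : ℝ := (crit n).real {ω | Arms n k ω ∧ Wind n k ω w}

/-- the logarithms of the eigenvalues -/
noncomputable def uu (k n : ℕ) : Fin (2 * n - k) → ℝ := Classical.choose (t_EG (2 * n - k) (2 * k))

theorem uu_spec (k n : ℕ) : IsEig (2 * n - k) (2 * k) (uu k n) :=
  Classical.choose_spec (t_EG (2 * n - k) (2 * k))

/-- the normalisation -/
noncomputable def rr (n : ℕ) : ℝ := RR (2 * n) 0 (Real.pi / 3)

theorem rr_pos (n : ℕ) : 0 < rr n :=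
  (a_PH (2 * n) 0 (Real.pi / 3) (by positivity) (by linarith [Real.pi_pos])).1

section
variable {n k : ℕ}

theorem pw_eq (hn : 1 ≤ n) (hk : 1 ≤ k) (hkn : k ≤ 2 * n) {u : Fin (2 * n - k) → ℝ}
    (hu : IsEig (2 * n - k) (2 * k) u) (w : ℤ) : pw n k w * rr n = eS u w := by
  obtain ⟨μ, hμ0, hμ1, hst, -, -⟩ := markov_exists (2 * n - 1)
  unfold pw rr
  rw [prob_eq hn hk hkn μ hμ0 hμ1 hst]
  exact law hn hk hkn (by omega) μ hμ0 hμ1 hst hu w

open Classical in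
theorem pw_set (hn : 1 ≤ n) (hk : 1 ≤ k) (hkn : k ≤ 2 * n) (S : ℤ → Prop) :
    (crit n).real {ω | Arms n k ω ∧ ∃ w : ℤ, Wind n k ω w ∧ S w} =
      ∑ y ∈ Finset.Icc (-((2 * n - k : ℕ) : ℤ)) ((2 * n - k : ℕ) : ℤ),
        if S y then pw n k y else 0 := by
  obtain ⟨μ, hμ0, hμ1, hst, -, -⟩ := markov_exists (2 * n - 1)
  rw [prob_set hn hk hkn μ hμ0 hμ1 hst S]
  refine Finset.sum_congr rfl fun y _ => ?_
  unfold pw
  rw [prob_eq hn hk hkn μ hμ0 hμ1 hst]

theorem exists_words (hn : 1 ≤ n) : ∀ᵐ ω ∂(crit n), ∃ w' w : Word, Words ω w' w ∧ Ok w ∧ Ok w' := by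
  rw [ae_iff]
  exact prob_null hn _ (fun ω w' w W h h' hno => hno ⟨w', w, W, h, h'⟩)

theorem ae_unique (hn : 1 ≤ n) (hk : 1 ≤ k) (hkn : k ≤ 2 * n) :
    ∀ᵐ ω ∂(crit n), Arms n k ω → ∃! w : ℤ, Wind n k ω w := by
  filter_upwards [exists_words hn] with ω h hA
  obtain ⟨w', w, W, h1, h2⟩ := h
  have hg := (arms_iff hn W).1 hA
  obtain ⟨y, hy, -, -⟩ := HasW.exists hk hkn h2 h1 W.len' W.len hg
  refine ⟨y, ((arms_wind_iff hn hk hkn W h1 h2 y).2 hy).2, fun z hz => ?_⟩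
  exact ((arms_wind_iff hn hk hkn W h1 h2 z).1 ⟨hA, hz⟩).unique hy

theorem ae_exists (hn : 1 ≤ n) (hk : 1 ≤ k) (hkn : k ≤ 2 * n) :
    ∀ᵐ ω ∂(crit n), (Arms n k ω ↔ (Arms n k ω ∧ ∃ w : ℤ, Wind n k ω w ∧ True)) := by
  filter_upwards [ae_unique hn hk hkn] with ω h
  constructor
  · intro hA
    obtain ⟨w, hw, -⟩ := h hA
    exact ⟨hA, w, hw, trivial⟩
  · exact fun h => h.1

/-- the total probability -/
theorem arms_sum (hn : 1 ≤ n) (hk : 1 ≤ k) (hkn : k ≤ 2 * n) : (crit n).real {ω | Arms n k ω} =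
    ∑ y ∈ Finset.Icc (-((2 * n - k : ℕ) : ℤ)) ((2 * n - k : ℕ) : ℤ), pw n k y := by
  have h1 := pw_set hn hk hkn (fun _ => True)
  simp only [if_true] at h1
  rw [← h1]
  refine measureReal_congr ?_
  filter_upwards [ae_exists hn hk hkn] with ω h
  exact propext h

theorem arms_rr (hn : 1 ≤ n) (hk : 1 ≤ k) (hkn : k ≤ 2 * n) {u : Fin (2 * n - k) → ℝ}
    (hu : IsEig (2 * n - k) (2 * k) u) : (crit n).real {ω | Arms n k ω} * rr n = ZE u := by
  rw [arms_sum hn hk hkn, Finset.sum_mul, ← sum_eS u]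
  exact Finset.sum_congr rfl fun y _ => pw_eq hn hk hkn hu y

theorem arms_pos (hn : 1 ≤ n) (hk : 1 ≤ k) (hkn : k ≤ 2 * n) :
    0 < (crit n).real {ω | Arms n k ω} := by
  have h1 := arms_rr hn hk hkn (uu_spec k n)
  have h2 := ZE_pos (uu k n)
  rw [← h1] at h2
  exact (pos_iff_pos_of_mul_pos h2).2 (rr_pos n)

/-- quotients -/
theorem quot (hn : 1 ≤ n) (hk : 1 ≤ k) (hkn : k ≤ 2 * n) {u : Fin (2 * n - k) → ℝ}
    (hu : IsEig (2 * n - k) (2 * k) u) (f : ℤ → ℝ) :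
    (∑ y ∈ Finset.Icc (-((2 * n - k : ℕ) : ℤ)) ((2 * n - k : ℕ) : ℤ), f y * pw n k y) /
      (crit n).real {ω | Arms n k ω} =
    (∑ y ∈ Finset.Icc (-((2 * n - k : ℕ) : ℤ)) ((2 * n - k : ℕ) : ℤ), f y * eS u y) / ZE u := by
  have h1 := arms_rr hn hk hkn hu
  have h2 := arms_pos hn hk hkn
  have h3 := rr_pos n
  rw [div_eq_div_iff h2.ne' (ZE_pos u).ne', ← h1, Finset.sum_mul, Finset.sum_mul]
  refine Finset.sum_congr rfl fun y _ => ?_
  rw [← pw_eq hn hk hkn hu y]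
  ring

end

/-- exponent of the arms -/
noncomputable def ex2 (k : ℕ) : ℝ := (4 * (k : ℝ) ^ 2 - 1) / 12

theorem arms_exp {k : ℕ} (hk : 1 ≤ k) : ∃ c C : ℝ, 0 < c ∧ 0 < C ∧ ∀ n : ℕ, k ≤ n →
    c * (n : ℝ) ^ (-(ex2 k)) ≤ (crit n).real {ω | Arms n k ω} ∧
    (crit n).real {ω | Arms n k ω} ≤ C * (n : ℝ) ^ (-(ex2 k)) := by
  obtain ⟨c, C, hc, hC, h⟩ := a_FA k hk
  refine ⟨c, C, hc, hC, fun n hn => ?_⟩
  have h1 := arms_rr (n := n) (by omega) hk (by omega) (uu_spec k n)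
  rw [ZE_eq (uu_spec k n)] at h1
  have h2 := rr_pos n
  obtain ⟨h3, h4⟩ := h n hn
  rw [← h1] at h3 h4
  exact ⟨le_of_mul_le_mul_right h3 h2, le_of_mul_le_mul_right h4 h2⟩

/-- from bounded logarithms to two-sided power bounds -/
theorem pow_bounds {A : ℕ → ℝ} {P : ℕ → ℝ} {k : ℕ} {a e : ℝ} (hk : 1 ≤ k) (C1 : ℝ)
    (hP : ∃ c C : ℝ, 0 < c ∧ 0 < C ∧ ∀ n : ℕ, k ≤ n → c * (n : ℝ) ^ a ≤ P n ∧ P n ≤ C * (n : ℝ) ^ a)
    (hA : ∀ n : ℕ, k ≤ n → ∃ z : ℝ, A n = P n * Real.exp z ∧ |z - e * Real.log n| ≤ C1) :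
    ∃ c C : ℝ, 0 < c ∧ 0 < C ∧ ∀ n : ℕ, k ≤ n →
      c * (n : ℝ) ^ (a + e) ≤ A n ∧ A n ≤ C * (n : ℝ) ^ (a + e) := by
  obtain ⟨c, C, hc, hC, h⟩ := hP
  refine ⟨c * Real.exp (-C1), C * Real.exp C1, by positivity, by positivity, fun n hn => ?_⟩
  obtain ⟨z, hz, hz2⟩ := hA n hn
  have hn0 : (0 : ℝ) < n := by exact_mod_cast (by omega : 0 < n)
  rw [abs_le] at hz2
  have e1 : (n : ℝ) ^ e = Real.exp (e * Real.log n) := by
    rw [Real.rpow_def_of_pos hn0, mul_comm]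
  have h1 : Real.exp (-C1) * (n : ℝ) ^ e ≤ Real.exp z := by
    rw [e1, ← Real.exp_add]
    exact Real.exp_le_exp.2 (by linarith)
  have h2 : Real.exp z ≤ Real.exp C1 * (n : ℝ) ^ e := by
    rw [e1, ← Real.exp_add]
    exact Real.exp_le_exp.2 (by linarith)
  obtain ⟨h3, h4⟩ := h n hn
  have hP0 : 0 ≤ P n := le_trans (by positivity) h3
  rw [hz, Real.rpow_add hn0]
  constructor
  · calc c * Real.exp (-C1) * ((n : ℝ) ^ a * (n : ℝ) ^ e)
        = (c * (n : ℝ) ^ a) * (Real.exp (-C1) * (n : ℝ) ^ e) := by ring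
      _ ≤ P n * Real.exp z := mul_le_mul h3 h1 (by positivity) hP0
  · calc P n * Real.exp z ≤ (C * (n : ℝ) ^ a) * (Real.exp C1 * (n : ℝ) ^ e) :=
          mul_le_mul h4 h2 (Real.exp_pos _).le (by positivity)
      _ = C * Real.exp C1 * ((n : ℝ) ^ a * (n : ℝ) ^ e) := by ring

/-- the sum over the windings -/
noncomputable def mean (n k : ℕ) (f : ℝ → ℝ) : ℝ :=
  ∑ w ∈ Finset.Icc (-((2 * n - k : ℕ) : ℤ)) ((2 * n - k : ℕ) : ℤ), f (ang k w) * pw n k w

theorem mean_eq {n k : ℕ} (hn : 1 ≤ n) (hk : 1 ≤ k) (hkn : k ≤ 2 * n) {u : Fin (2 * n - k) → ℝ}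
    (hu : IsEig (2 * n - k) (2 * k) u) (f : ℝ → ℝ) {r : ℝ}
    (h : ∑ y ∈ Finset.Icc (-((2 * n - k : ℕ) : ℤ)) ((2 * n - k : ℕ) : ℤ), f (ang k y) * eS u y =
      ZE u * r) : mean n k f = (crit n).real {ω | Arms n k ω} * r := by
  have h1 := quot hn hk hkn hu (fun y => f (ang k y))
  have h2 := arms_pos hn hk hkn
  have h3 := ZE_pos u
  rw [h, mul_div_cancel_left₀ _ h3.ne', div_eq_iff h2.ne'] at h1
  rw [mean, h1, mul_comm]

/-- **exponents with real weights** -/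
theorem lap_exp {k : ℕ} (hk : 1 ≤ k) (lam : ℝ) : ∃ c C : ℝ, 0 < c ∧ 0 < C ∧ ∀ n : ℕ, k ≤ n →
    c * (n : ℝ) ^ (-(ex2 k) + 3 * lam ^ 2 / (4 * k ^ 2)) ≤ mean n k (fun α => Real.exp (lam * α)) ∧
    mean n k (fun α => Real.exp (lam * α)) ≤ C * (n : ℝ) ^ (-(ex2 k) + 3 * lam ^ 2 / (4 * k ^ 2)) := by
  have hπ := Real.pi_pos
  have hk0 : (0 : ℝ) < k := by exact_mod_cast hk
  set c := lam * Real.pi / k with hc
  obtain ⟨C1, hC1⟩ := Gc_sum k c
  refine pow_bounds (P := fun n => (crit n).real {ω | Arms n k ω}) hk (C1 / 2) (arms_exp hk) fun n hn => ?_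
  refine ⟨1 / 2 * ∑ i, Gc c (uu k n i), ?_, ?_⟩
  · refine mean_eq (by omega) hk (by omega) (uu_spec k n) _ ?_
    rw [← lap_eq (uu_spec k n).2.1 c]
    refine Finset.sum_congr rfl fun y _ => ?_
    congr 2
    rw [ang, hc]
    field_simp
  · have h1 := hC1 n (by omega) (by omega) _ (uu_spec k n)
    have e : 1 / 2 * ∑ i, Gc c (uu k n i) - 3 * lam ^ 2 / (4 * k ^ 2) * Real.log n =
        1 / 2 * (∑ i, Gc c (uu k n i) - 3 / (2 * Real.pi ^ 2) * c ^ 2 * Real.log n) := by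
      rw [hc]
      field_simp
      ring
    rw [e, abs_mul, abs_of_pos (by norm_num : (0 : ℝ) < 1 / 2)]
    linarith

/-- **exponents with a spin** -/
theorem fou_exp {k : ℕ} (hk : 1 ≤ k) {s : ℝ} (hs0 : 0 ≤ s) (hs1 : s ≤ 2 * k / 3) :
    ∃ c C : ℝ, 0 < c ∧ 0 < C ∧ ∀ n : ℕ, k ≤ n →
    c * (n : ℝ) ^ (-(ex2 k) + -(3 * s ^ 2 / (4 * k ^ 2))) ≤ mean n k (fun α => Real.cos (s * α)) ∧
    mean n k (fun α => Real.cos (s * α)) ≤ C * (n : ℝ) ^ (-(ex2 k) + -(3 * s ^ 2 / (4 * k ^ 2))) := by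
  have hπ := Real.pi_pos
  have hk0 : (0 : ℝ) < k := by exact_mod_cast hk
  set θ := s * Real.pi / k with hθ
  have h0 : 0 ≤ θ := by positivity
  have h1 : θ ≤ 2 * Real.pi / 3 := by
    rw [hθ, div_le_iff₀ hk0]
    nlinarith
  obtain ⟨C1, hC1⟩ := Gt_sum k h0 h1
  refine pow_bounds (P := fun n => (crit n).real {ω | Arms n k ω}) hk (C1 / 2) (arms_exp hk) fun n hn => ?_
  refine ⟨-(1 / 2 * ∑ i, Gt θ (uu k n i)), ?_, ?_⟩
  · refine mean_eq (by omega) hk (by omega) (uu_spec k n) _ ?_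
    rw [← fou_eq (uu_spec k n) h0 h1]
    refine Finset.sum_congr rfl fun y _ => ?_
    congr 2
    rw [ang, hθ]
    field_simp
  · have h1 := hC1 n (by omega) (by omega) _ (uu_spec k n)
    have e : -(1 / 2 * ∑ i, Gt θ (uu k n i)) - -(3 * s ^ 2 / (4 * k ^ 2)) * Real.log n =
        -(1 / 2 * (∑ i, Gt θ (uu k n i) - 3 / (2 * Real.pi ^ 2) * θ ^ 2 * Real.log n)) := by
      rw [hθ]
      field_simp
      ring
    rw [e, abs_neg, abs_mul, abs_of_pos (by norm_num : (0 : ℝ) < 1 / 2)]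
    linarith

/-- **mean and variance** -/
theorem var_win {k : ℕ} (hk : 1 ≤ k) : ∃ C : ℝ, ∀ n : ℕ, k ≤ n → mean n k (fun α => α) = 0 ∧
    |mean n k (fun α => α ^ 2) / (crit n).real {ω | Arms n k ω} - 3 / (2 * k ^ 2) * Real.log n| ≤ C := by
  have hπ := Real.pi_pos
  have hk0 : (0 : ℝ) < k := by exact_mod_cast hk
  obtain ⟨C1, hC1⟩ := sc_sum k
  refine ⟨Real.pi ^ 2 / (4 * k ^ 2) * C1, fun n hn => ?_⟩
  have hu := uu_spec k n
  constructor
  · have h1 : ∑ y ∈ Finset.Icc (-((2 * n - k : ℕ) : ℤ)) ((2 * n - k : ℕ) : ℤ),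
        (ang k y) * eS (uu k n) y = ZE (uu k n) * 0 := by
      rw [sum_eS_mul (uu k n) (fun y => ang k y)]
      have h := (moments (fun i => Real.exp (uu k n i)) (fun i => Real.exp_pos _)
        (Finset.univ : Finset (Fin (2 * n - k)))).2.1
      rw [Finset.powerset_univ, mean_zero (uu k n) hu.2.1, Finset.card_univ, Fintype.card_fin,
        zero_mul] at h
      have e : ∀ S : Finset (Fin (2 * n - k)), ang k (2 * (S.card : ℤ) - (2 * n - k : ℕ)) *
          ∏ i ∈ S, Real.exp (uu k n i) = Real.pi / (2 * k) *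
          ((2 * (S.card : ℝ) - (2 * n - k : ℕ)) * ∏ i ∈ S, Real.exp (uu k n i)) := by
        intro S
        unfold ang
        push_cast
        ring
      rw [Finset.sum_congr rfl fun S _ => e S, ← Finset.mul_sum, h]
      ring
    have h2 := mean_eq (n := n) (by omega) hk (by omega) hu (fun α => α) h1
    rw [h2, mul_zero]
  · have h1 := quot (n := n) (by omega) hk (by omega) hu (fun y => (ang k y) ^ 2)
    have h2 := eS_var (uu k n) hu.2.1
    have h3 : ∑ y ∈ Finset.Icc (-((2 * n - k : ℕ) : ℤ)) ((2 * n - k : ℕ) : ℤ),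
        (ang k y) ^ 2 * eS (uu k n) y = Real.pi ^ 2 / (4 * k ^ 2) * ((∑ i, sc (uu k n i)) * ZE (uu k n)) := by
      rw [← h2, Finset.mul_sum]
      refine Finset.sum_congr rfl fun y _ => ?_
      unfold ang
      field_simp
      ring
    rw [h3] at h1
    have h4 : mean n k (fun α => α ^ 2) / (crit n).real {ω | Arms n k ω} =
        Real.pi ^ 2 / (4 * k ^ 2) * ∑ i, sc (uu k n i) := by
      rw [mean, h1]
      have := (ZE_pos (uu k n)).ne'
      field_simp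
    rw [h4]
    have h5 := hC1 n (by omega) (by omega) _ hu
    have e : Real.pi ^ 2 / (4 * k ^ 2) * ∑ i, sc (uu k n i) - 3 / (2 * k ^ 2) * Real.log n =
        Real.pi ^ 2 / (4 * k ^ 2) * (∑ i, sc (uu k n i) - 6 / Real.pi ^ 2 * Real.log n) := by
      field_simp
      ring
    rw [e, abs_mul, abs_of_pos (by positivity)]
    exact mul_le_mul_of_nonneg_left h5 (by positivity)

/-- the threshold of the angle -/
theorem ang_le {k : ℕ} (hk : 1 ≤ k) {n : ℕ} (hn : 1 ≤ n) (w : ℤ) (x : ℝ) :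
    ang k w ≤ x * √(3 / (2 * k ^ 2) * Real.log n) ↔ (w : ℝ) ≤ x * sn n := by
  have hπ := Real.pi_pos
  have hk0 : (0 : ℝ) < k := by exact_mod_cast hk
  have hl : 0 ≤ Real.log (n : ℝ) := Real.log_nonneg (by exact_mod_cast hn)
  have e : √(3 / (2 * (k : ℝ) ^ 2) * Real.log n) = Real.pi / (2 * k) * sn n := by
    unfold sn
    rw [show 3 / (2 * (k : ℝ) ^ 2) * Real.log n =
      (Real.pi / (2 * k)) ^ 2 * (6 / Real.pi ^ 2 * Real.log n) by field_simp; ring,
      Real.sqrt_mul (by positivity), Real.sqrt_sq (by positivity)]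
  rw [e, ang]
  have h1 : Real.pi * w / (2 * k) = Real.pi / (2 * k) * w := by ring
  have h2 : x * (Real.pi / (2 * k) * sn n) = Real.pi / (2 * k) * (x * sn n) := by ring
  rw [h1, h2]
  exact mul_le_mul_iff_right₀ (by positivity)

/-- **the central limit theorem** -/
theorem clt_win {k : ℕ} (hk : 1 ≤ k) (x : ℝ) : Tendsto (fun n : ℕ =>
    (crit n).real {ω | Arms n k ω ∧ ∃ w : ℤ, Wind n k ω w ∧
      ang k w ≤ x * √(3 / (2 * k ^ 2) * Real.log n)} / (crit n).real {ω | Arms n k ω}) atTop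
    (𝓝 ((gaussianReal 0 1).real (Set.Iic x))) := by
  classical
  refine (clt_cdf (k := k) (u := fun n => uu k n) (fun n => uu_spec k n) x).congr' ?_
  filter_upwards [eventually_ge_atTop k] with n hn
  have hn1 : 1 ≤ n := by omega
  rw [pw_set hn1 hk (by omega)]
  have h1 := quot (n := n) hn1 hk (by omega) (uu_spec k n)
    (fun y => if (y : ℝ) ≤ x * sn n then 1 else 0)
  simp only [ite_mul, one_mul, zero_mul] at h1
  rw [← h1]
  congr 1
  refine Finset.sum_congr rfl fun y _ => ?_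
  simp only [ang_le hk hn1]

/-- **large deviations** -/
theorem ldp_win {k : ℕ} (hk : 1 ≤ k) {x : ℝ} (hx : 0 < x) : Tendsto (fun n : ℕ =>
    Real.log ((crit n).real {ω | Arms n k ω ∧ ∃ w : ℤ, Wind n k ω w ∧
      x * Real.log n ≤ ang k w}) / Real.log n) atTop
    (𝓝 (-(ex2 k) - k ^ 2 * x ^ 2 / 3)) := by
  classical
  have hπ := Real.pi_pos
  have hk0 : (0 : ℝ) < k := by exact_mod_cast hk
  have hL : Tendsto (fun n : ℕ => Real.log (n : ℝ)) atTop atTop :=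
    Real.tendsto_log_atTop.comp tendsto_natCast_atTop_atTop
  have h := Ldp.main (N := fun n => 2 * n - k) (p := fun n y => pw n k y) (L := fun n => Real.log n)
    (a := ex2 k) (b := 3 / (4 * Real.pi ^ 2)) (fun n y => measureReal_nonneg) (by positivity) hL
    (fun c => by
      obtain ⟨c0, C0, hc0, hC0, hb⟩ := lap_exp hk (c * k / Real.pi)
      refine ⟨max (Real.log C0) (-(Real.log c0)), ?_⟩
      filter_upwards [eventually_ge_atTop k, eventually_ge_atTop 1] with n hn hn1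
      have hn0 : (0 : ℝ) < n := by exact_mod_cast hn1
      have e : Ldp.MM (fun n => 2 * n - k) (fun n y => pw n k y) n c =
          mean n k (fun α => Real.exp (c * k / Real.pi * α)) := by
        unfold Ldp.MM mean
        refine Finset.sum_congr rfl fun y _ => ?_
        congr 2
        unfold ang
        field_simp
      obtain ⟨h1, h2⟩ := hb n hn
      rw [← e] at h1 h2
      have hpos : 0 < Ldp.MM (fun n => 2 * n - k) (fun n y => pw n k y) n c :=
        lt_of_lt_of_le (by positivity) h1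
      refine ⟨hpos, ?_⟩
      have e2 : -(ex2 k) + 3 * (c * k / Real.pi) ^ 2 / (4 * k ^ 2) =
          3 / (4 * Real.pi ^ 2) * c ^ 2 - ex2 k := by field_simp; ring
      rw [e2] at h1 h2
      have g1 := Real.log_le_log (by positivity) h1
      have g2 := Real.log_le_log hpos h2
      rw [Real.log_mul hc0.ne' (by positivity), Real.log_rpow hn0] at g1
      rw [Real.log_mul hC0.ne' (by positivity), Real.log_rpow hn0] at g2
      rw [abs_le]
      constructor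
      · have := le_max_right (Real.log C0) (-(Real.log c0))
        linarith
      · have := le_max_left (Real.log C0) (-(Real.log c0))
        linarith)
    (x := k * x / Real.pi) (by positivity)
  have e : -(ex2 k) - (k * x / Real.pi) ^ 2 / (4 * (3 / (4 * Real.pi ^ 2))) =
      -(ex2 k) - k ^ 2 * x ^ 2 / 3 := by field_simp
  rw [e] at h
  refine h.congr' ?_
  filter_upwards [eventually_ge_atTop k, eventually_ge_atTop 1] with n hn hn1
  rw [pw_set hn1 hk (by omega)]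
  congr 2
  unfold Ldp.TT
  refine Finset.sum_congr rfl fun y _ => ?_
  have hiff : k * x / Real.pi * Real.log n ≤ (y : ℝ) / 2 ↔ x * Real.log n ≤ ang k y := by
    unfold ang
    have e1 : k * x / Real.pi * Real.log n = (k * x * Real.log n) / Real.pi := by ring
    have hk2 : (0 : ℝ) < 2 * k := by positivity
    rw [e1, div_le_iff₀ hπ, le_div_iff₀ hk2]
    constructor <;> intro h <;> linarith
  simp only [hiff]

end Pool.Agent.S77.WD
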