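import Pool.Agent.S77.WD.Defs
import Pool.Agent.H160R2.ML.T_moveL

/-!
# The index set and an arc across the seam between the last through strand and the first leg
-/

set_option autoImplicit false

namespace Pool.Agent.S77.WD
open Pool.Agent.H863R2.Cyl
open Pool.Agent.H160R2.ML
open Pool.Agent.H160R2.ML.TmoveL
open Pool.Agent.H988R2.Perc (Word PD)

open Classical in
/-- the map of the faces with levels -/
noncomputable def phL (L W : ℕ) (x : (ℤ × Bool) × ℤ) : (ℤ × Bool) × ℤ :=
  if x.1.2 = true then ((x.1.1 + 1, true), x.2)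
  else if ((L : ℤ) + 2) ∣ x.1.1 then
    ((x.1.1 / (L + 2) * W + 1, true), x.2 + gg (x.1.1 / (L + 2) - 1))
  else ((ff L x.1.1, false), x.2)

/-- the map back -/
def psL (L : ℕ) (x : (ℤ × Bool) × ℤ) : (ℤ × Bool) × ℤ :=
  if x.1.2 = true then ((x.1.1 - 1, true), x.2) else ((gi L x.1.1, false), x.2)

theorem phL_true (L W : ℕ) (b n : ℤ) : phL L W ((b, true), n) = ((b + 1, true), n) := by
  unfold phL; simp

theorem phL_dvd (L W : ℕ) (k n : ℤ) :
    phL L W ((k * ((L : ℤ) + 2), false), n) = ((k * W + 1, true), n + gg (k - 1)) := by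
  unfold phL
  have h : (k * ((L : ℤ) + 2)) / ((L : ℤ) + 2) = k := Int.mul_ediv_cancel _ (by omega)
  simp only [Bool.false_eq_true, if_false]
  rw [if_pos (Dvd.intro_left _ rfl), h]

theorem phL_not (L W : ℕ) {j : ℤ} (h : ¬ ((L : ℤ) + 2) ∣ j) (n : ℤ) :
    phL L W ((j, false), n) = ((ff L j, false), n) := by
  unfold phL
  simp only [Bool.false_eq_true, if_false]
  rw [if_neg h]

theorem phL_in (L W : ℕ) (s j n : ℤ) (h1 : 1 ≤ j) (h2 : j ≤ L + 1) :
    phL L W ((s * (L + 2) + j, false), n) = ((s * L + (j - 1), false), n) := by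
  rw [phL_not L W (not_dvd L s j h1 h2), ff_eq L s j h1 h2]

variable {P r : ℕ} {w' u : Word}

theorem moveL_fwd (hl : w'.length + (P + 1) = u.length + 2 + r) (hP : P ≤ u.length)
    (x y : (ℤ × Bool) × ℤ) (h : Lt (P + 1) r w' (seam u) x y) :
    Ct P (r + 1) (rotr w') u (phL u.length w'.length x) (phL u.length w'.length y) := by
  have hW : w' ≠ [] := by
    rintro rfl
    simp at hl
    omega
  cases h with
  | low a b n h =>
    rw [rw_seam] at h
    rcases h with h | ⟨h1, h2, h3⟩
    · rw [h]; exact Relation.EqvGen.refl _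
    · rw [phL_not _ _ h1, phL_not _ _ h2]
      exact Relation.EqvGen.rel _ _ (Lt.low _ _ n h3)
  | upp a b n h =>
    rw [phL_true, phL_true]
    exact Relation.EqvGen.rel _ _ (Lt.upp _ _ n ((Rw_rotr w' hW a b).2 h))
  | glue s i n hi =>
    rw [len_seam] at hi ⊢
    rcases Nat.lt_or_ge (i + P) (u.length + 1) with h1 | h1
    · have e1 : s * ((u.length + 2 : ℕ) : ℤ) + ((P + 1 : ℕ) : ℤ) + (i : ℤ) =
          s * ((u.length : ℤ) + 2) + ((P : ℤ) + 1 + i) := by push_cast; ring
      rw [e1, phL_in _ _ _ _ _ (by omega) (by omega), phL_true]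
      have g := Lt.glue (p := P) (r := r + 1) (w' := rotr w') (w := u) s i n (by omega)
      rw [len_rotr] at g
      have e2 : s * (u.length : ℤ) + ((P : ℤ) + 1 + i - 1) = s * (u.length : ℤ) + P + i := by ring
      have e3 : s * (w'.length : ℤ) + r + i + 1 = s * (w'.length : ℤ) + ((r + 1 : ℕ) : ℤ) + i := by
        push_cast; ring
      rw [e2, e3]
      exact Relation.EqvGen.rel _ _ g
    · have h2 : i + P = u.length + 1 := by omega
      have e1 : s * ((u.length + 2 : ℕ) : ℤ) + ((P + 1 : ℕ) : ℤ) + (i : ℤ) =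
          (s + 1) * ((u.length : ℤ) + 2) := by
        have : (i : ℤ) + P = u.length + 1 := by exact_mod_cast h2
        push_cast
        linear_combination this
      have e2 : s * (w'.length : ℤ) + r + i + 1 = (s + 1) * w'.length + 1 := by
        have h3 : (r : ℤ) + i = w'.length := by omega
        linear_combination h3
      rw [e1, phL_dvd, phL_true, e2, add_sub_cancel_right]
      exact Relation.EqvGen.refl _

theorem moveL_bwd (hl : w'.length + (P + 1) = u.length + 2 + r) (hP : P ≤ u.length)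
    (x y : (ℤ × Bool) × ℤ) (h : Lt P (r + 1) (rotr w') u x y) :
    Ct (P + 1) r w' (seam u) (psL u.length x) (psL u.length y) := by
  have hW : w' ≠ [] := by
    rintro rfl
    simp at hl
    omega
  unfold psL
  cases h with
  | low a b n h =>
    simp only [Bool.false_eq_true, if_false]
    exact Relation.EqvGen.rel _ _ (Lt.low _ _ n (rw_gi u h))
  | upp a b n h =>
    simp only [if_true]
    have := (Rw_rotr w' hW (a - 1) (b - 1)).1 (by rwa [sub_add_cancel, sub_add_cancel])
    exact Relation.EqvGen.rel _ _ (Lt.upp _ _ n this)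
  | glue s i n hi =>
    simp only [Bool.false_eq_true, if_false, if_true]
    rw [len_rotr]
    have g := Lt.glue (p := P + 1) (r := r) (w' := w') (w := seam u) s i n (by
      rw [len_seam]; omega)
    rw [len_seam] at g
    have e1 : s * ((u.length + 2 : ℕ) : ℤ) + ((P + 1 : ℕ) : ℤ) + (i : ℤ) =
        s * ((u.length : ℤ) + 2) + ((P : ℤ) + 1 + i) := by push_cast; ring
    rw [e1] at g
    have h1 := rw_ret u (not_dvd u.length s ((P : ℤ) + 1 + i) (by omega) (by omega))
    rw [ff_eq _ _ _ (by omega) (by omega)] at h1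
    have e2 : s * (u.length : ℤ) + ((P : ℤ) + 1 + i - 1) = s * (u.length : ℤ) + P + i := by ring
    rw [e2] at h1
    have e3 : s * (w'.length : ℤ) + ((r + 1 : ℕ) : ℤ) + i - 1 = s * (w'.length : ℤ) + r + i := by
      push_cast; ring
    rw [e3]
    exact Relation.EqvGen.trans _ _ _
      (Relation.EqvGen.symm _ _ (Relation.EqvGen.rel _ _ (Lt.low _ _ n h1)))
      (Relation.EqvGen.rel _ _ g)

theorem moveL_ret (hl : w'.length + (P + 1) = u.length + 2 + r) (hP : P ≤ u.length)
    (x : (ℤ × Bool) × ℤ) :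
    Ct (P + 1) r w' (seam u) x (psL u.length (phL u.length w'.length x)) := by
  obtain ⟨⟨j, c⟩, n⟩ := x
  cases c with
  | true =>
    rw [phL_true]
    unfold psL
    simp only [if_true, add_sub_cancel_right]
    exact Relation.EqvGen.refl _
  | false =>
    by_cases hd : ((u.length : ℤ) + 2) ∣ j
    · obtain ⟨k, rfl⟩ := hd
      rw [mul_comm, phL_dvd]
      unfold psL
      simp only [if_true, add_sub_cancel_right]
      have g := Lt.glue (p := P + 1) (r := r) (w' := w') (w := seam u) (k - 1)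
        (u.length + 1 - P) n (by rw [len_seam]; omega)
      rw [len_seam] at g
      have e0 : ((u.length + 1 - P : ℕ) : ℤ) = u.length + 1 - P := by omega
      have e1 : (k - 1) * ((u.length + 2 : ℕ) : ℤ) + ((P + 1 : ℕ) : ℤ) +
          ((u.length + 1 - P : ℕ) : ℤ) = k * ((u.length : ℤ) + 2) := by
        rw [e0]; push_cast; ring
      have e2 : (k - 1) * (w'.length : ℤ) + r + ((u.length + 1 - P : ℕ) : ℤ) = k * w'.length := by
        rw [e0]
        have h3 : (w'.length : ℤ) + (P + 1) = u.length + 2 + r := by exact_mod_cast hl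
        linear_combination -h3
      rw [e1, e2] at g
      exact Relation.EqvGen.rel _ _ g
    · rw [phL_not _ _ hd]
      unfold psL
      simp only [Bool.false_eq_true, if_false]
      exact Relation.EqvGen.rel _ _ (Lt.low _ _ n (rw_ret u hd))

theorem moveL_iff (hl : w'.length + (P + 1) = u.length + 2 + r) (hP : P ≤ u.length)
    (x y : (ℤ × Bool) × ℤ) : Ct (P + 1) r w' (seam u) x y ↔
      Ct P (r + 1) (rotr w') u (phL u.length w'.length x) (phL u.length w'.length y) := by
  constructor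
  · intro h
    exact map_eqv _ (moveL_fwd hl hP) h
  · intro h
    have h1 := map_eqv _ (moveL_bwd hl hP) h
    exact Relation.EqvGen.trans _ _ _ (moveL_ret hl hP x)
      (Relation.EqvGen.trans _ _ _ h1 (Relation.EqvGen.symm _ _ (moveL_ret hl hP y)))

/-- the sectors: the label decreases by one -/
theorem moveL_PT (hl : w'.length + (P + 1) = u.length + 2 + r) (hP : P ≤ u.length) (s c : ℤ) :
    Ct P (r + 1) (rotr w') u (phL u.length w'.length (PT (P + 1) r w' (seam u) s c))
      (PT P (r + 1) (rotr w') u s (c - 1)) := by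
  have el : P + 1 + r = P + (r + 1) := by omega
  have hl0 : 0 < P + 1 + r := by omega
  obtain ⟨m, c0, hc0, rfl⟩ := label hl0 c
  rw [PT_eq _ _ _ _ hc0]
  rcases Nat.eq_zero_or_pos c0 with h0 | h0
  · subst h0
    have e : ((P + 1 + r : ℕ) : ℤ) * m + ((0 : ℕ) : ℤ) - 1 =
        ((P + (r + 1) : ℕ) : ℤ) * (m - 1) + ((P + r : ℕ) : ℤ) := by push_cast; ring
    rw [e, PT_eq _ _ _ _ (by omega : P + r < P + (r + 1))]
    unfold pt pl
    rw [len_seam, len_rotr]
    simp only [Nat.zero_le, if_true]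
    have e1 : s * ((u.length + 2 : ℕ) : ℤ) + ((0 : ℕ) : ℤ) = s * ((u.length : ℤ) + 2) := by
      push_cast; ring
    rw [e1, phL_dvd]
    rcases Nat.eq_zero_or_pos r with hr | hr
    · subst hr
      simp only [add_zero, le_refl, if_true]
      have g := Lt.glue (p := P) (r := 0 + 1) (w' := rotr w') (w := u) s 0
        (0 + (m - 1) * (gg s - gg (s - 1))) (by omega)
      rw [len_rotr] at g
      have e2 : s * (u.length : ℤ) + (P : ℤ) + ((0 : ℕ) : ℤ) = s * (u.length : ℤ) + P := by
        push_cast; ring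
      have e3 : s * (w'.length : ℤ) + ((0 + 1 : ℕ) : ℤ) + ((0 : ℕ) : ℤ) =
          s * (w'.length : ℤ) + 1 := by push_cast; ring
      have e4 : 0 + (m - 1) * (gg s - gg (s - 1)) + gg s =
          0 + m * (gg s - gg (s - 1)) + gg (s - 1) := by ring
      rw [e2, e3, e4] at g
      exact Relation.EqvGen.symm _ _ (Relation.EqvGen.rel _ _ g)
    · rw [if_neg (by omega), if_neg (by omega)]
      have e2 : s * (w'.length : ℤ) + ((P : ℤ) + ((r + 1 : ℕ) : ℤ) - ((P + r : ℕ) : ℤ)) =
          s * (w'.length : ℤ) + 1 := by push_cast; ring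
      have e4 : gg s + (m - 1) * (gg s - gg (s - 1)) =
          0 + m * (gg s - gg (s - 1)) + gg (s - 1) := by ring
      rw [e2, e4]
      exact Relation.EqvGen.refl _
  · have e : ((P + 1 + r : ℕ) : ℤ) * m + (c0 : ℤ) - 1 =
        ((P + (r + 1) : ℕ) : ℤ) * m + ((c0 - 1 : ℕ) : ℤ) := by
      have : ((c0 - 1 : ℕ) : ℤ) = c0 - 1 := by omega
      rw [this]; push_cast; ring
    rw [e, PT_eq _ _ _ _ (by omega : c0 - 1 < P + (r + 1))]
    unfold pt pl
    rw [len_seam, len_rotr]
    rcases Nat.lt_or_ge (P + 1) c0 with h1 | h1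
    · rw [if_neg (by omega), if_neg (by omega), if_neg (by omega), if_neg (by omega), phL_true]
      have e2 : s * (w'.length : ℤ) + (((P + 1 : ℕ) : ℤ) + (r : ℤ) - (c0 : ℤ)) + 1 =
          s * (w'.length : ℤ) + ((P : ℤ) + ((r + 1 : ℕ) : ℤ) - ((c0 - 1 : ℕ) : ℤ)) := by
        have : ((c0 - 1 : ℕ) : ℤ) = c0 - 1 := by omega
        rw [this]; push_cast; ring
      rw [e2]
      exact Relation.EqvGen.refl _
    · rw [if_pos h1, if_pos h1, if_pos (by omega), if_pos (by omega)]
      have e1 : s * ((u.length + 2 : ℕ) : ℤ) + (c0 : ℤ) = s * ((u.length : ℤ) + 2) + c0 := by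
        push_cast; ring
      have e2 : ((c0 - 1 : ℕ) : ℤ) = (c0 : ℤ) - 1 := by omega
      rw [e1, phL_in _ _ _ _ _ (by omega) (by omega), e2]
      exact Relation.EqvGen.refl _

theorem moveL_Ix (hl : w'.length + (P + 1) = u.length + 2 + r) (hP : P ≤ u.length) (X : ℤ) :
    X ∈ Ix (P + 1) r w' (seam u) ↔ X - 2 ∈ Ix P (r + 1) (rotr w') u := by
  have hE := Ct_equiv P (r + 1) (rotr w') u
  have key : ∀ c d : ℤ, Ct (P + 1) r w' (seam u) (PT (P + 1) r w' (seam u) 0 c)
      (PT (P + 1) r w' (seam u) 1 d) ↔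
      Ct P (r + 1) (rotr w') u (PT P (r + 1) (rotr w') u 0 (c - 1))
        (PT P (r + 1) (rotr w') u 1 (d - 1)) := by
    intro c d
    rw [moveL_iff hl hP]
    have h1 := moveL_PT (r := r) (w' := w') (u := u) hl hP 0 c
    have h2 := moveL_PT (r := r) (w' := w') (u := u) hl hP 1 d
    exact ⟨fun h => hE.trans (hE.symm h1) (hE.trans h h2),
      fun h => hE.trans h1 (hE.trans h (hE.symm h2))⟩
  unfold Ix
  simp only [Set.mem_ofPred_eq, key]
  constructor
  · rintro ⟨c, h⟩
    refine ⟨c - 1, ?_⟩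
    have e : X - 2 - (c - 1) = X - c - 1 := by ring
    rw [e]
    exact h
  · rintro ⟨c, h⟩
    refine ⟨c + 1, ?_⟩
    have e : X - (c + 1) - 1 = X - 2 - c := by ring
    rw [e, add_sub_cancel_right]
    exact h

/-- an arc across the seam -/
theorem ez_moveL {ζ : ℂ} (hζ : ζ ≠ 0) (p r : ℕ) (w' u : Word)
    (hl : w'.length + p = u.length + 2 + r) (hp : 1 ≤ p) (hp2 : p ≤ u.length + 1) :
    ez ζ p r w' (seam u) = ζ * ez ζ (p - 1) (r + 1) (rotr w') u := by
  obtain ⟨P, rfl⟩ : ∃ P, p = P + 1 := ⟨p - 1, by omega⟩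
  have h := ez_of_shift (ζ := ζ) hζ 2 (Good_iff (P := P) (r := r) (w' := w') (u := u) hl (by omega))
    (fun X => moveL_Ix hl (by omega) X)
  rw [Nat.add_sub_cancel, h]
  congr 1
  have e : (2 : ℤ) - ((P + 1 : ℕ) : ℤ) + (P : ℤ) = 1 := by push_cast; ring
  rw [e, zpow_one]

end Pool.Agent.S77.WD
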