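import Pool.Agent.S77.WD.Defs
import Pool.Agent.H160R2.ML.T_moveR

/-!
# The index set and an arc between the last leg and the first through strand
-/

set_option autoImplicit false

namespace Pool.Agent.S77.WD
open Pool.Agent.H863R2.Cyl
open Pool.Agent.H160R2.ML
open Pool.Agent.H160R2.ML.TmoveR
open Pool.Agent.H863R2.Cyl.Sem4Aux
open Pool.Agent.H988R2.Perc (Word PD)

open Classical in
/-- the collapsing map with levels -/
noncomputable def phR (N i r Lu : ℕ) (x : (ℤ × Bool) × ℤ) : (ℤ × Bool) × ℤ :=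
  if x.1.2 = true then x else if iso N i x.1.1 then
    ((ct N i x.1.1 * Lu + r, true), x.2 + gg (ct N i x.1.1)) else ((sm N i x.1.1, false), x.2)

theorem phR_true (N i r Lu : ℕ) (b n : ℤ) : phR N i r Lu ((b, true), n) = ((b, true), n) := by
  simp [phR]

theorem phR_iso {N i r Lu : ℕ} {a : ℤ} (h : iso N i a) (n : ℤ) :
    phR N i r Lu ((a, false), n) = ((ct N i a * Lu + r, true), n + gg (ct N i a)) := by
  simp [phR, h]

theorem phR_non {N i r Lu : ℕ} {a : ℤ} (h : ¬ iso N i a) (n : ℤ) :
    phR N i r Lu ((a, false), n) = ((sm N i a, false), n) := by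
  simp [phR, h]

section main

variable {i r : ℕ} {w' u : Word}

theorem moveR_fwd (hi : i ≤ u.length) {x y : (ℤ × Bool) × ℤ}
    (h : Lt (i + 1) r w' (lins i u) x y) :
    Ct i (r + 1) w' u (phR u.length i r w'.length x) (phR u.length i r w'.length y) := by
  unfold Ct
  rcases h with ⟨a, b, n, hab⟩ | ⟨a, b, n, hab⟩ | ⟨s, j, n, hj⟩
  · rw [rw_lins' hi] at hab
    rcases hab with rfl | ⟨h1, h2, h3⟩
    · exact Relation.EqvGen.refl _
    · rw [phR_non h1, phR_non h2]
      exact Relation.EqvGen.rel _ _ (Lt.low _ _ n h3)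
  · rw [phR_true, phR_true]
    exact Relation.EqvGen.rel _ _ (Lt.upp _ _ n hab)
  · rw [len_lins] at hj ⊢
    rw [phR_true]
    rcases Nat.eq_zero_or_pos j with h0 | h0
    · subst h0
      have e1 : s * ((u.length + 2 : ℕ) : ℤ) + ((i + 1 : ℕ) : ℤ) + ((0 : ℕ) : ℤ) =
          ((u.length : ℤ) + 2) * s + ((u.length : ℤ) + 1) - ((u.length : ℤ) - i) := by
        push_cast; ring
      have h1 : iso u.length i
          (s * ((u.length + 2 : ℕ) : ℤ) + ((i + 1 : ℕ) : ℤ) + ((0 : ℕ) : ℤ)) :=
        (iso_iff e1 (by omega) (by omega)).mpr rfl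
      rw [phR_iso h1, ct_eq e1 (by omega) (by omega)]
      have e2 : s * (w'.length : ℤ) + r + ((0 : ℕ) : ℤ) = s * (w'.length : ℤ) + r := by
        push_cast; ring
      rw [e2]
      exact Relation.EqvGen.refl _
    · obtain ⟨k, rfl⟩ : ∃ k, j = k + 1 := ⟨j - 1, by omega⟩
      have e1 : s * ((u.length + 2 : ℕ) : ℤ) + ((i + 1 : ℕ) : ℤ) + ((k + 1 : ℕ) : ℤ) =
          ((u.length : ℤ) + 2) * (s + 1) + (k : ℤ) - ((u.length : ℤ) - i) := by
        push_cast; ring
      have h1 : ¬ iso u.length i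
          (s * ((u.length + 2 : ℕ) : ℤ) + ((i + 1 : ℕ) : ℤ) + ((k + 1 : ℕ) : ℤ)) := by
        rw [iso_iff e1 (by omega) (by omega)]
        omega
      rw [phR_non h1]
      have e3 : sm u.length i
          (s * ((u.length + 2 : ℕ) : ℤ) + ((i + 1 : ℕ) : ℤ) + ((k + 1 : ℕ) : ℤ)) =
          s * (u.length : ℤ) + (i : ℤ) + (k : ℤ) := by
        unfold sm
        rw [ct_eq e1 (by omega) (by omega)]
        push_cast; ring
      rw [e3]
      have h4 := Lt.glue (p := i) (r := r + 1) (w' := w') (w := u) s k n (by omega)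
      have e4 : s * (w'.length : ℤ) + ((r + 1 : ℕ) : ℤ) + (k : ℤ) =
          s * (w'.length : ℤ) + r + ((k + 1 : ℕ) : ℤ) := by push_cast; ring
      rw [e4] at h4
      exact Relation.EqvGen.rel _ _ h4

theorem moveR_iso (hi : i ≤ u.length) {a : ℤ} (h : iso u.length i a) (n : ℤ) :
    Ct (i + 1) r w' (lins i u) ((a, false), n)
      ((ct u.length i a * w'.length + r, true), n + gg (ct u.length i a)) := by
  obtain ⟨k, hk⟩ := h
  have e1 : a = ((u.length : ℤ) + 2) * k + ((u.length : ℤ) + 1) - ((u.length : ℤ) - i) := by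
    rw [hk]; ring
  rw [ct_eq e1 (by omega) (by omega)]
  have h4 := Lt.glue (p := i + 1) (r := r) (w' := w') (w := lins i u) k 0 n
    (by rw [len_lins]; omega)
  rw [len_lins] at h4
  have e2 : k * ((u.length + 2 : ℕ) : ℤ) + ((i + 1 : ℕ) : ℤ) + ((0 : ℕ) : ℤ) = a := by
    rw [hk]; push_cast; ring
  have e3 : k * (w'.length : ℤ) + r + ((0 : ℕ) : ℤ) = k * (w'.length : ℤ) + r := by
    push_cast; ring
  rw [e2, e3] at h4
  exact Relation.EqvGen.rel _ _ h4

theorem moveR_fibre (hi : i ≤ u.length) {x y : (ℤ × Bool) × ℤ}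
    (h : phR u.length i r w'.length x = phR u.length i r w'.length y) :
    Ct (i + 1) r w' (lins i u) x y := by
  obtain ⟨⟨a, α⟩, n⟩ := x
  obtain ⟨⟨b, β⟩, m⟩ := y
  have hE := Relation.EqvGen.is_equivalence (Lt (i + 1) r w' (lins i u))
  cases α <;> cases β
  · by_cases ha : iso u.length i a <;> by_cases hb : iso u.length i b
    · rw [phR_iso ha, phR_iso hb] at h
      have h1 := moveR_iso (r := r) (w' := w') hi ha n
      have h2 := moveR_iso (r := r) (w' := w') hi hb m
      rw [← h] at h2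
      exact hE.trans h1 (hE.symm h2)
    · rw [phR_iso ha, phR_non hb] at h
      simp at h
    · rw [phR_non ha, phR_iso hb] at h
      simp at h
    · rw [phR_non ha, phR_non hb] at h
      have h1 : sm u.length i a = sm u.length i b := congrArg (fun z => z.1.1) h
      have h2 : n = m := congrArg Prod.snd h
      subst h2
      refine Relation.EqvGen.rel _ _ (Lt.low _ _ n ?_)
      rw [rw_lins' hi]
      right
      refine ⟨ha, hb, ?_⟩
      rw [h1]
      exact (Rw_equiv _).refl _
  · by_cases ha : iso u.length i a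
    · rw [phR_iso ha, phR_true] at h
      have h1 := moveR_iso (r := r) (w' := w') hi ha n
      rw [h] at h1
      exact h1
    · rw [phR_non ha, phR_true] at h
      simp at h
  · by_cases hb : iso u.length i b
    · rw [phR_iso hb, phR_true] at h
      have h1 := moveR_iso (r := r) (w' := w') hi hb m
      rw [← h] at h1
      exact hE.symm h1
    · rw [phR_non hb, phR_true] at h
      simp at h
  · rw [phR_true, phR_true] at h
    rw [h]
    exact Relation.EqvGen.refl _

theorem moveR_bwd (hi : i ≤ u.length) {X Y : (ℤ × Bool) × ℤ} (h : Ct i (r + 1) w' u X Y) :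
    X = Y ∨ ∃ x y, phR u.length i r w'.length x = X ∧ phR u.length i r w'.length y = Y ∧
      Ct (i + 1) r w' (lins i u) x y := by
  have hE := Relation.EqvGen.is_equivalence (Lt (i + 1) r w' (lins i u))
  unfold Ct at h
  induction h with
  | rel X Y h =>
    rcases h with ⟨a, b, n, hab⟩ | ⟨a, b, n, hab⟩ | ⟨s, j, n, hj⟩
    · rcases Nat.eq_zero_or_pos u.length with h0 | h0
      · left
        have hu : u = [] := List.length_eq_zero_iff.mp h0
        subst hu
        have hinc : Sem1Aux.Inc (sg ([] : Word)) (fun a => a) := by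
          intro x
          unfold sg
          simp
        rw [Sem1Aux.Rw_iff hinc] at hab
        have := hab.1
        simp only at this
        rw [this]
      · right
        obtain ⟨t1, t2⟩ := sec_spec (i := i) h0 a
        obtain ⟨t3, t4⟩ := sec_spec (i := i) h0 b
        refine ⟨((sec u.length i a, false), n), ((sec u.length i b, false), n), ?_, ?_, ?_⟩
        · rw [phR_non t1, t2]
        · rw [phR_non t3, t4]
        · refine Relation.EqvGen.rel _ _ (Lt.low _ _ n ?_)
          rw [rw_lins' hi]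
          right
          refine ⟨t1, t3, ?_⟩
          rw [t2, t4]
          exact hab
    · right
      exact ⟨((a, true), n), ((b, true), n), phR_true _ _ _ _ _ _, phR_true _ _ _ _ _ _,
        Relation.EqvGen.rel _ _ (Lt.upp _ _ n hab)⟩
    · right
      have h4 := Lt.glue (p := i + 1) (r := r) (w' := w') (w := lins i u) s (j + 1) n
        (by rw [len_lins]; omega)
      rw [len_lins] at h4
      refine ⟨_, _, ?_, ?_, Relation.EqvGen.rel _ _ h4⟩
      · have e1 : s * ((u.length + 2 : ℕ) : ℤ) + ((i + 1 : ℕ) : ℤ) + ((j + 1 : ℕ) : ℤ) =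
            ((u.length : ℤ) + 2) * (s + 1) + (j : ℤ) - ((u.length : ℤ) - i) := by
          push_cast; ring
        have h1 : ¬ iso u.length i
            (s * ((u.length + 2 : ℕ) : ℤ) + ((i + 1 : ℕ) : ℤ) + ((j + 1 : ℕ) : ℤ)) := by
          rw [iso_iff e1 (by omega) (by omega)]
          omega
        rw [phR_non h1]
        congr 2
        unfold sm
        rw [ct_eq e1 (by omega) (by omega)]
        push_cast; ring
      · rw [phR_true]
        congr 2
        push_cast; ring
  | refl X => exact Or.inl rfl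
  | symm X Y _ ih =>
    rcases ih with h | ⟨x, y, h1, h2, h3⟩
    · exact Or.inl h.symm
    · exact Or.inr ⟨y, x, h2, h1, hE.symm h3⟩
  | trans X Y Z _ _ ih1 ih2 =>
    rcases ih1 with h | ⟨x, y, h1, h2, h3⟩
    · subst h
      exact ih2
    · rcases ih2 with h | ⟨y', z, k1, k2, k3⟩
      · subst h
        exact Or.inr ⟨x, y, h1, h2, h3⟩
      · exact Or.inr ⟨x, z, h1, k2,
          hE.trans h3 (hE.trans (moveR_fibre hi (h2.trans k1.symm)) k3)⟩

theorem moveR_iff (hi : i ≤ u.length) (x y : (ℤ × Bool) × ℤ) :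
    Ct (i + 1) r w' (lins i u) x y ↔
      Ct i (r + 1) w' u (phR u.length i r w'.length x) (phR u.length i r w'.length y) := by
  have hE := Relation.EqvGen.is_equivalence (Lt (i + 1) r w' (lins i u))
  constructor
  · intro h
    exact map_eqv _ (fun _ _ h => moveR_fwd hi h) h
  · intro h
    rcases moveR_bwd hi h with h | ⟨x', y', h1, h2, h3⟩
    · exact moveR_fibre hi h
    · exact hE.trans (moveR_fibre hi h1.symm) (hE.trans h3 (moveR_fibre hi h2))

theorem moveR_pt (hi : i ≤ u.length) (s n : ℤ) (c : ℕ) :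
    phR u.length i r w'.length (pt (i + 1) r w' (lins i u) s c, pl (i + 1) s c + n) =
      (pt i (r + 1) w' u s c, pl i s c + n) := by
  unfold pt pl
  rw [len_lins]
  rcases lt_trichotomy c (i + 1) with h | h | h
  · rw [if_pos (by omega), if_pos (by omega), if_pos (by omega), if_pos (by omega)]
    have e1 : s * ((u.length + 2 : ℕ) : ℤ) + (c : ℤ) =
        ((u.length : ℤ) + 2) * s + ((c : ℤ) + ((u.length : ℤ) - i)) - ((u.length : ℤ) - i) := by
      push_cast; ring
    have h1 : ¬ iso u.length i (s * ((u.length + 2 : ℕ) : ℤ) + (c : ℤ)) := by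
      rw [iso_iff e1 (by omega) (by omega)]
      omega
    rw [phR_non h1]
    congr 2
    unfold sm
    rw [ct_eq e1 (by omega) (by omega)]
    push_cast; ring
  · subst h
    rw [if_pos le_rfl, if_pos le_rfl, if_neg (by omega), if_neg (by omega)]
    have e1 : s * ((u.length + 2 : ℕ) : ℤ) + ((i + 1 : ℕ) : ℤ) =
        ((u.length : ℤ) + 2) * s + ((u.length : ℤ) + 1) - ((u.length : ℤ) - i) := by
      push_cast; ring
    have h1 : iso u.length i (s * ((u.length + 2 : ℕ) : ℤ) + ((i + 1 : ℕ) : ℤ)) :=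
      (iso_iff e1 (by omega) (by omega)).mpr rfl
    rw [phR_iso h1, ct_eq e1 (by omega) (by omega)]
    congr 1
    · congr 1
      push_cast; ring
    · ring
  · rw [if_neg (by omega), if_neg (by omega), if_neg (by omega), if_neg (by omega), phR_true]
    congr 2
    push_cast; ring

theorem moveR_Ix (hi : i ≤ u.length) (X : ℤ) :
    X ∈ Ix (i + 1) r w' (lins i u) ↔ X ∈ Ix i (r + 1) w' u := by
  have el : i + 1 + r = i + (r + 1) := by omega
  have hl : 0 < i + (r + 1) := by omega
  have key : ∀ c d : ℤ, Ct (i + 1) r w' (lins i u) (PT (i + 1) r w' (lins i u) 0 c)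
      (PT (i + 1) r w' (lins i u) 1 d) ↔
      Ct i (r + 1) w' u (PT i (r + 1) w' u 0 c) (PT i (r + 1) w' u 1 d) := by
    intro c d
    obtain ⟨m, c0, hc0, rfl⟩ := label hl c
    obtain ⟨m', d0, hd0, rfl⟩ := label hl d
    rw [PT_eq w' u 0 m hc0, PT_eq w' u 1 m' hd0]
    rw [← el] at hc0 hd0
    rw [← el, PT_eq w' (lins i u) 0 m hc0, PT_eq w' (lins i u) 1 m' hd0, moveR_iff hi,
      moveR_pt hi, moveR_pt hi]
  unfold Ix
  simp only [Set.mem_ofPred_eq, key]

end main

/-- an arc between the last leg and the first through strand -/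
theorem ez_moveR {ζ : ℂ} (hζ : ζ ≠ 0) (p r : ℕ) (w' u : Word) (hp : 1 ≤ p)
    (hp2 : p ≤ u.length + 1) :
    ez ζ p r w' (lins (p - 1) u) = ζ⁻¹ * ez ζ (p - 1) (r + 1) w' u := by
  obtain ⟨i, rfl⟩ : ∃ i, p = i + 1 := ⟨p - 1, by omega⟩
  have hi : i ≤ u.length := by omega
  rw [Nat.add_sub_cancel]
  have h := ez_of_shift (ζ := ζ) hζ 0 (good_iff (r := r) (w' := w') hi)
    (fun X => by rw [sub_zero]; exact moveR_Ix hi X)
  rw [h]
  congr 1
  have e : (0 : ℤ) - ((i + 1 : ℕ) : ℤ) + (i : ℤ) = -1 := by push_cast; ring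
  rw [e, zpow_neg_one]

end Pool.Agent.S77.WD
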