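import Pool.Agent.S77.WD.Defs
import Pool.Agent.H160R2.ML.T_symm

/-!
# The index set and the exchange of above and below
-/

set_option autoImplicit false

namespace Pool.Agent.S77.WD
open Pool.Agent.H863R2.Cyl
open Pool.Agent.H160R2.ML
open Pool.Agent.H988R2.Perc (Word PD)

/-- exchange of above and below -/
def fz (x : (ℤ × Bool) × ℤ) : (ℤ × Bool) × ℤ := ((x.1.1, !x.1.2), -x.2)

theorem fz_fz (x : (ℤ × Bool) × ℤ) : fz (fz x) = x := by
  rcases x with ⟨⟨a, b⟩, n⟩
  simp [fz]

theorem ct_fz {p r : ℕ} {w' w : Word} (h : w'.length + p = w.length + r)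
    {x y : (ℤ × Bool) × ℤ} (hc : Ct p r w' w x y) : Ct r p w w' (fz x) (fz y) := by
  refine map_eqv fz (fun x y hxy => ?_) hc
  cases hxy with
  | low a b n hab => exact Relation.EqvGen.rel _ _ (Lt.upp a b _ hab)
  | upp a b n hab => exact Relation.EqvGen.rel _ _ (Lt.low a b _ hab)
  | glue s i n hi =>
    have g := Lt.glue (p := r) (r := p) (w' := w) (w := w') s i (-(n + gg s)) (by omega)
    have e : -(n + gg s) + gg s = -n := by ring
    rw [e] at g
    exact Relation.EqvGen.symm _ _ (Relation.EqvGen.rel _ _ g)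

/-- the labels as seen from the other side -/
theorem fz_PT {p r : ℕ} {w' w : Word} (h : w'.length + p = w.length + r) (hp : p ≤ w.length)
    (hl : 0 < p + r) (s c : ℤ) :
    Ct r p w w' (fz (PT p r w' w s c))
      ((PT r p w w' s (-c)).1, (PT r p w w' s (-c)).2 - gg (s - 1)) := by
  have hcast : (w'.length : ℤ) + p = w.length + r := by exact_mod_cast h
  have el : r + p = p + r := Nat.add_comm _ _
  obtain ⟨m, c0, hc0, rfl⟩ := label hl c
  rw [PT_eq _ _ _ _ hc0]
  rcases Nat.eq_zero_or_pos c0 with h0 | h0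
  · subst h0
    have e : -(((p + r : ℕ) : ℤ) * m + ((0 : ℕ) : ℤ)) = ((r + p : ℕ) : ℤ) * (-m) + ((0 : ℕ) : ℤ) := by
      push_cast; ring
    rw [e, PT_eq _ _ _ _ (by omega : 0 < r + p)]
    unfold pt pl fz
    simp only [Nat.zero_le, if_true, Bool.not_false]
    have hg := Lt.glue (p := r) (r := p) (w' := w) (w := w') (s - 1) (w'.length - r)
      (0 + -m * (gg s - gg (s - 1)) - gg (s - 1)) (by omega)
    have e3 : (s - 1) * (w'.length : ℤ) + r + ((w'.length - r : ℕ) : ℤ) =
        s * w'.length + ((0 : ℕ) : ℤ) := by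
      rw [Nat.cast_sub (by omega)]; push_cast; ring
    have e4 : (s - 1) * (w.length : ℤ) + p + ((w'.length - r : ℕ) : ℤ) =
        s * w.length + ((0 : ℕ) : ℤ) := by
      rw [Nat.cast_sub (by omega)]; push_cast; linarith
    have e5 : 0 + -m * (gg s - gg (s - 1)) - gg (s - 1) + gg (s - 1) =
        -(0 + m * (gg s - gg (s - 1))) := by ring
    rw [e3, e4, e5] at hg
    exact Relation.EqvGen.symm _ _ (Relation.EqvGen.rel _ _ hg)
  · have e : -(((p + r : ℕ) : ℤ) * m + (c0 : ℤ)) =
        ((r + p : ℕ) : ℤ) * (-m - 1) + ((p + r - c0 : ℕ) : ℤ) := by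
      rw [Nat.cast_sub (by omega)]; push_cast; ring
    have hsub : ((p + r - c0 : ℕ) : ℤ) = (p : ℤ) + r - c0 := by
      rw [Nat.cast_sub (by omega)]; push_cast; ring
    rw [e, PT_eq _ _ _ _ (by omega : p + r - c0 < r + p)]
    rcases lt_trichotomy c0 p with h1 | h1 | h1
    · have e1 : pt p r w' w s c0 = (s * w.length + c0, false) := by
        unfold pt; rw [if_pos h1.le]
      have e2 : pt r p w w' s (p + r - c0) = (s * w.length + c0, true) := by
        unfold pt; rw [if_neg (by omega), hsub]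
        congr 1; ring
      have e3 : pl p s c0 = 0 := by unfold pl; rw [if_pos h1.le]
      have e4 : pl r s (p + r - c0) = gg s := by unfold pl; rw [if_neg (by omega)]
      rw [e1, e2, e3, e4]
      unfold fz
      have e5 : -(0 + m * (gg s - gg (s - 1))) =
          gg s + (-m - 1) * (gg s - gg (s - 1)) - gg (s - 1) := by ring
      simp only [Bool.not_false]
      rw [e5]
      exact Relation.EqvGen.refl _
    · subst h1
      have e1 : pt c0 r w' w s c0 = (s * w.length + c0 + ((0 : ℕ) : ℤ), false) := by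
        unfold pt; rw [if_pos le_rfl]; simp
      have e2 : pt r c0 w w' s (c0 + r - c0) = (s * w'.length + r + ((0 : ℕ) : ℤ), false) := by
        unfold pt
        have : c0 + r - c0 = r := by omega
        rw [this, if_pos le_rfl]
        simp
      have e3 : pl c0 s c0 = 0 := by unfold pl; rw [if_pos le_rfl]
      have e4 : pl r s (c0 + r - c0) = 0 := by
        unfold pl
        have : c0 + r - c0 = r := by omega
        rw [this, if_pos le_rfl]
      rw [e1, e2, e3, e4]
      unfold fz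
      simp only [Bool.not_false]
      have g := Lt.glue (p := r) (r := c0) (w' := w) (w := w') s 0
        (0 + (-m - 1) * (gg s - gg (s - 1)) - gg (s - 1)) (by omega)
      have e5 : 0 + (-m - 1) * (gg s - gg (s - 1)) - gg (s - 1) + gg s =
          -(0 + m * (gg s - gg (s - 1))) := by ring
      rw [e5] at g
      exact Relation.EqvGen.symm _ _ (Relation.EqvGen.rel _ _ g)
    · have e1 : pt p r w' w s c0 = (s * w'.length + ((p : ℤ) + r - c0), true) := by
        unfold pt; rw [if_neg (by omega)]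
      have e2 : pt r p w w' s (p + r - c0) = (s * w'.length + ((p : ℤ) + r - c0), false) := by
        unfold pt; rw [if_pos (by omega), hsub]
      have e3 : pl p s c0 = gg s := by unfold pl; rw [if_neg (by omega)]
      have e4 : pl r s (p + r - c0) = 0 := by unfold pl; rw [if_pos (by omega)]
      rw [e1, e2, e3, e4]
      unfold fz
      simp only [Bool.not_true]
      have e5 : -(gg s + m * (gg s - gg (s - 1))) =
          0 + (-m - 1) * (gg s - gg (s - 1)) - gg (s - 1) := by ring
      rw [e5]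
      exact Relation.EqvGen.refl _

theorem fz_PT0 {p r : ℕ} {w' w : Word} (h : w'.length + p = w.length + r) (hp : p ≤ w.length)
    (hl : 0 < p + r) (c : ℤ) :
    Ct r p w w' (fz (PT p r w' w 0 c)) (PT r p w w' 0 (-c)) := by
  have h1 := fz_PT h hp hl 0 c
  have e : gg (0 - 1) = 0 := rfl
  rw [e, sub_zero] at h1
  exact h1

theorem fz_PT1 {p r : ℕ} {w' w : Word} (h : w'.length + p = w.length + r) (hp : p ≤ w.length)
    (hl : 0 < p + r) (c : ℤ) :
    Ct r p w w' (fz (PT p r w' w 1 c)) (PT r p w w' 1 (((p + r : ℕ) : ℤ) - c)) := by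
  have h1 := fz_PT h hp hl 1 c
  have hl' : 0 < r + p := by omega
  obtain ⟨m, c0, hc0, hc⟩ := label hl' (-c)
  have e1 : ((p + r : ℕ) : ℤ) - c = ((r + p : ℕ) : ℤ) * (m + 1) + c0 := by
    have : ((p + r : ℕ) : ℤ) = ((r + p : ℕ) : ℤ) := by push_cast; ring
    rw [this]
    linear_combination hc
  rw [e1, PT_eq _ _ _ _ hc0]
  rw [hc, PT_eq _ _ _ _ hc0] at h1
  have e2 : pl r 1 c0 + m * (gg 1 - gg (1 - 1)) - gg (1 - 1) =
      pl r 1 c0 + (m + 1) * (gg 1 - gg (1 - 1)) := by
    have e3 : gg (1 - 1) = 1 := rfl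
    have e4 : gg 1 = 0 := rfl
    rw [e3, e4]; ring
  rw [← e2]
  exact h1

theorem symm_Ix {p r : ℕ} {w' w : Word} (h : w'.length + p = w.length + r) (hp : p ≤ w.length)
    (hl : 0 < p + r) (X : ℤ) :
    X ∈ Ix p r w' w ↔ ((p + r : ℕ) : ℤ) - X ∈ Ix r p w w' := by
  have hp' : r ≤ w'.length := by omega
  have hE := Ct_equiv r p w w'
  have key : ∀ c d : ℤ, Ct p r w' w (PT p r w' w 0 c) (PT p r w' w 1 d) ↔
      Ct r p w w' (PT r p w w' 0 (-c)) (PT r p w w' 1 (((p + r : ℕ) : ℤ) - d)) := by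
    intro c d
    have h1 := fz_PT0 h hp hl c
    have h2 := fz_PT1 h hp hl d
    constructor
    · intro hc
      exact hE.trans (hE.symm h1) (hE.trans (ct_fz h hc) h2)
    · intro hc
      have h3 := ct_fz h.symm (hE.trans h1 (hE.trans hc (hE.symm h2)))
      rw [fz_fz, fz_fz] at h3
      exact h3
  unfold Ix
  simp only [Set.mem_ofPred_eq, key]
  constructor
  · rintro ⟨c, hc⟩
    refine ⟨-c, ?_⟩
    have e : ((p + r : ℕ) : ℤ) - X - -c = ((p + r : ℕ) : ℤ) - (X - c) := by ring
    rw [e]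
    exact hc
  · rintro ⟨c, hc⟩
    refine ⟨-c, ?_⟩
    have e : ((p + r : ℕ) : ℤ) - (X - -c) = ((p + r : ℕ) : ℤ) - X - c := by ring
    rw [e, neg_neg]
    exact hc

/-- exchange of above and below -/
theorem ez_symm (ζ : ℂ) (p r : ℕ) (w' w : Word)
    (h : w'.length + p = w.length + r) (hp : p ≤ w.length) (hl : 0 < p + r) :
    ez ζ p r w' w = ez ζ⁻¹ r p w w' := by
  have hp' : r ≤ w'.length := by omega
  have hg : Good p r w' w ↔ Good r p w w' :=
    ⟨Tsymm.good_of h hp, Tsymm.good_of h.symm hp'⟩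
  unfold ez
  by_cases hG : Good p r w' w
  · rw [if_pos hG, if_pos (hg.1 hG)]
    refine finsum_mem_eq_of_bijOn (fun X => ((p + r : ℕ) : ℤ) - X) ⟨?_, ?_, ?_⟩ ?_
    · intro X hX; exact (symm_Ix h hp hl X).1 hX
    · intro X _ Y _ h; simpa using h
    · intro X hX
      refine ⟨((p + r : ℕ) : ℤ) - X, (symm_Ix h hp hl _).2 ?_, ?_⟩
      · rw [sub_sub_cancel]; exact hX
      · simp
    · intro X _
      rw [inv_zpow', show -(((p + r : ℕ) : ℤ) - X - (r : ℤ)) = X - p by push_cast; ring]
  · rw [if_neg hG, if_neg (fun h' => hG (hg.2 h'))]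

end Pool.Agent.S77.WD
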