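import Pool.Agent.S77.WD.InsR
import Pool.Agent.S77.WD.MoveR
import Pool.Agent.S77.WD.MoveL
import Pool.Agent.S77.WD.Symm
import Pool.Agent.S77.WD.Base
import Pool.Agent.H160R2.ML.All

/-!
# The exact formula with legs and their winding

The steps are those of `Pool.Agent.H160R2.ML` (project ML of helper160), with a weight `ζ` for the
winding: `w = ζ ^ 2 * q ^ l` instead of `w = q ^ l`.
-/

set_option autoImplicit false

namespace Pool.Agent.S77.WD
open Pool.Agent.H863R2.Cyl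
open Pool.Agent.H160R2.ML
open Pool.Agent.H988R2.Perc (Word PD)

/-- axioms of the leg functional with winding -/
structure LH (l : ℕ) (ζ : ℂ) (e : ℕ → ℕ → Word → Word → ℂ) : Prop where
  zero : ∀ (p r i : ℕ) (w' u : Word), p + r = l → Ok w' → Ok u → Even u.length →
    w'.length + p = u.length + 2 + r → i + 2 ≤ p → p ≤ u.length + 2 → e p r w' (lins i u) = 0
  insR : ∀ (p r i : ℕ) (w' u : Word), p + r = l → Ok w' → Ok u → Even u.length →
    w'.length + p = u.length + 2 + r → p ≤ i → i ≤ u.length →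
    e p r w' (lins i u) = e p r (cap (i - p + r) w') u
  moveR : ∀ (p r : ℕ) (w' u : Word), p + r = l → Ok w' → Ok u → Even u.length →
    w'.length + p = u.length + 2 + r → 1 ≤ p → p ≤ u.length + 1 →
    e p r w' (lins (p - 1) u) = ζ⁻¹ * e (p - 1) (r + 1) w' u
  moveL : ∀ (p r : ℕ) (w' u : Word), p + r = l → Ok w' → Ok u → Even u.length →
    w'.length + p = u.length + 2 + r → 1 ≤ p → p ≤ u.length + 1 →
    e p r w' (seam u) = ζ * e (p - 1) (r + 1) (rotr w') u
  base : ∀ p r : ℕ, p + r = l → Even p → Even r → e p r (bw r) (bw p) = 1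

/-- the functional and its mirror image -/
structure LS (l : ℕ) (ζ : ℂ) (e e' : ℕ → ℕ → Word → Word → ℂ) : Prop where
  h : LH l ζ e
  h' : LH l ζ⁻¹ e'
  symm : ∀ (p r : ℕ) (w' w : Word), p + r = l → w'.length + p = w.length + r → p ≤ w.length →
    e p r w' w = e' r p w w'

theorem LS.swap {l : ℕ} {ζ : ℂ} {e e' : ℕ → ℕ → Word → Word → ℂ} (H : LS l ζ e e') :
    LS l ζ⁻¹ e' e where
  h := H.h'
  h' := by rw [inv_inv]; exact H.h
  symm := fun p r w' w h1 h2 h3 => (H.symm r p w w' (by omega) h2.symm (by omega)).symm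

theorem ez_LH {l : ℕ} (hE : Even l) (hl : 2 ≤ l) {ζ : ℂ} (hζ : ζ ≠ 0) : LH l ζ (ez ζ) where
  zero := by
    intro p r i w' u hpr h1 h2 h3 h4 h5 h6
    have h := (a_LS l hE hl).zero p r i w' u hpr h1 h2 h3 h4 h5 h6
    have hg : ¬ Good p r w' (lins i u) := by
      intro hg
      unfold ee at h
      rw [if_pos hg] at h
      exact one_ne_zero h
    unfold ez
    rw [if_neg hg]
  insR := by
    intro p r i w' u hpr h1 _ _ h4 h5 h6
    exact ez_insR hζ p r i w' u (by omega) h1 h4 h5 h6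
  moveR := by
    intro p r w' u hpr _ _ _ _ h5 h6
    exact ez_moveR hζ p r w' u h5 h6
  moveL := by
    intro p r w' u hpr _ _ _ h4 h5 h6
    exact ez_moveL hζ p r w' u h4 h5 h6
  base := by
    intro p r hpr hp hr
    exact ez_base p r (by omega) hp hr

theorem ez_LS {l : ℕ} (hE : Even l) (hl : 2 ≤ l) {ζ : ℂ} (hζ : ζ ≠ 0) :
    LS l ζ (ez ζ) (ez ζ⁻¹) where
  h := ez_LH hE hl hζ
  h' := ez_LH hE hl (inv_ne_zero hζ)
  symm := fun p r w' w hpr h1 h2 => ez_symm ζ p r w' w h1 h2 (by omega)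

theorem ee_LS {l : ℕ} (hE : Even l) (hl : 2 ≤ l) : LS l 1 ee ee := by
  have H := a_LS l hE hl
  have h : LH l 1 ee :=
    { zero := H.zero
      insR := H.insR
      moveR := fun p r w' u h1 h2 h3 h4 h5 h6 h7 => by
        rw [inv_one, one_mul]; exact H.moveR p r w' u h1 h2 h3 h4 h5 h6 h7
      moveL := fun p r w' u h1 h2 h3 h4 h5 h6 h7 => by
        rw [one_mul]; exact H.moveL p r w' u h1 h2 h3 h4 h5 h6 h7
      base := H.base }
  exact ⟨h, by rw [inv_one]; exact h, H.symm⟩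

/-- the common data -/
structure Dz (q ζ : ℂ) (l : ℕ) (e e' : ℕ → ℕ → Word → Word → ℂ) (Ψ Ψ' : List ℂ → VW) : Prop where
  hq : q ^ 2 + q + 1 = 0
  hl : Even l
  hl2 : 2 ≤ l
  hζ : ζ ≠ 0
  he : LS l ζ e e'
  h : Fam q Ψ
  h' : Fam (q ^ 2) Ψ'

def Z_legx : Prop := ∀ (q ζ : ℂ) (l : ℕ) (e e' : ℕ → ℕ → Word → Word → ℂ) (Ψ Ψ' : List ℂ → VW),
  Dz q ζ l e e' Ψ Ψ' → ∀ (u v B z : List ℂ) (x y : ℂ), u.length + v.length + 2 + B.length = l →
  Even (u.length + v.length + z.length) →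
  (q * y - q ^ 2 * x) * GG e Ψ' Ψ (u ++ y :: x :: v) B z =
    (q * x - q ^ 2 * y) * GG e Ψ' Ψ (u ++ x :: y :: v) B z

def Z_thr : Prop := ∀ (q ζ : ℂ) (l : ℕ) (e e' : ℕ → ℕ → Word → Word → ℂ) (Ψ Ψ' : List ℂ → VW),
  Dz q ζ l e e' Ψ Ψ' → ∀ (A B z z' : List ℂ), z.Perm z' → A.length + B.length = l →
  Even (A.length + z.length) → Gn z → GG e Ψ' Ψ A B z = GG e Ψ' Ψ A B z'

def Z_mvR : Prop := ∀ (q ζ : ℂ) (l : ℕ) (e e' : ℕ → ℕ → Word → Word → ℂ) (Ψ Ψ' : List ℂ → VW),
  Dz q ζ l e e' Ψ Ψ' → ∀ (A B z : List ℂ) (x : ℂ), A.length + 1 + B.length = l →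
  Even (A.length + z.length) →
  GG e Ψ' Ψ (A ++ [x]) B ((q * x) :: z) =
    fac q x (A ++ z) * (ζ⁻¹ * GG e Ψ' Ψ A (B ++ [q * x]) z)

def Z_mvL : Prop := ∀ (q ζ : ℂ) (l : ℕ) (e e' : ℕ → ℕ → Word → Word → ℂ) (Ψ Ψ' : List ℂ → VW),
  Dz q ζ l e e' Ψ Ψ' → ∀ (A B z : List ℂ) (y : ℂ), A.length + 1 + B.length = l →
  Even (A.length + z.length) →
  GG e Ψ' Ψ ((q * y) :: A) B (z ++ [y]) = fac q y (A ++ z) * (ζ * GG e Ψ' Ψ A (y :: B) z)

def Z_deg : Prop := ∀ (q ζ : ℂ) (l : ℕ) (e e' : ℕ → ℕ → Word → Word → ℂ) (Ψ Ψ' : List ℂ → VW),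
  Dz q ζ l e e' Ψ Ψ' → ∀ (A B z : List ℂ), A.length + 1 + B.length = l →
  ∃ P : Polynomial ℂ, P.natDegree ≤ A.length + z.length ∧
    ∀ x, P.eval x = GG e Ψ' Ψ (A ++ [x]) B z

def Z_swap : Prop := ∀ (q ζ : ℂ) (l : ℕ) (e e' : ℕ → ℕ → Word → Word → ℂ) (Ψ Ψ' : List ℂ → VW),
  Dz q ζ l e e' Ψ Ψ' → ∀ (A B z : List ℂ), A.length + B.length = l →
  GG e Ψ' Ψ A B z = GG e' Ψ Ψ' B A z

def Z_bs : Prop := ∀ (q ζ : ℂ) (l : ℕ) (e e' : ℕ → ℕ → Word → Word → ℂ) (Ψ Ψ' : List ℂ → VW),
  Dz q ζ l e e' Ψ Ψ' → ∀ (A B : List ℂ), A.length + B.length = l → Even A.length → Gn A → Gn B →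
  GG e Ψ' Ψ A B [] * ((q - 1) ^ (A.length / 2) * (q ^ 2 - 1) ^ (B.length / 2))
    = pfq q A * pfq (q ^ 2) B

namespace Zlegx
open Pool.Agent.H863R2.Cyl.PairAux
open Pool.Agent.H160R2.ML.Tlegx (prE_bs)

theorem prE_act {l : ℕ} {ζ : ℂ} {e : ℕ → ℕ → Word → Word → ℂ} (he : LH l ζ e) {p r N N' i : ℕ}
    (hl : p + r = l) (hN : N' + p = N + 2 + r) (hE : Even N) (hi : i + 2 ≤ p) (hp : p ≤ N + 2)
    {v' v : VW} (hv' : v' ∈ VN N') (hv : v ∈ VN (N + 2)) :
    prE e p r v' (lin (act i) v) = 0 := by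
  have h := bilin_ext (A := (prE e p r).compl₂ (lin (act i))) (B := 0) (N' := N') (N := N + 2)
    (fun w' w h1 h2 h3 h4 => by
      have h5 : i + 2 ≤ w.length := by omega
      have h6 : (cap i w).length = N := by
        have := length_cap h5
        omega
      rw [LinearMap.compl₂_apply, lin_bs, prE_bs, act_eq h5]
      rw [he.zero p r i w' (cap i w) hl h2 (ok_cap h4 h5) (by rw [h6]; exact hE)
        (by rw [h6]; omega) hi (by rw [h6]; exact hp)]
      rfl) hv' hv
  exact h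

end Zlegx

open Zlegx in
theorem z_legx : Z_legx := by
  intro q ζ l e e' Ψ Ψ' D u v B z x y hl hE
  have h1 := D.h.exch u (v ++ z) x y
  have e1 : (u ++ y :: x :: v) ++ z = u ++ y :: x :: (v ++ z) := by simp
  have e2 : (u ++ x :: y :: v) ++ z = u ++ x :: y :: (v ++ z) := by simp
  have l1 : (u ++ y :: x :: v).length = u.length + v.length + 2 := by
    simp only [List.length_append, List.length_cons]; omega
  have l2 : (u ++ x :: y :: v).length = u.length + v.length + 2 := by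
    simp only [List.length_append, List.length_cons]; omega
  unfold GG
  rw [l1, l2, e1, e2]
  have h2 := congrArg (prE e (u.length + v.length + 2) B.length (Ψ' (B ++ z))) h1
  rw [map_add, map_smul, map_smul, map_smul] at h2
  have hm := D.h.mem (u ++ x :: y :: (v ++ z))
  have hm' := D.h'.mem (B ++ z)
  have l3 : (u ++ x :: y :: (v ++ z)).length = (u.length + v.length + z.length) + 2 := by
    simp only [List.length_append, List.length_cons]; omega
  rw [l3] at hm
  rw [List.length_append] at hm'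
  rw [prE_act D.he.h hl (by omega) hE (by omega) (by omega) hm' hm] at h2
  rw [smul_zero, add_zero, smul_eq_mul, smul_eq_mul] at h2
  exact h2


namespace Zthr
open Pool.Agent.H863R2.Cyl.PairAux (lin_bs bilin_ext)
open Pool.Agent.H160R2.ML.Tthr (prE_bs)

theorem word_act {l : ℕ} {ζ : ℂ} {e e' : ℕ → ℕ → Word → Word → ℂ} (he : LS l ζ e e') {p r N s : ℕ}
    (hpr : p + r = l) (hl : Even l) (hev : Even (p + N)) (hs : s + 2 ≤ N) {w' w : Word}
    (h1 : w'.length = r + N) (h2 : Ok w') (h3 : w.length = p + N) (h4 : Ok w) :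
    e p r (act (r + s) w') w = e p r w' (act (p + s) w) := by
  have a1 : (p + s) + 2 ≤ w.length := by omega
  have a2 : (r + s) + 2 ≤ w'.length := by omega
  have l1 := length_cap a1
  have l2 := length_cap a2
  have o1 := ok_cap h4 a1
  have o2 := ok_cap h2 a2
  have e1 : Even (cap (p + s) w).length := by
    rw [Nat.even_iff] at hev ⊢
    omega
  have e2 : Even (cap (r + s) w').length := by
    rw [Nat.even_iff] at hev hl ⊢
    omega
  have r1 : e p r w' (act (p + s) w) = e p r (cap (r + s) w') (cap (p + s) w) := by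
    rw [act_eq a1, he.h.insR p r (p + s) w' (cap (p + s) w) hpr h2 o1 e1 (by omega) (by omega)
      (by omega)]
    congr 2
    omega
  have r2 : e p r (act (r + s) w') w = e p r (cap (r + s) w') (cap (p + s) w) := by
    rw [he.symm p r (act (r + s) w') w hpr (by rw [length_act]; omega) (by omega), act_eq a2,
      he.h'.insR r p (r + s) w (cap (r + s) w') (by omega) h4 o2 e2 (by omega) (by omega)
      (by omega), he.symm p r (cap (r + s) w') (cap (p + s) w) hpr (by omega) (by omega)]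
    congr 2
    omega
  rw [r1, r2]

theorem prE_act {l : ℕ} {ζ : ℂ} {e e' : ℕ → ℕ → Word → Word → ℂ} (he : LS l ζ e e') {p r N s : ℕ}
    (hpr : p + r = l) (hl : Even l) (hev : Even (p + N)) (hs : s + 2 ≤ N) {v' v : VW}
    (hv' : v' ∈ VN (r + N)) (hv : v ∈ VN (p + N)) :
    prE e p r (lin (act (r + s)) v') v = prE e p r v' (lin (act (p + s)) v) := by
  have h := bilin_ext (A := (prE e p r).comp (lin (act (r + s))))
    (B := (prE e p r).compl₂ (lin (act (p + s)))) (N' := r + N) (N := p + N)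
    (fun w' w h1 h2 h3 h4 => by
      rw [LinearMap.compl₂_apply, LinearMap.comp_apply, lin_bs, lin_bs, prE_bs, prE_bs,
        word_act he hpr hl hev hs h1 h2 h3 h4]) hv' hv
  exact h

end Zthr

open Zthr in
theorem z_thr : Z_thr := by
  intro q ζ l e e' Ψ Ψ' D A B z z' hp hAB hev hz
  obtain ⟨hq, hl, hl2, _, he, hΨ, hΨ'⟩ := D
  have hq3 : q ^ 3 = 1 := by linear_combination (q - 1) * hq
  -- adjacent swaps
  have hswap : ∀ (u v : List ℂ) (x y : ℂ), x ^ 3 ≠ y ^ 3 →
      Even (A.length + (u ++ x :: y :: v).length) →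
      GG e Ψ' Ψ A B (u ++ y :: x :: v) = GG e Ψ' Ψ A B (u ++ x :: y :: v) := by
    intro u v x y hxy hE
    unfold GG
    have e1 := hΨ.exch (A ++ u) v x y
    have e2 := hΨ'.exch (B ++ u) v x y
    rw [List.append_assoc, List.append_assoc] at e1 e2
    have m1 := hΨ.mem (A ++ (u ++ x :: y :: v))
    have m2 := hΨ'.mem (B ++ (u ++ x :: y :: v))
    rw [List.length_append] at m1 m2
    rw [List.length_append] at e1 e2
    set N := (u ++ x :: y :: v).length with hN
    have hN2 : u.length + 2 ≤ N := by rw [hN]; simp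
    set X := Ψ (A ++ (u ++ x :: y :: v))
    set X' := Ψ' (B ++ (u ++ x :: y :: v))
    set Y := Ψ (A ++ (u ++ y :: x :: v))
    set Y' := Ψ' (B ++ (u ++ y :: x :: v))
    set i := u.length
    set p := A.length
    set r := B.length
    have h1 : prE e p r (lin (act (r + i)) X') X = prE e p r X' (lin (act (p + i)) X) :=
      prE_act he hAB hl hE hN2 m2 m1
    have m3 : lin (act (p + i)) X ∈ VN (p + N) := GPropAux.lin_mem m1 fun w hw hok =>
      ⟨(length_act _ w).trans hw, ok_act _ hok⟩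
    have h2 : prE e p r (lin (act (r + i)) X') (lin (act (p + i)) X) =
        prE e p r X' (lin (act (p + i)) X) := by
      rw [prE_act he hAB hl hE hN2 m2 m3, GPropAux.lin_lin]
      congr 1
      refine GPropAux.lin_apply_congr m1 fun w hw _ => ?_
      exact act_of_arcAt (arcAt_act _ (by omega))
    have h3 : prE e p r ((q ^ 2 * y - (q ^ 2) ^ 2 * x) • Y') ((q * y - q ^ 2 * x) • Y) =
        prE e p r ((q ^ 2 * x - (q ^ 2) ^ 2 * y) • X' + (x - y) • lin (act (r + i)) X')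
          ((q * x - q ^ 2 * y) • X + (x - y) • lin (act (p + i)) X) := by
      rw [e1, e2]
    simp only [map_add, map_smul, LinearMap.add_apply, LinearMap.smul_apply, smul_eq_mul] at h3
    rw [h1, h2] at h3
    have c1 : (q ^ 2 * y - (q ^ 2) ^ 2 * x) * (q * y - q ^ 2 * x) = x ^ 2 + x * y + y ^ 2 := by
      linear_combination (y ^ 2 + q ^ 3 * x ^ 2 + x ^ 2 - q * x * y - q ^ 2 * x * y) * hq3 - x * y * hq
    have c2 : (q ^ 2 * x - (q ^ 2) ^ 2 * y) * (q * x - q ^ 2 * y) = x ^ 2 + x * y + y ^ 2 := by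
      linear_combination (x ^ 2 + q ^ 3 * y ^ 2 + y ^ 2 - q * x * y - q ^ 2 * x * y) * hq3 - x * y * hq
    have c3 : (q ^ 2 * x - (q ^ 2) ^ 2 * y) + (q * x - q ^ 2 * y) + (x - y) = 0 := by
      linear_combination (x - y) * hq - q * y * hq3
    have hne : x ^ 2 + x * y + y ^ 2 ≠ 0 := by
      intro h0
      apply hxy
      linear_combination (x - y) * h0
    apply mul_left_cancel₀ hne
    linear_combination h3 - prE e p r Y' Y * c1 + prE e p r X' X * c2 +
      (x - y) * prE e p r X' (lin (act (p + i)) X) * c3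
  have key : ∀ u : List ℂ, ((u ++ z).map (fun x => x ^ 3)).Nodup →
      Even (A.length + (u ++ z).length) →
      GG e Ψ' Ψ A B (u ++ z) = GG e Ψ' Ψ A B (u ++ z') := by
    clear hev hz
    induction hp with
    | nil => intro u _ _; rfl
    | cons x _ ih =>
      intro u hu hE
      have := ih (u ++ [x]) (by simpa using hu) (by simpa using hE)
      simpa using this
    | swap x y l =>
      intro u hu hE
      refine hswap u l x y ?_ ?_
      · intro h0
        rw [List.map_append, List.nodup_append] at hu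
        have h1 := hu.2.1
        rw [List.map_cons, List.map_cons, List.nodup_cons] at h1
        apply h1.1
        rw [← h0]
        exact List.mem_cons_self
      · simpa using hE
    | trans h1 h2 ih1 ih2 =>
      rename_i l1 l2 l3
      intro u hu hE
      have hperm : (u ++ l1).Perm (u ++ l2) := h1.append_left u
      rw [ih1 u hu hE, ih2 u ((hperm.map _).nodup_iff.1 hu) (by rw [← hperm.length_eq]; exact hE)]
  have := key [] (by simpa using hz.2) (by simpa using hev)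
  simpa using this


theorem Zmv.prE_lin (e : ℕ → ℕ → Word → Word → ℂ) (p r p' r' : ℕ) (f : Word → Word) (c : ℂ)
    (a b : VW) (h : ∀ w' ∈ a.support, ∀ w ∈ b.support, e p r w' (f w) = c * e p' r' w' w) :
    prE e p r a (lin f b) = c * prE e p' r' a b := by
  unfold prE
  rw [Finsupp.linearCombination_apply, Finsupp.linearCombination_apply, Finsupp.sum, Finsupp.sum,
    LinearMap.sum_apply, LinearMap.sum_apply, Finset.mul_sum]
  refine Finset.sum_congr rfl fun w' hw' => ?_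
  rw [LinearMap.smul_apply, LinearMap.smul_apply, smul_eq_mul, smul_eq_mul, mul_left_comm]
  congr 1
  unfold lin
  rw [Finsupp.lmapDomain_apply, Finsupp.linearCombination_mapDomain,
    Finsupp.linearCombination_apply, Finsupp.linearCombination_apply, Finsupp.sum, Finsupp.sum,
    Finset.mul_sum]
  refine Finset.sum_congr rfl fun w hw => ?_
  rw [Function.comp_apply, h w' hw' w hw, smul_eq_mul, smul_eq_mul, mul_left_comm]

theorem z_mvR : Z_mvR := by
  intro q ζ l e e' Ψ Ψ' hD A B z x hl hev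
  have h1 : (A ++ [x]) ++ (q * x) :: z = A ++ x :: (q * x) :: z := by simp
  have h2 : (B ++ [q * x]) ++ z = B ++ (q * x) :: z := by simp
  unfold GG
  rw [h1, h2, hD.h.recu A z x, map_smul, smul_eq_mul]
  congr 1
  rw [List.length_append, List.length_append, List.length_singleton, List.length_singleton]
  apply Zmv.prE_lin
  intro w' hw' w hw
  obtain ⟨h3, h4⟩ := TmvR.mem_VN (hD.h'.mem _) hw'
  obtain ⟨h5, h6⟩ := TmvR.mem_VN (hD.h.mem _) hw
  rw [List.length_append] at h5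
  simp only [List.length_append, List.length_cons] at h3
  have h7 := hD.he.h.moveR (A.length + 1) B.length w' w hl h4 h6 (by rw [h5]; exact hev)
    (by omega) (by omega) (by omega)
  rwa [Nat.add_sub_cancel] at h7

/-- moving maps of words from one side to the other one -/
theorem Zmv.prE_move (e : ℕ → ℕ → Word → Word → ℂ) (p r p₂ r₂ : ℕ) (f g : Word → Word) (c : ℂ)
    {x v : VW} {N' N : ℕ} (hx : x ∈ VN N') (hv : v ∈ VN N)
    (h : ∀ w' u : Word, w'.length = N' → Ok w' → u.length = N → Ok u →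
      e p r w' (f u) = c * e p₂ r₂ (g w') u) :
    prE e p r x (lin f v) = c * prE e p₂ r₂ (lin g x) v := by
  unfold prE lin
  rw [Finsupp.lmapDomain_apply, Finsupp.lmapDomain_apply, Finsupp.linearCombination_mapDomain,
    Finsupp.linearCombination_apply, Finsupp.linearCombination_apply, Finsupp.sum, Finsupp.sum,
    LinearMap.sum_apply, LinearMap.sum_apply, Finset.mul_sum]
  refine Finset.sum_congr rfl fun w' hw' => ?_
  rw [LinearMap.smul_apply, LinearMap.smul_apply, Finsupp.linearCombination_mapDomain, smul_eq_mul,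
    smul_eq_mul, mul_left_comm]
  have hw := (Finsupp.mem_supported ℂ x).1 hx hw'
  congr 1
  have e1 : Finsupp.linearCombination ℂ ((fun w => e p r w' w) ∘ f) v =
      Finsupp.linearCombination ℂ (fun u => c * e p₂ r₂ (g w') u) v :=
    TmvL.lc_congr hv fun u hu hok => h w' u hw.1 hw.2 hu hok
  rw [e1, Function.comp_apply, Finsupp.linearCombination_apply, Finsupp.linearCombination_apply,
    Finsupp.sum, Finsupp.sum, Finset.mul_sum]
  refine Finset.sum_congr rfl fun u _ => ?_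
  rw [smul_eq_mul, smul_eq_mul, mul_left_comm]

theorem z_mvL : Z_mvL := by
  intro q ζ l e e' Ψ Ψ' hD A B z y hl hev
  have h1 : Ψ ((q * y) :: A ++ (z ++ [y])) = fac q y (A ++ z) • lin seam (Ψ (A ++ z)) := by
    have e1 : (q * y) :: A ++ (z ++ [y]) = (q * y) :: (A ++ z ++ [y]) := by simp
    have e2 : A ++ z ++ [y] ++ [q * y] = (A ++ z) ++ y :: (q * y) :: [] := by simp
    rw [e1, hD.h.rot, e2, hD.h.recu (A ++ z) [] y, List.append_nil, map_smul,
      BLAux.rotr_lin_lins (hD.h.mem (A ++ z))]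
  have h2 : lin rotr (Ψ' (B ++ (z ++ [y]))) = Ψ' (y :: B ++ z) := by
    have e1 : B ++ (z ++ [y]) = (B ++ z) ++ [y] := by simp
    have e2 : y :: B ++ z = y :: (B ++ z) := by simp
    rw [e1, e2, hD.h'.rot]
  unfold GG
  rw [h1, map_smul, smul_eq_mul, ← h2]
  congr 1
  have hx := hD.h'.mem (B ++ (z ++ [y]))
  have hv := hD.h.mem (A ++ z)
  refine Zmv.prE_move e _ _ _ _ seam rotr ζ hx hv fun w' u hw' hok' hu hok => ?_
  have hlen : w'.length = B.length + (z.length + 1) := by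
    rw [hw']
    simp
  have hulen : u.length = A.length + z.length := by
    rw [hu]
    simp
  have h3 := hD.he.h.moveL (A.length + 1) B.length w' u (by omega) hok' hok (by rw [hulen]; exact hev)
    (by omega) (by omega) (by omega)
  rw [List.length_cons, List.length_cons, h3, Nat.add_sub_cancel]

theorem z_deg : Z_deg := by
  intro q ζ l e e' Ψ Ψ' hD A B z _
  have hPD : ∀ w : Word, ∃ P : Polynomial ℂ, P.natDegree ≤ A.length + z.length ∧
      ∀ x, Ψ (A ++ x :: z) w = P.eval x := by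
    intro w
    have h := hD.h.deg (A.length + z.length + 1) w
    obtain ⟨P, hP, hPe⟩ := Pool.Agent.H988R2.Perc.PD.univ h A z rfl
    refine ⟨P, ?_, hPe⟩
    simpa using hP
  choose P hPd hPe using hPD
  refine ⟨∑ w ∈ BLAux.SN (A.length + z.length + 1),
    Polynomial.C (prE e (A.length + 1) B.length (Ψ' (B ++ z)) (bs w)) * P w, ?_, ?_⟩
  · refine Polynomial.natDegree_sum_le_of_forall_le _ _ fun w _ => ?_
    exact (Polynomial.natDegree_C_mul_le _ _).trans (hPd w)
  · intro x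
    have hmem := hD.h.mem (A ++ x :: z)
    have hlen : (A ++ x :: z).length = A.length + z.length + 1 := by
      simp only [List.length_append, List.length_cons]; omega
    rw [hlen] at hmem
    have hex := BLAux.expand hmem
    have hA : A ++ [x] ++ z = A ++ x :: z := by simp
    have hl1 : (A ++ [x]).length = A.length + 1 := by simp
    unfold GG
    rw [hA, hl1, hex, map_sum, Polynomial.eval_finsetSum]
    refine Finset.sum_congr rfl fun w _ => ?_
    rw [map_smul, Polynomial.eval_mul, Polynomial.eval_C, ← hPe w x, smul_eq_mul, mul_comm]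


theorem z_swap : Z_swap := by
  intro q ζ l e e' Ψ Ψ' hD A B z hl
  unfold GG
  rw [Tswap.prE_apply, Tswap.prE_apply, Finset.sum_comm]
  refine Finset.sum_congr rfl fun w hw => Finset.sum_congr rfl fun w' hw' => ?_
  have h1 : w.length = A.length + z.length := by
    rw [Tswap.len_of_mem (hD.h.mem (A ++ z)) hw, List.length_append]
  have h2 : w'.length = B.length + z.length := by
    rw [Tswap.len_of_mem (hD.h'.mem (B ++ z)) hw', List.length_append]
  rw [hD.he.symm A.length B.length w' w hl (by omega) (by omega)]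
  ring

open Pool.Agent.H160R2.ML.Tbs in
theorem z_bs : S_comp → Z_bs := by
  intro hcomp q ζ l e e' Ψ Ψ' hD A B hAB hA hGA hGB
  have hq := hD.hq
  have hq2 : (q ^ 2) ^ 2 + q ^ 2 + 1 = 0 := by
    have h3 : q ^ 3 = 1 := by linear_combination (q - 1) * hq
    calc (q ^ 2) ^ 2 + q ^ 2 + 1 = q ^ 3 * q + q ^ 2 + 1 := by ring
      _ = q ^ 2 + q + 1 := by rw [h3]; ring
      _ = 0 := hq
  have hB : Even B.length := by
    have h1 := hD.hl
    rw [← hAB] at h1
    exact (Nat.even_add.mp h1).mp hA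
  have hAs : ∀ w ∈ (Ψ A).support, w.length = A.length ∧ Ok w := fun w hw =>
    (Finsupp.mem_supported ℂ _).mp (hD.h.mem A) hw
  have hBs : ∀ w ∈ (Ψ' B).support, w.length = B.length ∧ Ok w := fun w hw =>
    (Finsupp.mem_supported ℂ _).mp (hD.h'.mem B) hw
  have hGG : GG e Ψ' Ψ A B [] = Ψ' B (bw B.length) * (Ψ A (bw A.length)) := by
    unfold GG
    rw [List.append_nil, List.append_nil, pr_single e A.length B.length (Ψ' B) (Ψ A) (bw B.length)
      (bw A.length), hD.he.h.base A.length B.length hAB hA hB, mul_one]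
    intro w' hw' w hw hne
    obtain ⟨l1, o1⟩ := hAs w hw
    obtain ⟨l2, o2⟩ := hBs w' hw'
    rcases hne with hne | hne
    · obtain ⟨i, u, rfl, hu, hue, hul, hi⟩ := exists_arc B.length w' hB l2 o2 hne
      rw [hD.he.symm A.length B.length _ _ hAB (by omega) (by omega)]
      exact hD.he.h'.zero B.length A.length i w u (by omega) o1 hu hue (by omega) hi (by omega)
    · obtain ⟨i, u, rfl, hu, hue, hul, hi⟩ := exists_arc A.length w hA l1 o1 hne
      exact hD.he.h.zero A.length B.length i w' u hAB o2 hu hue (by omega) hi (by omega)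
  have h1 := hcomp q Ψ hq hD.h A hA hGA
  have h2 := hcomp (q ^ 2) Ψ' hq2 hD.h' B hB hGB
  rw [hGG, ← h1, ← h2]
  ring


/-! ### the formula -/

namespace ZTA

open Pool.Agent.H160R2.ML.TTA
open Pool.Agent.H863R2.Cyl.DetPAux (q3 q_ne lv Uv wd_cons)

/-! ### moving a leg -/

theorem move {q ζ : ℂ} {l : ℕ} {e e' : ℕ → ℕ → Word → Word → ℂ} {Ψ Ψ' : List ℂ → VW} (hL : Z_legx)
    (D : Dz q ζ l e e' Ψ Ψ') (B z : List ℂ) (x : ℂ) (v : List ℂ) : ∀ u : List ℂ,
    u.length + v.length + 1 + B.length = l → Even (u.length + v.length + 1 + z.length) →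
    (v.map (fun a => q * a - q ^ 2 * x)).prod * GG e Ψ' Ψ (u ++ v ++ [x]) B z =
      (v.map (fun a => q * x - q ^ 2 * a)).prod * GG e Ψ' Ψ (u ++ x :: v) B z := by
  induction v with
  | nil => intro u _ _; simp
  | cons a v ih =>
    intro u hl hev
    rw [List.length_cons] at hl hev
    have h1 := ih (u ++ [a]) (by rw [List.length_append, List.length_singleton]; omega)
      (by rw [List.length_append, List.length_singleton]; convert hev using 1; ring)
    have h2 := hL q ζ l e e' Ψ Ψ' D u v B z x a (by omega) (by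
      have e1 : u.length + (v.length + 1) + 1 + z.length = (u.length + v.length + z.length) + 2 := by
        ring
      rw [e1, Nat.even_add] at hev
      exact hev.2 (by decide))
    have e2 : u ++ [a] ++ v ++ [x] = u ++ (a :: v) ++ [x] := by simp
    have e3 : u ++ [a] ++ x :: v = u ++ a :: x :: v := by simp
    rw [e2, e3] at h1
    rw [List.map_cons, List.prod_cons, List.map_cons, List.prod_cons, mul_assoc, h1]
    linear_combination (v.map (fun a => q * x - q ^ 2 * a)).prod * h2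

/-- the partition function vanishes if the last leg is `q` times another leg -/
theorem van {q ζ : ℂ} {l : ℕ} {e e' : ℕ → ℕ → Word → Word → ℂ} {Ψ Ψ' : List ℂ → VW} (hL : Z_legx)
    (D : Dz q ζ l e e' Ψ Ψ') (B z : List ℂ) (A : List ℂ) (hl : A.length + 1 + B.length = l)
    (hev : Even (A.length + 1 + z.length)) (hA : Gn A) (a : ℂ) (ha : a ∈ A) :
    GG e Ψ' Ψ (A ++ [q * a]) B z = 0 := by
  have hq := D.hq
  have h3 : q ^ 3 = 1 := q3 hq
  obtain ⟨u, v, rfl⟩ := List.append_of_mem ha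
  have hGv : ∀ b ∈ v, a ^ 3 ≠ b ^ 3 := Gn_cons (Gn_sub (List.sublist_append_right u (a :: v)) hA)
  rw [List.length_append, List.length_cons] at hl hev
  have h1 := move hL D B z (q * a) v (u ++ [a])
    (by rw [List.length_append, List.length_singleton]; omega)
    (by rw [List.length_append, List.length_singleton]; convert hev using 1; ring)
  have h2 := hL q ζ l e e' Ψ Ψ' D u v B z (q * a) a (by omega) (by
    have e1 : u.length + (v.length + 1) + 1 + z.length = (u.length + v.length + z.length) + 2 := by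
      ring
    rw [e1, Nat.even_add] at hev
    exact hev.2 (by decide))
  have ha0 : a ≠ 0 := hA.1 a ha
  have h4 : GG e Ψ' Ψ (u ++ a :: (q * a) :: v) B z = 0 := by
    have h5 : (q * a - q ^ 2 * (q * a)) * GG e Ψ' Ψ (u ++ a :: (q * a) :: v) B z = 0 := by
      rw [h2]
      ring
    rcases mul_eq_zero.1 h5 with h6 | h6
    · exfalso
      have h7 : (q - 1) * a = 0 := by linear_combination h6 + a * h3
      rcases mul_eq_zero.1 h7 with h8 | h8
      · exact DetGAux.q_ne1 hq (sub_eq_zero.1 h8)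
      · exact ha0 h8
    · exact h6
  have e2 : u ++ [a] ++ v ++ [q * a] = u ++ (a :: v) ++ [q * a] := by simp
  have e3 : u ++ [a] ++ (q * a) :: v = u ++ a :: (q * a) :: v := by simp
  rw [e2, e3, h4, mul_zero] at h1
  rcases mul_eq_zero.1 h1 with h6 | h6
  · exfalso
    rw [List.prod_eq_zero_iff, List.mem_map] at h6
    obtain ⟨b, hb, h7⟩ := h6
    apply hGv b hb
    have h8 : a = q * b := by linear_combination -h7 - a * h3
    rw [h8, mul_pow, h3, one_mul]
  · exact h6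

/-! ### the formula -/

def Form (q ζ : ℂ) (l : ℕ) (e : ℕ → ℕ → Word → Word → ℂ) (Ψ Ψ' : List ℂ → VW) (κ : ℂ)
    (p r N : ℕ) : Prop :=
  ∀ (A B : List ℂ) (z : Fin N → ℂ), A.length = p → B.length = r →
    Gn (A ++ B ++ List.ofFn z) →
    GG e Ψ' Ψ A B (List.ofFn z) * vd z =
      κ * pfq q A * pfq (q ^ 2) B * (wd q z * (∏ i, z i) * T q (ζ ^ 2 * q ^ l) (A ++ B) z)

/-- value at `x = q² y` -/
theorem evR {q ζ : ℂ} {l : ℕ} {e e' : ℕ → ℕ → Word → Word → ℂ} {Ψ Ψ' : List ℂ → VW}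
    (hR : Z_mvR) (hP : S_TP) (hRM : S_RM) (D : Dz q ζ l e e' Ψ Ψ') {κ : ℂ} {p r N : ℕ}
    (hl : p + 1 + r = l) (hev : Even (p + N)) (hF : Form q ζ l e Ψ Ψ' κ p (r + 1) N)
    (A B : List ℂ) (y : ℂ) (z : Fin N → ℂ) (hA : A.length = p) (hB : B.length = r)
    (hG : Gn (A ++ B ++ y :: List.ofFn z)) :
    GG e Ψ' Ψ (A ++ [q ^ 2 * y]) B (y :: List.ofFn z) * vd (Fin.cons y z : Fin (N + 1) → ℂ) =
      (-q ^ (l + 1) * ζ⁻¹ * κ) * pfq q (A ++ [q ^ 2 * y]) * pfq (q ^ 2) B *
        (wd q (Fin.cons y z : Fin (N + 1) → ℂ) * (∏ i, (Fin.cons y z : Fin (N + 1) → ℂ) i) *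
          T q (ζ ^ 2 * q ^ l) (A ++ [q ^ 2 * y] ++ B) (Fin.cons y z : Fin (N + 1) → ℂ)) := by
  have hq := D.hq
  have h3 : q ^ 3 = 1 := q3 hq
  have e0 : q * (q ^ 2 * y) = y := by linear_combination y * h3
  have hmv := hR q ζ l e e' Ψ Ψ' D A B (List.ofFn z) (q ^ 2 * y) (by rw [hA, hB]; exact hl)
    (by rw [hA, List.length_ofFn]; exact hev)
  rw [e0] at hmv
  have hfac := fac_eq q (q ^ 2 * y) A z
  have e1 : lg A (q ^ 2) (q ^ 2 * y) = lg A q y := lg_congr A (by linear_combination (q * y) * h3)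
  have e2 : ∀ j, z j - q ^ 2 * (q ^ 2 * y) = z j - q * y := fun j => by
    linear_combination (-q * y) * h3
  rw [e1, Finset.prod_congr rfl fun j _ => by rw [e2 j]] at hfac
  have hIH := hF A (B ++ [y]) z hA (by rw [List.length_append, hB, List.length_singleton])
    (by
      have e : A ++ (B ++ [y]) ++ List.ofFn z = A ++ B ++ y :: List.ofFn z := by simp
      rw [e]; exact hG)
  have hGc : Gn (List.ofFn (Fin.cons y z : Fin (N + 1) → ℂ)) := by
    have e : List.ofFn (Fin.cons y z : Fin (N + 1) → ℂ) = y :: List.ofFn z := by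
      rw [List.ofFn_succ]
      simp
    rw [e]
    exact Gn_sub (List.sublist_append_right _ _) hG
  have hgen : Gen q (Fin.cons y z : Fin (N + 1) → ℂ) := Gn_Gen hq hGc
  have hT := hRM q (ζ ^ 2 * q ^ l) hq (A ++ B) N y z hgen
  have hT1 : T q (ζ ^ 2 * q ^ l) (A ++ [q ^ 2 * y] ++ B) (Fin.cons y z : Fin (N + 1) → ℂ) =
      T q (ζ ^ 2 * q ^ l) ((q ^ 2 * y) :: (A ++ B)) (Fin.cons y z : Fin (N + 1) → ℂ) := by
    refine ((hP q (ζ ^ 2 * q ^ l) (A ++ [q ^ 2 * y] ++ B) (N + 1) _).2.2.1 _ ?_).1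
    rw [List.append_assoc, List.singleton_append]
    exact List.perm_middle
  have hT2 : T q (ζ ^ 2 * q ^ l) (A ++ (B ++ [y])) z = T q (ζ ^ 2 * q ^ l) (y :: (A ++ B)) z := by
    refine ((hP q (ζ ^ 2 * q ^ l) (A ++ (B ++ [y])) N z).2.2.1 _ ?_).1
    rw [← List.append_assoc]
    exact List.perm_append_singleton y (A ++ B)
  have hp1 : pfq (q ^ 2) (B ++ [y]) = pfq (q ^ 2) B * ((-q) ^ r * lg B q y) := by
    rw [pfq_append, map_scale B _ (fun b => b - q * y) (-q) (fun b => by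
      linear_combination (-q * b) * h3), hB]
    rfl
  have hp2 : pfq q (A ++ [q ^ 2 * y]) = pfq q A * ((-q ^ 2) ^ p * lg A q y) := by
    rw [pfq_append, map_scale A _ (fun b => b - q * y) (-q ^ 2) (fun b => by ring), hA]
    rfl
  have hc : (-q) ^ r * q ^ 2 = -q ^ (l + 1) * (-q ^ 2) ^ p := by
    have hodd : Odd (p + r) := by
      have := D.hl
      rw [← hl] at this
      rw [← Nat.not_even_iff_odd]
      intro h
      have e : p + 1 + r = (p + r) + 1 := by ring
      rw [e, Nat.even_add_one] at this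
      exact this h
    have h1 : (-1 : ℂ) ^ p * (-1) ^ r = -1 := by rw [← pow_add]; exact hodd.neg_one_pow
    have h2 : (-1 : ℂ) ^ p * (-1) ^ p = 1 := by rw [← pow_add]; exact Even.neg_one_pow ⟨p, rfl⟩
    have h4 : (-1 : ℂ) ^ r = -(-1) ^ p := by linear_combination (-1 : ℂ) ^ p * h1 - (-1) ^ r * h2
    have h5 : (-q) ^ r = (-1) ^ r * q ^ r := neg_pow q r
    have h6 : (-q ^ 2) ^ p = (-1) ^ p * (q ^ 2) ^ p := neg_pow (q ^ 2) p
    have h7 : q ^ (l + 1) * (q ^ 2) ^ p = q ^ r * q ^ 2 := by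
      rw [← hl]
      calc q ^ (p + 1 + r + 1) * (q ^ 2) ^ p = (q ^ 3) ^ p * (q ^ r * q ^ 2) := by ring
        _ = q ^ r * q ^ 2 := by rw [h3]; ring
    rw [h5, h6, h4]
    linear_combination (-1 : ℂ) ^ p * h7
  rw [hmv, hfac, hT1, hp2, wd_cons, DetGAux.vd_cons, Fin.prod_univ_succ, Fin.cons_zero, Uv_sq1 hq]
  rw [hT2, hp1] at hIH
  rw [lg_append] at hT
  simp only [Fin.cons_succ]
  generalize GG e Ψ' Ψ A (B ++ [y]) (List.ofFn z) = G at *
  generalize T q (ζ ^ 2 * q ^ l) ((q ^ 2 * y) :: (A ++ B)) (Fin.cons y z : Fin (N + 1) → ℂ) = T1 at *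
  generalize T q (ζ ^ 2 * q ^ l) (y :: (A ++ B)) z = T2 at *
  generalize (∏ j, (z j - q * y) ^ 2) = P2 at *
  generalize (∏ j, (q * (y - q * z j) ^ 2)) = P3 at *
  generalize (∏ j, (y - z j) ^ 2) = P1 at *
  generalize lg A q y = LA at *
  generalize lg B q y = LB at *
  generalize (-q) ^ r = qr at *
  generalize (-q ^ 2) ^ p = qp at *
  generalize q ^ (l + 1) = ql at *
  linear_combination (ζ⁻¹ * (q ^ 2 * y * LA ^ 2 * P2 * P1)) * hIH -
    ((-ql * ζ⁻¹ * κ) * pfq q A * qp * LA * pfq (q ^ 2) B * P2 * wd q z * y * (∏ i, z i)) * hT +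
    (ζ⁻¹ * (κ * pfq q A * LA ^ 2 * pfq (q ^ 2) B * P2 * LB * P1 * T2 * wd q z * y *
      (∏ i, z i))) * hc

/-- value at `x = q y` -/
theorem evL {q ζ : ℂ} {l : ℕ} {e e' : ℕ → ℕ → Word → Word → ℂ} {Ψ Ψ' : List ℂ → VW}
    (hx : Z_legx) (ht : Z_thr) (hR : Z_mvL) (hP : S_TP) (hRP : S_RP) (D : Dz q ζ l e e' Ψ Ψ')
    {κ : ℂ} {p r N : ℕ}
    (hl : p + 1 + r = l) (hev : Even (p + N)) (hF : Form q ζ l e Ψ Ψ' κ p (r + 1) N)
    (A B : List ℂ) (y : ℂ) (z : Fin N → ℂ) (hA : A.length = p) (hB : B.length = r)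
    (hG : Gn (A ++ B ++ y :: List.ofFn z)) :
    GG e Ψ' Ψ (A ++ [q * y]) B (y :: List.ofFn z) * vd (Fin.cons y z : Fin (N + 1) → ℂ) =
      (-q ^ (l + 1) * ζ⁻¹ * κ) * pfq q (A ++ [q * y]) * pfq (q ^ 2) B *
        (wd q (Fin.cons y z : Fin (N + 1) → ℂ) * (∏ i, (Fin.cons y z : Fin (N + 1) → ℂ) i) *
          T q (ζ ^ 2 * q ^ l) (A ++ [q * y] ++ B) (Fin.cons y z : Fin (N + 1) → ℂ)) := by
  have hq := D.hq
  have h3 : q ^ 3 = 1 := q3 hq
  have hq0 : q ≠ 0 := q_ne hq
  have hev2 : Even (p + 1 + (N + 1)) := by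
    have e : p + 1 + (N + 1) = (p + N) + 2 := by ring
    rw [e, Nat.even_add]
    exact iff_of_true hev (by decide)
  have hGz : Gn (y :: List.ofFn z) := Gn_sub (List.sublist_append_right _ _) hG
  have hmv := hR q ζ l e e' Ψ Ψ' D A B (List.ofFn z) y (by rw [hA, hB]; exact hl)
    (by rw [hA, List.length_ofFn]; exact hev)
  have hperm : (y :: List.ofFn z).Perm (List.ofFn z ++ [y]) :=
    (List.perm_append_singleton y (List.ofFn z)).symm
  have hthr := ht q ζ l e e' Ψ Ψ' D ((q * y) :: A) B (y :: List.ofFn z) (List.ofFn z ++ [y]) hperm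
    (by rw [List.length_cons, hA, hB]; exact hl)
    (by rw [List.length_cons, hA, List.length_cons, List.length_ofFn]; exact hev2) hGz
  have hmove := move hx D B (y :: List.ofFn z) (q * y) A []
    (by rw [List.length_nil, zero_add, hA, hB]; exact hl)
    (by rw [List.length_nil, zero_add, hA, List.length_cons, List.length_ofFn]; exact hev2)
  rw [List.nil_append, List.nil_append, hthr, hmv] at hmove
  have hL0 : (A.map (fun a => q * a - q ^ 2 * (q * y))).prod = q ^ p * lg A (q ^ 2) y := by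
    rw [map_scale A _ (fun a => a - q ^ 2 * y) q (fun a => by ring), hA]
    rfl
  have hLne : lg A (q ^ 2) y ≠ 0 := by
    refine lg_ne A _ _ fun a ha hc => ?_
    have h1 := Gn_append hG a (List.mem_append_left _ ha) y (List.mem_cons_self)
    apply h1
    rw [hc]
    calc (q ^ 2 * y) ^ 3 = (q ^ 3) ^ 2 * y ^ 3 := by ring
      _ = y ^ 3 := by rw [h3]; ring
  have hfac := fac_eq q y A z
  have hIH := hF A (y :: B) z hA (by rw [List.length_cons, hB])
    (by
      refine Gn_perm ?_ hG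
      have e : A ++ (y :: B) ++ List.ofFn z = A ++ (y :: B ++ List.ofFn z) := by simp
      rw [e, List.append_assoc]
      refine List.Perm.append_left A ?_
      rw [List.cons_append]
      exact List.perm_middle)
  have hGc : Gn (List.ofFn (Fin.cons y z : Fin (N + 1) → ℂ)) := by
    have e : List.ofFn (Fin.cons y z : Fin (N + 1) → ℂ) = y :: List.ofFn z := by
      rw [List.ofFn_succ]
      simp
    rw [e]
    exact hGz
  have hgen : Gen q (Fin.cons y z : Fin (N + 1) → ℂ) := Gn_Gen hq hGc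
  have hT := hRP q (ζ ^ 2 * q ^ l) hq (A ++ B) N y z hgen
  have hT1 : T q (ζ ^ 2 * q ^ l) (A ++ [q * y] ++ B) (Fin.cons y z : Fin (N + 1) → ℂ) =
      T q (ζ ^ 2 * q ^ l) ((q * y) :: (A ++ B)) (Fin.cons y z : Fin (N + 1) → ℂ) := by
    refine ((hP q (ζ ^ 2 * q ^ l) (A ++ [q * y] ++ B) (N + 1) _).2.2.1 _ ?_).1
    rw [List.append_assoc, List.singleton_append]
    exact List.perm_middle
  have hT2 : T q (ζ ^ 2 * q ^ l) (A ++ (y :: B)) z = T q (ζ ^ 2 * q ^ l) (y :: (A ++ B)) z := by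
    refine ((hP q (ζ ^ 2 * q ^ l) (A ++ (y :: B)) N z).2.2.1 _ ?_).1
    exact List.perm_middle
  have hp1 : pfq (q ^ 2) (y :: B) = (q ^ 2) ^ r * lg B (q ^ 2) y * pfq (q ^ 2) B := by
    rw [pfq, map_scale B _ (fun b => b - q ^ 2 * y) (q ^ 2) (fun b => by ring), hB]
    rfl
  have hp2 : pfq q (A ++ [q * y]) = pfq q A * (A.map (fun a => q * (q * y) - q ^ 2 * a)).prod :=
    pfq_append q (q * y) A
  have hc : (q ^ 2) ^ r = q ^ l * q ^ p * q ^ (l + 1) := by
    rw [← hl]
    calc (q ^ 2) ^ r = (q ^ 2) ^ r * (q ^ 3) ^ (p + 1) := by rw [h3]; ring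
      _ = q ^ (p + 1 + r) * q ^ p * q ^ (p + 1 + r + 1) := by ring
  rw [hL0, hfac] at hmove
  rw [hT2, hp1] at hIH
  rw [lg_append] at hT
  refine mul_left_cancel₀ (mul_ne_zero (pow_ne_zero p hq0) hLne) ?_
  rw [hT1, hp2, wd_cons, DetGAux.vd_cons, Fin.prod_univ_succ, Fin.cons_zero, Uv_sq2 hq]
  simp only [Fin.cons_succ]
  generalize GG e Ψ' Ψ A (y :: B) (List.ofFn z) = G at *
  generalize GG e Ψ' Ψ (A ++ [q * y]) B (y :: List.ofFn z) = G1 at *
  generalize T q (ζ ^ 2 * q ^ l) ((q * y) :: (A ++ B)) (Fin.cons y z : Fin (N + 1) → ℂ) = T1 at *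
  generalize T q (ζ ^ 2 * q ^ l) (y :: (A ++ B)) z = T2 at *
  generalize (∏ j, (z j - q ^ 2 * y) ^ 2) = P2 at *
  generalize (∏ j, ((q ^ 2 * y - q * z j) * (y - q ^ 2 * z j))) = P3 at *
  generalize (∏ j, (y - z j) ^ 2) = P1 at *
  generalize lg A (q ^ 2) y = LA at *
  generalize lg B (q ^ 2) y = LB at *
  generalize (A.map (fun a => q * (q * y) - q ^ 2 * a)).prod = Pi at *
  generalize (q ^ 2) ^ r = qr at *
  generalize q ^ (l + 1) = ql1 at *
  generalize q ^ l = ql at *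
  generalize q ^ p = qp at *
  have hz : ζ⁻¹ * ζ ^ 2 = ζ := by
    rw [pow_two, ← mul_assoc, inv_mul_cancel₀ D.hζ, one_mul]
  linear_combination (P1 * vd z) * hmove + (ζ * (Pi * (y * (LA ^ 2 * P2)) * P1)) * hIH -
    ((qp * LA) * (-ql1 * ζ⁻¹ * κ) * pfq q A * Pi * pfq (q ^ 2) B * P2 * wd q z * y *
      (∏ i, z i)) * hT +
    (ζ * (κ * pfq q A * LA ^ 2 * pfq (q ^ 2) B * P2 * LB * P1 * T2 * wd q z * y * (∏ i, z i) *
      Pi)) * hc -
    ((κ * pfq q A * LA ^ 2 * pfq (q ^ 2) B * P2 * LB * P1 * T2 * wd q z * y * (∏ i, z i) *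
      Pi) * (ql * qp * ql1)) * hz


theorem step {q ζ : ℂ} {l : ℕ} {e e' : ℕ → ℕ → Word → Word → ℂ} {Ψ Ψ' : List ℂ → VW}
    (hx : Z_legx) (ht : Z_thr) (hmR : Z_mvR) (hmL : Z_mvL) (hdeg : Z_deg) (hP : S_TP)
    (hRP : S_RP) (hRM : S_RM) (D : Dz q ζ l e e' Ψ Ψ') {κ : ℂ} {p r N : ℕ}
    (hl : p + 1 + r = l) (hev : Even (p + N)) (hF : Form q ζ l e Ψ Ψ' κ p (r + 1) N) :
    Form q ζ l e Ψ Ψ' (-q ^ (l + 1) * ζ⁻¹ * κ) (p + 1) r (N + 1) := by
  intro A0 B z hA0 hB hG
  have hq := D.hq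
  have h3 : q ^ 3 = 1 := q3 hq
  have hq0 : q ≠ 0 := q_ne hq
  have hev2 : Even (p + 1 + (N + 1)) := by
    have e : p + 1 + (N + 1) = (p + N) + 2 := by ring
    rw [e, Nat.even_add]
    exact iff_of_true hev (by decide)
  obtain ⟨A, a, rfl⟩ : ∃ A a, A0 = A ++ [a] := by
    rcases List.eq_nil_or_concat A0 with h | ⟨A, a, h⟩
    · rw [h] at hA0
      simp at hA0
    · exact ⟨A, a, by rw [h, List.concat_eq_append]⟩
  have hA : A.length = p := by
    rw [List.length_append, List.length_singleton] at hA0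
    omega
  have hG' : Gn (A ++ B ++ List.ofFn z) := by
    refine Gn_sub ?_ hG
    rw [List.append_assoc, List.append_assoc, List.append_assoc]
    exact List.Sublist.append_left (List.sublist_append_right [a] _) A
  have hGA : Gn A := Gn_sub ((List.sublist_append_left A B).trans (List.sublist_append_left _ _)) hG'
  have hGz : Gn (List.ofFn z) := Gn_sub (List.sublist_append_right _ _) hG'
  have hGAz : ∀ b ∈ A, ∀ c ∈ List.ofFn z, b ^ 3 ≠ c ^ 3 := fun b hb =>
    Gn_append hG' b (List.mem_append_left _ hb)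
  -- the statement at `x`
  have key0 : ∀ z1 : Fin (N + 1) → ℂ, Gn (A ++ B ++ List.ofFn z1) →
      GG e Ψ' Ψ (A ++ [q ^ 2 * z1 0]) B (List.ofFn z1) * vd z1 =
        (-q ^ (l + 1) * ζ⁻¹ * κ) * pfq q (A ++ [q ^ 2 * z1 0]) * pfq (q ^ 2) B *
          (wd q z1 * (∏ i, z1 i) * T q (ζ ^ 2 * q ^ l) (A ++ [q ^ 2 * z1 0] ++ B) z1) := by
    intro z1 h1
    have e1 : List.ofFn z1 = z1 0 :: List.ofFn (Fin.tail z1) := List.ofFn_succ
    have e2 : (Fin.cons (z1 0) (Fin.tail z1) : Fin (N + 1) → ℂ) = z1 := Fin.cons_self_tail z1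
    have h := evR hmR hP hRM D hl hev hF A B (z1 0) (Fin.tail z1) hA hB (by rw [← e1]; exact h1)
    rw [e2, ← e1] at h
    exact h
  have keyj : ∀ j : Fin (N + 1),
      GG e Ψ' Ψ (A ++ [q ^ 2 * z j]) B (List.ofFn z) * vd z =
        (-q ^ (l + 1) * ζ⁻¹ * κ) * pfq q (A ++ [q ^ 2 * z j]) * pfq (q ^ 2) B *
          (wd q z * (∏ i, z i) * T q (ζ ^ 2 * q ^ l) (A ++ [q ^ 2 * z j] ++ B) z) := by
    intro j
    have hpm : (List.ofFn (z ∘ Equiv.swap 0 j)).Perm (List.ofFn z) :=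
      Equiv.Perm.ofFn_comp_perm (Equiv.swap 0 j) z
    have h := key0 (z ∘ Equiv.swap 0 j) (Gn_perm (List.Perm.append_left (A ++ B) hpm.symm) hG')
    have e1 : (z ∘ Equiv.swap 0 j) 0 = z j := by simp
    have e2 : ∏ i, (z ∘ Equiv.swap 0 j) i = ∏ i, z i := Equiv.prod_comp _ _
    rw [e1, e2, DetGAux.vd_perm, DetGAux.wd_perm,
      ((hP q (ζ ^ 2 * q ^ l) (A ++ [q ^ 2 * z j] ++ B) (N + 1) z).2.2.2.1 (Equiv.swap 0 j)).1,
      ← ht q ζ l e e' Ψ Ψ' D (A ++ [q ^ 2 * z j]) B (List.ofFn z) _ hpm.symm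
        (by rw [List.length_append, hA, hB, List.length_singleton]; exact hl)
        (by rw [List.length_append, hA, List.length_singleton, List.length_ofFn]; exact hev2)
        hGz] at h
    exact h
  have keyL : GG e Ψ' Ψ (A ++ [q * z 0]) B (List.ofFn z) * vd z =
        (-q ^ (l + 1) * ζ⁻¹ * κ) * pfq q (A ++ [q * z 0]) * pfq (q ^ 2) B *
          (wd q z * (∏ i, z i) * T q (ζ ^ 2 * q ^ l) (A ++ [q * z 0] ++ B) z) := by
    have e1 : List.ofFn z = z 0 :: List.ofFn (Fin.tail z) := List.ofFn_succ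
    have e2 : (Fin.cons (z 0) (Fin.tail z) : Fin (N + 1) → ℂ) = z := Fin.cons_self_tail z
    have h := evL hx ht hmL hP hRP D hl hev hF A B (z 0) (Fin.tail z) hA hB (by rw [← e1]; exact hG')
    rw [e2, ← e1] at h
    exact h
  have keyA : ∀ b ∈ A, GG e Ψ' Ψ (A ++ [q * b]) B (List.ofFn z) * vd z =
        (-q ^ (l + 1) * ζ⁻¹ * κ) * pfq q (A ++ [q * b]) * pfq (q ^ 2) B *
          (wd q z * (∏ i, z i) * T q (ζ ^ 2 * q ^ l) (A ++ [q * b] ++ B) z) := by
    intro b hb
    have h1 := van hx D B (List.ofFn z) A (by rw [hA, hB]; exact hl)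
      (by rw [hA, List.length_ofFn]; exact hev2) hGA b hb
    have h2 : pfq q (A ++ [q * b]) = 0 := by
      rw [pfq_append]
      have h4 : (A.map (fun a => q * (q * b) - q ^ 2 * a)).prod = 0 := by
        rw [List.prod_eq_zero_iff, List.mem_map]
        exact ⟨b, hb, by ring⟩
      rw [h4, mul_zero]
    rw [h1, h2]
    ring
  -- the polynomial
  obtain ⟨P1, hP1d, hP1⟩ := hdeg q ζ l e e' Ψ Ψ' D A B (List.ofFn z) (by rw [hA, hB]; exact hl)
  obtain ⟨⟨PT, hPTd, -, hPT⟩, -⟩ := hP q (ζ ^ 2 * q ^ l) (A ++ B) (N + 1) z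
  rw [hA, List.length_ofFn] at hP1d
  set K : ℂ := (-q ^ (l + 1) * ζ⁻¹ * κ) * pfq q A * pfq (q ^ 2) B * (wd q z * ∏ i, z i) with hK
  set P : Polynomial ℂ := P1 * Polynomial.C (vd z) - Polynomial.C K *
    ((A.map (fun a => Polynomial.C q * Polynomial.X - Polynomial.C (q ^ 2 * a))).prod * PT) with hPdef
  have hPd : P.natDegree ≤ p + (N + 1) := by
    refine (Polynomial.natDegree_sub_le _ _).trans (max_le ?_ ?_)
    · exact (Polynomial.natDegree_mul_C_le _ _).trans hP1d
    · refine (Polynomial.natDegree_C_mul_le _ _).trans (Polynomial.natDegree_mul_le.trans ?_)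
      have := deg_lin q A
      rw [hA] at this
      omega
  have hPe : ∀ x, P.eval x = GG e Ψ' Ψ (A ++ [x]) B (List.ofFn z) * vd z -
      (-q ^ (l + 1) * ζ⁻¹ * κ) * pfq q (A ++ [x]) * pfq (q ^ 2) B *
          (wd q z * (∏ i, z i) * T q (ζ ^ 2 * q ^ l) (A ++ [x] ++ B) z) := by
    intro x
    have hT1 : T q (ζ ^ 2 * q ^ l) (A ++ [x] ++ B) z = T q (ζ ^ 2 * q ^ l) (x :: (A ++ B)) z := by
      refine ((hP q (ζ ^ 2 * q ^ l) (A ++ [x] ++ B) (N + 1) z).2.2.1 _ ?_).1
      rw [List.append_assoc, List.singleton_append]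
      exact List.perm_middle
    rw [hPdef, Polynomial.eval_sub, Polynomial.eval_mul, Polynomial.eval_C, Polynomial.eval_mul,
      Polynomial.eval_C, Polynomial.eval_mul, hP1, hPT, eval_lin, pfq_append, hT1, hK]
    ring
  have hzero : P = 0 := by
    set L : List ℂ := A.map (fun a => q * a) ++ ((List.ofFn z).map (fun u => q ^ 2 * u) ++ [q * z 0])
      with hL
    have hinj : ∀ u v : ℂ, u ^ 3 ≠ v ^ 3 → ∀ i j : ℕ, q ^ i * u ≠ q ^ j * v := by
      intro u v huv i j h
      apply huv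
      have h4 : (q ^ i * u) ^ 3 = (q ^ j * v) ^ 3 := by rw [h]
      have h5 : (q ^ i * u) ^ 3 = (q ^ 3) ^ i * u ^ 3 := by ring
      have h6 : (q ^ j * v) ^ 3 = (q ^ 3) ^ j * v ^ 3 := by ring
      rw [h5, h6, h3, one_pow, one_pow, one_mul, one_mul] at h4
      exact h4
    have hz0 : z 0 ∈ List.ofFn z := List.mem_ofFn.2 ⟨0, rfl⟩
    have hnd : L.Nodup := by
      rw [hL, List.nodup_append, List.nodup_append]
      refine ⟨?_, ⟨?_, List.nodup_singleton _, ?_⟩, ?_⟩
      · exact (List.Nodup.of_map _ hGA.2).map (mul_right_injective₀ hq0)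
      · exact (List.Nodup.of_map _ hGz.2).map (mul_right_injective₀ (pow_ne_zero 2 hq0))
      · intro b hb c hc
        rw [List.mem_map] at hb
        obtain ⟨u, hu, rfl⟩ := hb
        rw [List.mem_singleton] at hc
        subst hc
        obtain ⟨j, rfl⟩ := List.mem_ofFn.1 hu
        by_cases hj : z j ^ 3 = z 0 ^ 3
        · have h0 := Gn_inj hGz j 0 hj
          subst h0
          intro h
          have h5 : q * z 0 * (q - 1) = 0 := by linear_combination h
          rcases mul_eq_zero.1 h5 with h6 | h6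
          · exact mul_ne_zero hq0 (hGz.1 _ hz0) h6
          · exact DetGAux.q_ne1 hq (sub_eq_zero.1 h6)
        · have := hinj _ _ hj 2 1
          rw [pow_one] at this
          exact this
      · intro b hb c hc
        rw [List.mem_map] at hb
        obtain ⟨u, hu, rfl⟩ := hb
        rw [List.mem_append, List.mem_map, List.mem_singleton] at hc
        rcases hc with ⟨v, hv, rfl⟩ | hc
        · have := hinj _ _ (hGAz u hu v hv) 1 2
          rw [pow_one] at this
          exact this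
        · subst hc
          have := hinj _ _ (hGAz u hu (z 0) hz0) 1 1
          rw [pow_one] at this
          exact this
    refine Polynomial.eq_zero_of_natDegree_lt_card_of_eval_eq_zero' P L.toFinset ?_ ?_
    · intro x hxL
      rw [List.mem_toFinset, hL, List.mem_append, List.mem_append, List.mem_map, List.mem_map,
        List.mem_singleton] at hxL
      rw [hPe x, sub_eq_zero]
      rcases hxL with ⟨b, hb, rfl⟩ | ⟨u, hu, rfl⟩ | rfl
      · exact keyA b hb
      · obtain ⟨j, rfl⟩ := List.mem_ofFn.1 hu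
        exact keyj j
      · exact keyL
    · rw [List.toFinset_card_of_nodup hnd, hL, List.length_append, List.length_append,
        List.length_map, List.length_map, hA, List.length_ofFn, List.length_singleton]
      omega
  have h := hPe a
  rw [hzero, Polynomial.eval_zero] at h
  exact sub_eq_zero.1 h.symm

theorem base {q : ℂ} (hq : q ^ 2 + q + 1 = 0) {l : ℕ} (hlE : Even l) (hcomp : S_comp) {p r : ℕ}
    (hl : p + r = l) (hev : Even (p + 0)) :
    ∃ κ : ℂ, ‖κ‖ ^ 4 * 3 ^ l = 1 ∧ ∀ (ζ : ℂ) (e e' : ℕ → ℕ → Word → Word → ℂ)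
      (Ψ Ψ' : List ℂ → VW), Dz q ζ l e e' Ψ Ψ' → Form q ζ l e Ψ Ψ' (κ * ζ⁻¹ ^ 0) p r 0 := by
  have hp : Even p := by simpa using hev
  have hr : Even r := by
    rw [← hl, Nat.even_add] at hlE
    exact hlE.1 hp
  have hq1 : q - 1 ≠ 0 := sub_ne_zero.2 (DetGAux.q_ne1 hq)
  have hq2 : q ^ 2 - 1 ≠ 0 := by
    intro h
    have := nrm2 hq
    rw [h, norm_zero] at this
    norm_num at this
  have hne : (q - 1) ^ (p / 2) * (q ^ 2 - 1) ^ (r / 2) ≠ 0 :=
    mul_ne_zero (pow_ne_zero _ hq1) (pow_ne_zero _ hq2)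
  refine ⟨((q - 1) ^ (p / 2) * (q ^ 2 - 1) ^ (r / 2))⁻¹, ?_, ?_⟩
  · rw [norm_inv, norm_mul, norm_pow, norm_pow, inv_pow]
    have h1 : (‖q - 1‖ ^ (p / 2) * ‖q ^ 2 - 1‖ ^ (r / 2)) ^ 4 = 3 ^ l := by
      obtain ⟨a, ha⟩ := hp
      obtain ⟨b, hb⟩ := hr
      have e1 : p / 2 = a := by omega
      have e2 : r / 2 = b := by omega
      rw [e1, e2]
      calc (‖q - 1‖ ^ a * ‖q ^ 2 - 1‖ ^ b) ^ 4 =
          (‖q - 1‖ ^ 2) ^ (2 * a) * (‖q ^ 2 - 1‖ ^ 2) ^ (2 * b) := by ring
        _ = 3 ^ (2 * a) * 3 ^ (2 * b) := by rw [nrm1 hq, nrm2 hq]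
        _ = 3 ^ l := by rw [← pow_add]; congr 1; omega
    rw [h1]
    exact inv_mul_cancel₀ (pow_ne_zero _ (by norm_num))
  · intro ζ e e' Ψ Ψ' D A B z hA hB hG
    have e0 : List.ofFn z = [] := by simp
    rw [e0, List.append_nil] at hG
    have h := z_bs hcomp q ζ l e e' Ψ Ψ' D A B (by rw [hA, hB]; exact hl) (by rw [hA]; exact hp)
      (Gn_sub (List.sublist_append_left _ _) hG) (Gn_sub (List.sublist_append_right _ _) hG)
    rw [hA, hB] at h
    have h1 : vd z = 1 := by simp [vd]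
    have h2 : wd q z = 1 := by simp [wd]
    have h4 : T q (ζ ^ 2 * q ^ l) (A ++ B) z = 1 := by
      unfold T
      exact Matrix.det_isEmpty
    rw [e0, h1, h2, h4, Finset.univ_eq_empty, Finset.prod_empty]
    rw [mul_one, mul_one, mul_one, mul_one, pow_zero, mul_one, mul_assoc, ← h]
    field_simp

theorem main (hcomp : S_comp) (hP : S_TP) (hRP : S_RP) (hRM : S_RM) (N : ℕ) :
    ∀ (q : ℂ) (l : ℕ), q ^ 2 + q + 1 = 0 → Even l → 2 ≤ l → ∀ p r : ℕ, p + r = l → Even (p + N) →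
      ∃ κ : ℂ, ‖κ‖ ^ 4 * 3 ^ l = 1 ∧ ∀ (ζ : ℂ) (e e' : ℕ → ℕ → Word → Word → ℂ)
        (Ψ Ψ' : List ℂ → VW), Dz q ζ l e e' Ψ Ψ' → Form q ζ l e Ψ Ψ' (κ * ζ⁻¹ ^ N) p r N := by
  induction N with
  | zero => exact fun q l hq hlE _ p r hl hev => base hq hlE hcomp hl hev
  | succ N ih =>
    have pos : ∀ (q : ℂ) (l : ℕ), q ^ 2 + q + 1 = 0 → Even l → 2 ≤ l → ∀ p r : ℕ, p + 1 + r = l →
        Even (p + 1 + (N + 1)) → ∃ κ : ℂ, ‖κ‖ ^ 4 * 3 ^ l = 1 ∧
          ∀ (ζ : ℂ) (e e' : ℕ → ℕ → Word → Word → ℂ) (Ψ Ψ' : List ℂ → VW),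
            Dz q ζ l e e' Ψ Ψ' → Form q ζ l e Ψ Ψ' (κ * ζ⁻¹ ^ (N + 1)) (p + 1) r (N + 1) := by
      intro q l hq hlE hl2 p r hl hev
      have hev' : Even (p + N) := by
        have e : p + 1 + (N + 1) = (p + N) + 2 := by ring
        rw [e, Nat.even_add] at hev
        exact hev.2 (by decide)
      obtain ⟨κ, hκ, hF⟩ := ih q l hq hlE hl2 p (r + 1) (by omega) hev'
      refine ⟨-q ^ (l + 1) * κ, ?_, fun ζ e e' Ψ Ψ' D => ?_⟩
      · rw [norm_mul, norm_neg, norm_pow, nrm hq, one_pow, one_mul]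
        exact hκ
      · have h := step z_legx z_thr z_mvR z_mvL z_deg hP hRP hRM D hl hev' (hF ζ e e' Ψ Ψ' D)
        have e0 : -q ^ (l + 1) * κ * ζ⁻¹ ^ (N + 1) = -q ^ (l + 1) * ζ⁻¹ * (κ * ζ⁻¹ ^ N) := by ring
        rw [e0]
        exact h
    intro q l hq hlE hl2 p r hl hev
    rcases p with _ | p
    · have h3 : q ^ 3 = 1 := q3 hq
      have h4 : (q ^ 2) ^ 2 = q := by linear_combination q * h3
      obtain ⟨r', rfl⟩ : ∃ r', r = r' + 1 := ⟨r - 1, by omega⟩
      obtain ⟨κ, hκ, hF⟩ := pos (q ^ 2) l (by rw [h4]; linear_combination hq) hlE hl2 r' 0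
        (by omega) (by
        have e1 : r' + 1 = l := by omega
        rw [e1, Nat.even_add]
        rw [zero_add] at hev
        exact iff_of_true hlE hev)
      have hqn : ‖(q ^ l)⁻¹‖ = 1 := by rw [norm_inv, norm_pow, nrm hq, one_pow, inv_one]
      refine ⟨κ * (-(q ^ l)⁻¹) ^ (N + 1), ?_, fun ζ e e' Ψ Ψ' D => ?_⟩
      · rw [norm_mul, norm_pow, norm_neg, hqn, one_pow, mul_one]
        exact hκ
      · have D' : Dz (q ^ 2) ζ⁻¹ l e' e Ψ' Ψ :=
          { hq := by rw [h4]; linear_combination hq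
            hl := hlE
            hl2 := hl2
            hζ := inv_ne_zero D.hζ
            he := D.he.swap
            h := D.h'
            h' := by rw [h4]; exact D.h }
        have hF' := hF ζ⁻¹ e' e Ψ' Ψ D'
        set w := ζ ^ 2 * q ^ l with hw
        have hw0 : w ≠ 0 := mul_ne_zero (pow_ne_zero _ D.hζ) (pow_ne_zero _ (q_ne hq))
        have hw2 : ζ⁻¹ ^ 2 * (q ^ 2) ^ l = w⁻¹ := by
          have h5 : (ζ⁻¹ ^ 2 * (q ^ 2) ^ l) * w = 1 := by
            rw [hw]
            calc (ζ⁻¹ ^ 2 * (q ^ 2) ^ l) * (ζ ^ 2 * q ^ l) = (ζ⁻¹ * ζ) ^ 2 * (q ^ 3) ^ l := by ring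
              _ = 1 := by rw [h3, one_pow, inv_mul_cancel₀ D.hζ, one_pow, one_mul]
          exact eq_inv_of_mul_eq_one_left h5
        intro A B z hA hB hG
        have hA' : A = [] := List.length_eq_zero_iff.1 hA
        subst hA'
        have h5 := hF' B [] z hB rfl (by
          rw [List.append_nil]
          rw [List.nil_append] at hG
          exact hG)
        rw [z_swap q ζ l e e' Ψ Ψ' D [] B (List.ofFn z)
          (by rw [List.length_nil, hB]; omega), h5, hw2,
          List.append_nil, List.nil_append, (hP q w B (N + 1) z).2.2.2.2.1 hq hw0, wd_sq hq]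
        simp only [pfq]
        have h6 : ζ⁻¹⁻¹ ^ (N + 1) * (-w⁻¹) ^ (N + 1) = (-(q ^ l)⁻¹) ^ (N + 1) * ζ⁻¹ ^ (N + 1) := by
          rw [← mul_pow, ← mul_pow]
          congr 1
          rw [hw, inv_inv, mul_inv]
          have := D.hζ
          field_simp
        linear_combination (κ * 1 * pfq (q ^ 2) B * (wd q z * (∏ i, z i) * T q w B z)) * h6
    · exact pos q l hq hlE hl2 p r hl hev

end ZTA

end Pool.Agent.S77.WD
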