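import Pool.Agent.S77.WD.Form

/-!
# The exact formula with legs and their winding: arbitrary legs, homogeneous value
-/

set_option autoImplicit false

namespace Pool.Agent.S77.WD
open Pool.Agent.H863R2.Cyl
open Pool.Agent.H160R2.ML
open Pool.Agent.H988R2.Perc (Word PD)
open Filter Topology

def Z_TB : Prop := ∀ (q : ℂ) (l : ℕ), q ^ 2 + q + 1 = 0 → Even l → 2 ≤ l → ∀ p r N : ℕ, p + r = l →
  Even (p + N) → ∃ κ : ℂ, ‖κ‖ ^ 4 * 3 ^ l = 1 ∧ ∀ (ζ : ℂ) (e e' : ℕ → ℕ → Word → Word → ℂ)
    (Ψ Ψ' : List ℂ → VW), Dz q ζ l e e' Ψ Ψ' → ∀ (A B : List ℂ) (z : Fin N → ℂ), A.length = p →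
    B.length = r → Gn (List.ofFn z) →
    GG e Ψ' Ψ A B (List.ofFn z) * vd z =
      (κ * ζ⁻¹ ^ N) * pfq q A * pfq (q ^ 2) B *
        (wd q z * (∏ i, z i) * T q (ζ ^ 2 * q ^ l) (A ++ B) z)

def Z_HV : Prop := ∀ q : ℂ, q ^ 2 + q + 1 = 0 → ∀ k : ℕ, 1 ≤ k → ∀ n : ℕ, k ≤ 2 * n → 1 ≤ n →
  ∃ C : ℂ, ∀ (ζ : ℂ) (e e' : ℕ → ℕ → Word → Word → ℂ) (Ψ Ψ' : List ℂ → VW),
    Dz q ζ (2 * k) e e' Ψ Ψ' →
    GG e Ψ' Ψ (List.replicate k 1) (List.replicate k 1) (List.replicate (2 * n - k) 1) =
      C * (ζ⁻¹ ^ (2 * n - k) * Dl (2 * n - k) (2 * k) (ζ ^ 2))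

theorem z_TB : Z_TB := by
  intro q l hq hlE hl2 p r N hpr hev
  obtain ⟨κ, hκ, hmain0⟩ := ZTA.main t_comp t_TP t_RP t_RM N q l hq hlE hl2 p r hpr hev
  refine ⟨κ, hκ, ?_⟩
  intro ζ e e' Ψ Ψ' D
  have hmain := hmain0 ζ e e' Ψ Ψ' D
  intro A B z hA hB hz
  subst hA hB
  -- the moving legs
  let a : ℂ → Fin A.length → ℂ := fun t i => A.get i + t * ((i : ℕ) + 1 : ℂ)
  let b : ℂ → Fin B.length → ℂ := fun t i => B.get i + t * ((A.length + i : ℕ) + 1 : ℂ)
  have ha : ∀ i, Continuous fun t => a t i := fun i =>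
    continuous_const.add (continuous_id.mul continuous_const)
  have hb : ∀ i, Continuous fun t => b t i := fun i =>
    continuous_const.add (continuous_id.mul continuous_const)
  have ha0 : List.ofFn (a 0) = A := by
    have : a 0 = A.get := by
      funext i
      simp [a]
    rw [this, List.ofFn_get]
  have hb0 : List.ofFn (b 0) = B := by
    have : b 0 = B.get := by
      funext i
      simp [b]
    rw [this, List.ofFn_get]
  -- the difference of the two sides
  let f : ℂ → ℂ := fun t =>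
    GG e Ψ' Ψ (List.ofFn (a t)) (List.ofFn (b t)) (List.ofFn z) * vd z -
      (κ * ζ⁻¹ ^ N) * pfq q (List.ofFn (a t)) * pfq (q ^ 2) (List.ofFn (b t)) *
        (wd q z * (∏ i, z i) * T q (ζ ^ 2 * q ^ l) (List.ofFn (a t) ++ List.ofFn (b t)) z)
  have hf : Continuous f := by
    have c1 := TB.GG_cont D.h D.h' e _ _ N a b ha hb z
    have c2 := TB.pfq_cont q _ a ha
    have c3 := TB.pfq_cont (q ^ 2) _ b hb
    have c4 : Continuous fun t => T q (ζ ^ 2 * q ^ l) (List.ofFn (a t) ++ List.ofFn (b t)) z := by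
      unfold T
      refine Continuous.matrix_det ?_
      refine continuous_matrix fun i j => ?_
      have c5 : ∀ s u : ℂ, Continuous fun t => lg (List.ofFn (a t) ++ List.ofFn (b t)) s u := by
        intro s u
        have : (fun t => lg (List.ofFn (a t) ++ List.ofFn (b t)) s u) =
            fun t => lg (List.ofFn (a t)) s u * lg (List.ofFn (b t)) s u := by
          funext t
          simp only [lg, List.map_append, List.prod_append]
        rw [this]
        exact (TB.lg_cont _ a ha s u).mul (TB.lg_cont _ b hb s u)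
      exact ((c5 _ _).div_const _).add ((continuous_const.mul (c5 _ _)).div_const _)
    exact (c1.mul continuous_const).sub (((continuous_const.mul c2).mul c3).mul
      (continuous_const.mul c4))
  -- all entries
  let cc : Fin (A.length + B.length + N) → ℂ := Fin.append (Fin.append A.get B.get) z
  let dd : Fin (A.length + B.length + N) → ℂ := fun m =>
    if (m : ℕ) < A.length + B.length then ((m : ℕ) + 1 : ℂ) else 0
  have hlist : ∀ t, List.ofFn (a t) ++ List.ofFn (b t) ++ List.ofFn z =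
      List.ofFn fun m => cc m + t * dd m := by
    intro t
    have h1 : (fun m => cc m + t * dd m) = Fin.append (Fin.append (a t) (b t)) z := by
      funext m
      refine Fin.addCases (fun m => ?_) (fun m => ?_) m
      · refine Fin.addCases (fun m => ?_) (fun m => ?_) m
        · simp only [cc, dd, Fin.append_left, a]
          rw [if_pos (by simp; omega)]
          simp
        · simp only [cc, dd, Fin.append_left, Fin.append_right, b]
          rw [if_pos (by simp)]
          simp
      · simp only [cc, dd, Fin.append_right]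
        rw [if_neg (by simp)]
        simp
    rw [h1, List.ofFn_fin_append, List.ofFn_fin_append]
  have hzinj : ∀ i j : Fin N, i ≠ j → (z i) ^ 3 ≠ (z j) ^ 3 := by
    have h2 := hz.2
    rw [List.map_ofFn, List.nodup_ofFn] at h2
    intro i j hij h
    exact hij (h2 h)
  have hz0 : ∀ i : Fin N, z i ≠ 0 := fun i => hz.1 _ (by
    rw [List.mem_ofFn]
    exact ⟨i, rfl⟩)
  have hfin : {t : ℂ | ¬ Gn (List.ofFn fun m => cc m + t * dd m)}.Finite := by
    refine TB.bad_finite _ cc dd ?_ ?_
    · intro m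
      refine Fin.addCases (fun m => ?_) (fun m => ?_) m
      · intro h
        exfalso
        simp only [dd] at h
        rw [if_pos (by simp)] at h
        exact Nat.cast_add_one_ne_zero _ h
      · intro _
        simp only [cc, Fin.append_right]
        exact hz0 m
    · intro m m' hne h
      have key : ∀ m : Fin (A.length + B.length + N), (m : ℕ) < A.length + B.length →
          dd m = ((((m : ℕ) + 1 : ℕ)) : ℂ) := by
        intro m hm
        simp only [dd]
        rw [if_pos hm]
        push_cast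
        rfl
      have key2 : ∀ m : Fin (A.length + B.length + N), ¬ (m : ℕ) < A.length + B.length →
          dd m = 0 := by
        intro m hm
        simp only [dd]
        rw [if_neg hm]
      by_cases hm : (m : ℕ) < A.length + B.length
      · exfalso
        by_cases hm' : (m' : ℕ) < A.length + B.length
        · rw [key m hm, key m' hm'] at h
          have h3 : ((m : ℕ) + 1) ^ 3 = ((m' : ℕ) + 1) ^ 3 := by exact_mod_cast h
          have h4 := Nat.pow_left_injective (by norm_num : 3 ≠ 0) h3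
          apply hne
          apply Fin.ext
          omega
        · rw [key m hm, key2 m' hm'] at h
          have h3 : ((m : ℕ) + 1) ^ 3 = 0 := by
            have : ((((m : ℕ) + 1 : ℕ)) : ℂ) ^ 3 = ((0 : ℕ) : ℂ) := by
              rw [h]; norm_num
            exact_mod_cast this
          have := Nat.pow_pos (n := 3) (show 0 < (m : ℕ) + 1 by omega)
          omega
      · by_cases hm' : (m' : ℕ) < A.length + B.length
        · exfalso
          rw [key2 m hm, key m' hm'] at h
          have h3 : ((m' : ℕ) + 1) ^ 3 = 0 := by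
            have : ((((m' : ℕ) + 1 : ℕ)) : ℂ) ^ 3 = ((0 : ℕ) : ℂ) := by
              rw [← h]; norm_num
            exact_mod_cast this
          have := Nat.pow_pos (n := 3) (show 0 < (m' : ℕ) + 1 by omega)
          omega
        · refine ⟨key2 m hm, key2 m' hm', ?_⟩
          obtain ⟨i, rfl⟩ : ∃ i : Fin N, Fin.natAdd (A.length + B.length) i = m :=
            ⟨⟨m - (A.length + B.length), by omega⟩, by apply Fin.ext; simp; omega⟩
          obtain ⟨i', rfl⟩ : ∃ i : Fin N, Fin.natAdd (A.length + B.length) i = m' :=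
            ⟨⟨m' - (A.length + B.length), by omega⟩, by apply Fin.ext; simp; omega⟩
          simp only [cc, Fin.append_right]
          exact hzinj i i' (fun h => hne (by rw [h]))
  have h0 := TB.eq_zero_of_ne hf _ hfin (fun t ht => by
    have hG : Gn (List.ofFn fun m => cc m + t * dd m) := by
      by_contra hcon
      exact ht hcon
    rw [← hlist] at hG
    have h1 := hmain (List.ofFn (a t)) (List.ofFn (b t)) z (by simp) (by simp) hG
    show GG e Ψ' Ψ (List.ofFn (a t)) (List.ofFn (b t)) (List.ofFn z) * vd z -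
      (κ * ζ⁻¹ ^ N) * pfq q (List.ofFn (a t)) * pfq (q ^ 2) (List.ofFn (b t)) *
        (wd q z * (∏ i, z i) * T q (ζ ^ 2 * q ^ l) (List.ofFn (a t) ++ List.ofFn (b t)) z) = 0
    rw [h1, sub_self]) 0
  have h1 : GG e Ψ' Ψ (List.ofFn (a 0)) (List.ofFn (b 0)) (List.ofFn z) * vd z -
      (κ * ζ⁻¹ ^ N) * pfq q (List.ofFn (a 0)) * pfq (q ^ 2) (List.ofFn (b 0)) *
        (wd q z * (∏ i, z i) * T q (ζ ^ 2 * q ^ l) (List.ofFn (a 0) ++ List.ofFn (b 0)) z) = 0 := h0
  rw [ha0, hb0] at h1
  exact sub_eq_zero.1 h1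


theorem cont_GGz {q ζ : ℂ} {l : ℕ} {e e' : ℕ → ℕ → Word → Word → ℂ} {Ψ Ψ' : List ℂ → VW}
    (hD : Dz q ζ l e e' Ψ Ψ') (A B : List ℂ) (N : ℕ) :
    Continuous (fun z : Fin N → ℂ => GG e Ψ' Ψ A B (List.ofFn z)) := by
  have h1 : (fun z : Fin N → ℂ => GG e Ψ' Ψ A B (List.ofFn z)) = fun z =>
      ∑ w' ∈ GPropAux.WS (B.length + N), ∑ w ∈ GPropAux.WS (A.length + N),
        e A.length B.length w' w * (Ψ' (B ++ List.ofFn z) w' * Ψ (A ++ List.ofFn z) w) := by
    funext z
    have m1 := hD.h'.mem (B ++ List.ofFn z)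
    have m2 := hD.h.mem (A ++ List.ofFn z)
    rw [List.length_append, List.length_ofFn] at m1 m2
    exact THV.prE_eq e A.length B.length m1 m2
  rw [h1]
  refine continuous_finsetSum _ fun w' _ => continuous_finsetSum _ fun w _ => ?_
  exact continuous_const.mul ((THV.cont_pd (hD.h'.deg _ w') B N rfl).mul
    (THV.cont_pd (hD.h.deg _ w) A N rfl))

theorem z_HV : Z_HV := by
  intro q hq k hk n hkn hn
  classical
  have hq3 : q ^ 3 = 1 := by linear_combination (q - 1) * hq
  obtain ⟨N, hN⟩ : ∃ N, N = 2 * n - k := ⟨_, rfl⟩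
  have hkN : k + N = 2 * n := by omega
  rw [← hN]
  obtain ⟨κ, hκ, hform0⟩ := z_TB q (2 * k) hq (even_two_mul k) (by omega) k k N (by ring)
    (by rw [hkN]; exact even_two_mul n)
  refine ⟨κ * pfq q (List.replicate k 1) * pfq (q ^ 2) (List.replicate k 1) *
    ((-3) ^ (N * (N - 1)) * 1 * ((q / (1 - q ^ 2)) ^ N * (1 / 3) ^ (N * (N - 1) / 2) *
      (1 - q) ^ (2 * k * N))), fun ζ e e' Ψ Ψ' hD => ?_⟩
  have hform := hform0 ζ e e' Ψ Ψ' hD
  set l : Filter ℝ := 𝓝[>] (0 : ℝ) with hl
  set x : ℝ → ℕ → ℂ := fun t k => ((1 + t * k : ℝ) : ℂ) with hx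
  have hcont : ∀ k : ℕ, Tendsto (fun t : ℝ => x t k) l (𝓝 1) := by
    intro k
    have h1 : Continuous (fun t : ℝ => x t k) := by
      simp only [hx]
      fun_prop
    have h2 := h1.tendsto 0
    have h3 : x 0 k = 1 := by simp [hx]
    rw [h3] at h2
    exact h2.mono_left nhdsWithin_le_nhds
  have hpos : ∀ᶠ t in l, (0 : ℝ) < t := self_mem_nhdsWithin
  have hinj : ∀ᶠ t in l, Function.Injective (x t) := by
    filter_upwards [hpos] with t ht a b hab
    have h1 : (1 + t * a : ℝ) = 1 + t * b := Complex.ofReal_injective hab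
    have h2 : t * (a : ℝ) = t * b := by linarith
    have h3 := mul_left_cancel₀ ht.ne' h2
    exact_mod_cast h3
  have hmain := t_HL q (ζ ^ 2 * q ^ (2 * k)) hq N (2 * k) l x hcont hinj
  set z : ℝ → Fin N → ℂ := fun t i => x t i with hz
  have hztend : Tendsto z l (𝓝 (fun _ => (1 : ℂ))) := by
    rw [tendsto_pi_nhds]
    intro i
    exact hcont i
  set A : List ℂ := List.replicate k 1 with hA
  have hGt : Tendsto (fun t => GG e Ψ' Ψ A A (List.ofFn (z t))) l
      (𝓝 (GG e Ψ' Ψ A A (List.ofFn (fun _ : Fin N => (1 : ℂ))))) :=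
    ((cont_GGz hD A A N).tendsto _).comp hztend
  have hq2 : (q ^ 2 * 1 - q * 1) ^ 2 = (-3 : ℂ) := by
    linear_combination (q ^ 2 - 3 * q + 3) * hq
  have hP : Tendsto (fun t => wd q (z t)) l (𝓝 ((-3) ^ (N * (N - 1)))) := by
    have h1 : Tendsto (fun t => ∏ i, ∏ j ∈ Finset.univ.filter (· ≠ i),
        (q ^ 2 * z t i - q * z t j) ^ 2) l
        (𝓝 (∏ i : Fin N, ∏ _j ∈ Finset.univ.filter (· ≠ i), (q ^ 2 * 1 - q * 1) ^ 2)) := by
      refine tendsto_finsetProd _ fun i _ => tendsto_finsetProd _ fun j _ => ?_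
      exact (((hcont i).const_mul _).sub ((hcont j).const_mul _)).pow 2
    rw [hq2] at h1
    have h2 : (∏ i : Fin N, ∏ _j ∈ Finset.univ.filter (· ≠ i), (-3 : ℂ)) =
        (-3) ^ (N * (N - 1)) := by
      have h3 : ∀ i : Fin N, (∏ _j ∈ Finset.univ.filter (· ≠ i), (-3 : ℂ)) = (-3) ^ (N - 1) := by
        intro i
        rw [Finset.prod_const, Finset.filter_ne', Finset.card_erase_of_mem (Finset.mem_univ i),
          Finset.card_univ, Fintype.card_fin]
      rw [Finset.prod_congr rfl fun i _ => h3 i, Finset.prod_const, Finset.card_univ,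
        Fintype.card_fin, ← pow_mul, mul_comm]
    rw [h2] at h1
    exact h1
  have hZ : Tendsto (fun t => ∏ i, z t i) l (𝓝 1) := by
    have h1 : Tendsto (fun t => ∏ i, z t i) l (𝓝 (∏ _i : Fin N, (1 : ℂ))) :=
      tendsto_finsetProd _ fun i _ => hcont i
    simpa using h1
  have hRHS := ((hP.mul hZ).mul hmain).const_mul ((κ * ζ⁻¹ ^ N) * pfq q A * pfq (q ^ 2) A)
  have heq : ∀ᶠ t in l, GG e Ψ' Ψ A A (List.ofFn (z t)) = (κ * ζ⁻¹ ^ N) * pfq q A * pfq (q ^ 2) A *
      (wd q (z t) * (∏ i, z t i) * (T q (ζ ^ 2 * q ^ (2 * k)) (List.replicate (2 * k) 1)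
        (fun i : Fin N => x t i) / ((Matrix.vandermonde (fun i : Fin N => x t i)).det
          * (Matrix.vandermonde (fun i : Fin N => x t i)).det))) := by
    filter_upwards [hpos, hinj] with t ht hit
    have hzinj : Function.Injective (z t) := by
      intro a b hab
      exact Fin.ext (hit hab)
    have hGn : Gn (List.ofFn (z t)) := by
      constructor
      · intro y hy
        rw [List.mem_ofFn] at hy
        obtain ⟨i, rfl⟩ := hy
        simp only [hz, hx]
        have : (0 : ℝ) < 1 + t * (i : ℕ) := by positivity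
        exact_mod_cast this.ne'
      · rw [List.map_ofFn, List.nodup_ofFn]
        intro a b hab
        simp only [hz, hx, Function.comp] at hab
        have h3 : (1 + t * (a : ℕ) : ℝ) ^ 3 = (1 + t * (b : ℕ) : ℝ) ^ 3 := by exact_mod_cast hab
        have h4 : (1 + t * (a : ℕ) : ℝ) = 1 + t * (b : ℕ) :=
          (pow_left_inj₀ (by positivity) (by positivity) (by norm_num)).mp h3
        have h5 : t * ((a : ℕ) : ℝ) = t * ((b : ℕ) : ℝ) := by linarith
        have h6 := mul_left_cancel₀ ht.ne' h5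
        exact Fin.ext (by exact_mod_cast h6)
    have h1 := hform A A (z t) (by simp [hA]) (by simp [hA]) hGn
    rw [THV.vd_eq] at h1
    have hAA : A ++ A = List.replicate (2 * k) 1 := by
      rw [hA, List.replicate_append_replicate]
      congr 1
      ring
    rw [hAA] at h1
    have hV : (Matrix.vandermonde (z t)).det ≠ 0 := Matrix.det_vandermonde_ne_zero_iff.mpr hzinj
    have hVV : (Matrix.vandermonde (z t)).det * (Matrix.vandermonde (z t)).det ≠ 0 :=
      mul_ne_zero hV hV
    change _ = _ * (_ * (_ / ((Matrix.vandermonde (z t)).det * (Matrix.vandermonde (z t)).det)))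
    rw [← mul_div_assoc, ← mul_div_assoc, eq_div_iff hVV]
    exact h1
  have hfin := tendsto_nhds_unique (hGt.congr' heq) hRHS
  rw [List.ofFn_const] at hfin
  rw [hfin]
  have hw : (ζ ^ 2 * q ^ (2 * k)) * (-q ^ 2) ^ (2 * k) = ζ ^ 2 := by
    rw [mul_assoc, ← mul_pow, pow_mul, show (q * -q ^ 2) ^ 2 = (q ^ 3) ^ 2 by ring, hq3]
    simp
  rw [hw]
  ring

end Pool.Agent.S77.WD
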