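import Pool.Agent.S77.WD.Defs
import Pool.Agent.H160R2.ML.T_C1

/-!
# Half-infinite cylinders: the pattern above a full row does not depend on the rest
-/

set_option autoImplicit false

namespace Pool.Agent.S77.WD
open Pool.Agent.H863R2.Cyl
open Pool.Agent.H863R2.Cyl.Sem1Aux
open Pool.Agent.H988R2.Perc (Word PD)

/-- the links of a half-infinite cylinder: `(x, h)`, `h` = distance to the end circle; the row `h` is
between the distances `h` and `h + 1` -/
inductive HL (m : ℕ) (d : ℕ → Fin (m + 1) → Bool) : ℤ × ℕ → ℤ × ℕ → Prop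
  | link0 (j : ℤ) (h : ℕ) : cl (d h) j = false → HL m d (j, h + 1) (j + 1, h)
  | link1 (j : ℤ) (h : ℕ) : cl (d h) j = true → HL m d (j + 1, h + 1) (j, h)

/-- all the diagonals of class `0` (even corners) of the row `h` are present -/
def Full (m : ℕ) (d : ℕ → Fin (m + 1) → Bool) (h : ℕ) : Prop :=
  ∀ j : ℤ, cl (d h) j = true ↔ (j + h) % 2 = 0

theorem Sh_par (w : Word) (j k : ℤ) (hjk : j ≤ k) : (Sh w j k - (k - j)) % 2 = 0 := by
  induction k, hjk using Int.leInduction with
  | base => simp [Sh]
  | succ k hk ih =>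
    have e : Sh w j (k + 1) = Sh w j k + sg w k := by
      unfold Sh
      rw [Ico_succ j k hk, Finset.sum_insert (by simp)]
      ring
    rw [e]
    have hs : sg w k = 1 ∨ sg w k = -1 := by
      unfold sg
      split_ifs
      · exact Or.inl rfl
      · exact Or.inr rfl
    rcases hs with hs | hs <;> rw [hs] <;> omega

theorem Rw_par {w : Word} {a b : ℤ} (h : Rw w a b) : (a - b) % 2 = 0 := by
  rcases h with ⟨h1, _, h3⟩ | ⟨h1, _, h3⟩
  · have := Sh_par w a b h1
    omega
  · have := Sh_par w b a h1
    omega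

section
variable {m : ℕ} {d : ℕ → Fin (m + 1) → Bool} {h0 : ℕ}

/-- the relation above the full row `h0` -/
inductive RL (m : ℕ) (d : ℕ → Fin (m + 1) → Bool) (h0 : ℕ) : ℤ × ℕ → ℤ × ℕ → Prop
  | link0 (j : ℤ) (h : ℕ) : h < h0 → cl (d h) j = false → RL m d h0 (j, h + 1) (j + 1, h)
  | link1 (j : ℤ) (h : ℕ) : h < h0 → cl (d h) j = true → RL m d h0 (j + 1, h + 1) (j, h)
  | wire (a b : ℤ) : (a + h0) % 2 = 0 → (b + h0) % 2 = 0 → RL m d h0 (a, h0) (b, h0)

/-- the invariant -/
def PI (m : ℕ) (d : ℕ → Fin (m + 1) → Bool) (h0 : ℕ) (y : ℤ × ℕ) (x : ℤ × ℕ) : Prop :=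
  if x.2 ≤ h0 then Relation.EqvGen (RL m d h0) x y
  else (x.1 + x.2) % 2 = 0 ∧ Relation.EqvGen (RL m d h0) (-h0, h0) y

theorem PI_le {y x : ℤ × ℕ} (h : x.2 ≤ h0) : PI m d h0 y x ↔ Relation.EqvGen (RL m d h0) x y := by
  unfold PI; rw [if_pos h]

theorem PI_gt {y x : ℤ × ℕ} (h : ¬ x.2 ≤ h0) : PI m d h0 y x ↔
    (x.1 + x.2) % 2 = 0 ∧ Relation.EqvGen (RL m d h0) (-h0, h0) y := by
  unfold PI; rw [if_neg h]

theorem wire_iff {y : ℤ × ℕ} {a : ℤ} (ha : (a + h0) % 2 = 0) :
    Relation.EqvGen (RL m d h0) (a, h0) y ↔ Relation.EqvGen (RL m d h0) (-h0, h0) y := by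
  have h1 : Relation.EqvGen (RL m d h0) (a, h0) (-h0, h0) :=
    Relation.EqvGen.rel _ _ (RL.wire a (-h0) ha (by simp))
  exact ⟨fun h => Relation.EqvGen.trans _ _ _ (Relation.EqvGen.symm _ _ h1) h,
    fun h => Relation.EqvGen.trans _ _ _ h1 h⟩

/-- links of the rows preserve the invariant -/
theorem PI_link0 (hf : Full m d h0) (y : ℤ × ℕ) (j : ℤ) (h : ℕ) (hc : cl (d h) j = false) :
    PI m d h0 y (j, h + 1) ↔ PI m d h0 y (j + 1, h) := by
  rcases lt_trichotomy h h0 with h1 | h1 | h1
  · rw [PI_le (by simp only; omega), PI_le (by simp only; omega)]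
    have h2 := Relation.EqvGen.rel _ _ (RL.link0 (m := m) (d := d) (h0 := h0) j h h1 hc)
    exact ⟨fun h => Relation.EqvGen.trans _ _ _ (Relation.EqvGen.symm _ _ h2) h,
      fun h => Relation.EqvGen.trans _ _ _ h2 h⟩
  · subst h1
    have h2 : ¬ (j + h) % 2 = 0 := by
      intro h3
      rw [(hf j).2 h3] at hc
      cases hc
    rw [PI_gt (by simp), PI_le (by simp), wire_iff (a := j + 1) (by omega)]
    simp only
    push_cast
    exact ⟨fun h => h.2, fun h => ⟨by omega, h⟩⟩
  · rw [PI_gt (by simp only; omega), PI_gt (by simp only; omega)]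
    simp only
    push_cast
    have e : (j + (h + 1)) % 2 = 0 ↔ (j + 1 + h) % 2 = 0 := by
      rw [show j + ((h : ℤ) + 1) = j + 1 + h by ring]
    rw [e]

theorem PI_link1 (hf : Full m d h0) (y : ℤ × ℕ) (j : ℤ) (h : ℕ) (hc : cl (d h) j = true) :
    PI m d h0 y (j + 1, h + 1) ↔ PI m d h0 y (j, h) := by
  rcases lt_trichotomy h h0 with h1 | h1 | h1
  · rw [PI_le (by simp only; omega), PI_le (by simp only; omega)]
    have h2 := Relation.EqvGen.rel _ _ (RL.link1 (m := m) (d := d) (h0 := h0) j h h1 hc)
    exact ⟨fun h => Relation.EqvGen.trans _ _ _ (Relation.EqvGen.symm _ _ h2) h,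
      fun h => Relation.EqvGen.trans _ _ _ h2 h⟩
  · subst h1
    have h2 : (j + h) % 2 = 0 := (hf j).1 hc
    rw [PI_gt (by simp), PI_le (by simp), wire_iff (a := j) (by omega)]
    simp only
    push_cast
    exact ⟨fun h => h.2, fun h => ⟨by omega, h⟩⟩
  · rw [PI_gt (by simp only; omega), PI_gt (by simp only; omega)]
    simp only
    push_cast
    have e : (j + 1 + (h + 1)) % 2 = 0 ↔ (j + h) % 2 = 0 := by omega
    rw [e]

theorem PI_of {G : ℤ × ℕ → ℤ × ℕ → Prop} {y : ℤ × ℕ}
    (hG : ∀ p q, G p q → (PI m d h0 y p ↔ PI m d h0 y q)) {p q : ℤ × ℕ}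
    (h : Relation.EqvGen G p q) : PI m d h0 y p ↔ PI m d h0 y q := by
  induction h with
  | rel x y h => exact hG x y h
  | refl x => exact Iff.rfl
  | symm x y _ ih => exact ih.symm
  | trans x y z _ _ ih1 ih2 => exact ih1.trans ih2

/-- wires are realised by the full row -/
theorem wire_real (hf : Full m d h0) {E : ℤ × ℕ → ℤ × ℕ → Prop} (hE : Equivalence E)
    (h0' : ∀ j : ℤ, cl (d h0) j = false → E (j, h0 + 1) (j + 1, h0))
    (h1' : ∀ j : ℤ, cl (d h0) j = true → E (j + 1, h0 + 1) (j, h0))
    (a b : ℤ) (ha : (a + h0) % 2 = 0) (hb : (b + h0) % 2 = 0) : E (a, h0) (b, h0) := by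
  have step : ∀ a : ℤ, (a + h0) % 2 = 0 → E (a, h0) (a + 2, h0) := by
    intro a ha
    have h1 := h1' a ((hf a).2 ha)
    have h2 : cl (d h0) (a + 1) = false := by
      by_contra hc
      have := (hf (a + 1)).1 (by simpa using hc)
      omega
    have h3 := h0' (a + 1) h2
    rw [show a + 1 + 1 = a + 2 by ring] at h3
    exact hE.trans (hE.symm h1) h3
  have up : ∀ (t : ℕ) (a : ℤ), (a + h0) % 2 = 0 → E (a, h0) (a + 2 * t, h0) := by
    intro t
    induction t with
    | zero => intro a _; simpa using hE.refl _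
    | succ t ih =>
      intro a ha
      have h1 := ih a ha
      have h2 := step (a + 2 * t) (by omega)
      have e : a + 2 * ((t + 1 : ℕ) : ℤ) = a + 2 * t + 2 := by push_cast; ring
      rw [e]
      exact hE.trans h1 h2
  rcases le_total a b with h | h
  · have h1 := up ((b - a) / 2).toNat a ha
    have e : a + 2 * (((b - a) / 2).toNat : ℤ) = b := by omega
    rw [e] at h1
    exact h1
  · have h1 := up ((a - b) / 2).toNat b hb
    have e : b + 2 * (((a - b) / 2).toNat : ℤ) = a := by omega
    rw [e] at h1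
    exact hE.symm h1

/-- the infinite relation -/
theorem HL_iff (hf : Full m d h0) (a b : ℤ) :
    Relation.EqvGen (HL m d) (a, 0) (b, 0) ↔ Relation.EqvGen (RL m d h0) (a, 0) (b, 0) := by
  constructor
  · intro h
    have h1 := PI_of (m := m) (d := d) (h0 := h0) (y := (b, 0)) (fun p q hpq => by
      cases hpq with
      | link0 j h hc => exact PI_link0 hf _ j h hc
      | link1 j h hc => exact PI_link1 hf _ j h hc) h
    rw [PI_le (Nat.zero_le _), PI_le (Nat.zero_le _)] at h1
    exact h1.2 (Relation.EqvGen.refl _)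
  · have hE := Relation.EqvGen.is_equivalence (HL m d)
    intro h
    have key : ∀ p q, Relation.EqvGen (RL m d h0) p q → Relation.EqvGen (HL m d) p q := by
      intro p q hpq
      induction hpq with
      | rel x y h =>
        cases h with
        | link0 j h _ hc => exact Relation.EqvGen.rel _ _ (HL.link0 j h hc)
        | link1 j h _ hc => exact Relation.EqvGen.rel _ _ (HL.link1 j h hc)
        | wire a b ha hb =>
          exact wire_real hf hE (fun j hc => Relation.EqvGen.rel _ _ (HL.link0 j h0 hc))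
            (fun j hc => Relation.EqvGen.rel _ _ (HL.link1 j h0 hc)) a b ha hb
      | refl x => exact Relation.EqvGen.refl _
      | symm x y _ ih => exact Relation.EqvGen.symm _ _ ih
      | trans x y z _ _ ih1 ih2 => exact Relation.EqvGen.trans _ _ _ ih1 ih2
    exact key _ _ h

/-- the relation of the rows with a boundary word -/
theorem Lk_iff (hf : Full m d h0) {M : ℕ} (hM : h0 < M) (w : Word) (a b : ℤ) :
    Relation.EqvGen (Lk m (fun t => d (M - 1 - t)) M w) (a, M) (b, M) ↔
      Relation.EqvGen (RL m d h0) (a, 0) (b, 0) := by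
  -- the levels are read as distances
  set D : ℤ × ℕ → ℤ × ℕ := fun p => (p.1, M - p.2) with hD
  constructor
  · intro h
    have h1 : (PI m d h0 (b, 0) (D (a, M)) ↔ PI m d h0 (b, 0) (D (b, M))) := by
      have key : ∀ p q, Relation.EqvGen (Lk m (fun t => d (M - 1 - t)) M w) p q →
          (PI m d h0 (b, 0) (D p) ↔ PI m d h0 (b, 0) (D q)) := by
        intro p q hpq
        induction hpq with
        | rel x y h =>
          cases h with
          | bot a' b' hR =>
            have hp := Rw_par hR
            have e1 : D (a', 0) = (a', M) := by simp [hD]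
            have e2 : D (b', 0) = (b', M) := by simp [hD]
            rw [e1, e2, PI_gt (by simp only; omega), PI_gt (by simp only; omega)]
            simp only
            have e : (a' + (M : ℤ)) % 2 = 0 ↔ (b' + (M : ℤ)) % 2 = 0 := by omega
            rw [e]
          | link0 j t ht hc =>
            have e1 : D (j, t) = (j, (M - 1 - t) + 1) := by
              simp only [hD]; congr 1; omega
            have e2 : D (j + 1, t + 1) = (j + 1, M - 1 - t) := by
              simp only [hD]; congr 1; omega
            rw [e1, e2]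
            exact PI_link0 hf _ j _ hc
          | link1 j t ht hc =>
            have e1 : D (j + 1, t) = (j + 1, (M - 1 - t) + 1) := by
              simp only [hD]; congr 1; omega
            have e2 : D (j, t + 1) = (j, M - 1 - t) := by
              simp only [hD]; congr 1; omega
            rw [e1, e2]
            exact PI_link1 hf _ j _ hc
        | refl x => exact Iff.rfl
        | symm x y _ ih => exact ih.symm
        | trans x y z _ _ ih1 ih2 => exact ih1.trans ih2
      exact key _ _ h
    have e1 : D (a, M) = (a, 0) := by simp [hD]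
    have e2 : D (b, M) = (b, 0) := by simp [hD]
    rw [e1, e2, PI_le (Nat.zero_le _), PI_le (Nat.zero_le _)] at h1
    exact h1.2 (Relation.EqvGen.refl _)
  · intro h
    set c : ℕ → Fin (m + 1) → Bool := fun t => d (M - 1 - t) with hc
    have hE := Relation.EqvGen.is_equivalence (Lk m c M w)
    have l0 : ∀ (j : ℤ) (h : ℕ), h < M → cl (d h) j = false →
        Relation.EqvGen (Lk m c M w) (D (j, h + 1)) (D (j + 1, h)) := by
      intro j h hh hcl
      have h1 := Relation.EqvGen.rel _ _ (Lk.link0 (m := m) (c := c) (M := M) (w := w) j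
        (M - 1 - h) (by omega) (by
          simp only [hc]
          rw [show M - 1 - (M - 1 - h) = h by omega]
          exact hcl))
      have e1 : D (j, h + 1) = (j, M - 1 - h) := by simp only [hD]; congr 1; omega
      have e2 : D (j + 1, h) = (j + 1, M - 1 - h + 1) := by simp only [hD]; congr 1; omega
      rw [e1, e2]
      exact h1
    have l1 : ∀ (j : ℤ) (h : ℕ), h < M → cl (d h) j = true →
        Relation.EqvGen (Lk m c M w) (D (j + 1, h + 1)) (D (j, h)) := by
      intro j h hh hcl
      have h1 := Relation.EqvGen.rel _ _ (Lk.link1 (m := m) (c := c) (M := M) (w := w) j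
        (M - 1 - h) (by omega) (by
          simp only [hc]
          rw [show M - 1 - (M - 1 - h) = h by omega]
          exact hcl))
      have e1 : D (j + 1, h + 1) = (j + 1, M - 1 - h) := by simp only [hD]; congr 1; omega
      have e2 : D (j, h) = (j, M - 1 - h + 1) := by simp only [hD]; congr 1; omega
      rw [e1, e2]
      exact h1
    have key : ∀ p q, Relation.EqvGen (RL m d h0) p q →
        Relation.EqvGen (Lk m c M w) (D p) (D q) := by
      intro p q hpq
      induction hpq with
      | rel x y h =>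
        cases h with
        | link0 j h hh hcl => exact l0 j h (by omega) hcl
        | link1 j h hh hcl => exact l1 j h (by omega) hcl
        | wire a b ha hb =>
          have hE2 : Equivalence (fun p q => Relation.EqvGen (Lk m c M w) (D p) (D q)) :=
            ⟨fun _ => hE.refl _, fun h => hE.symm h, fun h h' => hE.trans h h'⟩
          exact wire_real hf hE2 (fun j hcl => l0 j h0 hM hcl) (fun j hcl => l1 j h0 hM hcl)
            a b ha hb
      | refl x => exact Relation.EqvGen.refl _
      | symm x y _ ih => exact Relation.EqvGen.symm _ _ ih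
      | trans x y z _ _ ih1 ih2 => exact Relation.EqvGen.trans _ _ _ ih1 ih2
    have h1 := key _ _ h
    have e1 : D (a, 0) = (a, M) := by simp [hD]
    have e2 : D (b, 0) = (b, M) := by simp [hD]
    rw [e1, e2] at h1
    exact h1

/-- **the pattern of the half-infinite cylinder** -/
theorem half (hm : 1 ≤ m) (hf : Full m d h0) {M : ℕ} (hM : h0 < M) (σ : Wd (m + 1)) (a b : ℤ) :
    Rw (rows m (fun t => d (M - 1 - t)) M σ).1 a b ↔
      Relation.EqvGen (HL m d) (a, 0) (b, 0) := by
  rw [Rw_rows m hm, Lk_iff hf hM, HL_iff hf]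

end

end Pool.Agent.S77.WD
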