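import Pool.Agent.S77.WD.Defs
import Pool.Agent.H160R2.ML.T_insR

/-!
# The index set and an arc between through strands
-/

set_option autoImplicit false

namespace Pool.Agent.S77.WD
open Pool.Agent.H863R2.Cyl
open Pool.Agent.H160R2.ML
open Pool.Agent.H160R2.ML.TinsR
open Pool.Agent.H863R2.Cyl.Sem4Aux
open Pool.Agent.H988R2.Perc (Word PD)

section

variable {p r i : ℕ} {w' u v' : Word} {i' : ℕ}

/-- from the old relation to the new one -/
theorem insR_fwd (H : HH p r i w' u v' i') {x y : (ℤ × Bool) × ℤ}
    (hx : ¬ Is u.length i v'.length i' x.1) (hy : ¬ Is u.length i v'.length i' y.1)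
    (h : Ct p r w' (lins i u) x y) :
    Ct p r v' u (ph u.length i v'.length i' x.1, x.2) (ph u.length i v'.length i' y.1, y.2) := by
  have hi := H.hi
  have hi' := H.hi'
  have hl2 := H.l2
  have hlv := H.lv
  have hii := H.ii
  have hpi := H.hp
  set N := u.length with hN
  set N' := v'.length with hN'
  set y₀ : (ℤ × Bool) × ℤ := (ph N i N' i' y.1, y.2) with hy₀
  have hE := Relation.EqvGen.is_equivalence (Lt p r v' u)
  set P : (ℤ × Bool) × ℤ → Prop := fun z => match z with
    | ((a, true), n) => ∃ b, ¬ iso N' i' b ∧ Rw w' a b ∧ Ct p r v' u ((sm N' i' b, true), n) y₀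
    | ((a, false), n) => (¬ iso N i a ∧ Ct p r v' u ((sm N i a, false), n) y₀) ∨
      ∃ k : ℤ, a = i + 1 + k * (N + 2) ∧ ∃ b, ¬ iso N' i' b ∧ Rw w' (i' + 1 + k * (N' + 2)) b ∧
        Ct p r v' u ((sm N' i' b, true), n + gg k) y₀ with hP
  have hPt : ∀ a n : ℤ, P ((a, true), n) ↔
      ∃ b, ¬ iso N' i' b ∧ Rw w' a b ∧ Ct p r v' u ((sm N' i' b, true), n) y₀ := fun a n => Iff.rfl
  have hPf : ∀ a n : ℤ, P ((a, false), n) ↔
      (¬ iso N i a ∧ Ct p r v' u ((sm N i a, false), n) y₀) ∨
      ∃ k : ℤ, a = i + 1 + k * (N + 2) ∧ ∃ b, ¬ iso N' i' b ∧ Rw w' (i' + 1 + k * (N' + 2)) b ∧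
        Ct p r v' u ((sm N' i' b, true), n + gg k) y₀ := fun a n => Iff.rfl
  have hPtn : ∀ a n : ℤ, ¬ iso N' i' a →
      (P ((a, true), n) ↔ Ct p r v' u ((sm N' i' a, true), n) y₀) := by
    intro a n ha
    rw [hPt]
    constructor
    · rintro ⟨b, hb, h1, h2⟩
      exact hE.trans (Relation.EqvGen.rel _ _ (Lt.upp _ _ n (H.up ha hb h1))) h2
    · intro h
      exact ⟨a, ha, (Rw_equiv _).refl _, h⟩
  have hPfn : ∀ a n : ℤ, ¬ iso N i a →
      (P ((a, false), n) ↔ Ct p r v' u ((sm N i a, false), n) y₀) := by
    intro a n ha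
    rw [hPf]
    constructor
    · rintro (h | ⟨k, hk, _⟩)
      · exact h.2
      · exact absurd ⟨k, hk⟩ ha
    · intro h
      exact Or.inl ⟨ha, h⟩
  have hL : ∀ x y, Lt p r w' (lins i u) x y → (P x ↔ P y) := by
    intro x y hxy
    cases hxy with
    | low a b n h =>
      rw [rw_lins' hi] at h
      rcases h with h | ⟨h1, h2, h3⟩
      · rw [h]
      · rw [hPfn a n h1, hPfn b n h2]
        have e : Ct p r v' u ((sm N i a, false), n) ((sm N i b, false), n) :=
          Relation.EqvGen.rel _ _ (Lt.low _ _ n h3)
        exact ⟨fun h => hE.trans (hE.symm e) h, fun h => hE.trans e h⟩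
    | upp a b n h =>
      rw [hPt, hPt]
      constructor
      · rintro ⟨c, h1, h2, h3⟩
        exact ⟨c, h1, (Rw_equiv _).trans ((Rw_equiv _).symm h) h2, h3⟩
      · rintro ⟨c, h1, h2, h3⟩
        exact ⟨c, h1, (Rw_equiv _).trans h h2, h3⟩
    | glue s j n hj =>
      rw [llen] at hj
      have ea : s * ((lins i u).length : ℤ) + p + j = s * ((N : ℤ) + 2) + (p + j) := by
        rw [llen]; push_cast; ring
      have eb : s * (w'.length : ℤ) + r + j = s * ((N' : ℤ) + 2) + (r + j) := by
        rw [hl2]; push_cast; ring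
      rw [ea, eb]
      rcases lt_trichotomy (p + j) (i + 1) with hc | hc | hc
      · obtain ⟨t1, t2⟩ := sm_lo (N := N) (i := i) hi s (p + j) (by omega) (by omega)
        obtain ⟨t3, t4⟩ := sm_lo (N := N') (i := i') hi' s (r + j) (by omega) (by omega)
        rw [hPfn _ _ t2, hPtn _ _ t4, t1, t3]
        have g := Lt.glue (p := p) (r := r) (w' := v') (w := u) s j n (by omega)
        have e : Ct p r v' u ((s * N + (p + j), false), n) ((s * N' + (r + j), true), n + gg s) := by
          have := Relation.EqvGen.rel _ _ g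
          rw [add_assoc, add_assoc (s * (v'.length : ℤ))] at this
          exact this
        exact ⟨fun h => hE.trans (hE.symm e) h, fun h => hE.trans e h⟩
      · have e1 : s * ((N : ℤ) + 2) + (p + j) = i + 1 + s * (N + 2) := by
          have : (p : ℤ) + j = i + 1 := by exact_mod_cast hc
          rw [this]; ring
        have e2 : s * ((N' : ℤ) + 2) + (r + j) = i' + 1 + s * (N' + 2) := by
          have : (r : ℤ) + j = i' + 1 := by
            have : r + j = i' + 1 := by omega
            exact_mod_cast this
          rw [this]; ring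
        rw [e1, e2, hPt, hPf]
        constructor
        · rintro (h | ⟨k, hk, h⟩)
          · exact absurd ⟨s, rfl⟩ h.1
          · have : k = s := by
              have h5 : (s - k) * ((N : ℤ) + 2) = 0 := by linear_combination hk
              rcases mul_eq_zero.1 h5 with h6 | h6
              · omega
              · omega
            rw [this] at h
            exact h
        · intro h
          exact Or.inr ⟨s, rfl, h⟩
      · obtain ⟨t1, t2⟩ := sm_hi (N := N) (i := i) hi s (p + j) (by omega) (by omega)
        obtain ⟨t3, t4⟩ := sm_hi (N := N') (i := i') hi' s (r + j) (by omega) (by omega)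
        rw [hPfn _ _ t2, hPtn _ _ t4, t1, t3]
        have g := Lt.glue (p := p) (r := r) (w' := v') (w := u) s (j - 2) n (by omega)
        have ej : ((j - 2 : ℕ) : ℤ) = j - 2 := by omega
        have e : Ct p r v' u ((s * N + (p + j) - 2, false), n)
            ((s * N' + (r + j) - 2, true), n + gg s) := by
          have := Relation.EqvGen.rel _ _ g
          rw [ej] at this
          rw [show s * (N : ℤ) + (p + j) - 2 = s * (u.length : ℤ) + p + (j - 2) by rw [hN]; ring,
            show s * (N' : ℤ) + (r + j) - 2 = s * (v'.length : ℤ) + r + (j - 2) by rw [hN']; ring]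
          exact this
        exact ⟨fun h => hE.trans (hE.symm e) h, fun h => hE.trans e h⟩
  have hC : ∀ x y, Ct p r w' (lins i u) x y → (P x ↔ P y) := by
    intro x y hxy
    unfold Ct at hxy
    induction hxy with
    | rel x y h => exact hL x y h
    | refl x => exact Iff.rfl
    | symm x y _ ih => exact ih.symm
    | trans x y z _ _ ih1 ih2 => exact ih1.trans ih2
  have hPn : ∀ (z : ℤ × Bool) (n : ℤ), ¬ Is N i N' i' z →
      (P (z, n) ↔ Ct p r v' u (ph N i N' i' z, n) y₀) := by
    intro z n hz
    rcases z with ⟨a, _ | _⟩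
    · exact hPfn a n hz
    · exact hPtn a n hz
  have h2 := hC x y h
  rcases x with ⟨x, n⟩
  rcases y with ⟨y, m⟩
  rw [hPn x n hx, hPn y m hy] at h2
  exact h2.2 (Relation.EqvGen.refl _)

/-- the upper relation of the capped word -/
theorem insR_gen (H : HH p r i w' u v' i') {a b : ℤ} (n : ℤ)
    (h : Relation.EqvGen (fun x y => (¬ isol w' i' x ∧ ¬ isol w' i' y ∧ Rw w' x y) ∨
        ∃ k : ℤ, x = i' + k * w'.length ∧ y = i' + 2 + k * w'.length) a b) :
    Ct p r w' (lins i u) ((a, true), n) ((b, true), n) := by
  have hi := H.hi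
  have hi' := H.hi'
  have hl2 := H.l2
  have hlv := H.lv
  have hii := H.ii
  have hpi := H.hp
  have hE := Relation.EqvGen.is_equivalence (Lt p r w' (lins i u))
  induction h with
  | rel a b h =>
    rcases h with h | ⟨k, h1, h2⟩
    · exact Relation.EqvGen.rel _ _ (Lt.upp _ _ n h.2.2)
    · have ej : ((i - p : ℕ) : ℤ) = i - p := by omega
      have ej2 : ((i - p + 2 : ℕ) : ℤ) = i - p + 2 := by omega
      have ei : (i' : ℤ) = i + r - p := by omega
      have g1 := Relation.EqvGen.rel _ _ (Lt.glue (p := p) (r := r) (w' := w') (w := lins i u) k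
        (i - p) (n - gg k) (by rw [llen]; omega))
      have g2 := Relation.EqvGen.rel _ _ (Lt.glue (p := p) (r := r) (w' := w') (w := lins i u) k
        (i - p + 2) (n - gg k) (by rw [llen]; omega))
      have e1 : k * ((lins i u).length : ℤ) + p + ((i - p : ℕ) : ℤ) =
          k * ((u.length : ℤ) + 2) + i := by
        rw [llen, ej]; push_cast; ring
      have e2 : k * ((lins i u).length : ℤ) + p + ((i - p + 2 : ℕ) : ℤ) =
          k * ((u.length : ℤ) + 2) + (i + 2) := by
        rw [llen, ej2]; push_cast; ring
      have e3 : k * (w'.length : ℤ) + r + ((i - p : ℕ) : ℤ) = a := by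
        rw [h1, ej, ei]; ring
      have e4 : k * (w'.length : ℤ) + r + ((i - p + 2 : ℕ) : ℤ) = b := by
        rw [h2, ej2, ei]; ring
      rw [e1, e3, sub_add_cancel] at g1
      rw [e2, e4, sub_add_cancel] at g2
      obtain ⟨t1, t2⟩ := sm_lo (N := u.length) (i := i) hi k i (by omega) (by omega)
      obtain ⟨t3, t4⟩ := sm_hi (N := u.length) (i := i) hi k (i + 2) (by omega) (by omega)
      have g3 : Ct p r w' (lins i u) ((k * ((u.length : ℤ) + 2) + i, false), n - gg k)
          ((k * ((u.length : ℤ) + 2) + (i + 2), false), n - gg k) := by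
        apply Relation.EqvGen.rel
        apply Lt.low
        rw [rw_lins' hi]
        right
        refine ⟨t2, t4, ?_⟩
        rw [t1, t3, show k * (u.length : ℤ) + ((i : ℤ) + 2) - 2 = k * (u.length : ℤ) + i by ring]
        exact (Rw_equiv _).refl _
      exact hE.trans (hE.symm g1) (hE.trans g3 g2)
  | refl a => exact Relation.EqvGen.refl _
  | symm a b _ ih => exact Relation.EqvGen.symm _ _ ih
  | trans a b c _ _ ih1 ih2 => exact Relation.EqvGen.trans _ _ _ ih1 ih2

/-- two points with the same image are connected -/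
theorem insR_same (H : HH p r i w' u v' i') {x y : ℤ × Bool} (n : ℤ)
    (hx : ¬ Is u.length i v'.length i' x) (hy : ¬ Is u.length i v'.length i' y)
    (h : ph u.length i v'.length i' x = ph u.length i v'.length i' y) :
    Ct p r w' (lins i u) (x, n) (y, n) := by
  rcases x with ⟨a, _ | _⟩
  · rcases y with ⟨b, _ | _⟩
    · have h1 : sm u.length i a = sm u.length i b := congrArg Prod.fst h
      apply Relation.EqvGen.rel
      apply Lt.low
      rw [rw_lins' H.hi]
      right
      refine ⟨hx, hy, ?_⟩
      rw [h1]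
      exact (Rw_equiv _).refl _
    · exact absurd (congrArg Prod.snd h) (by simp [ph])
  · rcases y with ⟨b, _ | _⟩
    · exact absurd (congrArg Prod.snd h) (by simp [ph])
    · have h1 : sm v'.length i' a = sm v'.length i' b := congrArg Prod.fst h
      apply insR_gen H
      rw [← H.capp hx hy, h1]
      exact (Rw_equiv _).refl _

/-- from the new relation to the old one -/
theorem insR_bwd (H : HH p r i w' u v' i') {X Y : (ℤ × Bool) × ℤ} (h : Ct p r v' u X Y) :
    X = Y ∨ ∃ x y, ¬ Is u.length i v'.length i' x ∧ ¬ Is u.length i v'.length i' y ∧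
      ph u.length i v'.length i' x = X.1 ∧ ph u.length i v'.length i' y = Y.1 ∧
      Ct p r w' (lins i u) (x, X.2) (y, Y.2) := by
  have hi := H.hi
  have hi' := H.hi'
  have hl2 := H.l2
  have hlv := H.lv
  have hii := H.ii
  have hpi := H.hp
  have hE := Relation.EqvGen.is_equivalence (Lt p r w' (lins i u))
  unfold Ct at h
  induction h with
  | rel X Y h =>
    cases h with
    | low a b n h =>
      rcases Nat.eq_zero_or_pos u.length with h0 | h0
      · have hu : u = [] := List.length_eq_zero_iff.1 h0
        rw [hu, Rw_nil] at h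
        left
        rw [h]
      · right
        obtain ⟨t1, t2⟩ := sec_spec (N := u.length) (i := i) h0 a
        obtain ⟨t3, t4⟩ := sec_spec (N := u.length) (i := i) h0 b
        refine ⟨(sec u.length i a, false), (sec u.length i b, false), t1, t3, ?_, ?_, ?_⟩
        · simp only [ph, t2]
        · simp only [ph, t4]
        · apply Relation.EqvGen.rel
          apply Lt.low
          rw [rw_lins' hi]
          right
          exact ⟨t1, t3, by rw [t2, t4]; exact h⟩
    | upp a b n h =>
      rcases Nat.eq_zero_or_pos v'.length with h0 | h0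
      · have hu : v' = [] := List.length_eq_zero_iff.1 h0
        rw [hu, Rw_nil] at h
        left
        rw [h]
      · right
        obtain ⟨t1, t2⟩ := sec_spec (N := v'.length) (i := i') h0 a
        obtain ⟨t3, t4⟩ := sec_spec (N := v'.length) (i := i') h0 b
        refine ⟨(sec v'.length i' a, true), (sec v'.length i' b, true), t1, t3, ?_, ?_, ?_⟩
        · simp only [ph, t2]
        · simp only [ph, t4]
        · apply insR_gen H
          rw [← H.capp t1 t3, t2, t4]
          exact h
    | glue s j n hj =>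
      right
      rcases le_or_gt (p + j) i with hc | hc
      · obtain ⟨t1, t2⟩ := sm_lo (N := u.length) (i := i) hi s (p + j) (by omega) (by omega)
        obtain ⟨t3, t4⟩ := sm_lo (N := v'.length) (i := i') hi' s (r + j) (by omega) (by omega)
        refine ⟨(s * ((u.length : ℤ) + 2) + (p + j), false),
          (s * ((v'.length : ℤ) + 2) + (r + j), true), t2, t4, ?_, ?_, ?_⟩
        · simp only [ph, t1, add_assoc]
        · simp only [ph, t3, add_assoc]
        · have g := Relation.EqvGen.rel _ _ (Lt.glue (p := p) (r := r) (w' := w')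
            (w := lins i u) s j n (by rw [llen]; omega))
          rw [llen, hl2] at g
          push_cast at g
          rw [add_assoc (s * _), add_assoc (s * _)] at g
          exact g
      · obtain ⟨t1, t2⟩ := sm_hi (N := u.length) (i := i) hi s (p + j + 2) (by omega) (by omega)
        obtain ⟨t3, t4⟩ := sm_hi (N := v'.length) (i := i') hi' s (r + j + 2) (by omega)
          (by omega)
        refine ⟨(s * ((u.length : ℤ) + 2) + (p + j + 2), false),
          (s * ((v'.length : ℤ) + 2) + (r + j + 2), true), t2, t4, ?_, ?_, ?_⟩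
        · simp only [ph, t1, Prod.mk.injEq, and_true]
          ring
        · simp only [ph, t3, Prod.mk.injEq, and_true]
          ring
        · have g := Relation.EqvGen.rel _ _ (Lt.glue (p := p) (r := r) (w' := w')
            (w := lins i u) s (j + 2) n (by rw [llen]; omega))
          rw [llen, hl2] at g
          push_cast at g
          rw [show s * ((u.length : ℤ) + 2) + p + (j + 2) =
            s * ((u.length : ℤ) + 2) + (p + j + 2) by ring,
            show s * ((v'.length : ℤ) + 2) + r + (j + 2) =
            s * ((v'.length : ℤ) + 2) + (r + j + 2) by ring] at g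
          exact g
  | refl X => exact Or.inl rfl
  | symm X Y _ ih =>
    rcases ih with h | ⟨x, y, h1, h2, h3, h4, h5⟩
    · exact Or.inl h.symm
    · exact Or.inr ⟨y, x, h2, h1, h4, h3, hE.symm h5⟩
  | trans X Y Z _ _ ih1 ih2 =>
    rcases ih1 with h | ⟨x, y, h1, h2, h3, h4, h5⟩
    · rw [h]; exact ih2
    · rcases ih2 with k | ⟨y', z, k1, k2, k3, k4, k5⟩
      · rw [← k]; exact Or.inr ⟨x, y, h1, h2, h3, h4, h5⟩
      · exact Or.inr ⟨x, z, h1, k2, h3, k4,
          hE.trans h5 (hE.trans (insR_same H Y.2 h2 k1 (h4.trans k3.symm)) k5)⟩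

/-- the two relations agree -/
theorem insR_iff (H : HH p r i w' u v' i') {x y : ℤ × Bool} (n m : ℤ)
    (hx : ¬ Is u.length i v'.length i' x) (hy : ¬ Is u.length i v'.length i' y) :
    Ct p r w' (lins i u) (x, n) (y, m) ↔
      Ct p r v' u (ph u.length i v'.length i' x, n) (ph u.length i v'.length i' y, m) := by
  have hE := Relation.EqvGen.is_equivalence (Lt p r w' (lins i u))
  constructor
  · exact insR_fwd H (x := (x, n)) (y := (y, m)) hx hy
  · intro h
    rcases insR_bwd H h with h | ⟨x', y', h1, h2, h3, h4, h5⟩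
    · have e1 : ph u.length i v'.length i' x = ph u.length i v'.length i' y := congrArg Prod.fst h
      have e2 : n = m := congrArg Prod.snd h
      subst e2
      exact insR_same H n hx hy e1
    · exact hE.trans (insR_same H n hx h1 h3.symm) (hE.trans h5 (insR_same H m h2 hy h4))

theorem insR_Ix (H : HH p r i w' u v' i') (hl : 0 < p + r) (X : ℤ) :
    X ∈ Ix p r w' (lins i u) ↔ X ∈ Ix p r v' u := by
  have key : ∀ c d : ℤ, Ct p r w' (lins i u) (PT p r w' (lins i u) 0 c)
      (PT p r w' (lins i u) 1 d) ↔ Ct p r v' u (PT p r v' u 0 c) (PT p r v' u 1 d) := by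
    intro c d
    obtain ⟨m, c0, hc0, rfl⟩ := label hl c
    obtain ⟨m', d0, hd0, rfl⟩ := label hl d
    rw [PT_eq _ _ _ _ hc0, PT_eq _ _ _ _ hc0, PT_eq _ _ _ _ hd0, PT_eq _ _ _ _ hd0,
      insR_iff H _ _ (H.ptt 0 c0 hc0).1 (H.ptt 1 d0 hd0).1, (H.ptt 0 c0 hc0).2,
      (H.ptt 1 d0 hd0).2]
  unfold Ix
  simp only [Set.mem_ofPred_eq, key]

end

/-- an arc between through strands -/
theorem ez_insR {ζ : ℂ} (hζ : ζ ≠ 0) (p r i : ℕ) (w' u : Word) (hpr : 0 < p + r) (hw' : Ok w')
    (hl : w'.length + p = u.length + 2 + r) (hpi : p ≤ i) (hi : i ≤ u.length) :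
    ez ζ p r w' (lins i u) = ez ζ p r (cap (i - p + r) w') u := by
  have h1 := length_cap (i := i - p + r) (w := w') (by omega)
  have H : HH p r i w' u (cap (i - p + r) w') (i - p + r) :=
    { ok := hw'
      l2 := h1.symm
      lv := by omega
      hv := rfl
      ii := by omega
      hp := hpi
      hi := hi }
  have h := ez_of_shift hζ 0 H.good (fun X => by rw [sub_zero]; exact insR_Ix H hpr X)
  rw [h]
  simp

end Pool.Agent.S77.WD
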