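import Pool.Agent.S77.WD.Clt4

/-!
# Exponents: weights `cos (θ w / 2)` and `exp (c w / 2)`
-/

set_option autoImplicit false

namespace Pool.Agent.S77.WD
open Pool.Agent.H160R2.ML
open Pool.Agent.H160R2.OA Pool.Agent.H160R2.HL Pool.Agent.H160R2.NE Pool.Agent.H160R2.SA
open MeasureTheory Filter Topology

/-! ### the integral with `cosh` -/

/-- a primitive -/
noncomputable def prm (c x : ℝ) : ℝ := Real.log (1 + Real.exp (x + c)) - Real.log (1 + Real.exp (x - c))

theorem prm_deriv (c x : ℝ) :
    HasDerivAt (prm c) (2 * Real.sinh c / (2 * Real.cosh x + 2 * Real.cosh c)) x := by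
  have h1 : ∀ d : ℝ, HasDerivAt (fun x => Real.log (1 + Real.exp (x + d)))
      (Real.exp (x + d) / (1 + Real.exp (x + d))) x := by
    intro d
    have h2 : HasDerivAt (fun x => 1 + Real.exp (x + d)) (Real.exp (x + d)) x := by
      have h3 := ((hasDerivAt_id x).add_const d).exp
      simpa using h3.const_add 1
    exact h2.log (by positivity)
  have h2 := (h1 c).sub (h1 (-c))
  have e : Real.exp (x + c) / (1 + Real.exp (x + c)) - Real.exp (x + -c) / (1 + Real.exp (x + -c)) =
      2 * Real.sinh c / (2 * Real.cosh x + 2 * Real.cosh c) := by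
    rw [Real.sinh_eq, Real.cosh_eq, Real.cosh_eq, Real.exp_add, Real.exp_add]
    have a1 := Real.exp_pos x
    have a2 := Real.exp_pos c
    have a3 := Real.exp_pos (-c)
    have a4 := Real.exp_pos (-x)
    have b1 : Real.exp x * Real.exp (-x) = 1 := by rw [← Real.exp_add]; simp
    have b2 : Real.exp c * Real.exp (-c) = 1 := by rw [← Real.exp_add]; simp
    set X := Real.exp x
    set Y := Real.exp (-x)
    set C := Real.exp c
    set D := Real.exp (-c)
    have d1 : (1 + X * C) ≠ 0 := by positivity
    have d2 : (1 + X * D) ≠ 0 := by positivity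
    have d3 : (2 * ((X + Y) / 2) + 2 * ((C + D) / 2)) ≠ 0 := by positivity
    have hY : Y = X⁻¹ := by
      field_simp
      linarith
    have hD : D = C⁻¹ := by
      field_simp
      linarith
    rw [div_sub_div _ _ d1 d2, div_eq_div_iff (mul_ne_zero d1 d2) d3, hY, hD]
    field_simp
    ring
  rw [e] at h2
  refine h2.congr_of_eventuallyEq (Eventually.of_forall fun y => ?_)
  simp only [prm, sub_eq_add_neg]
  rfl

theorem prm_bot (c : ℝ) : Tendsto (prm c) atBot (𝓝 0) := by
  have h1 : ∀ d : ℝ, Tendsto (fun x : ℝ => Real.log (1 + Real.exp (x + d))) atBot (𝓝 0) := by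
    intro d
    have h2 : Tendsto (fun x : ℝ => 1 + Real.exp (x + d)) atBot (𝓝 (1 + 0)) :=
      (Real.tendsto_exp_atBot.comp (tendsto_atBot_add_const_right _ d tendsto_id)).const_add 1
    rw [add_zero] at h2
    have h3 := (Real.continuousAt_log one_ne_zero).tendsto.comp h2
    rwa [Real.log_one] at h3
  have h2 := (h1 c).sub (h1 (-c))
  rw [sub_zero] at h2
  exact h2

theorem prm_top (c : ℝ) : Tendsto (prm c) atTop (𝓝 (2 * c)) := by
  have e : prm c = fun x => 2 * c + (Real.log (1 + Real.exp (-x + -c)) -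
      Real.log (1 + Real.exp (-x + c))) := by
    funext x
    unfold prm
    have h1 : ∀ d : ℝ, Real.log (1 + Real.exp (x + d)) =
        (x + d) + Real.log (1 + Real.exp (-x + -d)) := by
      intro d
      have h2 : 1 + Real.exp (x + d) = Real.exp (x + d) * (1 + Real.exp (-x + -d)) := by
        rw [mul_add, ← Real.exp_add, mul_one]
        have : x + d + (-x + -d) = 0 := by ring
        rw [this, Real.exp_zero]
        ring
      rw [h2, Real.log_mul (Real.exp_pos _).ne' (by positivity), Real.log_exp]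
    have h3 := h1 c
    have h4 := h1 (-c)
    rw [show x + -c = x - c by ring] at h4
    rw [h3, h4, neg_neg]
    ring
  rw [e]
  have h1 : ∀ d : ℝ, Tendsto (fun x : ℝ => Real.log (1 + Real.exp (-x + d))) atTop (𝓝 0) := by
    intro d
    have h2 : Tendsto (fun x : ℝ => 1 + Real.exp (-x + d)) atTop (𝓝 (1 + 0)) :=
      (Real.tendsto_exp_atBot.comp (tendsto_atBot_add_const_right _ d
        tendsto_neg_atTop_atBot)).const_add 1
    rw [add_zero] at h2
    have h3 := (Real.continuousAt_log one_ne_zero).tendsto.comp h2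
    rwa [Real.log_one] at h3
  have h2 := ((h1 (-c)).sub (h1 c)).const_add (2 * c)
  simpa using h2

theorem den_pos (c x : ℝ) : 0 < 2 * Real.cosh x + 2 * Real.cosh c := by
  have := Real.cosh_pos x
  have := Real.cosh_pos c
  positivity

theorem den_bd (c x : ℝ) : (2 * Real.cosh x + 2 * Real.cosh c)⁻¹ ≤ 2 * (1 + x ^ 2)⁻¹ := by
  have h1 := I_cosh_ge x
  have h2 := Real.cosh_pos c
  rw [← inv_inv (2 * (1 + x ^ 2)⁻¹)]
  apply inv_anti₀ (by positivity)
  rw [mul_inv, inv_inv]
  linarith

theorem dc_int (c : ℝ) : Integrable (fun x => 2 * Real.sinh c / (2 * Real.cosh x + 2 * Real.cosh c)) := by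
  have hc : Continuous (fun x => 2 * Real.sinh c / (2 * Real.cosh x + 2 * Real.cosh c)) :=
    continuous_const.div ((continuous_const.mul Real.continuous_cosh).add continuous_const)
      (fun x => (den_pos c x).ne')
  refine (integrable_inv_one_add_sq.const_mul (|2 * Real.sinh c| * 2)).mono' hc.aestronglyMeasurable
    (Eventually.of_forall fun x => ?_)
  rw [Real.norm_eq_abs, abs_div, abs_of_pos (den_pos c x), div_eq_mul_inv, mul_assoc]
  exact mul_le_mul_of_nonneg_left (den_bd c x) (abs_nonneg _)

theorem dc_integral (c : ℝ) :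
    ∫ x, 2 * Real.sinh c / (2 * Real.cosh x + 2 * Real.cosh c) = 2 * c := by
  rw [integral_of_hasDerivAt_of_tendsto (prm_deriv c) (dc_int c) (prm_bot c) (prm_top c), sub_zero]

/-- the function -/
noncomputable def Gc (c x : ℝ) : ℝ := WW 2 (2 * Real.cosh c) x

theorem Gc_cont (c : ℝ) : Continuous (Gc c) := by
  unfold Gc WW
  refine Continuous.sub (Continuous.log ?_ fun x => ?_) (Continuous.log ?_ fun x => ?_)
  · exact (continuous_const.mul Real.continuous_cosh).add continuous_const
  · exact (den_pos c x).ne'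
  · exact (continuous_const.mul Real.continuous_cosh).add continuous_const
  · exact (X_pos (by norm_num) x).ne'

theorem Gc_bd (c x : ℝ) : |Gc c x| ≤ (2 * Real.cosh c) * (2 * (1 + x ^ 2)⁻¹) := by
  have h1 := Real.one_le_cosh c
  have h2 := X_pos (a := 2) (by norm_num) x
  have h3 := den_pos c x
  have h4 : 0 ≤ Gc c x := by
    unfold Gc WW
    have := Real.log_le_log h2 (show 2 * Real.cosh x + 2 ≤ 2 * Real.cosh x + 2 * Real.cosh c by linarith)
    linarith
  rw [abs_of_nonneg h4]
  unfold Gc WW
  rw [← Real.log_div h3.ne' h2.ne']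
  have h5 := Real.log_le_sub_one_of_pos (div_pos h3 h2)
  have h6 : (2 * Real.cosh x + 2 * Real.cosh c) / (2 * Real.cosh x + 2) - 1 =
      (2 * Real.cosh c - 2) * (2 * Real.cosh x + 2)⁻¹ := by
    field_simp
    ring
  have h7 : (2 * Real.cosh x + 2)⁻¹ ≤ 2 * (1 + x ^ 2)⁻¹ := by
    have := den_bd 0 x
    rwa [Real.cosh_zero, mul_one] at this
  rw [h6] at h5
  refine h5.trans ?_
  calc (2 * Real.cosh c - 2) * (2 * Real.cosh x + 2)⁻¹ ≤ (2 * Real.cosh c) * (2 * Real.cosh x + 2)⁻¹ :=
        mul_le_mul_of_nonneg_right (by linarith) (by positivity)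
    _ ≤ _ := mul_le_mul_of_nonneg_left h7 (by positivity)

theorem Gc_int (c : ℝ) : Integrable (Gc c) := by
  refine ((integrable_inv_one_add_sq.const_mul 2).const_mul (2 * Real.cosh c)).mono'
    (Gc_cont c).aestronglyMeasurable (Eventually.of_forall fun x => ?_)
  exact Gc_bd c x

theorem Gc_dc (c x : ℝ) : HasDerivAt (fun c => Gc c x)
    (2 * Real.sinh c / (2 * Real.cosh x + 2 * Real.cosh c)) c := by
  unfold Gc WW
  have h1 : HasDerivAt (fun c => 2 * Real.cosh x + 2 * Real.cosh c) (2 * Real.sinh c) c :=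
    ((Real.hasDerivAt_cosh c).const_mul 2).const_add _
  have h2 := (h1.log (den_pos c x).ne').sub_const (Real.log (2 * Real.cosh x + 2))
  exact h2

theorem Gc_integral (c : ℝ) : ∫ x, Gc c x = c ^ 2 := by
  have hd : ∀ c : ℝ, HasDerivAt (fun c => ∫ x, Gc c x) (2 * c) c := by
    intro c0
    have h := hasDerivAt_integral_of_dominated_loc_of_deriv_le (μ := (volume : Measure ℝ))
      (F := fun c x => Gc c x)
      (F' := fun c x => 2 * Real.sinh c / (2 * Real.cosh x + 2 * Real.cosh c))
      (x₀ := c0) (s := Metric.ball c0 1)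
      (bound := fun x => (2 * Real.sinh (|c0| + 1)) * (2 * (1 + x ^ 2)⁻¹))
      (Metric.ball_mem_nhds c0 one_pos)
      (Eventually.of_forall fun c => (Gc_cont c).aestronglyMeasurable)
      (Gc_int c0) (dc_int c0).aestronglyMeasurable
      (Eventually.of_forall fun x c hc => ?_)
      ((integrable_inv_one_add_sq.const_mul 2).const_mul _)
      (Eventually.of_forall fun x c _ => Gc_dc c x)
    · rw [← dc_integral c0]
      exact h.2
    · rw [Real.norm_eq_abs, abs_div, abs_of_pos (den_pos c x), div_eq_mul_inv]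
      have h1 : |2 * Real.sinh c| ≤ 2 * Real.sinh (|c0| + 1) := by
        rw [abs_mul, abs_two]
        have h2 : |c| ≤ |c0| + 1 := by
          rw [Metric.mem_ball, Real.dist_eq] at hc
          have h3 := abs_sub_abs_le_abs_sub c c0
          linarith
        have h3 : |Real.sinh c| ≤ Real.sinh (|c0| + 1) := by
          rw [Real.abs_sinh]
          exact Real.sinh_le_sinh.2 h2
        linarith
      exact mul_le_mul h1 (den_bd c x) (inv_nonneg.2 (den_pos c x).le)
        ((abs_nonneg _).trans h1)
  have hz : ∀ c : ℝ, HasDerivAt (fun c => (∫ x, Gc c x) - c ^ 2) 0 c := by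
    intro c
    have h1 := (hd c).sub (hasDerivAt_pow 2 c)
    have e : 2 * c - ((2 : ℕ) : ℝ) * c ^ (2 - 1) = 0 := by norm_num
    rw [e] at h1
    exact h1
  have hc := is_const_of_deriv_eq_zero (f := fun c => (∫ x, Gc c x) - c ^ 2)
    (fun c => (hz c).differentiableAt) (fun c => (hz c).deriv) c 0
  have h0 : ∫ x, Gc 0 x = 0 := by
    have : (fun x => Gc 0 x) = fun _ => 0 := by
      funext x
      unfold Gc WW
      rw [Real.cosh_zero, mul_one, sub_self]
    rw [this, integral_zero]
  rw [h0] at hc
  linarith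

end Pool.Agent.S77.WD
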