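import Pool.Agent.S77.WD.InsR
import Pool.Agent.S77.WD.MoveR
import Pool.Agent.S77.WD.MoveL
import Pool.Agent.S77.WD.Symm
import Pool.Agent.S77.WD.Base
import Pool.Agent.H160R2.ML.T_zero
import Pool.Agent.H160R2.ML.T_bs

/-!
# The winding of the legs is well defined
-/

set_option autoImplicit false

namespace Pool.Agent.S77.WD
open Pool.Agent.H863R2.Cyl
open Pool.Agent.H160R2.ML
open Pool.Agent.H988R2.Perc (Word PD)

/-- a small arc among the legs -/
theorem not_good_arc {p r i : ℕ} {w' u : Word} (h1 : Ok w') (h2 : Ok u) (h3 : Even u.length)
    (hl : w'.length + p = u.length + 2 + r) (hi : i + 2 ≤ p) (hp : p ≤ u.length + 2) :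
    ¬ Good p r w' (lins i u) := by
  intro hg
  have := t_zero p r i w' u h1 h2 h3 hl hi hp
  unfold ee at this
  rw [if_pos hg] at this
  exact one_ne_zero this

/-- exchange -/
theorem good_swap {p r : ℕ} {w' w : Word} (h : w'.length + p = w.length + r) (hp : p ≤ w.length) :
    Good p r w' w ↔ Good r p w w' :=
  ⟨Tsymm.good_of h hp, Tsymm.good_of h.symm (by omega)⟩

/-- the index is unique, it has the parity of the number of through strands and its absolute value
is at most this number -/
theorem Ix_unique : ∀ (n p r : ℕ) (w' w : Word), w.length + w'.length ≤ n → 2 ≤ p + r → Ok w' →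
    Ok w → Even w.length → Even w'.length → w'.length + p = w.length + r → p ≤ w.length →
    Good p r w' w → ∃ (X : ℤ), Ix p r w' w = {X} ∧ |X - p| ≤ (w.length : ℤ) - p ∧
      (X - p) % 2 = ((w.length : ℤ) - p) % 2 := by
  intro n
  induction n with
  | zero =>
    intro p r w' w hn hpr _ _ _ _ hl hp _
    omega
  | succ n ih =>
    -- the case of at least one lower leg
    have key : ∀ (p r : ℕ) (w' w : Word), w.length + w'.length ≤ n + 1 → 2 ≤ p + r → 1 ≤ p →
        Ok w' → Ok w → Even w.length → Even w'.length → w'.length + p = w.length + r →
        p ≤ w.length → Good p r w' w →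
        ∃ (X : ℤ), Ix p r w' w = {X} ∧ |X - p| ≤ (w.length : ℤ) - p ∧
          (X - p) % 2 = ((w.length : ℤ) - p) % 2 := by
      intro p r w' w hn hpr hp1 hw' hw hev hev' hl hp hg
      rcases Nat.eq_or_lt_of_le hp with hpw | hpw
      · -- no through strand
        have hw1 : w = bw p := by
          by_contra hne
          obtain ⟨i, u, rfl, hu, hu2, hu3, hi⟩ := Tbs.exists_arc p w (hpw ▸ hev) hpw.symm hw hne
          exact not_good_arc hw' hu hu2 (by rw [Tzero.len_lins] at hl; exact hl) hi (by omega) hg
        have hw2 : w' = bw r := by
          by_contra hne
          have hlr : w'.length = r := by omega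
          obtain ⟨i, u, rfl, hu, hu2, hu3, hi⟩ := Tbs.exists_arc r w' (hlr ▸ hev') hlr hw' hne
          exact not_good_arc hw hu hu2 (by rw [Tzero.len_lins] at hlr; omega) hi (by omega)
            ((good_swap hl hp).1 hg)
        obtain ⟨h, rfl⟩ := (hpw ▸ hev : Even p)
        obtain ⟨k, rfl⟩ : Even r := by
          have : w'.length = r := by omega
          exact this ▸ hev'
        refine ⟨((h + h : ℕ) : ℤ), ?_, ?_, ?_⟩
        · rw [hw1, hw2]
          exact base_Ix hpr
        · rw [sub_self, abs_zero]
          omega
        · rw [← hpw]
      · rcases exists_arc hw (by obtain ⟨c, hc⟩ := hev; omega) with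
          ⟨i, u, hi, hu, rfl, -, -⟩ | ⟨u, hu, rfl, -⟩
        · rw [Tzero.len_lins] at hl hpw hp hn hev ⊢
          have hu2 : Even u.length := by
            obtain ⟨c, hc⟩ := hev
            exact ⟨c - 1, by omega⟩
          rcases lt_trichotomy (i + 1) p with h1 | h1 | h1
          · exact absurd hg (not_good_arc hw' hu hu2 hl (by omega) hp)
          · -- moveR
            subst h1
            have hg2 := (TmoveR.good_iff (r := r) (w' := w') hi).1 hg
            obtain ⟨X, hX1, hX2, hX3⟩ := ih i (r + 1) w' u (by omega) (by omega) hw' hu hu2 hev'
              (by omega) (by omega) hg2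
            refine ⟨X, ?_, ?_, ?_⟩
            · rw [← hX1]
              ext Y
              exact moveR_Ix hi Y
            · push_cast
              rw [abs_le] at hX2 ⊢
              constructor <;> linarith [hX2.1, hX2.2]
            · push_cast
              omega
          · -- insR
            have h1' : p ≤ i := by omega
            have hc1 := length_cap (i := i - p + r) (w := w') (by omega)
            have H : TinsR.HH p r i w' u (cap (i - p + r) w') (i - p + r) :=
              { ok := hw'
                l2 := hc1.symm
                lv := by omega
                hv := rfl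
                ii := by omega
                hp := h1'
                hi := hi }
            have hg2 := H.good.1 hg
            have hev2 : Even (cap (i - p + r) w').length := by
              obtain ⟨c, hc⟩ := hev'
              exact ⟨c - 1, by omega⟩
            obtain ⟨X, hX1, hX2, hX3⟩ := ih p r (cap (i - p + r) w') u (by omega) hpr
              (ok_cap hw' (by omega)) hu hu2 hev2 (by omega) (by omega) hg2
            refine ⟨X, ?_, ?_, ?_⟩
            · rw [← hX1]
              ext Y
              exact insR_Ix H (by omega) Y
            · push_cast
              rw [abs_le] at hX2 ⊢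
              constructor <;> linarith [hX2.1, hX2.2]
            · push_cast
              omega
        · -- seam
          have e1 : (seam u).length = u.length + 2 := by simp [seam]
          rw [e1] at hl hpw hp hn hev ⊢
          have hu2 : Even u.length := by
            obtain ⟨c, hc⟩ := hev
            exact ⟨c - 1, by omega⟩
          obtain ⟨P, rfl⟩ : ∃ P, p = P + 1 := ⟨p - 1, by omega⟩
          have hg2 := (TmoveL.Good_iff (P := P) (r := r) (w' := w') (u := u) hl (by omega)).1 hg
          have hr : (rotr w').length = w'.length := by simp [rotr]
          obtain ⟨X, hX1, hX2, hX3⟩ := ih P (r + 1) (rotr w') u (by omega) (by omega)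
            (ok_rotr.2 hw') hu hu2 (by rw [hr]; exact hev') (by omega) (by omega) hg2
          refine ⟨X + 2, ?_, ?_, ?_⟩
          · ext Y
            rw [moveL_Ix hl (by omega) Y, hX1]
            simp only [Set.mem_singleton_iff]
            constructor
            · intro h; omega
            · intro h; omega
          · push_cast
            rw [abs_le] at hX2 ⊢
            constructor <;> linarith [hX2.1, hX2.2]
          · push_cast
            omega
    intro p r w' w hn hpr hw' hw hev hev' hl hp hg
    rcases Nat.eq_zero_or_pos p with h0 | h0
    · obtain ⟨X, hX1, hX2, hX3⟩ := key r p w w' (by omega) (by omega) (by omega) hw hw' hev' hev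
        hl.symm (by omega) ((good_swap hl hp).1 hg)
      refine ⟨((p + r : ℕ) : ℤ) - X, ?_, ?_, ?_⟩
      · ext Y
        rw [symm_Ix hl hp (by omega) Y, hX1]
        simp only [Set.mem_singleton_iff]
        constructor
        · intro h; omega
        · intro h; omega
      · have e : (w'.length : ℤ) + p = w.length + r := by exact_mod_cast hl
        push_cast
        rw [abs_le] at hX2 ⊢
        constructor <;> linarith [hX2.1, hX2.2]
      · have e : (w'.length : ℤ) + p = w.length + r := by exact_mod_cast hl
        push_cast
        omega
    · exact key p r w' w hn hpr h0 hw' hw hev hev' hl hp hg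

end Pool.Agent.S77.WD
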