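import Pool.Agent.S77.WD.Prob
import Pool.Agent.S77.WD.Uniq

/-!
# The law of the winding: coefficients
-/

set_option autoImplicit false

namespace Pool.Agent.S77.WD
open Pool.Agent.H863R2.Cyl
open Pool.Agent.H160R2.ML
open Pool.Agent.H988R2.Perc (Word PD)

/-- the legs exist and have the winding `y` -/
def HasW (k : ℕ) (w' w : Word) (y : ℤ) : Prop := Good k k w' w ∧ Ix k k w' w = {y + k}

theorem HasW.unique {k : ℕ} {w' w : Word} {y z : ℤ} (h : HasW k w' w y) (h' : HasW k w' w z) :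
    y = z := by
  have := h.2.symm.trans h'.2
  rw [Set.singleton_eq_singleton_iff] at this
  omega

theorem HasW.exists {n k : ℕ} (hk : 1 ≤ k) (hkn : k ≤ 2 * n) {w' w : Word}
    (hw' : Ok w') (hw : Ok w) (hl' : w'.length = 2 * n) (hl : w.length = 2 * n)
    (hg : Good k k w' w) : ∃ y : ℤ, HasW k w' w y ∧ |y| ≤ ((2 * n - k : ℕ) : ℤ) ∧
      y % 2 = ((2 * n - k : ℕ) : ℤ) % 2 := by
  obtain ⟨X, h1, h2, h3⟩ := Ix_unique (w.length + w'.length) k k w' w le_rfl (by omega) hw' hw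
    ⟨n, by omega⟩ ⟨n, by omega⟩ (by omega) (by omega) hg
  have e : ((2 * n - k : ℕ) : ℤ) = (w.length : ℤ) - k := by omega
  refine ⟨X - k, ⟨hg, ?_⟩, ?_, ?_⟩
  · rw [h1, sub_add_cancel]
  · rw [e]; exact h2
  · rw [e]; exact h3

open Classical in
/-- the functional by the winding -/
theorem ez_sum {n k : ℕ} (hk : 1 ≤ k) (hkn : k ≤ 2 * n) {w' w : Word}
    (hw' : Ok w') (hw : Ok w) (hl' : w'.length = 2 * n) (hl : w.length = 2 * n) (ζ : ℂ) :
    ez ζ k k w' w = ∑ y ∈ Finset.Icc (-((2 * n - k : ℕ) : ℤ)) ((2 * n - k : ℕ) : ℤ),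
      (if HasW k w' w y then (1 : ℂ) else 0) * ζ ^ y := by
  by_cases hg : Good k k w' w
  · obtain ⟨y, hy, hy2, -⟩ := HasW.exists hk hkn hw' hw hl' hl hg
    rw [ez_single hg hy.2, Finset.sum_eq_single y]
    · rw [if_pos hy, one_mul, add_sub_cancel_right]
    · intro z _ hz
      rw [if_neg (fun h => hz (h.unique hy)), zero_mul]
    · intro h
      exact absurd (Finset.mem_Icc.2 (abs_le.1 hy2)) h
  · unfold ez
    rw [if_neg hg]
    symm
    refine Finset.sum_eq_zero fun y _ => ?_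
    rw [if_neg (fun h => hg h.1), zero_mul]

/-- Laurent polynomials are determined by their values -/
theorem laurent_unique {N : ℕ} {a b : ℤ → ℂ}
    (h : ∀ ζ : ℂ, ζ ≠ 0 → ∑ y ∈ Finset.Icc (-(N : ℤ)) N, a y * ζ ^ y =
      ∑ y ∈ Finset.Icc (-(N : ℤ)) N, b y * ζ ^ y) {y : ℤ} (hy : |y| ≤ N) : a y = b y := by
  set P : Polynomial ℂ := ∑ j ∈ Finset.range (2 * N + 1),
    Polynomial.monomial j (a ((j : ℤ) - N) - b ((j : ℤ) - N)) with hP
  have key : ∀ (c : ℤ → ℂ) (ζ : ℂ), ζ ≠ 0 → ∑ j ∈ Finset.range (2 * N + 1), c ((j : ℤ) - N) * ζ ^ j =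
      ζ ^ N * ∑ y ∈ Finset.Icc (-(N : ℤ)) N, c y * ζ ^ y := by
    intro c ζ hζ
    rw [Finset.mul_sum]
    refine Finset.sum_bij (fun (j : ℕ) _ => (j : ℤ) - N) ?_ ?_ ?_ ?_
    · intro j hj
      rw [Finset.mem_range] at hj
      rw [Finset.mem_Icc]
      omega
    · intro i _ j _ hij
      have : (i : ℤ) = j := by linarith
      exact_mod_cast this
    · intro y hy
      rw [Finset.mem_Icc] at hy
      refine ⟨(y + N).toNat, ?_, ?_⟩
      · rw [Finset.mem_range]; omega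
      · omega
    · intro j _
      have e : ζ ^ N * (c ((j : ℤ) - N) * ζ ^ ((j : ℤ) - N)) =
          c ((j : ℤ) - N) * (ζ ^ ((N : ℤ)) * ζ ^ ((j : ℤ) - N)) := by
        rw [zpow_natCast]; ring
      rw [e, ← zpow_add₀ hζ, show (N : ℤ) + ((j : ℤ) - N) = (j : ℤ) by ring, zpow_natCast]
  have hroot : ∀ ζ : ℂ, ζ ≠ 0 → P.IsRoot ζ := by
    intro ζ hζ
    rw [Polynomial.IsRoot, hP, Polynomial.eval_finsetSum]
    simp only [Polynomial.eval_monomial, sub_mul, Finset.sum_sub_distrib]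
    rw [key a ζ hζ, key b ζ hζ, h ζ hζ, sub_self]
  have hP0 : P = 0 := by
    refine Polynomial.eq_zero_of_infinite_isRoot P (Set.Infinite.mono (s := {0}ᶜ) ?_ ?_)
    · intro ζ hζ
      exact hroot ζ hζ
    · exact (Set.finite_singleton _).infinite_compl
  have hc := congrArg (fun Q => Polynomial.coeff Q (y + N).toNat) hP0
  rw [abs_le] at hy
  simp only [Polynomial.coeff_zero] at hc
  rw [hP, Polynomial.finsetSum_coeff, Finset.sum_eq_single (y + N).toNat] at hc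
  · rw [Polynomial.coeff_monomial_same] at hc
    have e : (((y + N).toNat : ℕ) : ℤ) - N = y := by omega
    rw [e] at hc
    exact sub_eq_zero.1 hc
  · intro j _ hj
    exact Polynomial.coeff_monomial_of_ne _ (Ne.symm hj)
  · intro hj
    exact absurd (Finset.mem_range.2 (by omega)) hj

/-- the weighted number of choices of signs with the sum `y` -/
noncomputable def eS {N : ℕ} (u : Fin N → ℝ) (y : ℤ) : ℝ :=
  ∑ S : Finset (Fin N), if 2 * (S.card : ℤ) - N = y then ∏ i ∈ S, Real.exp (u i) else 0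

theorem eS_gf {N : ℕ} (u : Fin N → ℝ) {ζ : ℂ} (hζ : ζ ≠ 0) :
    ζ⁻¹ ^ N * ∏ i, (1 + ζ ^ 2 * (Real.exp (u i) : ℂ)) =
      ∑ y ∈ Finset.Icc (-(N : ℤ)) N, (eS u y : ℂ) * ζ ^ y := by
  have h1 : ∏ i, (1 + ζ ^ 2 * (Real.exp (u i) : ℂ)) =
      ∑ S : Finset (Fin N), (ζ ^ 2) ^ S.card * ∏ i ∈ S, (Real.exp (u i) : ℂ) := by
    have := Finset.prod_add (fun i => ζ ^ 2 * (Real.exp (u i) : ℂ)) (fun _ => (1 : ℂ))
      (Finset.univ : Finset (Fin N))
    simp only [Finset.prod_const_one, mul_one, Finset.powerset_univ] at this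
    rw [show ∏ i, (1 + ζ ^ 2 * (Real.exp (u i) : ℂ)) = ∏ i, (ζ ^ 2 * (Real.exp (u i) : ℂ) + 1) from
      Finset.prod_congr rfl fun i _ => add_comm _ _, this]
    refine Finset.sum_congr rfl fun S _ => ?_
    rw [Finset.prod_mul_distrib, Finset.prod_const]
  rw [h1, Finset.mul_sum]
  unfold eS
  push_cast
  simp only [Finset.sum_mul]
  rw [Finset.sum_comm]
  refine Finset.sum_congr rfl fun S _ => ?_
  have hS : S.card ≤ N := by
    have := Finset.card_le_univ S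
    rwa [Fintype.card_fin] at this
  rw [Finset.sum_eq_single (2 * (S.card : ℤ) - N)]
  · rw [if_pos rfl]
    push_cast
    have e : ζ⁻¹ ^ N * (ζ ^ 2) ^ S.card = ζ ^ (2 * (S.card : ℤ) - N) := by
      rw [zpow_sub₀ hζ, inv_pow, ← pow_mul, div_eq_mul_inv, zpow_natCast, mul_comm]
      congr 1
    rw [← e]
    ring
  · intro y _ hy
    rw [if_neg (fun h => hy h.symm)]
    simp
  · intro h
    exfalso
    apply h
    rw [Finset.mem_Icc]
    omega

theorem eS_nonneg {N : ℕ} (u : Fin N → ℝ) (y : ℤ) : 0 ≤ eS u y := by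
  unfold eS
  refine Finset.sum_nonneg fun S _ => ?_
  split_ifs
  · exact Finset.prod_nonneg fun i _ => (Real.exp_pos _).le
  · exact le_rfl

theorem eS_zero {N : ℕ} (u : Fin N → ℝ) {y : ℤ} (hy : ¬ |y| ≤ N) : eS u y = 0 := by
  unfold eS
  refine Finset.sum_eq_zero fun S _ => ?_
  have hS : S.card ≤ N := by
    have := Finset.card_le_univ S
    rwa [Fintype.card_fin] at this
  rw [if_neg]
  intro h
  apply hy
  rw [abs_le]
  omega

open Classical in
/-- the probability of the winding `y` for stationary patterns -/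
noncomputable def Py (k : ℕ) {m : ℕ} (μ : Wd (m + 1) → ℝ) (y : ℤ) : ℝ :=
  ∑ σ, ∑ τ, (if HasW k τ.1 σ.1 y then 1 else 0) * μ σ * μ τ

open Classical in
/-- **the exact law of the winding** -/
theorem law {m n k : ℕ} (hn : 1 ≤ n) (hk : 1 ≤ k) (hkn : k ≤ 2 * n) (hm1 : m + 1 = 2 * n)
    (μ : Wd (m + 1) → ℝ) (hμ0 : ∀ σ, 0 ≤ μ σ) (hμ : ∑ σ, μ σ = 1)
    (hst : ∀ σ, ∑ c : Fin (m + 1) → Bool, push (Tc m c) μ σ = 2 ^ (m + 1) * μ σ)
    {u : Fin (2 * n - k) → ℝ} (hu : IsEig (2 * n - k) (2 * k) u) (y : ℤ) :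
    Py k μ y * RR (2 * n) 0 (Real.pi / 3) = eS u y := by
  by_cases hy : |y| ≤ ((2 * n - k : ℕ) : ℤ)
  · have h := laurent_unique (N := 2 * n - k)
      (a := fun y => ((Py k μ y * RR (2 * n) 0 (Real.pi / 3) : ℝ) : ℂ))
      (b := fun y => ((eS u y : ℝ) : ℂ)) (fun ζ hζ => ?_) hy
    · exact_mod_cast h
    · rw [← eS_gf u hζ, ← hu.2.2 (ζ ^ 2), ← z_PB hn hk hkn hm1 μ hμ0 hμ hst hζ]
      have e1 : ∀ σ τ : Wd (m + 1), ez ζ k k τ.1 σ.1 * μ σ * μ τ =
          ∑ y ∈ Finset.Icc (-((2 * n - k : ℕ) : ℤ)) ((2 * n - k : ℕ) : ℤ),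
            ((if HasW k τ.1 σ.1 y then (1 : ℂ) else 0) * μ σ * μ τ) * ζ ^ y := by
        intro σ τ
        rw [ez_sum hk hkn τ.2.2 σ.2.2 (by rw [τ.2.1, hm1]) (by rw [σ.2.1, hm1]), Finset.sum_mul,
          Finset.sum_mul]
        refine Finset.sum_congr rfl fun y _ => ?_
        ring
      simp only [e1]
      unfold Py
      push_cast
      rw [Finset.sum_congr rfl fun σ _ => Finset.sum_comm, Finset.sum_comm, Finset.sum_mul]
      refine Finset.sum_congr rfl fun y _ => ?_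
      rw [Finset.sum_congr rfl fun σ _ => (Finset.sum_mul _ _ _).symm, ← Finset.sum_mul]
      have e2 : ∀ σ τ : Wd (m + 1), (((if HasW k τ.1 σ.1 y then (1 : ℝ) else 0) : ℝ) : ℂ) =
          (if HasW k τ.1 σ.1 y then (1 : ℂ) else 0) := by
        intro σ τ
        split_ifs <;> simp
      simp only [e2]
      ring
  · have h1 : Py k μ y = 0 := by
      unfold Py
      refine Finset.sum_eq_zero fun σ _ => Finset.sum_eq_zero fun τ _ => ?_
      rw [if_neg, zero_mul, zero_mul]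
      intro h
      obtain ⟨z, hz, hz2, -⟩ := HasW.exists (n := n) hk hkn τ.2.2 σ.2.2 (by rw [τ.2.1, hm1])
        (by rw [σ.2.1, hm1]) h.1
      rw [h.unique hz] at hy
      exact hy hz2
    rw [h1, zero_mul, eS_zero u hy]

end Pool.Agent.S77.WD
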