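import Pool.Agent.S77.WD.Model2
import Pool.Agent.H906R2.Arm.Box

/-!
# The product measure on the configurations of the infinite cylinder
-/

set_option autoImplicit false

namespace Pool.Agent.S77.WD
open Pool.Agent.H863R2.Cyl
open MeasureTheory

/-- a fair coin -/
noncomputable def coin : Measure Bool :=
  ProbabilityTheory.bernoulliMeasure true false ⟨1/2, by norm_num, by norm_num⟩

/-- critical percolation: the states of the tiles are independent and fair -/
noncomputable def crit (n : ℕ) : Measure (Conf n) := Measure.infinitePi (fun _ => coin)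

instance : IsProbabilityMeasure coin := by unfold coin; infer_instance

instance (n : ℕ) : IsProbabilityMeasure (crit n) := by unfold crit; infer_instance

theorem coin_real (b : Bool) : coin {b} = ENNReal.ofReal (1 / 2) := by
  have h : coin.real {b} = 1 / 2 := by
    unfold coin
    cases b with
    | true =>
      rw [ProbabilityTheory.bernoulliMeasure_real_apply_of_mem_of_notMem _
        (MeasurableSet.singleton _) (by simp) (by simp)]
    | false =>
      rw [ProbabilityTheory.bernoulliMeasure_real_apply_of_notMem_of_mem _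
        (MeasurableSet.singleton _) (by simp) (by simp)]
      norm_num
  rw [← h, Measure.real, ENNReal.ofReal_toReal (measure_ne_top _ _)]

theorem cyl_law {I J : Type*} [Fintype J] (e : J → I) (he : Function.Injective e) (v : J → Bool) :
    (Measure.infinitePi (fun _ : I => coin)).real {ω | ∀ j, ω (e j) = v j} =
      (1 / 2) ^ (Fintype.card J) := by
  classical
  have hset : {ω : I → Bool | ∀ j, ω (e j) = v j} =
      Set.pi (↑(Finset.univ.map ⟨e, he⟩) : Set I) (fun i => {b | ∀ j, e j = i → b = v j}) := by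
    ext ω
    simp only [Set.mem_ofPred_eq, Set.mem_pi, Finset.coe_map, Function.Embedding.coeFn_mk,
      Finset.coe_univ, Set.image_univ, Set.mem_range, forall_exists_index]
    constructor
    · rintro h i j rfl j' hj'
      rw [← hj']
      exact h j'
    · intro h j
      exact h _ j rfl j rfl
  rw [hset, Measure.real, Measure.infinitePi_pi _ (fun i _ => (Set.toFinite _).measurableSet),
    Finset.prod_map, Finset.prod_congr rfl (g := fun _ => ENNReal.ofReal (1 / 2))]
  · rw [Finset.prod_const, Finset.card_univ, ← ENNReal.ofReal_pow (by norm_num),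
      ENNReal.toReal_ofReal (by positivity)]
  · intro j _
    have : {b : Bool | ∀ j', e j' = (⟨e, he⟩ : J ↪ I) j → b = v j'} = {v j} := by
      ext b
      simp only [Function.Embedding.coeFn_mk, Set.mem_ofPred_eq, Set.mem_singleton_iff]
      constructor
      · intro h; exact h j rfl
      · rintro rfl j' hj'
        rw [he hj']
    rw [this, coin_real]

theorem cyl_meas {I J : Type*} [Fintype J] (e : J → I) (v : J → Bool) :
    MeasurableSet {ω : I → Bool | ∀ j, ω (e j) = v j} := by
  have : {ω : I → Bool | ∀ j, ω (e j) = v j} = ⋂ j, {ω | ω (e j) = v j} := by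
    ext ω; simp
  rw [this]
  refine MeasurableSet.iInter fun j => ?_
  exact measurableSet_eq_fun (measurable_pi_apply (e j)) measurable_const

section
variable {n : ℕ}

/-- the lower rows in the order of the transfer -/
def rL (M : ℕ) (ω : Conf n) (t : Fin M) : Fin (2 * n - 1 + 1) → Bool := dL ω (M - 1 - t)

/-- the upper rows in the order of the transfer -/
def rU (M : ℕ) (ω : Conf n) (t : Fin M) : Fin (2 * n - 1 + 1) → Bool := dU ω (M - 1 - t)

/-- the positions of the tiles of the block -/
def pos (n M : ℕ) (j : Bool × Fin M × Fin (2 * n - 1 + 1)) : ℤ × ZMod (2 * n) :=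
  (if j.1 then ((j.2.1 : ℕ) : ℤ) else -((j.2.1 : ℕ) : ℤ) - 1, ((j.2.2 : ℕ) : ZMod (2 * n)))

theorem pos_inj (hn : 1 ≤ n) (M : ℕ) : Function.Injective (pos n M) := by
  rintro ⟨β, h, i⟩ ⟨β', h', i'⟩ he
  unfold pos at he
  simp only [Prod.mk.injEq] at he
  obtain ⟨h1, h2⟩ := he
  have hi : (i : ℕ) < 2 * n := by have := i.2; omega
  have hi' : (i' : ℕ) < 2 * n := by have := i'.2; omega
  have h3 := (ZMod.natCast_eq_natCast_iff' _ _ _).1 h2
  rw [Nat.mod_eq_of_lt hi, Nat.mod_eq_of_lt hi'] at h3
  have h4 : i = i' := Fin.ext h3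
  cases β <;> cases β' <;> simp at h1
  · have : h = h' := Fin.ext h1
    rw [this, h4]
  · omega
  · omega
  · have : h = h' := Fin.ext h1
    rw [this, h4]

/-- the states of the tiles of the block -/
def val (M : ℕ) (a b : Fin M → Fin (2 * n - 1 + 1) → Bool)
    (j : Bool × Fin M × Fin (2 * n - 1 + 1)) : Bool :=
  if j.1 then !b (Fin.rev j.2.1) j.2.2 else a (Fin.rev j.2.1) j.2.2

theorem block_iff (M : ℕ) (a b : Fin M → Fin (2 * n - 1 + 1) → Bool) (ω : Conf n) :
    (rL M ω = a ∧ rU M ω = b) ↔ ∀ j, ω (pos n M j) = val M a b j := by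
  have hr : ∀ t : Fin M, ((Fin.rev t : Fin M) : ℕ) = M - 1 - t := fun t => by
    rw [Fin.val_rev]; omega
  constructor
  · rintro ⟨rfl, rfl⟩ ⟨β, h, i⟩
    have e : M - 1 - ((Fin.rev h : Fin M) : ℕ) = h := by
      rw [hr]; have := h.2; omega
    cases β
    · simp only [pos, val, rL, dL, Bool.false_eq_true, if_false, e]
    · simp only [pos, val, rU, dU, if_true, e, Bool.not_not]
  · intro h
    constructor
    · funext t i
      have h1 := h (false, Fin.rev t, i)
      simp only [pos, val, Bool.false_eq_true, if_false, Fin.rev_rev] at h1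
      rw [← h1]
      unfold rL dL
      rw [hr]
    · funext t i
      have h1 := h (true, Fin.rev t, i)
      simp only [pos, val, if_true, Fin.rev_rev] at h1
      unfold rU dU
      rw [← hr, h1, Bool.not_not]

theorem block_one (hn : 1 ≤ n) (M : ℕ) (a b : Fin M → Fin (2 * n - 1 + 1) → Bool) :
    (crit n).real {ω | rL M ω = a ∧ rU M ω = b} * ((2 ^ (2 * n - 1 + 1)) ^ M * (2 ^ (2 * n - 1 + 1)) ^ M)
      = 1 := by
  have h1 : {ω : Conf n | rL M ω = a ∧ rU M ω = b} = {ω | ∀ j, ω (pos n M j) = val M a b j} := by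
    ext ω
    exact block_iff M a b ω
  unfold crit
  rw [h1, cyl_law _ (pos_inj hn M)]
  simp only [Fintype.card_prod, Fintype.card_bool, Fintype.card_fin]
  rw [← pow_mul, ← pow_add, one_div, inv_pow]
  have e : (2 * n - 1 + 1) * M + (2 * n - 1 + 1) * M = 2 * (M * (2 * n - 1 + 1)) := by ring
  rw [e]
  exact inv_mul_cancel₀ (by positivity)

theorem block_meas (M : ℕ) (a b : Fin M → Fin (2 * n - 1 + 1) → Bool) :
    MeasurableSet {ω : Conf n | rL M ω = a ∧ rU M ω = b} := by
  have h1 : {ω : Conf n | rL M ω = a ∧ rU M ω = b} = {ω | ∀ j, ω (pos n M j) = val M a b j} := by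
    ext ω
    exact block_iff M a b ω
  rw [h1]
  exact cyl_meas _ _

open Classical in
theorem block_set (M : ℕ) (Q : (Fin M → Fin (2 * n - 1 + 1) → Bool) →
    (Fin M → Fin (2 * n - 1 + 1) → Bool) → Prop) :
    {ω : Conf n | Q (rL M ω) (rU M ω)} = ⋃ p ∈ (Finset.univ.filter (fun p :
      (Fin M → Fin (2 * n - 1 + 1) → Bool) × (Fin M → Fin (2 * n - 1 + 1) → Bool) => Q p.1 p.2)),
        {ω | rL M ω = p.1 ∧ rU M ω = p.2} := by
  ext ω
  simp only [Set.mem_ofPred_eq, Set.mem_iUnion, Finset.mem_filter, Finset.mem_univ, true_and,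
    exists_prop]
  constructor
  · intro h
    exact ⟨(rL M ω, rU M ω), h, rfl, rfl⟩
  · rintro ⟨p, h, h1, h2⟩
    rw [h1, h2]
    exact h

theorem block_meas' (M : ℕ) (Q : (Fin M → Fin (2 * n - 1 + 1) → Bool) →
    (Fin M → Fin (2 * n - 1 + 1) → Bool) → Prop) :
    MeasurableSet {ω : Conf n | Q (rL M ω) (rU M ω)} := by
  classical
  rw [block_set]
  exact Finset.measurableSet_biUnion _ fun p _ => block_meas M p.1 p.2

open Classical in
/-- probabilities of events of the block -/
theorem block_law (hn : 1 ≤ n) (M : ℕ) (Q : (Fin M → Fin (2 * n - 1 + 1) → Bool) →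
    (Fin M → Fin (2 * n - 1 + 1) → Bool) → Prop) :
    (crit n).real {ω | Q (rL M ω) (rU M ω)} *
      ((2 ^ (2 * n - 1 + 1)) ^ M * (2 ^ (2 * n - 1 + 1)) ^ M)
      = ∑ a, ∑ b, if Q a b then 1 else 0 := by
  rw [block_set, measureReal_biUnion_finset]
  · rw [Finset.sum_mul, Finset.sum_congr rfl fun p _ => block_one hn M p.1 p.2, Finset.sum_filter,
      Fintype.sum_prod_type]
  · intro p _ q _ hpq
    rw [Function.onFun, Set.disjoint_left]
    rintro ω ⟨h1, h2⟩ ⟨h3, h4⟩
    exact hpq (Prod.ext (h1.symm.trans h3) (h2.symm.trans h4))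
  · intro p _
    exact block_meas M p.1 p.2

end

end Pool.Agent.S77.WD
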