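import Pool.Agent.S77.WD.Half
import Pool.Agent.S77.WD.Law

/-!
# Critical bond percolation on the infinite cylinder `ℤ/2n × ℤ`: arms around a slit, winding
-/

set_option autoImplicit false

namespace Pool.Agent.S77.WD
open Pool.Agent.H863R2.Cyl
open Pool.Agent.H160R2.ML (Cn Lg pt Good)
open Pool.Agent.H988R2.Perc (Word PD)

/-- a configuration of the infinite cylinder of circumference `2n`: the state of the tiles; the tile
`(y, x)` is the unit square with lower left corner `(x, y)` -/
abbrev Conf (n : ℕ) : Type := ℤ × ZMod (2 * n) → Bool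

/-- a corner `(x, y)` of the universal cover `ℤ × ℤ` with a side (`false`: lower, `true`: upper) and
a level -/
abbrev Pnt : Type := ((ℤ × ℤ) × Bool) × ℤ

/-- Steps.  In every tile one of the two diagonals is present, and it can be followed (on the side of
the tile).  At height `0` the two sides of the corners outside the slits are joined; the level
increases by `1` when the segment between the slits `0` and `1` is crossed upwards. -/
inductive Step (n k : ℕ) (ω : Conf n) : Pnt → Pnt → Prop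
  | rise (x y l : ℤ) : ω (y, (x : ZMod (2 * n))) = false →
      Step n k ω (((x, y), decide (0 ≤ y)), l) (((x + 1, y + 1), decide (0 ≤ y)), l)
  | fall (x y l : ℤ) : ω (y, (x : ZMod (2 * n))) = true →
      Step n k ω (((x + 1, y), decide (0 ≤ y)), l) (((x, y + 1), decide (0 ≤ y)), l)
  | cross (s : ℤ) (i : ℕ) (l : ℤ) : k ≤ i → i ≤ 2 * n →
      Step n k ω (((s * (2 * n) + i, 0), false), l)
        (((s * (2 * n) + i, 0), true), l + if s = 0 then 1 else 0)

/-- connection by a path of open (or of dual) edges, with levels -/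
def Conn (n k : ℕ) (ω : Conf n) : Pnt → Pnt → Prop := Relation.EqvGen (Step n k ω)

/-- the corner number `c < 2k` around the slit number `s`: `0, …, k` below, from the left to the
right, `k+1, …, 2k-1` above, from the right to the left -/
def sec (n k : ℕ) (s : ℤ) (c : ℕ) : (ℤ × ℤ) × Bool :=
  if c ≤ k then ((s * (2 * n) + c, 0), false) else ((s * (2 * n) + (2 * k - c), 0), true)

/-- the corners of the slit `0` are in different clusters, each of which reaches another slit -/
def Arms (n k : ℕ) (ω : Conf n) : Prop :=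
  (∀ c d : ℕ, c < 2 * k → d < 2 * k → c ≠ d →
    ¬ ∃ l : ℤ, Conn n k ω (sec n k 0 c, 0) (sec n k 0 d, l)) ∧
  (∀ c : ℕ, c < 2 * k → ∃ s : ℤ, s ≠ 0 ∧ ∃ d : ℕ, d < 2 * k ∧
    ∃ l : ℤ, Conn n k ω (sec n k 0 c, 0) (sec n k s d, l))

/-- the winding of an arm from the slit `0` to the slit `1` -/
def Wind (n k : ℕ) (ω : Conf n) (w : ℤ) : Prop :=
  ∃ (c d : ℕ) (l : ℤ), c < 2 * k ∧ d < 2 * k ∧ Conn n k ω (sec n k 0 c, 0) (sec n k 1 d, l) ∧
    w = c + d - k - 2 * k * (l + if k < c then 1 else 0)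

/-! ### the rows -/

/-- the rows of the lower half -/
def dL {n : ℕ} (ω : Conf n) (h : ℕ) (i : Fin (2 * n - 1 + 1)) : Bool :=
  ω (-(h : ℤ) - 1, ((i : ℕ) : ZMod (2 * n)))

/-- the rows of the upper half, reflected -/
def dU {n : ℕ} (ω : Conf n) (h : ℕ) (i : Fin (2 * n - 1 + 1)) : Bool :=
  !ω ((h : ℤ), ((i : ℕ) : ZMod (2 * n)))

theorem cast_ix {n : ℕ} (hn : 1 ≤ n) (j : ℤ) :
    (((ix (2 * n - 1) (j % ((2 * n - 1 : ℕ) + 1 : ℤ)).toNat : ℕ)) : ZMod (2 * n)) = (j : ZMod (2 * n)) := by
  have e : ((2 * n - 1 : ℕ) + 1 : ℤ) = ((2 * n : ℕ) : ℤ) := by omega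
  have h0 : (0 : ℤ) < ((2 * n : ℕ) : ℤ) := by omega
  have h1 := Int.emod_nonneg j h0.ne'
  have h2 := Int.emod_lt_of_pos j h0
  have e2 : ((ix (2 * n - 1) (j % ((2 * n - 1 : ℕ) + 1 : ℤ)).toNat : ℕ)) = (j % ((2 * n : ℕ) : ℤ)).toNat := by
    rw [e]
    unfold Pool.Agent.H863R2.Cyl.ix
    simp only
    apply Nat.mod_eq_of_lt
    omega
  rw [e2]
  have e3 : (((j % ((2 * n : ℕ) : ℤ)).toNat : ℕ) : ZMod (2 * n)) =
      ((((j % ((2 * n : ℕ) : ℤ)).toNat : ℕ) : ℤ) : ZMod (2 * n)) := by push_cast; rfl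
  rw [e3, Int.toNat_of_nonneg h1, ZMod.intCast_mod]

theorem cl_dL {n : ℕ} (hn : 1 ≤ n) (ω : Conf n) (h : ℕ) (j : ℤ) :
    cl (dL ω h) j = ω (-(h : ℤ) - 1, (j : ZMod (2 * n))) := by
  unfold cl dL
  rw [cast_ix hn]

theorem cl_dU {n : ℕ} (hn : 1 ≤ n) (ω : Conf n) (h : ℕ) (j : ℤ) :
    cl (dU ω h) j = !ω ((h : ℤ), (j : ZMod (2 * n))) := by
  unfold cl dU
  rw [cast_ix hn]

/-- the two half cylinders -/
def dB {n : ℕ} (ω : Conf n) (β : Bool) : ℕ → Fin (2 * n - 1 + 1) → Bool := if β then dU ω else dL ω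

/-- the corner of the universal cover -/
def cor (β : Bool) (p : ℤ × ℕ) : (ℤ × ℤ) × Bool := ((p.1, if β then (p.2 : ℤ) else -(p.2 : ℤ)), β)

theorem of_HL {n k : ℕ} (hn : 1 ≤ n) (ω : Conf n) (β : Bool) (l : ℤ) {p q : ℤ × ℕ}
    (h : Relation.EqvGen (HL (2 * n - 1) (dB ω β)) p q) : Conn n k ω (cor β p, l) (cor β q, l) := by
  induction h with
  | rel x y h =>
    cases β with
    | false =>
      cases h with
      | link0 j h hc =>
        have hc' : cl (dL ω h) j = false := hc
        rw [cl_dL hn] at hc'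
        have h1 := Step.rise (n := n) (k := k) (ω := ω) j (-(h : ℤ) - 1) l hc'
        have e : decide ((0 : ℤ) ≤ -(h : ℤ) - 1) = false := by simp; omega
        rw [e] at h1
        have e1 : cor false (j, h + 1) = ((j, -(h : ℤ) - 1), false) := by
          simp [cor]; ring
        have e2 : cor false (j + 1, h) = ((j + 1, -(h : ℤ) - 1 + 1), false) := by
          simp [cor]
        rw [e1, e2]
        exact Relation.EqvGen.rel _ _ h1
      | link1 j h hc =>
        have hc' : cl (dL ω h) j = true := hc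
        rw [cl_dL hn] at hc'
        have h1 := Step.fall (n := n) (k := k) (ω := ω) j (-(h : ℤ) - 1) l hc'
        have e : decide ((0 : ℤ) ≤ -(h : ℤ) - 1) = false := by simp; omega
        rw [e] at h1
        have e1 : cor false (j + 1, h + 1) = ((j + 1, -(h : ℤ) - 1), false) := by
          simp [cor]; ring
        have e2 : cor false (j, h) = ((j, -(h : ℤ) - 1 + 1), false) := by
          simp [cor]
        rw [e1, e2]
        exact Relation.EqvGen.rel _ _ h1
    | true =>
      cases h with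
      | link0 j h hc =>
        have hc' : cl (dU ω h) j = false := hc
        rw [cl_dU hn] at hc'
        have hc2 : ω ((h : ℤ), (j : ZMod (2 * n))) = true := by simpa using hc'
        have h1 := Step.fall (n := n) (k := k) (ω := ω) j (h : ℤ) l hc2
        have e : decide ((0 : ℤ) ≤ (h : ℤ)) = true := by simp
        rw [e] at h1
        have e1 : cor true (j, h + 1) = ((j, (h : ℤ) + 1), true) := by simp [cor]
        have e2 : cor true (j + 1, h) = ((j + 1, (h : ℤ)), true) := by simp [cor]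
        rw [e1, e2]
        exact Relation.EqvGen.symm _ _ (Relation.EqvGen.rel _ _ h1)
      | link1 j h hc =>
        have hc' : cl (dU ω h) j = true := hc
        rw [cl_dU hn] at hc'
        have hc2 : ω ((h : ℤ), (j : ZMod (2 * n))) = false := by simpa using hc'
        have h1 := Step.rise (n := n) (k := k) (ω := ω) j (h : ℤ) l hc2
        have e : decide ((0 : ℤ) ≤ (h : ℤ)) = true := by simp
        rw [e] at h1
        have e1 : cor true (j + 1, h + 1) = ((j + 1, (h : ℤ) + 1), true) := by simp [cor]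
        have e2 : cor true (j, h) = ((j, (h : ℤ)), true) := by simp [cor]
        rw [e1, e2]
        exact Relation.EqvGen.symm _ _ (Relation.EqvGen.rel _ _ h1)
  | refl x => exact Relation.EqvGen.refl _
  | symm x y _ ih => exact Relation.EqvGen.symm _ _ ih
  | trans x y z _ _ ih1 ih2 => exact Relation.EqvGen.trans _ _ _ ih1 ih2

/-- coordinates of a point -/
def co (x : (ℤ × ℤ) × Bool) : ℤ × ℕ := (x.1.1, x.1.2.natAbs)

/-- the words of the two half cylinders -/
structure Words {n : ℕ} (ω : Conf n) (w' w : Word) : Prop where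
  len : w.length = 2 * n
  len' : w'.length = 2 * n
  low : ∀ a b : ℤ, Rw w a b ↔ Relation.EqvGen (HL (2 * n - 1) (dL ω)) (a, 0) (b, 0)
  upp : ∀ a b : ℤ, Rw w' a b ↔ Relation.EqvGen (HL (2 * n - 1) (dU ω)) (a, 0) (b, 0)

section
variable {n k : ℕ} {ω : Conf n} {w' w : Word}

theorem Ct_of_HL (W : Words ω w' w) (β : Bool) (a b l : ℤ)
    (h : Relation.EqvGen (HL (2 * n - 1) (dB ω β)) (a, 0) (b, 0)) :
    Ct k k w' w ((a, β), l) ((b, β), l) := by
  cases β with
  | false => exact Relation.EqvGen.rel _ _ (Lt.low a b l ((W.low a b).2 h))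
  | true => exact Relation.EqvGen.rel _ _ (Lt.upp a b l ((W.upp a b).2 h))

theorem step_HL (hn : 1 ≤ n) {x y : ℤ} :
    (ω (y, (x : ZMod (2 * n))) = false →
      Relation.EqvGen (HL (2 * n - 1) (dB ω (decide (0 ≤ y)))) (x, y.natAbs) (x + 1, (y + 1).natAbs)) ∧
    (ω (y, (x : ZMod (2 * n))) = true →
      Relation.EqvGen (HL (2 * n - 1) (dB ω (decide (0 ≤ y)))) (x + 1, y.natAbs) (x, (y + 1).natAbs)) := by
  rcases le_or_gt 0 y with hy | hy
  · obtain ⟨h, rfl⟩ := Int.eq_ofNat_of_zero_le hy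
    have e : decide ((0 : ℤ) ≤ (h : ℤ)) = true := by simp
    have e1 : ((h : ℤ) + 1).natAbs = h + 1 := by omega
    have e2 : ((h : ℤ)).natAbs = h := by omega
    rw [e, e1, e2]
    constructor
    · intro hc
      refine Relation.EqvGen.symm _ _ (Relation.EqvGen.rel _ _ (HL.link1 x h ?_))
      show cl (dU ω h) x = true
      rw [cl_dU hn, hc]
      rfl
    · intro hc
      refine Relation.EqvGen.symm _ _ (Relation.EqvGen.rel _ _ (HL.link0 x h ?_))
      show cl (dU ω h) x = false
      rw [cl_dU hn, hc]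
      rfl
  · obtain ⟨h, rfl⟩ : ∃ h : ℕ, y = -(h : ℤ) - 1 := ⟨(-y - 1).toNat, by omega⟩
    have e : decide ((0 : ℤ) ≤ -(h : ℤ) - 1) = false := by simp; omega
    have e1 : (-(h : ℤ) - 1 + 1).natAbs = h := by omega
    have e2 : (-(h : ℤ) - 1).natAbs = h + 1 := by omega
    rw [e, e1, e2]
    constructor
    · intro hc
      refine Relation.EqvGen.rel _ _ (HL.link0 x h ?_)
      show cl (dL ω h) x = false
      rw [cl_dL hn, hc]
    · intro hc
      refine Relation.EqvGen.rel _ _ (HL.link1 x h ?_)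
      show cl (dL ω h) x = true
      rw [cl_dL hn, hc]

/-- anchors -/
def Anc (ω : Conf n) (P : Pnt) (a : (ℤ × Bool) × ℤ) : Prop :=
  a.1.2 = P.1.2 ∧ a.2 = P.2 ∧ Relation.EqvGen (HL (2 * n - 1) (dB ω P.1.2)) (co P.1) (a.1.1, 0)

theorem conn_key (hn : 1 ≤ n) (W : Words ω w' w) (P Q : Pnt) (h : Conn n k ω P Q) :
    (P.1.2 = Q.1.2 ∧ P.2 = Q.2 ∧
      Relation.EqvGen (HL (2 * n - 1) (dB ω P.1.2)) (co P.1) (co Q.1)) ∨
    ∃ a b, Anc ω P a ∧ Anc ω Q b ∧ Ct k k w' w a b := by
  unfold Conn at h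
  induction h with
  | rel P Q h =>
    cases h with
    | rise x y l hc => exact Or.inl ⟨rfl, rfl, (step_HL hn).1 hc⟩
    | fall x y l hc => exact Or.inl ⟨rfl, rfl, (step_HL hn).2 hc⟩
    | cross s i l hk hi =>
      refine Or.inr ⟨((s * (2 * n) + i, false), l),
        ((s * (2 * n) + i, true), l + if s = 0 then 1 else 0),
        ⟨rfl, rfl, Relation.EqvGen.refl _⟩, ⟨rfl, rfl, Relation.EqvGen.refl _⟩, ?_⟩
      have h1 := Lt.glue (p := k) (r := k) (w' := w') (w := w) s (i - k) l (by rw [W.len]; omega)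
      rw [W.len, W.len'] at h1
      have e : s * ((2 * n : ℕ) : ℤ) + (k : ℤ) + ((i - k : ℕ) : ℤ) = s * (2 * n) + i := by
        push_cast
        omega
      rw [e] at h1
      exact Relation.EqvGen.rel _ _ h1
  | refl x => exact Or.inl ⟨rfl, rfl, Relation.EqvGen.refl _⟩
  | symm x y _ h =>
    rcases h with ⟨h1, h2, h3⟩ | ⟨a, b, h1, h2, h3⟩
    · refine Or.inl ⟨h1.symm, h2.symm, ?_⟩
      rw [← h1]
      exact Relation.EqvGen.symm _ _ h3
    · exact Or.inr ⟨b, a, h2, h1, Relation.EqvGen.symm _ _ h3⟩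
  | trans x y z _ _ h1 h2 =>
    rcases h1 with ⟨h11, h12, h13⟩ | ⟨a, b, h11, h12, h13⟩
    · rcases h2 with ⟨h21, h22, h23⟩ | ⟨c, d, h21, h22, h23⟩
      · refine Or.inl ⟨h11.trans h21, h12.trans h22, Relation.EqvGen.trans _ _ _ h13 ?_⟩
        rw [h11]
        exact h23
      · refine Or.inr ⟨c, d, ⟨h21.1.trans h11.symm, h21.2.1.trans h12.symm, ?_⟩, h22, h23⟩
        have h3 := h21.2.2
        rw [← h11] at h3
        exact Relation.EqvGen.trans _ _ _ h13 h3
    · rcases h2 with ⟨h21, h22, h23⟩ | ⟨c, d, h21, h22, h23⟩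
      · refine Or.inr ⟨a, b, h11, ⟨h12.1.trans h21, h12.2.1.trans h22, ?_⟩, h13⟩
        rw [← h21]
        exact Relation.EqvGen.trans _ _ _ (Relation.EqvGen.symm _ _ h23) h12.2.2
      · refine Or.inr ⟨a, d, h11, h22, Relation.EqvGen.trans _ _ _ h13
          (Relation.EqvGen.trans _ _ _ ?_ h23)⟩
        have h3 := Ct_of_HL (k := k) W y.1.2 b.1.1 c.1.1 y.2
          (Relation.EqvGen.trans _ _ _ (Relation.EqvGen.symm _ _ h12.2.2) h21.2.2)
        have e1 : b = ((b.1.1, y.1.2), y.2) := Prod.ext (Prod.ext rfl h12.1) h12.2.1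
        have e2 : c = ((c.1.1, y.1.2), y.2) := Prod.ext (Prod.ext rfl h21.1) h21.2.1
        rw [e1, e2]
        exact h3

/-- **connections at height `0` are those of the words** -/
theorem conn_iff (hn : 1 ≤ n) (W : Words ω w' w) (a b : ℤ) (β γ : Bool) (l l' : ℤ) :
    Conn n k ω (((a, 0), β), l) (((b, 0), γ), l') ↔ Ct k k w' w ((a, β), l) ((b, γ), l') := by
  constructor
  · intro h
    rcases conn_key hn W _ _ h with ⟨h1, h2, h3⟩ | ⟨p, q, h1, h2, h3⟩
    · simp only at h1 h2
      subst h1 h2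
      exact Ct_of_HL W β a b l h3
    · have h4 := Ct_of_HL (k := k) W β a p.1.1 l h1.2.2
      have h5 := Ct_of_HL (k := k) W γ b q.1.1 l' h2.2.2
      have e1 : p = ((p.1.1, β), l) := Prod.ext (Prod.ext rfl h1.1) h1.2.1
      have e2 : q = ((q.1.1, γ), l') := Prod.ext (Prod.ext rfl h2.1) h2.2.1
      rw [e1, e2] at h3
      exact Relation.EqvGen.trans _ _ _ h4
        (Relation.EqvGen.trans _ _ _ h3 (Relation.EqvGen.symm _ _ h5))
  · intro h
    have key : ∀ x y : (ℤ × Bool) × ℤ, Ct k k w' w x y →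
        Conn n k ω (((x.1.1, 0), x.1.2), x.2) (((y.1.1, 0), y.1.2), y.2) := by
      intro x y h
      unfold Ct at h
      induction h with
      | rel x y h =>
        cases h with
        | low a b l h =>
          have h1 := of_HL (k := k) hn ω false l ((W.low a b).1 h)
          simpa [cor] using h1
        | upp a b l h =>
          have h1 := of_HL (k := k) hn ω true l ((W.upp a b).1 h)
          simpa [cor] using h1
        | glue s i l hi =>
          rw [W.len] at hi ⊢
          rw [W.len']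
          have h1 := Step.cross (n := n) (k := k) (ω := ω) s (k + i) l (by omega) (by omega)
          have e : s * (2 * (n : ℤ)) + ((k + i : ℕ) : ℤ) = s * ((2 * n : ℕ) : ℤ) + k + i := by
            push_cast; ring
          rw [e] at h1
          exact Relation.EqvGen.rel _ _ h1
      | refl x => exact Relation.EqvGen.refl _
      | symm x y _ h => exact Relation.EqvGen.symm _ _ h
      | trans x y z _ _ h1 h2 => exact Relation.EqvGen.trans _ _ _ h1 h2
    exact key _ _ h

end

end Pool.Agent.S77.WD
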