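import Pool.Agent.S77.WD.Model

/-!
# Arms and winding by the words of the two half cylinders
-/

set_option autoImplicit false

namespace Pool.Agent.S77.WD
open Pool.Agent.H863R2.Cyl
open Pool.Agent.H160R2.ML (Cn Lg pt Good)
open Pool.Agent.H988R2.Perc (Word PD)

variable {n k : ℕ} {ω : Conf n} {w' w : Word}

theorem sec_eq (W : Words ω w' w) (s : ℤ) (c : ℕ) :
    sec n k s c = (((pt k k w' w s c).1, 0), (pt k k w' w s c).2) := by
  unfold sec pt
  rw [W.len, W.len']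
  split_ifs
  · push_cast; rfl
  · push_cast
    congr 2
    ring

theorem conn_sec (hn : 1 ≤ n) (W : Words ω w' w) (s s' : ℤ) (c d : ℕ) (l l' : ℤ) :
    Conn n k ω (sec n k s c, l) (sec n k s' d, l') ↔
      Ct k k w' w (pt k k w' w s c, l) (pt k k w' w s' d, l') := by
  rw [sec_eq W, sec_eq W]
  exact conn_iff hn W _ _ _ _ _ _

theorem ex_conn_iff (hn : 1 ≤ n) (W : Words ω w' w) (s s' : ℤ) (c d : ℕ) :
    (∃ l : ℤ, Conn n k ω (sec n k s c, 0) (sec n k s' d, l)) ↔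
      Cn k k w' w (pt k k w' w s c) (pt k k w' w s' d) := by
  constructor
  · rintro ⟨l, h⟩
    exact Ct_Cn ((conn_sec hn W s s' c d 0 l).1 h)
  · intro h
    obtain ⟨l, hl⟩ := Cn_Ct h 0
    exact ⟨l, (conn_sec hn W s s' c d 0 l).2 hl⟩

theorem arms_iff (hn : 1 ≤ n) (W : Words ω w' w) : Arms n k ω ↔ Pool.Agent.H160R2.ML.Good k k w' w := by
  unfold Arms Pool.Agent.H160R2.ML.Good
  have e : k + k = 2 * k := by ring
  rw [e]
  simp only [ex_conn_iff hn W]

/-- a label in the first turn is enough -/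
theorem mem_Ix (hk : 1 ≤ k) (X : ℤ) : X ∈ Ix k k w' w ↔
    ∃ c : ℕ, c < k + k ∧ Ct k k w' w (PT k k w' w 0 c) (PT k k w' w 1 (X - c)) := by
  have hl : 0 < k + k := by omega
  constructor
  · rintro ⟨c, hc⟩
    obtain ⟨m, c0, hc0, rfl⟩ := label hl c
    refine ⟨c0, hc0, ?_⟩
    obtain ⟨m', d0, hd0, hd⟩ := label hl (X - (((k + k : ℕ) : ℤ) * m + c0))
    rw [hd, PT_eq _ _ _ _ hc0, PT_eq _ _ _ _ hd0] at hc
    have e1 : (c0 : ℤ) = ((k + k : ℕ) : ℤ) * 0 + c0 := by ring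
    have e2 : X - (c0 : ℤ) = ((k + k : ℕ) : ℤ) * (m' + m) + d0 := by
      linear_combination hd
    rw [e2]
    nth_rewrite 1 [e1]
    rw [PT_eq _ _ _ _ hc0, PT_eq _ _ _ _ hd0]
    have h1 := Ct_shift (-m) hc
    have g0 : gg 0 - gg (0 - 1) = 1 := rfl
    have g1 : gg 1 - gg (1 - 1) = -1 := rfl
    simp only [g0, g1] at h1 ⊢
    have e3 : pl k 0 c0 + m * 1 + -m = pl k 0 c0 + 0 * 1 := by ring
    have e4 : pl k 1 d0 + m' * -1 + -m = pl k 1 d0 + (m' + m) * -1 := by ring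
    rw [e3, e4] at h1
    exact h1
  · rintro ⟨c, _, hc⟩
    exact ⟨c, hc⟩

theorem wind_iff_mem (hn : 1 ≤ n) (hk : 1 ≤ k) (W : Words ω w' w) (y : ℤ) :
    Wind n k ω y ↔ y + k ∈ Ix k k w' w := by
  have hl : 0 < k + k := by omega
  have e2k : ((k + k : ℕ) : ℤ) = 2 * k := by push_cast; ring
  have g0 : gg 0 - gg (0 - 1) = 1 := rfl
  have g1 : gg 1 - gg (1 - 1) = -1 := rfl
  have p0 : ∀ c : ℕ, pl k 0 c = if k < c then 1 else 0 := by
    intro c
    unfold pl
    by_cases h : c ≤ k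
    · rw [if_pos h, if_neg (by omega)]
    · rw [if_neg h, if_pos (by omega)]
      rfl
  have p1 : ∀ c : ℕ, pl k 1 c = 0 := by
    intro c
    unfold pl
    split_ifs <;> rfl
  rw [mem_Ix hk]
  unfold Wind
  constructor
  · rintro ⟨c, d, l, hc, hd, h, rfl⟩
    refine ⟨c, by omega, ?_⟩
    rw [conn_sec hn W] at h
    have e1 : (c : ℤ) = ((k + k : ℕ) : ℤ) * 0 + c := by ring
    have e2 : (c : ℤ) + d - k - 2 * k * (l + if k < c then 1 else 0) + k - c =
        ((k + k : ℕ) : ℤ) * (-(l + if k < c then 1 else 0)) + d := by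
      rw [e2k]; ring
    rw [e2]
    nth_rewrite 1 [e1]
    rw [PT_eq _ _ _ _ (by omega), PT_eq _ _ _ _ (by omega), g0, g1, p0, p1]
    have h1 := Ct_shift (if k < c then (1 : ℤ) else 0) h
    simp only at h1
    have e3 : (if k < c then (1 : ℤ) else 0) + 0 * 1 = 0 + if k < c then 1 else 0 := by ring
    have e4 : (0 : ℤ) + -(l + if k < c then 1 else 0) * -1 = l + if k < c then 1 else 0 := by ring
    rw [e3, e4]
    exact h1
  · rintro ⟨c, hc, h⟩
    obtain ⟨m, d, hd, hm⟩ := label hl (y + k - c)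
    have e1 : (c : ℤ) = ((k + k : ℕ) : ℤ) * 0 + c := by ring
    rw [hm] at h
    nth_rewrite 1 [e1] at h
    rw [PT_eq _ _ _ _ hc, PT_eq _ _ _ _ hd, g0, g1, p0, p1] at h
    refine ⟨c, d, -m - (if k < c then 1 else 0), by omega, by omega, ?_, ?_⟩
    · rw [conn_sec hn W]
      have h1 := Ct_shift (-(if k < c then (1 : ℤ) else 0)) h
      simp only at h1
      have e3 : (if k < c then (1 : ℤ) else 0) + 0 * 1 + -(if k < c then (1 : ℤ) else 0) = 0 := by ring
      have e4 : (0 : ℤ) + m * -1 + -(if k < c then (1 : ℤ) else 0) =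
          -m - (if k < c then 1 else 0) := by ring
      rw [e3, e4] at h1
      exact h1
    · rw [e2k] at hm
      linear_combination hm

/-- **arms with the winding `y`** -/
theorem arms_wind_iff (hn : 1 ≤ n) (hk : 1 ≤ k) (hkn : k ≤ 2 * n) (W : Words ω w' w)
    (hw : Ok w) (hw' : Ok w') (y : ℤ) :
    (Arms n k ω ∧ Wind n k ω y) ↔ HasW k w' w y := by
  rw [arms_iff hn W, wind_iff_mem hn hk W]
  constructor
  · rintro ⟨h1, h2⟩
    obtain ⟨z, hz, -⟩ := HasW.exists hk hkn hw' hw W.len' W.len h1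
    refine ⟨h1, ?_⟩
    rw [hz.2] at h2
    rw [hz.2, Set.mem_singleton_iff.1 h2]
  · rintro ⟨h1, h2⟩
    refine ⟨h1, ?_⟩
    rw [h2]
    exact Set.mem_singleton _

end Pool.Agent.S77.WD
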