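import Pool.Agent.S77.WD.Form2

/-!
# The exact law of the winding on the infinite cylinder (stationary patterns)
-/

set_option autoImplicit false

namespace Pool.Agent.S77.WD
open Pool.Agent.H863R2.Cyl
open Pool.Agent.H160R2.ML
open Pool.Agent.H988R2.Perc (Word PD)

theorem Dl_one (N l : ℕ) : Dl N l 1 = (RR N l 0 : ℂ) := by
  have h := (a_PH N l 0 le_rfl Real.pi_pos).2
  simpa using h

open Classical in
/-- the generating function of the winding of `2 k` legs -/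
theorem z_PB {m n k : ℕ} (hn : 1 ≤ n) (hk : 1 ≤ k) (hkn : k ≤ 2 * n) (hm1 : m + 1 = 2 * n)
    (μ : Wd (m + 1) → ℝ) (hμ0 : ∀ σ, 0 ≤ μ σ) (hμ : ∑ σ, μ σ = 1)
    (hst : ∀ σ, ∑ c : Fin (m + 1) → Bool, push (Tc m c) μ σ = 2 ^ (m + 1) * μ σ)
    {ζ : ℂ} (hζ : ζ ≠ 0) :
    (∑ σ : Wd (m + 1), ∑ τ : Wd (m + 1), ez ζ k k τ.1 σ.1 * μ σ * μ τ)
        * RR (2 * n) 0 (Real.pi / 3)
      = ζ⁻¹ ^ (2 * n - k) * Dl (2 * n - k) (2 * k) (ζ ^ 2) := by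
  obtain ⟨q, hq⟩ : ∃ q : ℂ, q ^ 2 + q + 1 = 0 := ⟨_, Pool.Agent.H988R2.Perc.q_spec⟩
  have hq2 : (q ^ 2) ^ 2 + q ^ 2 + 1 = 0 := by
    calc (q ^ 2) ^ 2 + q ^ 2 + 1 = (q ^ 2 + q + 1) * (q ^ 2 - q + 1) := by ring
      _ = 0 := by rw [hq, zero_mul]
  obtain ⟨Ψ, hΨ⟩ := exists_Fam q hq
  obtain ⟨Ψ', hΨ'⟩ := exists_Fam (q ^ 2) hq2
  set one := List.replicate (m + 1) (1 : ℂ) with hone
  set T := tot (Ψ one) with hT
  set T' := tot (Ψ' one) with hT'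
  have hT0 : T ≠ 0 := hΨ.tot_ne (m + 1)
  have hT0' : T' ≠ 0 := hΨ'.tot_ne (m + 1)
  have hmem : Ψ one ∈ VN (m + 1) := by
    have := hΨ.mem one
    rwa [hone, List.length_replicate] at this
  have hmem' : Ψ' one ∈ VN (m + 1) := by
    have := hΨ'.mem one
    rwa [hone, List.length_replicate] at this
  have e1 := ValueAux.eq_mu hΨ m μ hμ hst
  have e2 := ValueAux.eq_mu hΨ' m μ hμ hst
  have hrep : List.replicate k (1 : ℂ) ++ List.replicate (2 * n - k) 1 = one := by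
    rw [← List.replicate_add, hone, hm1]
    congr 1
    omega
  obtain ⟨C, hC⟩ := z_HV q hq k hk n hkn hn
  -- a general functional
  have gen : ∀ (ζ : ℂ) (e e' : ℕ → ℕ → Word → Word → ℂ), Dz q ζ (2 * k) e e' Ψ Ψ' →
      T' * T * (∑ σ : Wd (m + 1), ∑ τ : Wd (m + 1), e k k τ.1 σ.1 * μ σ * μ τ) =
        C * (ζ⁻¹ ^ (2 * n - k) * Dl (2 * n - k) (2 * k) (ζ ^ 2)) := by
    intro ζ e e' D
    have v0 := hC ζ e e' Ψ Ψ' D
    unfold GG at v0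
    rw [hrep, List.length_replicate, TPB.prE_eq e k k hmem' hmem] at v0
    rw [← v0, Finset.sum_comm, Finset.mul_sum]
    apply Finset.sum_congr rfl
    intro σ _
    rw [Finset.mul_sum]
    apply Finset.sum_congr rfl
    intro τ _
    rw [e1 τ, e2 σ]
    ring
  have hE : Even (2 * k) := even_two_mul k
  have h2k : 2 ≤ 2 * k := by omega
  have g1 := gen 1 ee ee ⟨hq, hE, h2k, one_ne_zero, ee_LS hE h2k, hΨ, hΨ'⟩
  have g2 := gen ζ (ez ζ) (ez ζ⁻¹) ⟨hq, hE, h2k, hζ, ez_LS hE h2k hζ, hΨ, hΨ'⟩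
  rw [inv_one, one_pow, one_mul, one_pow, Dl_one] at g1
  -- the untwisted value
  have hPB := TPB.main a_LS a_HV hn hk hkn hm1 μ hμ0 hμ hst
  have g3 : (∑ σ : Wd (m + 1), ∑ τ : Wd (m + 1), ee k k τ.1 σ.1 * μ σ * μ τ) *
      (RR (2 * n) 0 (Real.pi / 3) : ℂ) = (RR (2 * n - k) (2 * k) 0 : ℂ) := by
    rw [← hPB]
    push_cast
    congr 1
    refine Finset.sum_congr rfl fun σ _ => Finset.sum_congr rfl fun τ _ => ?_
    unfold ee
    split_ifs <;> simp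
  have hR : 0 < RR (2 * n - k) (2 * k) 0 := (a_PH _ _ 0 le_rfl Real.pi_pos).1
  have hR' : (RR (2 * n - k) (2 * k) 0 : ℂ) ≠ 0 := by exact_mod_cast hR.ne'
  have hTT : T' * T ≠ 0 := mul_ne_zero hT0' hT0
  -- the constant
  have hCv : C * (RR (2 * n) 0 (Real.pi / 3) : ℂ) = T' * T := by
    apply mul_right_cancel₀ hR'
    calc C * (RR (2 * n) 0 (Real.pi / 3) : ℂ) * (RR (2 * n - k) (2 * k) 0 : ℂ)
        = (C * (RR (2 * n - k) (2 * k) 0 : ℂ)) * (RR (2 * n) 0 (Real.pi / 3) : ℂ) := by ring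
      _ = T' * T * ((∑ σ : Wd (m + 1), ∑ τ : Wd (m + 1), ee k k τ.1 σ.1 * μ σ * μ τ) *
            (RR (2 * n) 0 (Real.pi / 3) : ℂ)) := by rw [← g1]; ring
      _ = T' * T * (RR (2 * n - k) (2 * k) 0 : ℂ) := by rw [g3]
  apply mul_left_cancel₀ hTT
  rw [← mul_assoc, g2]
  linear_combination (ζ⁻¹ ^ (2 * n - k) * Dl (2 * n - k) (2 * k) (ζ ^ 2)) * hCv

end Pool.Agent.S77.WD
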